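import Mathlib

set_option autoImplicit false

namespace Pool.Agent.MP2237

open Finset

theorem exp_le_quad {y : ℝ} (h0 : 0 ≤ y) (h1 : y ≤ 1) : Real.exp y ≤ 1 + y + y ^ 2 := by
  have := Real.abs_exp_sub_one_sub_id_le (x := y) (by rw [abs_of_nonneg h0]; exact h1)
  have h2 := (abs_le.1 this).2
  linarith

/-- Chernoff bound on a finite product probability space. -/
theorem chernoff {ι Ω : Type*} [Fintype ι] [DecidableEq ι] [Fintype Ω] [DecidableEq Ω]
    (p : ι → Ω → ℝ) (hp0 : ∀ i x, 0 ≤ p i x) (hp1 : ∀ i, ∑ x, p i x = 1)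
    (I : Finset ι) (X : ι → Ω → ℝ) (a : ℝ)
    (hX0 : ∀ i ∈ I, ∀ x, 0 ≤ X i x) (hXa : ∀ i ∈ I, ∀ x, X i x ≤ a)
    (lam : ℝ) (hl0 : 0 ≤ lam) (hl1 : lam * a ≤ 1) (t : ℝ) :
    ∑ ω ∈ univ.filter (fun ω : ι → Ω => ∑ i ∈ I, ∑ x, p i x * X i x + t < ∑ i ∈ I, X i (ω i)),
      ∏ i, p i (ω i) ≤
      Real.exp (-(lam * t) + lam ^ 2 * a * ∑ i ∈ I, ∑ x, p i x * X i x) := by
  set μ : ι → ℝ := fun i => ∑ x, p i x * X i x with hμ
  have hW : ∀ ω : ι → Ω, 0 ≤ ∏ i, p i (ω i) := fun ω => prod_nonneg fun i _ => hp0 i _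
  -- Markov
  have h1 : ∑ ω ∈ univ.filter (fun ω : ι → Ω => ∑ i ∈ I, μ i + t < ∑ i ∈ I, X i (ω i)),
      ∏ i, p i (ω i) ≤ ∑ ω : ι → Ω, (∏ i, p i (ω i)) *
        Real.exp (lam * (∑ i ∈ I, X i (ω i) - ∑ i ∈ I, μ i - t)) := by
    rw [sum_filter]
    refine sum_le_sum fun ω _ => ?_
    split_ifs with h
    · have : 1 ≤ Real.exp (lam * (∑ i ∈ I, X i (ω i) - ∑ i ∈ I, μ i - t)) := by
        refine Real.one_le_exp (mul_nonneg hl0 ?_)
        linarith
      nlinarith [hW ω]
    · exact mul_nonneg (hW ω) (Real.exp_nonneg _)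
  have h2 : ∑ ω : ι → Ω, (∏ i, p i (ω i)) *
        Real.exp (lam * (∑ i ∈ I, X i (ω i) - ∑ i ∈ I, μ i - t)) =
      Real.exp (-(lam * t)) * ∏ i, ∑ x, p i x * (if i ∈ I then Real.exp (lam * (X i x - μ i)) else 1)
      := by
    rw [Finset.prod_univ_sum, mul_sum]
    rw [Fintype.piFinset_univ]
    refine sum_congr rfl fun ω _ => ?_
    rw [prod_mul_distrib, prod_ite_mem, univ_inter, ← Real.exp_sum, ← mul_sum, sum_sub_distrib]
    rw [mul_left_comm, ← Real.exp_add]
    congr 2
    ring
  have h3 : ∀ i, ∑ x, p i x * (if i ∈ I then Real.exp (lam * (X i x - μ i)) else 1) ≤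
      if i ∈ I then Real.exp (lam ^ 2 * a * μ i) else 1 := by
    intro i
    split_ifs with hi
    · have h4 : ∑ x, p i x * Real.exp (lam * (X i x - μ i)) =
          Real.exp (-(lam * μ i)) * ∑ x, p i x * Real.exp (lam * X i x) := by
        rw [mul_sum]
        refine sum_congr rfl fun x _ => ?_
        rw [mul_left_comm, ← Real.exp_add]
        congr 2
        ring
      have h5 : ∑ x, p i x * Real.exp (lam * X i x) ≤ 1 + lam * μ i + lam ^ 2 * a * μ i := by
        calc ∑ x, p i x * Real.exp (lam * X i x)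
            ≤ ∑ x, p i x * (1 + lam * X i x + lam ^ 2 * a * X i x) := by
              refine sum_le_sum fun x _ => mul_le_mul_of_nonneg_left ?_ (hp0 i x)
              have e1 := hX0 i hi x
              have e2 := hXa i hi x
              have e3 : lam * X i x ≤ 1 := le_trans (mul_le_mul_of_nonneg_left e2 hl0) hl1
              have e4 := exp_le_quad (mul_nonneg hl0 e1) e3
              have e5 : (lam * X i x) ^ 2 ≤ lam ^ 2 * a * X i x := by
                have : X i x * X i x ≤ a * X i x := mul_le_mul_of_nonneg_right e2 e1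
                nlinarith [mul_nonneg hl0 hl0]
              linarith
          _ = 1 + lam * μ i + lam ^ 2 * a * μ i := by
              rw [hμ]
              simp only [mul_add, sum_add_distrib, mul_one, hp1, mul_sum]
              congr 1
              · congr 1
                exact sum_congr rfl fun x _ => by ring
              · exact sum_congr rfl fun x _ => by ring
      rw [h4]
      calc Real.exp (-(lam * μ i)) * ∑ x, p i x * Real.exp (lam * X i x)
          ≤ Real.exp (-(lam * μ i)) * Real.exp (lam * μ i + lam ^ 2 * a * μ i) := by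
            refine mul_le_mul_of_nonneg_left (h5.trans ?_) (Real.exp_nonneg _)
            have := Real.add_one_le_exp (lam * μ i + lam ^ 2 * a * μ i)
            linarith
        _ = Real.exp (lam ^ 2 * a * μ i) := by
            rw [← Real.exp_add]
            congr 1
            ring
    · simp [hp1]
  have h3' : ∀ i, 0 ≤ ∑ x, p i x * (if i ∈ I then Real.exp (lam * (X i x - μ i)) else 1) := by
    intro i
    refine sum_nonneg fun x _ => mul_nonneg (hp0 i x) ?_
    split_ifs
    · exact Real.exp_nonneg _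
    · exact zero_le_one
  calc _ ≤ _ := h1
    _ = _ := h2
    _ ≤ Real.exp (-(lam * t)) * ∏ i, (if i ∈ I then Real.exp (lam ^ 2 * a * μ i) else 1) := by
        refine mul_le_mul_of_nonneg_left (prod_le_prod (fun i _ => h3' i) fun i _ => h3 i)
          (Real.exp_nonneg _)
    _ = Real.exp (-(lam * t) + lam ^ 2 * a * ∑ i ∈ I, μ i) := by
        rw [prod_ite_mem, univ_inter, ← Real.exp_sum, ← Real.exp_add, mul_sum]

end Pool.Agent.MP2237
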