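import Mathlib

set_option autoImplicit false

namespace Pool.Agent.MP2237

open Finset

section LLL

variable {ι Ω β : Type*} [Fintype ι] [DecidableEq ι] [Fintype Ω] [DecidableEq Ω]

/-- total weight of a set of configurations -/
def lllW (p : ι → Ω → ℝ) (A : Finset (ι → Ω)) : ℝ := ∑ ω ∈ A, ∏ i, p i (ω i)

theorem lllW_univ (p : ι → Ω → ℝ) (hp1 : ∀ i, ∑ x, p i x = 1) : lllW p univ = 1 := by
  unfold lllW
  have h := Finset.prod_univ_sum (fun _ : ι => (univ : Finset Ω)) (fun i x => p i x)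
  rw [Fintype.piFinset_univ] at h
  rw [← h]
  simp [hp1]

theorem lllW_nonneg (p : ι → Ω → ℝ) (hp0 : ∀ i x, 0 ≤ p i x) (A : Finset (ι → Ω)) :
    0 ≤ lllW p A :=
  Finset.sum_nonneg fun _ _ => Finset.prod_nonneg fun _ _ => hp0 _ _

theorem lllW_mono (p : ι → Ω → ℝ) (hp0 : ∀ i x, 0 ≤ p i x) {A B : Finset (ι → Ω)}
    (h : A ⊆ B) : lllW p A ≤ lllW p B :=
  Finset.sum_le_sum_of_subset_of_nonneg h fun _ _ _ => Finset.prod_nonneg fun _ _ => hp0 _ _

theorem lllW_inter (p : ι → Ω → ℝ) (hp1 : ∀ i, ∑ x, p i x = 1) (I : Finset ι)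
    (A B : Finset (ι → Ω))
    (hA : ∀ ω ω', (∀ i ∈ I, ω i = ω' i) → ω ∈ A → ω' ∈ A)
    (hB : ∀ ω ω', (∀ i, i ∉ I → ω i = ω' i) → ω ∈ B → ω' ∈ B) :
    lllW p (A ∩ B) = lllW p A * lllW p B := by
  have h1 : lllW p (A ∩ B) = lllW p (A ∩ B) * lllW p univ := by
    rw [lllW_univ p hp1, mul_one]
  rw [h1]
  unfold lllW
  rw [Finset.sum_mul_sum, Finset.sum_mul_sum, ← Finset.sum_product', ← Finset.sum_product']
  let mix : (ι → Ω) × (ι → Ω) → (ι → Ω) × (ι → Ω) := fun q =>
    (fun i => if i ∈ I then q.1 i else q.2 i, fun i => if i ∈ I then q.2 i else q.1 i)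
  have hmix : ∀ q, mix (mix q) = q := by
    intro q
    simp only [mix]
    apply Prod.ext
    · funext i
      by_cases hi : i ∈ I <;> simp [hi]
    · funext i
      by_cases hi : i ∈ I <;> simp [hi]
  apply Finset.sum_nbij' mix mix
  · intro q hq
    rw [Finset.mem_product] at hq ⊢
    have hq1 := Finset.mem_inter.mp hq.1
    refine ⟨hA q.1 _ ?_ hq1.1, hB q.1 _ ?_ hq1.2⟩
    · intro i hi
      simp [mix, hi]
    · intro i hi
      simp [mix, hi]
  · intro q hq
    rw [Finset.mem_product] at hq ⊢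
    refine ⟨Finset.mem_inter.mpr ⟨hA q.1 _ ?_ hq.1, hB q.2 _ ?_ hq.2⟩, Finset.mem_univ _⟩
    · intro i hi
      simp [mix, hi]
    · intro i hi
      simp [mix, hi]
  · intro q _
    exact hmix q
  · intro q _
    exact hmix q
  · intro q _
    rw [← Finset.prod_mul_distrib, ← Finset.prod_mul_distrib]
    apply Finset.prod_congr rfl
    intro i _
    by_cases hi : i ∈ I
    · simp [mix, hi]
    · simp [mix, hi, mul_comm]

variable [Fintype β] [DecidableEq β]

/-- configurations avoiding all events of `S` -/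
def lllA (E : β → Finset (ι → Ω)) (S : Finset β) : Finset (ι → Ω) :=
  univ.filter fun ω => ∀ b ∈ S, ω ∉ E b

theorem lllA_insert (p : ι → Ω → ℝ) (E : β → Finset (ι → Ω)) (S : Finset β) (b : β) :
    lllW p (lllA E (insert b S)) = lllW p (lllA E S) - lllW p (E b ∩ lllA E S) := by
  have h1 : lllA E (insert b S) = lllA E S \ (E b ∩ lllA E S) := by
    ext ω
    simp only [lllA, mem_filter, mem_univ, true_and, mem_insert, forall_eq_or_imp, mem_sdiff,
      mem_inter, not_and]
    tauto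
  rw [h1]
  unfold lllW
  rw [Finset.sum_sdiff_eq_sub Finset.inter_subset_right]

theorem lll_step (p : ι → Ω → ℝ) (hp0 : ∀ i x, 0 ≤ p i x) (hp1 : ∀ i, ∑ x, p i x = 1)
    (I : β → Finset ι) (E : β → Finset (ι → Ω))
    (hdep : ∀ a ω ω', (∀ i ∈ I a, ω i = ω' i) → ω ∈ E a → ω' ∈ E a)
    (x : β → ℝ) (hx0 : ∀ a, 0 ≤ x a) (hx1 : ∀ a, x a < 1)
    (hE : ∀ a, lllW p (E a) ≤
      x a * ∏ a' ∈ univ.filter (fun a' => a' ≠ a ∧ ¬ Disjoint (I a) (I a')), (1 - x a')) :
    ∀ (n : ℕ) (S : Finset β), S.card = n → ∀ a, a ∉ S →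
      lllW p (E a ∩ lllA E S) ≤ x a * lllW p (lllA E S) := by
  intro n
  induction n using Nat.strong_induction_on with
  | _ n ih =>
    intro S hS a ha
    set S₁ := S.filter (fun b => ¬ Disjoint (I a) (I b)) with hS₁
    set S₂ := S.filter (fun b => Disjoint (I a) (I b)) with hS₂
    have hunion : S₂ ∪ S₁ = S := by
      rw [hS₁, hS₂, Finset.filter_union_filter_not_eq]
    -- independence
    have hind : lllW p (E a ∩ lllA E S₂) = lllW p (E a) * lllW p (lllA E S₂) := by
      apply lllW_inter p hp1 (I a)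
      · exact hdep a
      · intro ω ω' h hω
        simp only [lllA, mem_filter, mem_univ, true_and] at hω ⊢
        intro b hb hb'
        have hdis : Disjoint (I a) (I b) := (Finset.mem_filter.mp hb).2
        apply hω b hb
        apply hdep b ω' ω _ hb'
        intro i hi
        exact (h i (fun hia => Finset.disjoint_left.mp hdis hia hi)).symm
    have hsub : lllA E S ⊆ lllA E S₂ := by
      intro ω hω
      simp only [lllA, mem_filter, mem_univ, true_and] at hω ⊢
      intro b hb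
      exact hω b (Finset.mem_filter.mp hb).1
    -- lower bound by adding the events of S₁
    have hchain : ∀ R : Finset β, R ⊆ S₁ →
        (∏ b ∈ R, (1 - x b)) * lllW p (lllA E S₂) ≤ lllW p (lllA E (S₂ ∪ R)) := by
      intro R
      induction R using Finset.induction_on with
      | empty => intro _; simp
      | insert b R hb ihR =>
        intro hR
        have hbS₁ : b ∈ S₁ := hR (Finset.mem_insert_self b R)
        have hRS : R ⊆ S₁ := fun c hc => hR (Finset.mem_insert_of_mem hc)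
        have h1 := ihR hRS
        have hbn : b ∉ S₂ ∪ R := by
          rw [Finset.mem_union, not_or]
          refine ⟨?_, hb⟩
          intro hb2
          exact (Finset.mem_filter.mp hbS₁).2 (Finset.mem_filter.mp hb2).2
        have hbS : b ∈ S := (Finset.mem_filter.mp hbS₁).1
        have hss : S₂ ∪ R ⊂ S := by
          refine (Finset.ssubset_iff_of_subset ?_).mpr ⟨b, hbS, hbn⟩
          rw [← hunion]
          exact Finset.union_subset_union_right hRS
        have hcard : (S₂ ∪ R).card < n := hS ▸ Finset.card_lt_card hss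
        have h2 := ih _ hcard (S₂ ∪ R) rfl b hbn
        rw [Finset.prod_insert hb, Finset.union_insert, lllA_insert]
        have h3 : (1 - x b) * ((∏ b ∈ R, (1 - x b)) * lllW p (lllA E S₂)) ≤
            (1 - x b) * lllW p (lllA E (S₂ ∪ R)) :=
          mul_le_mul_of_nonneg_left h1 (by linarith [hx1 b])
        linarith
    have hlow := hchain S₁ (Finset.Subset.refl _)
    rw [hunion] at hlow
    have hN : ∏ a' ∈ univ.filter (fun a' => a' ≠ a ∧ ¬ Disjoint (I a) (I a')), (1 - x a') ≤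
        ∏ b ∈ S₁, (1 - x b) := by
      have hsub1 : S₁ ⊆ univ.filter (fun a' => a' ≠ a ∧ ¬ Disjoint (I a) (I a')) := by
        intro b hb
        rw [Finset.mem_filter] at hb ⊢
        refine ⟨Finset.mem_univ _, ?_, hb.2⟩
        rintro rfl
        exact ha hb.1
      rw [← Finset.prod_sdiff hsub1]
      have h1 : ∏ b ∈ univ.filter (fun a' => a' ≠ a ∧ ¬ Disjoint (I a) (I a')) \ S₁, (1 - x b) ≤ 1 :=
        Finset.prod_le_one (fun b _ => by linarith [hx1 b]) (fun b _ => by linarith [hx0 b])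
      have h2 : 0 ≤ ∏ b ∈ S₁, (1 - x b) :=
        Finset.prod_nonneg (fun b _ => by linarith [hx1 b])
      calc _ ≤ 1 * ∏ b ∈ S₁, (1 - x b) := mul_le_mul_of_nonneg_right h1 h2
        _ = _ := one_mul _
    have hW2 := lllW_nonneg p hp0 (lllA E S₂)
    calc lllW p (E a ∩ lllA E S) ≤ lllW p (E a ∩ lllA E S₂) :=
          lllW_mono p hp0 (Finset.inter_subset_inter_left hsub)
      _ = lllW p (E a) * lllW p (lllA E S₂) := hind
      _ ≤ (x a * ∏ b ∈ S₁, (1 - x b)) * lllW p (lllA E S₂) := by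
          apply mul_le_mul_of_nonneg_right _ hW2
          exact (hE a).trans (mul_le_mul_of_nonneg_left hN (hx0 a))
      _ = x a * ((∏ b ∈ S₁, (1 - x b)) * lllW p (lllA E S₂)) := by ring
      _ ≤ x a * lllW p (lllA E S) := mul_le_mul_of_nonneg_left hlow (hx0 a)

end LLL

/-- Asymmetric Lovász local lemma on a finite product probability space `ι → Ω` with product
weights `∏ i, p i (ω i)`.  Bad events `E a`, each depending only on the coordinates in `I a`. -/
theorem lll {ι Ω β : Type*} [Fintype ι] [DecidableEq ι] [Fintype Ω] [DecidableEq Ω]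
    [Fintype β] [DecidableEq β]
    (p : ι → Ω → ℝ) (hp0 : ∀ i x, 0 ≤ p i x) (hp1 : ∀ i, ∑ x, p i x = 1)
    (I : β → Finset ι) (E : β → Finset (ι → Ω))
    (hdep : ∀ a ω ω', (∀ i ∈ I a, ω i = ω' i) → ω ∈ E a → ω' ∈ E a)
    (x : β → ℝ) (hx0 : ∀ a, 0 ≤ x a) (hx1 : ∀ a, x a < 1)
    (hE : ∀ a, ∑ ω ∈ E a, ∏ i, p i (ω i) ≤
      x a * ∏ a' ∈ univ.filter (fun a' => a' ≠ a ∧ ¬ Disjoint (I a) (I a')), (1 - x a')) :
    ∃ ω : ι → Ω, (∀ i, 0 < p i (ω i)) ∧ ∀ a, ω ∉ E a := by
  have hstep := lll_step p hp0 hp1 I E hdep x hx0 hx1 hE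
  have hchain : ∀ S : Finset β, ∏ b ∈ S, (1 - x b) ≤ lllW p (lllA E S) := by
    intro S
    induction S using Finset.induction_on with
    | empty =>
      have : lllA E (∅ : Finset β) = univ := by
        ext ω
        simp [lllA]
      rw [this, lllW_univ p hp1]
      simp
    | insert b S hb ih =>
      rw [Finset.prod_insert hb, lllA_insert]
      have h1 := hstep _ S rfl b hb
      have h2 : (1 - x b) * ∏ b ∈ S, (1 - x b) ≤ (1 - x b) * lllW p (lllA E S) :=
        mul_le_mul_of_nonneg_left ih (by linarith [hx1 b])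
      linarith
  have hpos : 0 < lllW p (lllA E univ) :=
    lt_of_lt_of_le (Finset.prod_pos fun b _ => by linarith [hx1 b]) (hchain univ)
  unfold lllW at hpos
  obtain ⟨ω, hω, hω'⟩ := Finset.exists_lt_of_sum_lt (s := lllA E univ) (f := fun _ => (0:ℝ))
    (g := fun ω => ∏ i, p i (ω i)) (by simpa using hpos)
  refine ⟨ω, ?_, ?_⟩
  · intro i
    refine lt_of_le_of_ne (hp0 _ _) (fun h => ?_)
    have : ∏ i, p i (ω i) = 0 := Finset.prod_eq_zero (Finset.mem_univ i) h.symm
    rw [this] at hω'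
    exact lt_irrefl _ hω'
  · intro a
    exact (Finset.mem_filter.mp hω).2 a (Finset.mem_univ a)

end Pool.Agent.MP2237
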