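import Mathlib

set_option autoImplicit false

namespace Pool.Agent.MP2237

open Finset

/-- harmonic weight of an item size -/
noncomputable def W (x : ℝ) : ℝ :=
  if 1 / 2 < x then 1 else if 1 / 3 < x then 1 / 2 else if 1 / 4 < x then 1 / 3 else
  if 1 / 5 < x then 1 / 4 else if 1 / 6 < x then 1 / 5 else 6 / 5 * x

theorem W_le_one (x : ℝ) : W x ≤ 1 := by
  unfold W
  split_ifs <;> linarith

theorem W_le_half {x : ℝ} (h : x ≤ 1 / 2) : W x ≤ 1 / 2 := by
  unfold W
  split_ifs <;> linarith

theorem W_le_three_half {x : ℝ} (h0 : 0 ≤ x) (h : x ≤ 1 / 2) : W x ≤ 3 / 2 * x := by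
  unfold W
  split_ifs <;> linarith

theorem W_le_four_third {x : ℝ} (h0 : 0 ≤ x) (h : x ≤ 1 / 3) : W x ≤ 4 / 3 * x := by
  unfold W
  split_ifs <;> linarith

theorem W_small {x : ℝ} (h : x ≤ 1 / 6) : W x = 6 / 5 * x := by
  unfold W
  split_ifs <;> linarith

/-- A bin of capacity one has harmonic weight at most `17/10`. (One item `> 1/2`: if there is also
an item in `(1/3, 1/2]` the rest is `< 1/6` and weighs at most `6/5 * 1/6`; otherwise the rest has
`W x ≤ 4/3 x`.  No item `> 1/2`: `W x ≤ 3/2 x`.) -/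
theorem W_bin {E : Type} [DecidableEq E] (F : Finset E) (w : E → ℝ) (h0 : ∀ e ∈ F, 0 ≤ w e)
    (h1 : ∑ e ∈ F, w e ≤ 1) : ∑ e ∈ F, W (w e) ≤ 17 / 10 := by
  by_cases hA : ∃ e0 ∈ F, 1 / 2 < w e0
  · obtain ⟨e0, he0, h2⟩ := hA
    have hs : ∑ e ∈ F.erase e0, w e < 1 / 2 := by
      have := Finset.add_sum_erase F w he0
      linarith
    have hS : ∑ e ∈ F, W (w e) = W (w e0) + ∑ e ∈ F.erase e0, W (w e) :=
      (Finset.add_sum_erase F (fun e => W (w e)) he0).symm
    have h0' : ∀ e ∈ F.erase e0, 0 ≤ w e := fun e he => h0 e (Finset.mem_of_mem_erase he)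
    by_cases hB : ∃ e1 ∈ F.erase e0, 1 / 3 < w e1
    · obtain ⟨e1, he1, h3⟩ := hB
      have hs1 := Finset.add_sum_erase (F.erase e0) w he1
      have hS1 := Finset.add_sum_erase (F.erase e0) (fun e => W (w e)) he1
      have h0'' : ∀ e ∈ (F.erase e0).erase e1, 0 ≤ w e :=
        fun e he => h0' e (Finset.mem_of_mem_erase he)
      have hnn : 0 ≤ ∑ e ∈ (F.erase e0).erase e1, w e := Finset.sum_nonneg h0''
      have hr : ∑ e ∈ (F.erase e0).erase e1, W (w e) ≤
          ∑ e ∈ (F.erase e0).erase e1, 6 / 5 * w e := by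
        apply Finset.sum_le_sum
        intro e he
        have : w e ≤ ∑ e ∈ (F.erase e0).erase e1, w e := Finset.single_le_sum h0'' he
        rw [W_small (by linarith)]
      rw [← Finset.mul_sum] at hr
      have a1 := W_le_one (w e0)
      have a2 : W (w e1) ≤ 1 / 2 := W_le_half (by linarith)
      have hS1' : W (w e1) + ∑ e ∈ (F.erase e0).erase e1, W (w e) =
        ∑ e ∈ F.erase e0, W (w e) := hS1
      linarith
    · push Not at hB
      have hr : ∑ e ∈ F.erase e0, W (w e) ≤ ∑ e ∈ F.erase e0, 4 / 3 * w e :=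
        Finset.sum_le_sum fun e he => W_le_four_third (h0' e he) (hB e he)
      rw [← Finset.mul_sum] at hr
      have a1 := W_le_one (w e0)
      linarith
  · push Not at hA
    have hr : ∑ e ∈ F, W (w e) ≤ ∑ e ∈ F, 3 / 2 * w e :=
      Finset.sum_le_sum fun e he => W_le_three_half (h0 e he) (hA e he)
    rw [← Finset.mul_sum] at hr
    linarith

/-- `F` can be packed into `n` bins. -/
def Packs {E : Type} [DecidableEq E] (F : Finset E) (w : E → ℝ) (n : ℕ) : Prop :=
  ∃ f : E → ℕ, (∀ e ∈ F, f e < n) ∧ ∀ j, ∑ e ∈ F.filter (fun e => f e = j), w e ≤ 1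

theorem Packs.union {E : Type} [DecidableEq E] {F G : Finset E} {w : E → ℝ} {n m : ℕ}
    (hF : Packs F w n) (hG : Packs G w m) (hd : Disjoint F G) : Packs (F ∪ G) w (n + m) := by
  obtain ⟨f, hf, hf'⟩ := hF
  obtain ⟨g, hg, hg'⟩ := hG
  refine ⟨fun e => if e ∈ F then f e else n + g e, ?_, ?_⟩
  · intro e he
    by_cases h : e ∈ F
    · simp only [h, if_true]
      have := hf e h
      omega
    · simp only [h, if_false]
      have := hg e ((Finset.mem_union.1 he).resolve_left h)
      omega
  · intro j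
    by_cases hj : j < n
    · refine le_trans (le_of_eq ?_) (hf' j)
      apply Finset.sum_congr _ fun _ _ => rfl
      ext e
      simp only [Finset.mem_filter, Finset.mem_union]
      by_cases h : e ∈ F
      · simp [h]
      · simp only [h, if_false, false_or, false_and, iff_false]
        rintro ⟨_, h2⟩
        omega
    · refine le_trans (le_of_eq ?_) (hg' (j - n))
      apply Finset.sum_congr _ fun _ _ => rfl
      ext e
      simp only [Finset.mem_filter, Finset.mem_union]
      by_cases h : e ∈ F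
      · have h1 := hf e h
        have h2 : e ∉ G := Finset.disjoint_left.1 hd h
        simp only [h, if_true, h2, or_false, true_and, false_and, iff_false]
        omega
      · simp only [h, if_false, false_or]
        constructor
        · rintro ⟨a, b⟩
          exact ⟨a, by omega⟩
        · rintro ⟨a, b⟩
          exact ⟨a, by omega⟩

theorem Packs.one {E : Type} [DecidableEq E] {F : Finset E} {w : E → ℝ}
    (h : ∑ e ∈ F, w e ≤ 1) : Packs F w 1 := by
  refine ⟨fun _ => 0, fun _ _ => by norm_num, ?_⟩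
  intro j
  by_cases hj : 0 = j
  · simpa [hj] using h
  · simp [hj]

theorem Packs.class {E : Type} [DecidableEq E] (w : E → ℝ) (j : ℕ) (hj : 0 < j) :
    ∀ (c : ℕ) (F : Finset E), F.card = c → (∀ e ∈ F, w e ≤ 1 / j) →
    ∃ n : ℕ, Packs F w n ∧ (n : ℝ) ≤ (F.card : ℝ) / j + 1 := by
  intro c
  induction c using Nat.strong_induction_on with
  | _ c ih =>
    intro F hc hw
    have hj' : (0 : ℝ) < j := by exact_mod_cast hj
    by_cases h : F.card ≤ j
    · refine ⟨1, Packs.one ?_, ?_⟩
      · have h1 : ∑ e ∈ F, w e ≤ ∑ _e ∈ F, (1 / (j : ℝ)) := Finset.sum_le_sum hw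
        rw [Finset.sum_const, nsmul_eq_mul] at h1
        have h2 : (F.card : ℝ) ≤ j := by exact_mod_cast h
        have h3 : (F.card : ℝ) * (1 / j) ≤ 1 := by
          rw [mul_one_div, div_le_one hj']
          exact h2
        linarith
      · have : (0 : ℝ) ≤ (F.card : ℝ) / j := by positivity
        push_cast
        linarith
    · push Not at h
      obtain ⟨S, hS, hSc⟩ := Finset.exists_subset_card_eq h.le
      have hcard : (F \ S).card = F.card - j := by
        rw [Finset.card_sdiff_of_subset hS, hSc]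
      obtain ⟨n, hn, hn'⟩ := ih (F \ S).card (by omega) (F \ S) rfl
        (fun e he => hw e (Finset.mem_sdiff.1 he).1)
      refine ⟨n + 1, ?_, ?_⟩
      · have h1 : Packs S w 1 := by
          apply Packs.one
          have h1 : ∑ e ∈ S, w e ≤ ∑ _e ∈ S, (1 / (j : ℝ)) :=
            Finset.sum_le_sum fun e he => hw e (hS he)
          rw [Finset.sum_const, nsmul_eq_mul, hSc] at h1
          have h3 : (j : ℝ) * (1 / j) = 1 := by
            field_simp
          linarith
        have := Packs.union hn h1 Finset.sdiff_disjoint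
        rwa [Finset.sdiff_union_of_subset hS] at this
      · rw [hcard] at hn'
        have h2 : ((F.card - j : ℕ) : ℝ) = (F.card : ℝ) - j := by
          rw [Nat.cast_sub h.le]
        rw [h2] at hn'
        have h3 : ((F.card : ℝ) - j) / j = (F.card : ℝ) / j - 1 := by
          field_simp
        rw [h3] at hn'
        push_cast
        linarith

theorem small_subset {E : Type} [DecidableEq E] (w : E → ℝ) :
    ∀ (c : ℕ) (F : Finset E), F.card = c → (∀ e ∈ F, w e ≤ 1 / 6) → 5 / 6 < ∑ e ∈ F, w e →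
    ∃ S ⊆ F, 5 / 6 < ∑ e ∈ S, w e ∧ ∑ e ∈ S, w e ≤ 1 := by
  intro c
  induction c with
  | zero =>
    intro F hF _ h
    rw [Finset.card_eq_zero] at hF
    subst hF
    simp at h
    linarith
  | succ c ih =>
    intro F hF hw h
    by_cases h1 : ∑ e ∈ F, w e ≤ 1
    · exact ⟨F, subset_rfl, h, h1⟩
    · push Not at h1
      obtain ⟨e, he⟩ : F.Nonempty := Finset.card_pos.1 (by omega)
      have h2 := Finset.add_sum_erase F w he
      have h3 := hw e he
      obtain ⟨S, hS, hS1, hS2⟩ := ih (F.erase e) (by rw [Finset.card_erase_of_mem he]; omega)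
        (fun e' he' => hw e' (Finset.mem_of_mem_erase he')) (by linarith)
      exact ⟨S, hS.trans (Finset.erase_subset _ _), hS1, hS2⟩

theorem Packs.small {E : Type} [DecidableEq E] (w : E → ℝ) :
    ∀ (c : ℕ) (F : Finset E), F.card = c → (∀ e ∈ F, 0 ≤ w e) → (∀ e ∈ F, w e ≤ 1 / 6) →
    ∃ n : ℕ, Packs F w n ∧ (n : ℝ) ≤ 6 / 5 * ∑ e ∈ F, w e + 1 := by
  intro c
  induction c using Nat.strong_induction_on with
  | _ c ih =>
    intro F hc h0 hw
    by_cases h : ∑ e ∈ F, w e ≤ 1
    · refine ⟨1, Packs.one h, ?_⟩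
      have := Finset.sum_nonneg h0
      push_cast
      linarith
    · push Not at h
      obtain ⟨S, hS, hS1, hS2⟩ := small_subset w _ F rfl hw (by linarith)
      have hSne : S.Nonempty := by
        rw [Finset.nonempty_iff_ne_empty]
        rintro rfl
        simp at hS1
        linarith
      have hSc : 0 < S.card := Finset.card_pos.2 hSne
      have hcard : (F \ S).card = F.card - S.card := Finset.card_sdiff_of_subset hS
      have hle : S.card ≤ F.card := Finset.card_le_card hS
      obtain ⟨n, hn, hn'⟩ := ih (F \ S).card (by omega) (F \ S) rfl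
        (fun e he => h0 e (Finset.mem_sdiff.1 he).1)
        (fun e he => hw e (Finset.mem_sdiff.1 he).1)
      refine ⟨n + 1, ?_, ?_⟩
      · have := Packs.union hn (Packs.one hS2) Finset.sdiff_disjoint
        rwa [Finset.sdiff_union_of_subset hS] at this
      · have := Finset.sum_sdiff (f := w) hS
        push_cast
        linarith

/-- peel off one class -/
theorem Packs.peel {E : Type} [DecidableEq E] (F : Finset E) (w : E → ℝ) (P : E → Prop)
    [DecidablePred P] (a b c : ℝ)
    (h1 : ∃ n : ℕ, Packs (F.filter P) w n ∧ (n : ℝ) ≤ ∑ e ∈ F.filter P, W (w e) + a)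
    (h2 : ∃ n : ℕ, Packs (F.filter fun e => ¬ P e) w n ∧
      (n : ℝ) ≤ ∑ e ∈ F.filter (fun e => ¬ P e), W (w e) + b) (hc : c = a + b) :
    ∃ n : ℕ, Packs F w n ∧ (n : ℝ) ≤ ∑ e ∈ F, W (w e) + c := by
  obtain ⟨n, hn, hn'⟩ := h1
  obtain ⟨m, hm, hm'⟩ := h2
  refine ⟨n + m, ?_, ?_⟩
  · have := Packs.union hn hm (Finset.disjoint_filter_filter_not F F P)
    rwa [Finset.filter_union_filter_not_eq] at this
  · have := Finset.sum_filter_add_sum_filter_not F P (fun e => W (w e))
    push_cast
    subst hc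
    linarith

theorem Packs.classW {E : Type} [DecidableEq E] (F : Finset E) (w : E → ℝ) (j : ℕ) (hj : 0 < j)
    (hw : ∀ e ∈ F, w e ≤ 1 / j) (hW : ∀ e ∈ F, W (w e) = 1 / j) :
    ∃ n : ℕ, Packs F w n ∧ (n : ℝ) ≤ ∑ e ∈ F, W (w e) + 1 := by
  obtain ⟨n, hn, hn'⟩ := Packs.class w j hj _ F rfl hw
  refine ⟨n, hn, ?_⟩
  rw [Finset.sum_congr rfl hW, Finset.sum_const, nsmul_eq_mul, mul_one_div]
  exact hn'

/-- Packing each size class separately. -/
theorem pack_W {E : Type} [DecidableEq E] (F : Finset E) (w : E → ℝ)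
    (hw : ∀ e ∈ F, 0 ≤ w e ∧ w e ≤ 1) :
    ∃ (n : ℕ) (f : E → ℕ), (∀ e ∈ F, f e < n) ∧
      (∀ j, ∑ e ∈ F.filter (fun e => f e = j), w e ≤ 1) ∧
      (n : ℝ) ≤ ∑ e ∈ F, W (w e) + 6 := by
  suffices h : ∃ n : ℕ, Packs F w n ∧ (n : ℝ) ≤ ∑ e ∈ F, W (w e) + 6 by
    obtain ⟨n, ⟨f, hf, hf'⟩, hn⟩ := h
    exact ⟨n, f, hf, hf', hn⟩
  refine Packs.peel F w (fun e => 1 / 2 < w e) 1 5 6 ?_ ?_ (by norm_num)
  · apply Packs.classW _ w 1 (by norm_num)
    · intro e he
      simpa using (hw e (Finset.mem_filter.1 he).1).2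
    · intro e he
      have := (Finset.mem_filter.1 he).2
      simp only [W]
      rw [if_pos this]
      norm_num
  refine Packs.peel _ w (fun e => 1 / 3 < w e) 1 4 5 ?_ ?_ (by norm_num)
  · apply Packs.classW _ w 2 (by norm_num)
    · intro e he
      simp only [Finset.mem_filter, not_lt] at he
      push_cast
      linarith [he.1.2]
    · intro e he
      simp only [Finset.mem_filter] at he
      simp only [W]
      rw [if_neg he.1.2, if_pos he.2]
      norm_num
  refine Packs.peel _ w (fun e => 1 / 4 < w e) 1 3 4 ?_ ?_ (by norm_num)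
  · apply Packs.classW _ w 3 (by norm_num)
    · intro e he
      simp only [Finset.mem_filter, not_lt] at he
      push_cast
      linarith [he.1.2]
    · intro e he
      simp only [Finset.mem_filter] at he
      simp only [W]
      rw [if_neg he.1.1.2, if_neg he.1.2, if_pos he.2]
      norm_num
  refine Packs.peel _ w (fun e => 1 / 5 < w e) 1 2 3 ?_ ?_ (by norm_num)
  · apply Packs.classW _ w 4 (by norm_num)
    · intro e he
      simp only [Finset.mem_filter, not_lt] at he
      push_cast
      linarith [he.1.2]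
    · intro e he
      simp only [Finset.mem_filter] at he
      simp only [W]
      rw [if_neg he.1.1.1.2, if_neg he.1.1.2, if_neg he.1.2, if_pos he.2]
      norm_num
  refine Packs.peel _ w (fun e => 1 / 6 < w e) 1 1 2 ?_ ?_ (by norm_num)
  · apply Packs.classW _ w 5 (by norm_num)
    · intro e he
      simp only [Finset.mem_filter, not_lt] at he
      push_cast
      linarith [he.1.2]
    · intro e he
      simp only [Finset.mem_filter] at he
      simp only [W]
      rw [if_neg he.1.1.1.1.2, if_neg he.1.1.1.2, if_neg he.1.1.2, if_neg he.1.2, if_pos he.2]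
      norm_num
  · set G := ((((F.filter (fun e => ¬ 1 / 2 < w e)).filter (fun e => ¬ 1 / 3 < w e)).filter
      (fun e => ¬ 1 / 4 < w e)).filter (fun e => ¬ 1 / 5 < w e)).filter (fun e => ¬ 1 / 6 < w e)
      with hG
    have hG0 : ∀ e ∈ G, 0 ≤ w e := by
      intro e he
      simp only [hG, Finset.mem_filter] at he
      exact (hw e he.1.1.1.1.1).1
    have hG1 : ∀ e ∈ G, w e ≤ 1 / 6 := by
      intro e he
      simp only [hG, Finset.mem_filter, not_lt] at he
      exact he.2
    obtain ⟨n, hn, hn'⟩ := Packs.small w _ G rfl hG0 hG1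
    refine ⟨n, hn, ?_⟩
    have : ∑ e ∈ G, W (w e) = 6 / 5 * ∑ e ∈ G, w e := by
      rw [Finset.mul_sum]
      exact Finset.sum_congr rfl fun e he => W_small (hG1 e he)
    rw [this]
    exact hn'

end Pool.Agent.MP2237
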