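import Mathlib

set_option autoImplicit false

namespace Pool.Agent.MP2237

open Finset

private noncomputable def eD {V : Type} [DecidableEq V] (x y v : V) : ℝ :=
  (if x = v then (1 : ℝ) else 0) - (if y = v then 1 else 0)

private theorem eD_self {V : Type} [DecidableEq V] (x v : V) : eD x x v = 0 := by
  simp [eD]

private theorem eD_abs_le {V : Type} [DecidableEq V] (x y v : V) : |eD x y v| ≤ 1 := by
  unfold eD
  split_ifs <;> norm_num

/-- nonzero coefficients at `v` cancel after a suitable merge -/
private theorem eD_merge {V : Type} [DecidableEq V] (x y x' y' v : V) (h : eD x y v ≠ 0)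
    (h' : eD x' y' v ≠ 0) :
    ∃ (ε : ℝ) (p q : V), (ε = 1 ∨ ε = -1) ∧ ∀ u, eD p q u = eD x y u + ε * eD x' y' u := by
  by_cases h1 : x = v
  · have h2 : y ≠ v := by
      intro h2; apply h; simp [eD, h1, h2]
    by_cases h3 : x' = v
    · refine ⟨-1, y', y, Or.inr rfl, fun u => ?_⟩
      subst h1; subst h3
      simp only [eD]; ring
    · have h4 : y' = v := by
        by_contra h4; apply h'; simp [eD, h3, h4]
      refine ⟨1, x', y, Or.inl rfl, fun u => ?_⟩
      subst h1; subst h4
      simp only [eD]; ring
  · have h2 : y = v := by
      by_contra h2; apply h; simp [eD, h1, h2]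
    by_cases h3 : x' = v
    · refine ⟨1, x, y', Or.inl rfl, fun u => ?_⟩
      subst h2; subst h3
      simp only [eD]; ring
    · have h4 : y' = v := by
        by_contra h4; apply h'; simp [eD, h3, h4]
      refine ⟨-1, x, x', Or.inr rfl, fun u => ?_⟩
      subst h2; subst h4
      simp only [eD]; ring

private theorem euler_aux {V E : Type} [DecidableEq V] [Fintype E] [DecidableEq E]
    (a b : E → V) (n : ℕ) :
    ∀ (comp : E → E) (sg : E → ℝ) (a' b' : E → V), (∀ e, sg e = 1 ∨ sg e = -1) →
      (∀ (z : E → ℝ) (v : V),
        ∑ e, sg e * z (comp e) * eD (a e) (b e) v = ∑ i, z i * eD (a' i) (b' i) v) →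
      (Finset.univ.filter (fun i => a' i ≠ b' i)).card = n →
      ∃ (comp : E → E) (sg : E → ℝ) (a' b' : E → V), (∀ e, sg e = 1 ∨ sg e = -1) ∧
        (∀ (z : E → ℝ) (v : V),
          ∑ e, sg e * z (comp e) * eD (a e) (b e) v = ∑ i, z i * eD (a' i) (b' i) v) ∧
        ∀ v, ∑ i, |eD (a' i) (b' i) v| ≤ 1 := by
  induction n using Nat.strong_induction_on with
  | _ n ih =>
    intro comp sg a' b' hsg hz hn
    by_cases hall : ∀ v, ∑ i, |eD (a' i) (b' i) v| ≤ 1
    · exact ⟨comp, sg, a', b', hsg, hz, hall⟩
    · push Not at hall
      obtain ⟨v, hv⟩ := hall
      -- find two indices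
      have hex : ∃ i j, i ≠ j ∧ eD (a' i) (b' i) v ≠ 0 ∧ eD (a' j) (b' j) v ≠ 0 := by
        by_contra hno
        push Not at hno
        have : ∑ i, |eD (a' i) (b' i) v| ≤ 1 := by
          by_cases h0 : ∃ i, eD (a' i) (b' i) v ≠ 0
          · obtain ⟨i, hi⟩ := h0
            have : ∑ k, |eD (a' k) (b' k) v| = |eD (a' i) (b' i) v| := by
              apply Finset.sum_eq_single i
              · intro k _ hk
                rw [hno i k (Ne.symm hk) hi, abs_zero]
              · intro h; exact absurd (Finset.mem_univ i) h
            rw [this]; exact eD_abs_le _ _ _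
          · push Not at h0
            simp [h0]
        linarith
      obtain ⟨i, j, hij, hi, hj⟩ := hex
      obtain ⟨ε, p, q, hε, hpq⟩ := eD_merge _ _ _ _ v hi hj
      have hjne : a' j ≠ b' j := by
        intro h; apply hj; rw [h]; exact eD_self _ _
      set a'' : E → V := fun k => if k = j then b' j else if k = i then p else a' k with ha''
      set b'' : E → V := fun k => if k = j then b' j else if k = i then q else b' k with hb''
      refine ih _ ?_ (fun e => if comp e = j then i else comp e)
        (fun e => if comp e = j then ε * sg e else sg e) a'' b'' ?_ ?_ rfl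
      · rw [← hn]
        apply Finset.card_lt_card
        constructor
        · intro k hk
          rw [Finset.mem_filter] at hk ⊢
          refine ⟨Finset.mem_univ _, ?_⟩
          have hk2 := hk.2
          by_cases h1 : k = j
          · simp [ha'', hb'', h1] at hk2
          · by_cases h2 : k = i
            · rw [h2]; intro h; apply hi; rw [h]; exact eD_self _ _
            · simpa [ha'', hb'', h1, h2] using hk2
        · intro hcon
          have : j ∈ Finset.univ.filter (fun k => a'' k ≠ b'' k) :=
            hcon (by rw [Finset.mem_filter]; exact ⟨Finset.mem_univ _, hjne⟩)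
          rw [Finset.mem_filter] at this
          exact this.2 (by simp [ha'', hb''])
      · intro e
        show _ ∨ _
        split_ifs with h
        · rcases hε with h1 | h1 <;> rcases hsg e with h2 | h2 <;> rw [h1, h2] <;> norm_num
        · exact hsg e
      · intro z u
        have key := hz (fun k => if k = j then ε * z i else z k) u
        have hl : ∑ e, (if comp e = j then ε * sg e else sg e) *
              z (if comp e = j then i else comp e) * eD (a e) (b e) u
            = ∑ e, sg e * (if comp e = j then ε * z i else z (comp e)) * eD (a e) (b e) u := by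
          apply Finset.sum_congr rfl
          intro e _
          split_ifs with h
          · ring
          · rfl
        have hr : ∑ k, z k * eD (a'' k) (b'' k) u
            = ∑ k, (if k = j then ε * z i else z k) * eD (a' k) (b' k) u := by
          have e1 : ∀ k, z k * eD (a'' k) (b'' k) u
              = (if k = j then ε * z i else z k) * eD (a' k) (b' k) u
                + ((if k = i then z i * (ε * eD (a' j) (b' j) u) else 0)
                  - (if k = j then ε * z i * eD (a' j) (b' j) u else 0)) := by
            intro k
            by_cases h1 : k = j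
            · subst h1
              have h3 : ¬ k = i := fun h => hij h.symm
              simp only [ha'', hb'', if_true, if_neg h3, eD_self]
              ring
            · by_cases h2 : k = i
              · subst h2
                simp only [ha'', hb'', if_true, if_neg h1, hpq u]
                ring
              · simp only [ha'', hb'', if_neg h1, if_neg h2]
                ring
          rw [Finset.sum_congr rfl (fun k _ => e1 k), Finset.sum_add_distrib,
            Finset.sum_sub_distrib, Finset.sum_ite_eq' Finset.univ i,
            Finset.sum_ite_eq' Finset.univ j]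
          simp only [Finset.mem_univ, if_true]
          ring
        rw [hl, hr]
        exact key

/-- Eulerian pairing. -/
theorem euler {V E : Type} [DecidableEq V] [Fintype E] [DecidableEq E] (a b : E → V) :
    ∃ (comp : E → E) (sg : E → ℝ) (a' b' : E → V), (∀ e, sg e = 1 ∨ sg e = -1) ∧
      (∀ (z : E → ℝ) (v : V),
        ∑ e, sg e * z (comp e) * ((if a e = v then (1 : ℝ) else 0) - (if b e = v then 1 else 0)) =
          ∑ i, z i * ((if a' i = v then (1 : ℝ) else 0) - (if b' i = v then 1 else 0))) ∧
      ∀ v, ∑ i, |(if a' i = v then (1 : ℝ) else 0) - (if b' i = v then 1 else 0)| ≤ 1 := by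
  have h := euler_aux a b _ id (fun _ => 1) a b (fun _ => Or.inl rfl)
    (by intro z v; simp) rfl
  simpa only [eD] using h

end Pool.Agent.MP2237
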