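import Mathlib
import Pool.Agent.MP_2237f3_co.Rounding

set_option autoImplicit false

namespace Pool.Agent.MP2237

open Finset

/-- Rounding lemma, better dependence on the column sums: a fractional (random) assignment can be
made deterministic so that every row exceeds its expectation by at most `ε` times its weight plus
`C A0 (M / A0) ^ (1 / 4)`, where `A0` bounds the entries and `M` the column sums. -/
theorem rounding_log (ε : ℝ) (hε : 0 < ε) (hε1 : ε ≤ 1) :
    ∃ C : ℝ, 0 ≤ C ∧ ∀ (ι Ω ρ : Type) [Fintype ι] [DecidableEq ι] [Fintype Ω] [DecidableEq Ω]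
      [Fintype ρ] [DecidableEq ρ] (p : ι → Ω → ℝ) (A : ρ → ι → ℝ) (c : ρ → ι → Ω → ℝ) (A0 M : ℝ),
      (∀ i x, 0 ≤ p i x) → (∀ i, ∑ x, p i x = 1) →
      (∀ r i x, 0 ≤ c r i x) → (∀ r i x, c r i x ≤ A r i) → (∀ r i, A r i ≤ A0) →
      (∀ i, ∑ r, A r i ≤ M) → 0 < A0 → A0 ≤ M →
      ∃ ω : ι → Ω, (∀ i, 0 < p i (ω i)) ∧
        ∀ r, ∑ i, c r i (ω i) ≤
          ∑ i, ∑ x, p i x * c r i x + ε * ∑ i, A r i +
              C * (A0 * Real.sqrt (Real.sqrt (M / A0))) := by
  classical
  set τ : ℝ := ε ^ 2 / 16 with hτ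
  have hτ0 : 0 < τ := by positivity
  have hτ1 : τ ≤ 1 / 16 := by rw [hτ]; nlinarith
  have hlogτ : 0 ≤ Real.log (1 / τ) := Real.log_nonneg (by rw [le_div_iff₀ hτ0]; linarith)
  refine ⟨(2 / ε) * (2 * (4 + Real.log (1 / τ)) + 4), by positivity, ?_⟩
  intro ι Ω ρ _ _ _ _ _ _ p A c A0 M hp0 hp1 hc0 hcA hA0 hM hA0p hA0M
  have hMp : 0 < M := lt_of_lt_of_le hA0p hA0M
  -- every entry is nonnegative provided `Ω` is nonempty
  have hΩ : ∀ i : ι, Nonempty Ω := by
    intro i
    by_contra hne
    rw [not_nonempty_iff] at hne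
    have := hp1 i
    simp at this
  have hAnn : ∀ r i, 0 ≤ A r i := by
    intro r i
    obtain ⟨x⟩ := hΩ i
    exact (hc0 r i x).trans (hcA r i x)
  -- scales
  have hk : ∀ r i, ∃ k : ℕ, 0 < A r i → A0 / 2 ^ (k + 1) < A r i ∧ A r i ≤ A0 / 2 ^ k := by
    intro r i
    by_cases h : 0 < A r i
    · obtain ⟨k, hk⟩ := exists_scale h (hA0 r i)
      exact ⟨k, fun _ => hk⟩
    · exact ⟨0, fun h' => absurd h' h⟩
  choose k hk using hk
  obtain ⟨K, hK⟩ : ∃ K : ℕ, ∀ r i, k r i < K := by
    refine ⟨(univ.sup fun q : ρ × ι => k q.1 q.2) + 1, fun r i => ?_⟩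
    have := Finset.le_sup (f := fun q : ρ × ι => k q.1 q.2) (mem_univ (r, i))
    exact Nat.lt_succ_of_le this
  -- the sets of entries
  set I : ρ × Fin K → Finset ι := fun b => univ.filter fun i => 0 < A b.1 i ∧ k b.1 i = b.2 with hI
  set xx : ℕ → ℝ := fun n => τ * A0 / (M * 2 ^ (n + 1)) with hxx
  have hxx0 : ∀ n, 0 < xx n := fun n => by positivity
  have hxx1 : ∀ n, xx n ≤ 1 / 2 := by
    intro n
    rw [hxx]
    rw [div_le_iff₀ (by positivity)]
    have h2 : (1 : ℝ) ≤ 2 ^ (n + 1) := one_le_pow₀ (by norm_num)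
    have : A0 ≤ M * 2 ^ (n + 1) := by nlinarith
    nlinarith
  set N : ℕ → ℝ := fun n => (2 / ε) * Real.log (1 / xx n) with hN
  have hexpN : ∀ n, Real.exp (-(ε / 2 * N n)) = xx n := by
    intro n
    rw [hN]
    have : ε / 2 * (2 / ε * Real.log (1 / xx n)) = Real.log (1 / xx n) := by
      field_simp
    simp only [this]
    rw [one_div, Real.log_inv, neg_neg, Real.exp_log (hxx0 n)]
  have hNn : ∀ n, 0 ≤ N n := by
    intro n
    rw [hN]
    refine mul_nonneg (by positivity) (Real.log_nonneg ?_)
    rw [le_div_iff₀ (hxx0 n)]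
    linarith [hxx1 n]
  -- bad events
  set E : ρ × Fin K → Finset (ι → Ω) := fun b => univ.filter fun ω =>
    ∑ i ∈ I b, ∑ x, p i x * c b.1 i x + (ε * ∑ i ∈ I b, A b.1 i + N b.2 * (A0 / 2 ^ (b.2 : ℕ))) <
      ∑ i ∈ I b, c b.1 i (ω i) with hE
  obtain ⟨ω, hω1, hω2⟩ := lll p hp0 hp1 I E
    (by
      intro b ω ω' h hω
      simp only [hE, mem_filter, mem_univ, true_and] at hω ⊢
      have : ∑ i ∈ I b, c b.1 i (ω i) = ∑ i ∈ I b, c b.1 i (ω' i) :=
        sum_congr rfl fun i hi => by rw [h i hi]
      rw [← this]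
      exact hω)
    (fun b => xx b.2) (fun b => (hxx0 _).le) (fun b => by linarith [hxx1 b.2])
    (by
      intro b
      -- probability bound
      have hb : ∑ ω ∈ E b, ∏ i, p i (ω i) ≤ xx b.2 * Real.exp (-(ε ^ 2 / 8 * (I b).card)) := by
        set a : ℝ := A0 / 2 ^ (b.2 : ℕ) with ha
        have ha0 : 0 < a := by positivity
        have hch := chernoff p hp0 hp1 (I b) (c b.1) a (fun i _ x => hc0 _ _ _)
          (fun i hi x => by
            simp only [hI, mem_filter, mem_univ, true_and] at hi
            refine (hcA _ _ _).trans ?_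
            have := (hk b.1 i hi.1).2
            rw [hi.2] at this
            exact this)
          (ε / (2 * a)) (by positivity)
          (by rw [div_mul_eq_mul_div, div_le_iff₀ (by positivity)]; nlinarith)
          (ε * ∑ i ∈ I b, A b.1 i + N b.2 * a)
        refine hch.trans ?_
        rw [← hexpN, ← Real.exp_add]
        refine Real.exp_le_exp.2 ?_
        have hμ : ∑ i ∈ I b, ∑ x, p i x * c b.1 i x ≤ ∑ i ∈ I b, A b.1 i := by
          refine sum_le_sum fun i _ => ?_
          calc ∑ x, p i x * c b.1 i x ≤ ∑ x, p i x * A b.1 i :=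
                sum_le_sum fun x _ => mul_le_mul_of_nonneg_left (hcA _ _ _) (hp0 i x)
            _ = A b.1 i := by rw [← sum_mul, hp1, one_mul]
        have hcard : (I b).card * (a / 2) ≤ ∑ i ∈ I b, A b.1 i := by
          rw [← nsmul_eq_mul]
          refine card_nsmul_le_sum _ _ _ fun i hi => ?_
          simp only [hI, mem_filter, mem_univ, true_and] at hi
          have := (hk b.1 i hi.1).1
          rw [hi.2, pow_succ] at this
          rw [ha]
          have h2 : A0 / 2 ^ (b.2 : ℕ) / 2 = A0 / (2 ^ (b.2 : ℕ) * 2) := by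
            rw [div_div]
          rw [h2]
          exact this.le
        set SA := ∑ i ∈ I b, A b.1 i with hSA
        set Sμ := ∑ i ∈ I b, ∑ x, p i x * c b.1 i x with hSμ
        have e1 : (ε / (2 * a)) ^ 2 * a * Sμ ≤ (ε / (2 * a)) ^ 2 * a * SA :=
          mul_le_mul_of_nonneg_left hμ (by positivity)
        have e2 : (ε / (2 * a)) ^ 2 * a * SA = ε ^ 2 / (4 * a) * SA := by
          field_simp
          ring
        have e3 : ε / (2 * a) * (ε * SA + N b.2 * a) = ε ^ 2 / (2 * a) * SA + ε / 2 * N b.2 := by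
          field_simp
        have e4 : ε ^ 2 / (4 * a) * ((I b).card * (a / 2)) ≤ ε ^ 2 / (4 * a) * SA :=
          mul_le_mul_of_nonneg_left hcard (by positivity)
        have e5 : ε ^ 2 / (4 * a) * ((I b).card * (a / 2)) = ε ^ 2 / 8 * (I b).card := by
          field_simp
          ring
        have e6 : ε ^ 2 / (2 * a) * SA = 2 * (ε ^ 2 / (4 * a) * SA) := by
          field_simp
          ring
        rw [e3]
        linarith
      refine hb.trans (mul_le_mul_of_nonneg_left ?_ (hxx0 _).le)
      -- lower bound for the product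
      have hprod : Real.exp (-(2 * ∑ b' ∈ univ.filter (fun b' => b' ≠ b ∧ ¬ Disjoint (I b) (I b')),
          xx b'.2)) ≤ ∏ b' ∈ univ.filter (fun b' => b' ≠ b ∧ ¬ Disjoint (I b) (I b')),
            (1 - xx b'.2) := by
        rw [mul_sum, ← sum_neg_distrib, Real.exp_sum]
        exact prod_le_prod (fun _ _ => Real.exp_nonneg _)
          fun b' _ => exp_neg_two_le (hxx0 _).le (hxx1 _)
      refine le_trans (Real.exp_le_exp.2 ?_) hprod
      -- sum over neighbours
      have hsum : ∑ b' ∈ univ.filter (fun b' => b' ≠ b ∧ ¬ Disjoint (I b) (I b')), xx b'.2 ≤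
          τ * (I b).card := by
        calc ∑ b' ∈ univ.filter (fun b' => b' ≠ b ∧ ¬ Disjoint (I b) (I b')), xx b'.2
            ≤ ∑ b' : ρ × Fin K, ∑ i ∈ I b, if i ∈ I b' then xx b'.2 else 0 := by
              rw [sum_filter]
              refine sum_le_sum fun b' _ => ?_
              split_ifs with h
              · obtain ⟨i, hi1, hi2⟩ := Finset.not_disjoint_iff.1 h.2
                have := single_le_sum (f := fun i => if i ∈ I b' then xx b'.2 else 0)
                  (fun i _ => by split_ifs; exacts [(hxx0 _).le, le_rfl]) hi1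
                simpa [hi2] using this
              · exact sum_nonneg fun i _ => by split_ifs; exacts [(hxx0 _).le, le_rfl]
          _ = ∑ i ∈ I b, ∑ b' : ρ × Fin K, if i ∈ I b' then xx b'.2 else 0 := sum_comm
          _ ≤ ∑ i ∈ I b, τ := by
              refine sum_le_sum fun i _ => ?_
              rw [Fintype.sum_prod_type]
              have hr : ∀ r, ∑ n : Fin K, (if i ∈ I (r, n) then xx n else 0) ≤
                  τ / M * A r i := by
                intro r
                by_cases h : 0 < A r i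
                · rw [sum_eq_single (⟨k r i, hK r i⟩ : Fin K)]
                  · have h3 : i ∈ I (r, ⟨k r i, hK r i⟩) := by
                      simp [hI, h]
                    rw [if_pos h3]
                    have h4 := (hk r i h).1
                    rw [hxx]
                    have h5 : τ * A0 / (M * 2 ^ (k r i + 1)) = τ / M * (A0 / 2 ^ (k r i + 1)) := by
                      field_simp
                    simp only [h5]
                    exact mul_le_mul_of_nonneg_left h4.le (by positivity)
                  · intro n _ hn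
                    rw [if_neg]
                    simp only [hI, mem_filter, mem_univ, true_and, not_and]
                    intro _ h6
                    apply hn
                    ext
                    exact h6.symm
                  · intro h; exact absurd (mem_univ _) h
                · rw [sum_eq_zero]
                  · exact mul_nonneg (by positivity) (hAnn r i)
                  · intro n _
                    rw [if_neg]
                    simp only [hI, mem_filter, mem_univ, true_and, not_and]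
                    intro h6
                    exact absurd h6 h
              calc ∑ r, ∑ n : Fin K, (if i ∈ I (r, n) then xx n else 0)
                  ≤ ∑ r, τ / M * A r i := sum_le_sum fun r _ => hr r
                _ = τ / M * ∑ r, A r i := by rw [mul_sum]
                _ ≤ τ / M * M := mul_le_mul_of_nonneg_left (hM i) (by positivity)
                _ = τ := by field_simp
          _ = τ * (I b).card := by rw [sum_const, nsmul_eq_mul, mul_comm]
      have : ε ^ 2 / 8 * (I b).card = 2 * (τ * (I b).card) := by rw [hτ]; ring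
      linarith)
  refine ⟨ω, hω1, fun r => ?_⟩
  -- decomposition in scales
  have hdec : ∀ f : ι → ℝ, (∀ i, ¬ 0 < A r i → f i = 0) →
      ∑ i, f i = ∑ n : Fin K, ∑ i ∈ I (r, n), f i := by
    intro f hf
    have h1 : ∀ i, f i = ∑ n : Fin K, if i ∈ I (r, n) then f i else 0 := by
      intro i
      by_cases h : 0 < A r i
      · rw [sum_eq_single (⟨k r i, hK r i⟩ : Fin K)]
        · have h3 : i ∈ I (r, ⟨k r i, hK r i⟩) := by
            simp [hI, h]
          rw [if_pos h3]
        · intro n _ hn
          rw [if_neg]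
          simp only [hI, mem_filter, mem_univ, true_and, not_and]
          intro _ h6
          apply hn
          ext
          exact h6.symm
        · intro h; exact absurd (mem_univ _) h
      · rw [hf i h]
        simp
    calc ∑ i, f i = ∑ i, ∑ n : Fin K, (if i ∈ I (r, n) then f i else 0) :=
          sum_congr rfl fun i _ => h1 i
      _ = ∑ n : Fin K, ∑ i, (if i ∈ I (r, n) then f i else 0) := sum_comm
      _ = _ := sum_congr rfl fun n _ => by rw [sum_ite_mem, univ_inter]
  have hzero : ∀ i, ¬ 0 < A r i → A r i = 0 := fun i h => le_antisymm (not_lt.1 h) (hAnn r i)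
  have hczero : ∀ i, ¬ 0 < A r i → ∀ x, c r i x = 0 := fun i h x =>
    le_antisymm ((hcA r i x).trans (hzero i h).le) (hc0 r i x)
  have d1 := hdec (fun i => c r i (ω i)) (fun i h => hczero i h _)
  have d2 := hdec (fun i => ∑ x, p i x * c r i x)
    (fun i h => sum_eq_zero fun x _ => by rw [hczero i h, mul_zero])
  have d3 := hdec (fun i => A r i) (fun i h => hzero i h)
  rw [d1, d2, d3, mul_sum, ← sum_add_distrib]
  have hgood : ∀ n : Fin K, ∑ i ∈ I (r, n), c r i (ω i) ≤
      ∑ i ∈ I (r, n), ∑ x, p i x * c r i x + (ε * ∑ i ∈ I (r, n), A r i +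
        N n * (A0 / 2 ^ (n : ℕ))) := by
    intro n
    have := hω2 (r, n)
    simp only [hE, mem_filter, mem_univ, true_and, not_lt] at this
    exact this
  have hsum : ∑ n : Fin K, N n * (A0 / 2 ^ (n : ℕ)) ≤
      (2 / ε) * (2 * (4 + Real.log (1 / τ)) + 4) * (A0 * Real.sqrt (Real.sqrt (M / A0))) := by
    -- bound of N
    set R0 : ℝ := Real.sqrt (M / A0) with hR0
    set R : ℝ := Real.sqrt R0 with hR
    have hMA : 1 ≤ M / A0 := by rw [le_div_iff₀ hA0p]; linarith
    have hR01 : 1 ≤ R0 := by rw [hR0]; exact Real.one_le_sqrt.2 hMA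
    have hR1 : 1 ≤ R := by rw [hR]; exact Real.one_le_sqrt.2 hR01
    have hR0sq : R0 * R0 = M / A0 := by rw [hR0]; exact Real.mul_self_sqrt (by positivity)
    have hRsq : R * R = R0 := by rw [hR]; exact Real.mul_self_sqrt (by positivity)
    have hlogMA : Real.log (M / A0) ≤ 4 * R - 4 := by
      rw [← hR0sq, Real.log_mul (by positivity) (by positivity), ← hRsq,
        Real.log_mul (by positivity) (by positivity)]
      have := Real.log_le_sub_one_of_pos (x := R) (by positivity)
      linarith
    have hNle : ∀ n : ℕ, N n ≤ (2 / ε) * ((4 * R - 4) + Real.log (1 / τ) + (n + 1)) := by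
      intro n
      rw [hN]
      refine mul_le_mul_of_nonneg_left ?_ (by positivity)
      have h1 : 1 / xx n = (M / A0) * (1 / τ) * 2 ^ (n + 1) := by
        rw [hxx]
        field_simp
      rw [h1, Real.log_mul (by positivity) (by positivity), Real.log_mul (by positivity)
        (by positivity), Real.log_pow]
      have h2 : Real.log 2 ≤ 1 := by
        have := Real.log_le_sub_one_of_pos (x := 2) (by norm_num)
        linarith
      have h3 : ((n + 1 : ℕ) : ℝ) * Real.log 2 ≤ ((n + 1 : ℕ) : ℝ) * 1 :=
        mul_le_mul_of_nonneg_left h2 (by positivity)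
      push_cast at h3 ⊢
      linarith
    have g1 : ∑ n : Fin K, ((1 : ℝ) / 2) ^ (n : ℕ) ≤ 2 := by
      rw [Fin.sum_univ_eq_sum_range (fun n => ((1 : ℝ) / 2) ^ n)]
      have := geom_sum_eq (x := (1 : ℝ) / 2) (by norm_num) K
      rw [this]
      have : (0 : ℝ) ≤ (1 / 2) ^ K := by positivity
      rw [div_le_iff_of_neg (by norm_num)]
      linarith
    have g2 : ∑ n : Fin K, ((n : ℕ) + 1 : ℝ) * ((1 : ℝ) / 2) ^ (n : ℕ) ≤ 4 := by
      rw [Fin.sum_univ_eq_sum_range (fun n => ((n : ℝ) + 1) * ((1 : ℝ) / 2) ^ n)]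
      have : ∀ K : ℕ, ∑ n ∈ range K, ((n : ℝ) + 1) * ((1 : ℝ) / 2) ^ n =
          4 - (2 * K + 4) * (1 / 2) ^ K := by
        intro K
        induction K with
        | zero => simp
        | succ K ih =>
          rw [sum_range_succ, ih, pow_succ]
          push_cast
          ring
      rw [this]
      have : (0 : ℝ) ≤ (2 * K + 4) * (1 / 2) ^ K := by positivity
      linarith
    set L : ℝ := (4 * R - 4) + Real.log (1 / τ) with hL
    have hL0 : 0 ≤ L := by rw [hL]; linarith
    calc ∑ n : Fin K, N n * (A0 / 2 ^ (n : ℕ))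
        ≤ ∑ n : Fin K, (2 / ε) * A0 * (L * (1 / 2) ^ (n : ℕ) +
            ((n : ℕ) + 1) * (1 / 2) ^ (n : ℕ)) := by
          refine sum_le_sum fun n _ => ?_
          have h5 := mul_le_mul_of_nonneg_right (hNle n)
            (show (0 : ℝ) ≤ A0 / 2 ^ (n : ℕ) by positivity)
          refine h5.trans (le_of_eq ?_)
          rw [one_div_pow]
          field_simp
      _ = (2 / ε) * A0 * (L * ∑ n : Fin K, ((1 : ℝ) / 2) ^ (n : ℕ) +
            ∑ n : Fin K, ((n : ℕ) + 1 : ℝ) * ((1 : ℝ) / 2) ^ (n : ℕ)) := by
          rw [← mul_sum, sum_add_distrib, mul_sum]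
      _ ≤ (2 / ε) * A0 * (L * 2 + 4) := by
          refine mul_le_mul_of_nonneg_left ?_ (by positivity)
          have := mul_le_mul_of_nonneg_left g1 hL0
          linarith
      _ ≤ (2 / ε) * (2 * (4 + Real.log (1 / τ)) + 4) * (A0 * R) := by
          have h6 : L * 2 + 4 ≤ (2 * (4 + Real.log (1 / τ)) + 4) * R := by
            rw [hL]
            have : Real.log (1 / τ) ≤ Real.log (1 / τ) * R := le_mul_of_one_le_right hlogτ hR1
            nlinarith
          calc (2 / ε) * A0 * (L * 2 + 4) ≤
              (2 / ε) * A0 * ((2 * (4 + Real.log (1 / τ)) + 4) * R) :=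
                mul_le_mul_of_nonneg_left h6 (by positivity)
            _ = _ := by ring
  calc ∑ n : Fin K, ∑ i ∈ I (r, n), c r i (ω i)
      ≤ ∑ n : Fin K, (∑ i ∈ I (r, n), ∑ x, p i x * c r i x + (ε * ∑ i ∈ I (r, n), A r i +
        N n * (A0 / 2 ^ (n : ℕ)))) := sum_le_sum fun n _ => hgood n
    _ = ∑ n : Fin K, (∑ i ∈ I (r, n), ∑ x, p i x * c r i x + ε * ∑ i ∈ I (r, n), A r i) +
        ∑ n : Fin K, N n * (A0 / 2 ^ (n : ℕ)) := by
          rw [← sum_add_distrib]
          exact sum_congr rfl fun n _ => by ring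
    _ ≤ _ := by linarith

end Pool.Agent.MP2237
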