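import Mathlib
import Pool.Agent.MP_2237f3_co.RoundingLog
import Pool.Agent.MP_2237f3_co.Euler

set_option autoImplicit false

namespace Pool.Agent.MP2237

open Finset

/-- One random balanced orientation of a multigraph: all vertices are balanced up to `1` and every
(signed) row is balanced up to a small error. -/
theorem split_step (ε : ℝ) (hε : 0 < ε) (hε1 : ε ≤ 1) :
    ∃ C : ℝ, 0 ≤ C ∧ ∀ (V E ρ : Type) [Fintype V] [DecidableEq V] [Fintype E] [DecidableEq E]
      [Fintype ρ] [DecidableEq ρ] (a b : E → V) (G : ρ → V → ℝ) (A0 M : ℝ), 0 < A0 → A0 ≤ M →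
      (∀ r v, |G r v| ≤ A0) → (∀ v, ∑ r, |G r v| ≤ M) →
      ∃ y : E → ℝ, (∀ e, y e = 1 ∨ y e = -1) ∧
        (∀ v, |∑ e, y e * ((if a e = v then (1 : ℝ) else 0) - (if b e = v then 1 else 0))| ≤ 1) ∧
        ∀ r, |∑ v, G r v *
            ∑ e, y e * ((if a e = v then (1 : ℝ) else 0) - (if b e = v then 1 else 0))| ≤
          ε * ∑ v, |G r v| + C * (A0 * Real.sqrt (Real.sqrt (M / A0))) := by
  classical
  obtain ⟨C, hC0, hC⟩ := rounding_log (ε / 2) (by positivity) (by linarith)
  refine ⟨8 * C, by positivity, ?_⟩
  intro V E ρ _ _ _ _ _ _ a b G A0 M hA0 hA0M hG hM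
  have hMp : 0 < M := lt_of_lt_of_le hA0 hA0M
  obtain ⟨comp, sg, a', b', hsg, hid, hends⟩ := euler a b
  set κ : E → V → ℝ := fun i v => (if a' i = v then (1 : ℝ) else 0) - (if b' i = v then 1 else 0)
    with hκ
  -- every trail has at most two ends
  have hκ2 : ∀ i, ∑ v, |κ i v| ≤ 2 := by
    intro i
    calc ∑ v, |κ i v| ≤ ∑ v, ((if a' i = v then (1 : ℝ) else 0) + (if b' i = v then 1 else 0)) := by
          refine sum_le_sum fun v _ => ?_
          simp only [hκ]
          split_ifs <;> norm_num
      _ = 2 := by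
          rw [sum_add_distrib, sum_ite_eq, sum_ite_eq]
          simp
          norm_num
  set g : ρ → E → ℝ := fun r i => ∑ v, G r v * κ i v with hg
  set A : ρ → E → ℝ := fun r i => ∑ v, |G r v| * |κ i v| with hA
  have hgA : ∀ r i, |g r i| ≤ A r i := by
    intro r i
    simp only [hg, hA]
    refine (abs_sum_le_sum_abs _ _).trans (le_of_eq ?_)
    exact sum_congr rfl fun v _ => abs_mul _ _
  have hAA0 : ∀ r i, A r i ≤ 2 * A0 := by
    intro r i
    calc A r i ≤ ∑ v, A0 * |κ i v| :=
          sum_le_sum fun v _ => mul_le_mul_of_nonneg_right (hG r v) (abs_nonneg _)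
      _ = A0 * ∑ v, |κ i v| := by rw [mul_sum]
      _ ≤ A0 * 2 := mul_le_mul_of_nonneg_left (hκ2 i) hA0.le
      _ = 2 * A0 := by ring
  have hAM : ∀ i, ∑ r, A r i ≤ 2 * M := by
    intro i
    calc ∑ r, A r i = ∑ v, |κ i v| * ∑ r, |G r v| := by
          simp only [hA]
          rw [sum_comm]
          refine sum_congr rfl fun v _ => ?_
          rw [mul_sum]
          exact sum_congr rfl fun r _ => mul_comm _ _
      _ ≤ ∑ v, |κ i v| * M :=
          sum_le_sum fun v _ => mul_le_mul_of_nonneg_left (hM v) (abs_nonneg _)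
      _ = (∑ v, |κ i v|) * M := by rw [sum_mul]
      _ ≤ 2 * M := mul_le_mul_of_nonneg_right (hκ2 i) hMp.le
  have hArow : ∀ r, ∑ i, A r i ≤ ∑ v, |G r v| := by
    intro r
    calc ∑ i, A r i = ∑ v, |G r v| * ∑ i, |κ i v| := by
          simp only [hA]
          rw [sum_comm]
          refine sum_congr rfl fun v _ => ?_
          rw [mul_sum]
      _ ≤ ∑ v, |G r v| * 1 :=
          sum_le_sum fun v _ => mul_le_mul_of_nonneg_left (hends v) (abs_nonneg _)
      _ = ∑ v, |G r v| := by simp
  obtain ⟨ω, -, hω⟩ := hC E Bool (ρ × Bool) (fun _ _ => 1 / 2) (fun r i => A r.1 i)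
    (fun r i x => if x = r.2 then max (g r.1 i) 0 else max (-g r.1 i) 0) (2 * A0) (4 * M)
    (fun _ _ => by norm_num) (fun _ => by simp)
    (fun r i x => by split_ifs <;> exact le_max_right _ _)
    (fun r i x => by
      have h1 := hgA r.1 i
      have h2 := le_abs_self (g r.1 i)
      have h3 := neg_le_abs (g r.1 i)
      have h4 := abs_nonneg (g r.1 i)
      split_ifs
      · exact max_le (h2.trans h1) (h4.trans h1)
      · exact max_le (h3.trans h1) (h4.trans h1))
    (fun r i => hAA0 _ _)
    (fun i => by
      rw [Fintype.sum_prod_type]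
      simp only [Fintype.sum_bool]
      rw [sum_add_distrib]
      linarith [hAM i])
    (by positivity) (by linarith)
  set z : E → ℝ := fun i => if ω i then 1 else -1 with hz
  have hz1 : ∀ i, z i = 1 ∨ z i = -1 := by
    intro i
    simp only [hz]
    cases ω i <;> simp
  refine ⟨fun e => sg e * z (comp e), fun e => ?_, fun v => ?_, fun r => ?_⟩
  · rcases hsg e with h | h <;> rcases hz1 (comp e) with h' | h' <;> simp [h, h']
  · rw [hid z v]
    refine (abs_sum_le_sum_abs _ _).trans (le_trans (le_of_eq ?_) (hends v))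
    refine sum_congr rfl fun i _ => ?_
    rw [abs_mul]
    rcases hz1 i with h | h <;> simp [h]
  · have h1 : ∑ v, G r v * ∑ e, sg e * z (comp e) *
        ((if a e = v then (1 : ℝ) else 0) - (if b e = v then 1 else 0)) = ∑ i, z i * g r i := by
      simp only [hid z, hg]
      simp_rw [mul_sum]
      rw [sum_comm]
      refine sum_congr rfl fun i _ => sum_congr rfl fun v _ => ?_
      simp only [hκ]
      ring
    rw [h1]
    have herr : ε / 2 * ∑ i, A r i + C * (2 * A0 * Real.sqrt (Real.sqrt (4 * M / (2 * A0)))) ≤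
        1 / 2 * (ε * ∑ v, |G r v| + 8 * C * (A0 * Real.sqrt (Real.sqrt (M / A0)))) := by
      have h2 : ε / 2 * ∑ i, A r i ≤ ε / 2 * ∑ v, |G r v| :=
        mul_le_mul_of_nonneg_left (hArow r) (by positivity)
      have h3 : Real.sqrt (Real.sqrt (4 * M / (2 * A0))) ≤
          2 * Real.sqrt (Real.sqrt (M / A0)) := by
        have h4 : 4 * M / (2 * A0) ≤ 2 ^ 2 * 2 ^ 2 * (M / A0) := by
          have : 0 ≤ M / A0 := by positivity
          have h5 : 4 * M / (2 * A0) = 2 * (M / A0) := by field_simp; ring
          rw [h5]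
          linarith
        calc Real.sqrt (Real.sqrt (4 * M / (2 * A0)))
            ≤ Real.sqrt (Real.sqrt (2 ^ 2 * 2 ^ 2 * (M / A0))) :=
              Real.sqrt_le_sqrt (Real.sqrt_le_sqrt h4)
          _ = 2 * Real.sqrt (Real.sqrt (M / A0)) := by
              rw [Real.sqrt_mul (by positivity), show (2 : ℝ) ^ 2 * 2 ^ 2 = (2 ^ 2) ^ 2 by norm_num,
                Real.sqrt_sq (by norm_num), Real.sqrt_mul (by norm_num),
                Real.sqrt_sq (by norm_num)]
      have h5 : C * (2 * A0 * Real.sqrt (Real.sqrt (4 * M / (2 * A0)))) ≤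
          C * (2 * A0 * (2 * Real.sqrt (Real.sqrt (M / A0)))) :=
        mul_le_mul_of_nonneg_left (mul_le_mul_of_nonneg_left h3 (by positivity)) hC0
      linarith
    have hdec : ∀ β : Bool, ∑ i, ∑ x : Bool, 1 / 2 *
        (if x = β then max (g r i) 0 else max (-g r i) 0) = 1 / 2 * ∑ i, |g r i| := by
      intro β
      rw [mul_sum]
      refine sum_congr rfl fun i _ => ?_
      have h6 : max (g r i) 0 + max (-g r i) 0 = |g r i| := by
        rcases le_total 0 (g r i) with h | h
        · rw [max_eq_left h, max_eq_right (by linarith), abs_of_nonneg h, add_zero]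
        · rw [max_eq_right h, max_eq_left (by linarith), abs_of_nonpos h, zero_add]
      cases β <;> simp <;> linarith
    have hval : ∀ i, z i * g r i =
        2 * (if ω i = true then max (g r i) 0 else max (-g r i) 0) - |g r i| := by
      intro i
      simp only [hz]
      rcases le_total 0 (g r i) with h | h
      · rw [max_eq_left h, max_eq_right (by linarith), abs_of_nonneg h]
        cases ω i <;> simp <;> linarith
      · rw [max_eq_right h, max_eq_left (by linarith), abs_of_nonpos h]
        cases ω i <;> simp <;> linarith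
    have hval' : ∀ i, -(z i * g r i) =
        2 * (if ω i = false then max (g r i) 0 else max (-g r i) 0) - |g r i| := by
      intro i
      simp only [hz]
      rcases le_total 0 (g r i) with h | h
      · rw [max_eq_left h, max_eq_right (by linarith), abs_of_nonneg h]
        cases ω i <;> simp <;> linarith
      · rw [max_eq_right h, max_eq_left (by linarith), abs_of_nonpos h]
        cases ω i <;> simp <;> linarith
    rw [abs_le]
    constructor
    · have h7 := hω (r, false)
      simp only [hdec] at h7
      have h8 : -∑ i, z i * g r i =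
          2 * ∑ i, (if ω i = false then max (g r i) 0 else max (-g r i) 0) - ∑ i, |g r i| := by
        rw [← sum_neg_distrib, mul_sum, ← sum_sub_distrib]
        exact sum_congr rfl fun i _ => hval' i
      linarith
    · have h7 := hω (r, true)
      simp only [hdec] at h7
      have h8 : ∑ i, z i * g r i =
          2 * ∑ i, (if ω i = true then max (g r i) 0 else max (-g r i) 0) - ∑ i, |g r i| := by
        rw [mul_sum, ← sum_sub_distrib]
        exact sum_congr rfl fun i _ => hval i
      linarith

end Pool.Agent.MP2237
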