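import Mathlib
import Pool.Agent.MP_2237f3_co.SplitStep

set_option autoImplicit false

namespace Pool.Agent.MP2237

open Finset

/-- number of edges of `F` at the vertex `v` -/
noncomputable def dg {S T I : Type} [DecidableEq S] [DecidableEq T] (s : I → S) (t : I → T)
    (F : Finset I) (v : S ⊕ T) : ℝ :=
  ((F.filter (fun i => (Sum.inl (s i) : S ⊕ T) = v ∨ (Sum.inr (t i) : S ⊕ T) = v)).card : ℝ)

theorem dg_eq_sum {S T I : Type} [DecidableEq S] [DecidableEq T] (s : I → S) (t : I → T)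
    (F : Finset I) (v : S ⊕ T) : dg s t F v =
      ∑ i ∈ F, (if (Sum.inl (s i) : S ⊕ T) = v ∨ (Sum.inr (t i) : S ⊕ T) = v then (1 : ℝ)
        else 0) := by
  rw [dg, card_filter]
  push_cast
  rfl

theorem dg_nonneg {S T I : Type} [DecidableEq S] [DecidableEq T] (s : I → S) (t : I → T)
    (F : Finset I) (v : S ⊕ T) : 0 ≤ dg s t F v := Nat.cast_nonneg _

/-- Balanced splitting of the edge set of a bipartite multigraph. -/
theorem split_deg (ε : ℝ) (hε : 0 < ε) (hε1 : ε ≤ 1) :
    ∃ C : ℝ, 0 ≤ C ∧ ∀ (S T I ρ : Type) [Fintype S] [DecidableEq S] [Fintype T] [DecidableEq T]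
      [Fintype I] [DecidableEq I] [Fintype ρ] [DecidableEq ρ] (s : I → S) (t : I → T)
      (F : Finset I) (G : ρ → S ⊕ T → ℝ) (A0 M : ℝ), 0 < A0 → A0 ≤ M →
      (∀ r v, |G r v| ≤ A0) → (∀ v, ∑ r, |G r v| ≤ M) →
      ∃ F0 F1 : Finset I, Disjoint F0 F1 ∧ F0 ∪ F1 = F ∧
        (∀ v, |dg s t F0 v - dg s t F1 v| ≤ 1) ∧
        ∀ r, |∑ v, G r v * (dg s t F0 v - dg s t F1 v)| ≤
          ε * ∑ v, |G r v| + C * (A0 * Real.sqrt (Real.sqrt (M / A0))) := by
  classical
  obtain ⟨C, hC0, hC⟩ := split_step ε hε hε1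
  refine ⟨C, hC0, ?_⟩
  intro S T I ρ _ _ _ _ _ _ _ _ s t F G A0 M hA0 hA0M hG hM
  set sgn : S ⊕ T → ℝ := Sum.elim (fun _ => 1) (fun _ => -1) with hsgn
  have hsgn1 : ∀ v, sgn v * sgn v = 1 := by rintro (u | v) <;> simp [hsgn]
  have hsgn2 : ∀ v, |sgn v| = 1 := by rintro (u | v) <;> simp [hsgn]
  have habs : ∀ r v, |G r v * sgn v| = |G r v| := fun r v => by rw [abs_mul, hsgn2, mul_one]
  obtain ⟨y, hy1, hy2, hy3⟩ := hC (S ⊕ T) I ρ (fun i => Sum.inl (s i))
    (fun i => if i ∈ F then Sum.inr (t i) else Sum.inl (s i)) (fun r v => G r v * sgn v) A0 M hA0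
    hA0M (fun r v => by rw [habs]; exact hG r v) (fun v => by simp only [habs]; exact hM v)
  set F0 : Finset I := F.filter (fun i => y i = 1) with hF0
  set F1 : Finset I := F.filter (fun i => ¬ y i = 1) with hF1
  have key : ∀ v : S ⊕ T, ∑ e, y e * ((if (Sum.inl (s e) : S ⊕ T) = v then (1 : ℝ) else 0) -
      (if (if e ∈ F then Sum.inr (t e) else Sum.inl (s e) : S ⊕ T) = v then 1 else 0)) =
      sgn v * (dg s t F0 v - dg s t F1 v) := by
    intro v
    rw [dg_eq_sum, dg_eq_sum, hF0, hF1, sum_filter, sum_filter, ← sum_sub_distrib, mul_sum]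
    rw [← sum_subset (subset_univ F)]
    · refine sum_congr rfl fun e he => ?_
      rw [if_pos he]
      rcases v with u | v
      · by_cases h : s e = u
        · subst h
          rcases hy1 e with h1 | h1
          · simp [h1, hsgn]
          · have h2 : ¬ (-1 : ℝ) = 1 := by norm_num
            simp [h1, hsgn, h2]
        · simp [h]
      · by_cases h : t e = v
        · subst h
          rcases hy1 e with h1 | h1
          · simp [h1, hsgn]
          · have h2 : ¬ (-1 : ℝ) = 1 := by norm_num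
            simp [h1, hsgn, h2]
        · simp [h]
    · intro e _ he
      rw [if_neg he, sub_self, mul_zero]
  refine ⟨F0, F1, disjoint_filter_filter_not _ _ _, filter_union_filter_not_eq _ _, fun v => ?_,
    fun r => ?_⟩
  · have h1 := hy2 v
    rw [key, abs_mul, hsgn2, one_mul] at h1
    exact h1
  · have h1 := hy3 r
    simp only [key, habs] at h1
    refine le_trans (le_of_eq ?_) h1
    congr 1
    refine sum_congr rfl fun v _ => ?_
    rw [mul_assoc, ← mul_assoc (sgn v), hsgn1, one_mul]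

end Pool.Agent.MP2237
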