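import Mathlib
import Pool.Agent.MP_2237f3_co.SplitDeg

set_option autoImplicit false

namespace Pool.Agent.MP2237

open Finset

theorem dg_union {S T I : Type} [DecidableEq S] [DecidableEq T] [DecidableEq I] (s : I → S)
    (t : I → T) (F0 F1 : Finset I) (h : Disjoint F0 F1) (v : S ⊕ T) :
    dg s t (F0 ∪ F1) v = dg s t F0 v + dg s t F1 v := by
  rw [dg_eq_sum, dg_eq_sum, dg_eq_sum, sum_union h]

theorem dg_fiber {S T I Col : Type} [DecidableEq S] [DecidableEq T] [DecidableEq I] [Fintype Col]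
    [DecidableEq Col] (s : I → S) (t : I → T) (F : Finset I) (ψ : I → Col) (v : S ⊕ T) :
    ∑ c, dg s t (F.filter (fun i => ψ i = c)) v = dg s t F v := by
  simp only [dg_eq_sum]
  exact sum_fiberwise F ψ _

theorem dg_half {S T I : Type} [DecidableEq S] [DecidableEq T] [DecidableEq I] (s : I → S)
    (t : I → T) (F0 F1 : Finset I) (v : S ⊕ T) (R : ℕ) (h : dg s t F0 v + dg s t F1 v ≤ 2 ^ (R + 1))
    (h' : |dg s t F0 v - dg s t F1 v| ≤ 1) : dg s t F0 v ≤ 2 ^ R ∧ dg s t F1 v ≤ 2 ^ R := by
  rw [abs_le] at h'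
  simp only [dg] at h h' ⊢
  set n0 := (F0.filter (fun i => (Sum.inl (s i) : S ⊕ T) = v ∨ (Sum.inr (t i) : S ⊕ T) = v)).card
  set n1 := (F1.filter (fun i => (Sum.inl (s i) : S ⊕ T) = v ∨ (Sum.inr (t i) : S ⊕ T) = v)).card
  have h1 : n0 + n1 ≤ 2 ^ (R + 1) := by exact_mod_cast h
  have h2 : n0 ≤ n1 + 1 := by
    have : (n0 : ℝ) ≤ n1 + 1 := by linarith [h'.2]
    exact_mod_cast this
  have h3 : n1 ≤ n0 + 1 := by
    have : (n1 : ℝ) ≤ n0 + 1 := by linarith [h'.1]
    exact_mod_cast this
  rw [pow_succ] at h1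
  have h4 : n0 ≤ 2 ^ R := by omega
  have h5 : n1 ≤ 2 ^ R := by omega
  exact ⟨by exact_mod_cast h4, by exact_mod_cast h5⟩

theorem mix_aux (ε : ℝ) (hε : 0 < ε) (hε1 : ε ≤ 1) :
    ∃ C : ℝ, 0 ≤ C ∧ ∀ (S T I : Type) [Fintype S] [DecidableEq S] [Fintype T] [DecidableEq T]
      [Fintype I] [DecidableEq I] (s : I → S) (t : I → T) (A0 M Z : ℝ), 0 < A0 → A0 ≤ M → 0 ≤ Z →
      ∀ (R : ℕ) (ρ ς : Type) [Fintype ρ] [DecidableEq ρ] [Fintype ς] [DecidableEq ς] (F : Finset I)
      (G : ρ → S ⊕ T → ℝ) (a : ς → S ⊕ T → ℝ),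
      (∀ v, dg s t F v ≤ 2 ^ R) → (∀ r v, |G r v| ≤ A0) → (∀ x v, 0 ≤ a x v) →
      (∀ x v, a x v ≤ A0) → (∀ v, ∑ r, |G r v| + 2 ^ R * ∑ x, a x v ≤ M) →
      (∀ r, ∑ v, |G r v| ≤ Z) → (∀ x, ∑ v, a x v ≤ Z) →
      ∃ (Col : Type) (_ : Fintype Col) (_ : DecidableEq Col) (ψ : I → Col),
        Fintype.card Col = 2 ^ R ∧
        (∀ v c, dg s t (F.filter (fun i => ψ i = c)) v ≤ 1) ∧
        (∀ r c, |∑ v, G r v * (dg s t (F.filter (fun i => ψ i = c)) v - dg s t F v / 2 ^ R)| ≤
          (2 - 2 / 2 ^ R) * (ε * Z + C * (A0 * Real.sqrt (Real.sqrt (M / A0))))) ∧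
        ∀ x (f : Col → ℝ), (∀ c, 0 ≤ f c) → (∀ c, f c ≤ 1) →
          ∑ c, ∑ c', (if c = c' then 0 else f c * f c' * ∑ v, a x v *
            (dg s t (F.filter (fun i => ψ i = c)) v *
              dg s t (F.filter (fun i => ψ i = c')) v)) ≤
          (∑ c, f c) ^ 2 * ((∑ v, a x v * dg s t F v ^ 2) / 4 ^ R + (6 - 2 / 2 ^ R) *
            (ε * Z + C * (A0 * Real.sqrt (Real.sqrt (M / A0))))) + (2 ^ R - 1) / 2 * Z := by
  classical
  obtain ⟨C, hC0, hC⟩ := split_deg ε hε hε1
  refine ⟨C, hC0, ?_⟩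
  intro S T I _ _ _ _ _ _ s t A0 M Z hA0 hA0M hZ R
  set err : ℝ := ε * Z + C * (A0 * Real.sqrt (Real.sqrt (M / A0))) with herr
  have herr0 : 0 ≤ err := by positivity
  induction R with
  | zero =>
    intro ρ ς _ _ _ _ F G a hdeg hG ha0 ha1 hM hGZ haZ
    refine ⟨Unit, inferInstance, inferInstance, fun _ => (), by simp, fun v c => ?_, fun r c => ?_,
      fun x f hf0 hf1 => ?_⟩
    · simpa using hdeg v
    · simp
    · simp only [if_true, sum_const_zero, pow_zero, div_one, sub_self,
        zero_div, zero_mul, add_zero]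
      have h1 : 0 ≤ ∑ v, a x v * dg s t F v ^ 2 :=
        sum_nonneg fun v _ => mul_nonneg (ha0 x v) (by positivity)
      have h2 : (0 : ℝ) ≤ (6 - 2) * err := by positivity
      positivity
  | succ R ih =>
    intro ρ ς _ _ _ _ F G a hdeg hG ha0 ha1 hM hGZ haZ
    have hp : (0 : ℝ) < 2 ^ R := by positivity
    have hp1 : (1 : ℝ) ≤ 2 ^ R := one_le_pow₀ (by norm_num)
    have hpp : (2 : ℝ) ^ (R + 1) = 2 * 2 ^ R := by rw [pow_succ]; ring
    have h4 : (4 : ℝ) ^ R = 2 ^ R * 2 ^ R := by
      rw [← mul_pow]; norm_num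
    have h44 : (4 : ℝ) ^ (R + 1) = 4 * (2 ^ R * 2 ^ R) := by rw [pow_succ, h4]; ring
    have hGsum0 : ∀ v, 0 ≤ ∑ r, |G r v| := fun v => sum_nonneg fun _ _ => abs_nonneg _
    have hasum0 : ∀ v, 0 ≤ ∑ x, a x v := fun v => sum_nonneg fun x _ => ha0 x v
    have hd0 : ∀ v, 0 ≤ dg s t F v := fun v => dg_nonneg _ _ _ _
    -- splitting
    obtain ⟨F0, F1, hdis, hF, hbal, hrow⟩ := hC S T I (ρ ⊕ ς) s t F
      (Sum.elim G (fun x v => a x v * (dg s t F v / 2 ^ (R + 1)))) A0 M hA0 hA0M
      (by
        rintro (r | x) v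
        · exact hG r v
        · simp only [Sum.elim_inr]
          rw [abs_of_nonneg (mul_nonneg (ha0 x v) (div_nonneg (hd0 v) (by positivity)))]
          have : dg s t F v / 2 ^ (R + 1) ≤ 1 := by
            rw [div_le_one (by positivity)]; exact hdeg v
          calc a x v * (dg s t F v / 2 ^ (R + 1)) ≤ a x v * 1 :=
                mul_le_mul_of_nonneg_left this (ha0 x v)
            _ ≤ A0 := by rw [mul_one]; exact ha1 x v)
      (by
        intro v
        rw [Fintype.sum_sum_type]
        simp only [Sum.elim_inl, Sum.elim_inr]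
        have : ∑ x, |a x v * (dg s t F v / 2 ^ (R + 1))| ≤ ∑ x, a x v := by
          refine sum_le_sum fun x _ => ?_
          rw [abs_of_nonneg (mul_nonneg (ha0 x v) (div_nonneg (hd0 v) (by positivity)))]
          have h1 : dg s t F v / 2 ^ (R + 1) ≤ 1 := by
            rw [div_le_one (by positivity)]; exact hdeg v
          calc a x v * (dg s t F v / 2 ^ (R + 1)) ≤ a x v * 1 :=
                mul_le_mul_of_nonneg_left h1 (ha0 x v)
            _ = a x v := mul_one _
        have h2 := hM v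
        have h3 : ∑ x, a x v ≤ 2 ^ (R + 1) * ∑ x, a x v := by
          have h4 : (1 : ℝ) ≤ 2 ^ (R + 1) := one_le_pow₀ (by norm_num)
          nlinarith [hasum0 v]
        linarith)
    have hsum : ∀ v, dg s t F0 v + dg s t F1 v = dg s t F v := by
      intro v
      rw [← hF, dg_union s t F0 F1 hdis]
    have hle : ∀ v, dg s t F0 v ≤ 2 ^ R ∧ dg s t F1 v ≤ 2 ^ R := fun v =>
      dg_half s t F0 F1 v R (by rw [hsum]; exact hdeg v) (hbal v)
    have hd00 : ∀ v, 0 ≤ dg s t F0 v := fun v => dg_nonneg _ _ _ _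
    have hd10 : ∀ v, 0 ≤ dg s t F1 v := fun v => dg_nonneg _ _ _ _
    have hrowG : ∀ r, |∑ v, G r v * (dg s t F0 v - dg s t F1 v)| ≤ err := by
      intro r
      have h1 := hrow (Sum.inl r)
      simp only [Sum.elim_inl] at h1
      refine h1.trans ?_
      rw [herr]
      have := mul_le_mul_of_nonneg_left (hGZ r) hε.le
      linarith
    have hrowa : ∀ x, |∑ v, a x v * dg s t F v * (dg s t F0 v - dg s t F1 v)| ≤
        2 ^ (R + 1) * err := by
      intro x
      have h1 := hrow (Sum.inr x)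
      simp only [Sum.elim_inr] at h1
      have h2 : ∑ v, |a x v * (dg s t F v / 2 ^ (R + 1))| ≤ Z := by
        refine le_trans (sum_le_sum fun v _ => ?_) (haZ x)
        rw [abs_of_nonneg (mul_nonneg (ha0 x v) (div_nonneg (hd0 v) (by positivity)))]
        have h1 : dg s t F v / 2 ^ (R + 1) ≤ 1 := by
          rw [div_le_one (by positivity)]; exact hdeg v
        calc a x v * (dg s t F v / 2 ^ (R + 1)) ≤ a x v * 1 :=
              mul_le_mul_of_nonneg_left h1 (ha0 x v)
          _ = a x v := mul_one _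
      have h3 : ∑ v, a x v * dg s t F v * (dg s t F0 v - dg s t F1 v) =
          2 ^ (R + 1) * ∑ v, a x v * (dg s t F v / 2 ^ (R + 1)) * (dg s t F0 v - dg s t F1 v) := by
        rw [mul_sum]
        refine sum_congr rfl fun v _ => ?_
        field_simp
      rw [h3, abs_mul, abs_of_pos (show (0 : ℝ) < 2 ^ (R + 1) by positivity)]
      refine mul_le_mul_of_nonneg_left ?_ (by positivity)
      refine h1.trans ?_
      rw [herr]
      have := mul_le_mul_of_nonneg_left h2 hε.le
      linarith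
    -- first half
    obtain ⟨Col0, iF0, iD0, ψ0, hcard0, hprop0, hfirst0, hsec0⟩ := ih (ρ ⊕ ς) ς F0
      (Sum.elim G (fun x v => a x v * (dg s t F1 v / 2 ^ R))) a (fun v => (hle v).1)
      (by
        rintro (r | x) v
        · exact hG r v
        · simp only [Sum.elim_inr]
          rw [abs_of_nonneg (mul_nonneg (ha0 x v) (div_nonneg (hd10 v) hp.le))]
          have : dg s t F1 v / 2 ^ R ≤ 1 := by
            rw [div_le_one (by positivity)]; exact (hle v).2
          calc a x v * (dg s t F1 v / 2 ^ R) ≤ a x v * 1 :=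
                mul_le_mul_of_nonneg_left this (ha0 x v)
            _ ≤ A0 := by rw [mul_one]; exact ha1 x v)
      ha0 ha1
      (by
        intro v
        rw [Fintype.sum_sum_type]
        simp only [Sum.elim_inl, Sum.elim_inr]
        have : ∑ x, |a x v * (dg s t F1 v / 2 ^ R)| ≤ ∑ x, a x v := by
          refine sum_le_sum fun x _ => ?_
          rw [abs_of_nonneg (mul_nonneg (ha0 x v) (div_nonneg (hd10 v) hp.le))]
          have h1 : dg s t F1 v / 2 ^ R ≤ 1 := by
            rw [div_le_one (by positivity)]; exact (hle v).2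
          calc a x v * (dg s t F1 v / 2 ^ R) ≤ a x v * 1 :=
                mul_le_mul_of_nonneg_left h1 (ha0 x v)
            _ = a x v := mul_one _
        have h2 := hM v
        rw [hpp] at h2
        have h3 : ∑ x, a x v ≤ 2 ^ R * ∑ x, a x v := by nlinarith [hasum0 v]
        linarith)
      (by
        rintro (r | x)
        · exact hGZ r
        · simp only [Sum.elim_inr]
          refine le_trans (sum_le_sum fun v _ => ?_) (haZ x)
          rw [abs_of_nonneg (mul_nonneg (ha0 x v) (div_nonneg (hd10 v) hp.le))]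
          have h1 : dg s t F1 v / 2 ^ R ≤ 1 := by
            rw [div_le_one (by positivity)]; exact (hle v).2
          calc a x v * (dg s t F1 v / 2 ^ R) ≤ a x v * 1 :=
                mul_le_mul_of_nonneg_left h1 (ha0 x v)
            _ = a x v := mul_one _)
      haZ
    set P0 : S ⊕ T → Col0 → ℝ := fun v c => dg s t (F0.filter (fun i => ψ0 i = c)) v with hP0
    have hP00 : ∀ v c, 0 ≤ P0 v c := fun v c => dg_nonneg _ _ _ _
    have hP0s : ∀ v, ∑ c, P0 v c = dg s t F0 v := fun v => dg_fiber s t F0 ψ0 v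
    -- second half
    obtain ⟨Col1, iF1, iD1, ψ1, hcard1, hprop1, hfirst1, hsec1⟩ := ih (ρ ⊕ (ς × Col0)) ς F1
      (Sum.elim G (fun x v => a x.1 v * P0 v x.2)) a (fun v => (hle v).2)
      (by
        rintro (r | x) v
        · exact hG r v
        · simp only [Sum.elim_inr]
          rw [abs_of_nonneg (mul_nonneg (ha0 _ v) (hP00 v _))]
          calc a x.1 v * P0 v x.2 ≤ a x.1 v * 1 :=
                mul_le_mul_of_nonneg_left (hprop0 v x.2) (ha0 _ v)
            _ ≤ A0 := by rw [mul_one]; exact ha1 _ v)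
      ha0 ha1
      (by
        intro v
        rw [Fintype.sum_sum_type]
        simp only [Sum.elim_inl, Sum.elim_inr]
        have : ∑ x : ς × Col0, |a x.1 v * P0 v x.2| ≤ 2 ^ R * ∑ x, a x v := by
          rw [Fintype.sum_prod_type]
          calc ∑ x, ∑ c, |a x v * P0 v c| = ∑ x, a x v * dg s t F0 v := by
                refine sum_congr rfl fun x _ => ?_
                rw [← hP0s, mul_sum]
                refine sum_congr rfl fun c _ => ?_
                exact abs_of_nonneg (mul_nonneg (ha0 _ v) (hP00 v _))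
            _ ≤ ∑ x, a x v * 2 ^ R :=
                sum_le_sum fun x _ => mul_le_mul_of_nonneg_left (hle v).1 (ha0 x v)
            _ = 2 ^ R * ∑ x, a x v := by rw [← sum_mul, mul_comm]
        have h2 := hM v
        rw [hpp] at h2
        linarith)
      (by
        rintro (r | x)
        · exact hGZ r
        · simp only [Sum.elim_inr]
          refine le_trans (sum_le_sum fun v _ => ?_) (haZ x.1)
          rw [abs_of_nonneg (mul_nonneg (ha0 _ v) (hP00 v _))]
          calc a x.1 v * P0 v x.2 ≤ a x.1 v * 1 :=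
                mul_le_mul_of_nonneg_left (hprop0 v x.2) (ha0 _ v)
            _ = a x.1 v := mul_one _)
      haZ
    set P1 : S ⊕ T → Col1 → ℝ := fun v c => dg s t (F1.filter (fun i => ψ1 i = c)) v with hP1
    set ψ : I → Col0 ⊕ Col1 := fun i => if i ∈ F0 then Sum.inl (ψ0 i) else Sum.inr (ψ1 i) with hψ
    have hin : ∀ i ∈ F1, i ∉ F0 := fun i h1 h0 => Finset.disjoint_left.1 hdis h0 h1
    have hfil0 : ∀ c, F.filter (fun i => ψ i = Sum.inl c) = F0.filter (fun i => ψ0 i = c) := by
      intro c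
      ext i
      simp only [mem_filter, hψ, ← hF, mem_union]
      by_cases h : i ∈ F0
      · simp [h]
      · simp [h]
    have hfil1 : ∀ c, F.filter (fun i => ψ i = Sum.inr c) = F1.filter (fun i => ψ1 i = c) := by
      intro c
      ext i
      simp only [mem_filter, hψ, ← hF, mem_union]
      by_cases h : i ∈ F0
      · have : i ∉ F1 := fun h1 => hin i h1 h
        simp [h, this]
      · simp [h]
    refine ⟨Col0 ⊕ Col1, inferInstance, inferInstance, ψ, ?_, ?_, ?_, ?_⟩
    · rw [Fintype.card_sum, hcard0, hcard1, pow_succ]; ring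
    · rintro v (c | c)
      · rw [hfil0]; exact hprop0 v c
      · rw [hfil1]; exact hprop1 v c
    · -- first order
      have hcoef : (2 - 2 / 2 ^ R) * err + err / 2 ^ (R + 1) ≤ (2 - 2 / 2 ^ (R + 1)) * err := by
        have h1 : (2 - 2 / 2 ^ (R + 1)) * err - ((2 - 2 / 2 ^ R) * err + err / 2 ^ (R + 1)) =
            err / 2 ^ (R + 1) := by
          rw [hpp]; field_simp; ring
        have h2 : 0 ≤ err / 2 ^ (R + 1) := by positivity
        linarith
      rintro r (c | c)
      · rw [hfil0]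
        have h1 := hfirst0 (Sum.inl r) c
        simp only [Sum.elim_inl] at h1
        have h2 : ∑ v, G r v * (dg s t (F0.filter (fun i => ψ0 i = c)) v -
            dg s t F v / 2 ^ (R + 1)) =
            ∑ v, G r v * (dg s t (F0.filter (fun i => ψ0 i = c)) v - dg s t F0 v / 2 ^ R) +
            (∑ v, G r v * (dg s t F0 v - dg s t F1 v)) / 2 ^ (R + 1) := by
          rw [sum_div, ← sum_add_distrib]
          refine sum_congr rfl fun v _ => ?_
          rw [← hsum v, hpp]
          field_simp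
          ring
        rw [h2]
        refine (abs_add_le _ _).trans ?_
        rw [abs_div, abs_of_pos (show (0 : ℝ) < 2 ^ (R + 1) by positivity)]
        have h3 := div_le_div_of_nonneg_right (hrowG r)
          (show (0 : ℝ) ≤ 2 ^ (R + 1) by positivity)
        linarith
      · rw [hfil1]
        have h1 := hfirst1 (Sum.inl r) c
        simp only [Sum.elim_inl] at h1
        have h2 : ∑ v, G r v * (dg s t (F1.filter (fun i => ψ1 i = c)) v -
            dg s t F v / 2 ^ (R + 1)) =
            ∑ v, G r v * (dg s t (F1.filter (fun i => ψ1 i = c)) v - dg s t F1 v / 2 ^ R) +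
            -((∑ v, G r v * (dg s t F0 v - dg s t F1 v)) / 2 ^ (R + 1)) := by
          rw [sum_div, ← sum_neg_distrib, ← sum_add_distrib]
          refine sum_congr rfl fun v _ => ?_
          rw [← hsum v, hpp]
          field_simp
          ring
        rw [h2]
        refine (abs_add_le _ _).trans ?_
        rw [abs_neg, abs_div, abs_of_pos (show (0 : ℝ) < 2 ^ (R + 1) by positivity)]
        have h3 := div_le_div_of_nonneg_right (hrowG r)
          (show (0 : ℝ) ≤ 2 ^ (R + 1) by positivity)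
        linarith
    · -- second order
      intro x f hf0 hf1
      set n0 : ℝ := ∑ c, f (Sum.inl c) with hn0
      set n1 : ℝ := ∑ c, f (Sum.inr c) with hn1
      have hn00 : 0 ≤ n0 := sum_nonneg fun _ _ => hf0 _
      have hn10 : 0 ≤ n1 := sum_nonneg fun _ _ => hf0 _
      have hn01 : n0 ≤ 2 ^ R := by
        calc n0 ≤ ∑ _c : Col0, (1 : ℝ) := sum_le_sum fun _ _ => hf1 _
          _ = 2 ^ R := by rw [sum_const, card_univ, hcard0]; simp
      have hn11 : n1 ≤ 2 ^ R := by
        calc n1 ≤ ∑ _c : Col1, (1 : ℝ) := sum_le_sum fun _ _ => hf1 _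
          _ = 2 ^ R := by rw [sum_const, card_univ, hcard1]; simp
      set W : ℝ := (∑ v, a x v * dg s t F v ^ 2) / 4 ^ (R + 1) with hW
      set Y : ℝ := (6 - 2 / 2 ^ (R + 1)) * err with hY
      have hW0 : 0 ≤ W := div_nonneg (sum_nonneg fun v _ => mul_nonneg (ha0 x v) (by positivity))
        (by positivity)
      -- squares
      have hsq : ∀ (D : S ⊕ T → ℝ) (sg : ℝ), (sg = 1 ∨ sg = -1) →
          (∀ v, 2 * D v = dg s t F v + sg * (dg s t F0 v - dg s t F1 v)) →
          (∑ v, a x v * D v ^ 2) / 4 ^ R ≤ W + 2 / 2 ^ (R + 1) * err + Z / 4 ^ (R + 1) := by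
        intro D sg hsg hD
        have h1 : ∑ v, a x v * D v ^ 2 * 4 ≤ ∑ v, a x v * dg s t F v ^ 2 +
            2 * (sg * ∑ v, a x v * dg s t F v * (dg s t F0 v - dg s t F1 v)) + ∑ v, a x v := by
          rw [mul_sum, mul_sum, ← sum_add_distrib, ← sum_add_distrib]
          refine sum_le_sum fun v _ => ?_
          have h2 : D v ^ 2 * 4 = (dg s t F v + sg * (dg s t F0 v - dg s t F1 v)) ^ 2 := by
            rw [← hD]; ring
          have h3 : (dg s t F0 v - dg s t F1 v) ^ 2 ≤ 1 := by
            rw [← sq_abs]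
            have := hbal v
            have h0 := abs_nonneg (dg s t F0 v - dg s t F1 v)
            nlinarith
          have h5 : (sg * (dg s t F0 v - dg s t F1 v)) ^ 2 ≤ 1 := by
            rcases hsg with h | h <;> rw [h] <;> linarith
          have h6 : D v ^ 2 * 4 ≤ dg s t F v ^ 2 +
              2 * (sg * (dg s t F v * (dg s t F0 v - dg s t F1 v))) + 1 := by
            rw [h2]
            have : (dg s t F v + sg * (dg s t F0 v - dg s t F1 v)) ^ 2 = dg s t F v ^ 2 +
              2 * (sg * (dg s t F v * (dg s t F0 v - dg s t F1 v))) +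
              (sg * (dg s t F0 v - dg s t F1 v)) ^ 2 := by ring
            linarith
          have h7 := mul_le_mul_of_nonneg_left h6 (ha0 x v)
          calc a x v * D v ^ 2 * 4 = a x v * (D v ^ 2 * 4) := by ring
            _ ≤ _ := h7
            _ = _ := by ring
        have h8 : sg * ∑ v, a x v * dg s t F v * (dg s t F0 v - dg s t F1 v) ≤
            2 ^ (R + 1) * err := by
          have h9 := abs_le.1 (hrowa x)
          rcases hsg with h | h <;> rw [h] <;> linarith [h9.1, h9.2]
        have h10 : (∑ v, a x v * D v ^ 2) / 4 ^ R = (∑ v, a x v * D v ^ 2 * 4) / 4 ^ (R + 1) := by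
          rw [← sum_mul, pow_succ]
          field_simp
        rw [h10]
        calc (∑ v, a x v * D v ^ 2 * 4) / 4 ^ (R + 1)
            ≤ (∑ v, a x v * dg s t F v ^ 2 + 2 * (2 ^ (R + 1) * err) + Z) / 4 ^ (R + 1) := by
              refine div_le_div_of_nonneg_right ?_ (by positivity)
              linarith [haZ x]
          _ = W + 2 / 2 ^ (R + 1) * err + Z / 4 ^ (R + 1) := by
              rw [hW, add_div, add_div]
              congr 2
              rw [h44, hpp]
              field_simp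
              ring
      have hY' : (6 - 2 / 2 ^ R) * err + 2 / 2 ^ (R + 1) * err = Y := by
        rw [hY, hpp]
        field_simp
        ring
      have hquart : ∀ n : ℝ, 0 ≤ n → n ≤ 2 ^ R → n ^ 2 * (Z / 4 ^ (R + 1)) ≤ Z / 4 := by
        intro n h0 h1
        have h2 : n ^ 2 ≤ 2 ^ R * 2 ^ R := by nlinarith
        calc n ^ 2 * (Z / 4 ^ (R + 1)) ≤ (2 ^ R * 2 ^ R) * (Z / 4 ^ (R + 1)) :=
              mul_le_mul_of_nonneg_right h2 (by positivity)
          _ = Z / 4 := by rw [h44]; field_simp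
      have hs0 : (n0 ^ 2 * ((∑ v, a x v * dg s t F0 v ^ 2) / 4 ^ R + (6 - 2 / 2 ^ R) * err) +
          (2 ^ R - 1) / 2 * Z) ≤ n0 ^ 2 * (W + Y) + Z / 4 + (2 ^ R - 1) / 2 * Z := by
        have h1 := hsq (dg s t F0) 1 (Or.inl rfl) (fun v => by rw [← hsum v]; ring)
        have h2 := mul_le_mul_of_nonneg_left h1 (sq_nonneg n0)
        have h3 := hquart n0 hn00 hn01
        have h5 : n0 ^ 2 * ((∑ v, a x v * dg s t F0 v ^ 2) / 4 ^ R + (6 - 2 / 2 ^ R) * err) ≤
            n0 ^ 2 * (W + Y) + n0 ^ 2 * (Z / 4 ^ (R + 1)) := by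
          calc n0 ^ 2 * ((∑ v, a x v * dg s t F0 v ^ 2) / 4 ^ R + (6 - 2 / 2 ^ R) * err)
              = n0 ^ 2 * ((∑ v, a x v * dg s t F0 v ^ 2) / 4 ^ R) +
                n0 ^ 2 * ((6 - 2 / 2 ^ R) * err) := by ring
            _ ≤ n0 ^ 2 * (W + 2 / 2 ^ (R + 1) * err + Z / 4 ^ (R + 1)) +
                n0 ^ 2 * ((6 - 2 / 2 ^ R) * err) := by linarith
            _ = n0 ^ 2 * (W + ((6 - 2 / 2 ^ R) * err + 2 / 2 ^ (R + 1) * err)) +
                n0 ^ 2 * (Z / 4 ^ (R + 1)) := by ring
            _ = _ := by rw [hY']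
        linarith
      have hs1 : (n1 ^ 2 * ((∑ v, a x v * dg s t F1 v ^ 2) / 4 ^ R + (6 - 2 / 2 ^ R) * err) +
          (2 ^ R - 1) / 2 * Z) ≤ n1 ^ 2 * (W + Y) + Z / 4 + (2 ^ R - 1) / 2 * Z := by
        have h1 := hsq (dg s t F1) (-1) (Or.inr rfl) (fun v => by rw [← hsum v]; ring)
        have h2 := mul_le_mul_of_nonneg_left h1 (sq_nonneg n1)
        have h3 := hquart n1 hn10 hn11
        have h5 : n1 ^ 2 * ((∑ v, a x v * dg s t F1 v ^ 2) / 4 ^ R + (6 - 2 / 2 ^ R) * err) ≤
            n1 ^ 2 * (W + Y) + n1 ^ 2 * (Z / 4 ^ (R + 1)) := by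
          calc n1 ^ 2 * ((∑ v, a x v * dg s t F1 v ^ 2) / 4 ^ R + (6 - 2 / 2 ^ R) * err)
              = n1 ^ 2 * ((∑ v, a x v * dg s t F1 v ^ 2) / 4 ^ R) +
                n1 ^ 2 * ((6 - 2 / 2 ^ R) * err) := by ring
            _ ≤ n1 ^ 2 * (W + 2 / 2 ^ (R + 1) * err + Z / 4 ^ (R + 1)) +
                n1 ^ 2 * ((6 - 2 / 2 ^ R) * err) := by linarith
            _ = n1 ^ 2 * (W + ((6 - 2 / 2 ^ R) * err + 2 / 2 ^ (R + 1) * err)) +
                n1 ^ 2 * (Z / 4 ^ (R + 1)) := by ring
            _ = _ := by rw [hY']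
        linarith
      -- cross terms
      have hcross : ∀ c c', ∑ v, a x v * (P0 v c * P1 v c') ≤ W + Y := by
        intro c c'
        have h1 := (abs_le.1 (hfirst1 (Sum.inr (x, c)) c')).2
        simp only [Sum.elim_inr] at h1
        have h2 := (abs_le.1 (hfirst0 (Sum.inr x) c)).2
        simp only [Sum.elim_inr] at h2
        have e1 : ∑ v, a x v * P0 v c * (dg s t (F1.filter (fun i => ψ1 i = c')) v -
            dg s t F1 v / 2 ^ R) = ∑ v, a x v * (P0 v c * P1 v c') -
            ∑ v, a x v * P0 v c * (dg s t F1 v / 2 ^ R) := by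
          rw [← sum_sub_distrib]
          refine sum_congr rfl fun v _ => ?_
          simp only [hP1]
          ring
        have e2 : ∑ v, a x v * (dg s t F1 v / 2 ^ R) *
            (dg s t (F0.filter (fun i => ψ0 i = c)) v - dg s t F0 v / 2 ^ R) =
            ∑ v, a x v * P0 v c * (dg s t F1 v / 2 ^ R) -
            ∑ v, a x v * (dg s t F1 v / 2 ^ R) * (dg s t F0 v / 2 ^ R) := by
          rw [← sum_sub_distrib]
          refine sum_congr rfl fun v _ => ?_
          simp only [hP0]
          ring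
        rw [e1] at h1
        rw [e2] at h2
        have e3 : ∑ v, a x v * (dg s t F1 v / 2 ^ R) * (dg s t F0 v / 2 ^ R) ≤ W := by
          rw [hW, sum_div]
          refine sum_le_sum fun v _ => ?_
          rw [h44]
          have h5 : a x v * (dg s t F1 v / 2 ^ R) * (dg s t F0 v / 2 ^ R) =
              a x v * (4 * (dg s t F1 v * dg s t F0 v)) / (4 * (2 ^ R * 2 ^ R)) := by
            field_simp
          rw [h5]
          refine div_le_div_of_nonneg_right (mul_le_mul_of_nonneg_left ?_ (ha0 x v))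
            (by positivity)
          rw [← hsum v]
          nlinarith [sq_nonneg (dg s t F0 v - dg s t F1 v)]
        have e4 : (2 - 2 / 2 ^ R) * err + (2 - 2 / 2 ^ R) * err ≤ Y := by
          rw [hY]
          have h6 : (0 : ℝ) ≤ 2 / 2 ^ R := by positivity
          have h7 : (2 : ℝ) / 2 ^ (R + 1) ≤ 1 := by
            rw [hpp, div_le_one (by positivity)]
            linarith
          nlinarith
        linarith
      have hexp : ∀ g : Col0 ⊕ Col1 → ℝ, ∑ c, g c = ∑ c, g (Sum.inl c) + ∑ c, g (Sum.inr c) :=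
        fun g => Fintype.sum_sum_type g
      simp only [hexp, hfil0, hfil1, Sum.inl.injEq, Sum.inr.injEq, reduceCtorEq,
        if_false]
      rw [sum_add_distrib, sum_add_distrib]
      have g00 := hsec0 x (fun c => f (Sum.inl c)) (fun c => hf0 _) (fun c => hf1 _)
      have g11 := hsec1 x (fun c => f (Sum.inr c)) (fun c => hf0 _) (fun c => hf1 _)
      have g01 : ∑ c, ∑ c', f (Sum.inl c) * f (Sum.inr c') * ∑ v, a x v *
          (dg s t (F0.filter (fun i => ψ0 i = c)) v * dg s t (F1.filter (fun i => ψ1 i = c')) v) ≤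
          n0 * n1 * (W + Y) := by
        calc _ ≤ ∑ c, ∑ c', f (Sum.inl c) * f (Sum.inr c') * (W + Y) := by
              refine sum_le_sum fun c _ => sum_le_sum fun c' _ => ?_
              exact mul_le_mul_of_nonneg_left (hcross c c') (mul_nonneg (hf0 _) (hf0 _))
          _ = n0 * n1 * (W + Y) := by
              rw [hn0, hn1, sum_mul_sum, sum_mul]
              refine sum_congr rfl fun c _ => ?_
              rw [sum_mul]
      have g10 : ∑ c, ∑ c', f (Sum.inr c) * f (Sum.inl c') * ∑ v, a x v *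
          (dg s t (F1.filter (fun i => ψ1 i = c)) v * dg s t (F0.filter (fun i => ψ0 i = c')) v) ≤
          n0 * n1 * (W + Y) := by
        refine le_trans (le_of_eq ?_) g01
        rw [sum_comm]
        refine sum_congr rfl fun c _ => sum_congr rfl fun c' _ => ?_
        rw [mul_comm (f (Sum.inr c'))]
        congr 1
        refine sum_congr rfl fun v _ => ?_
        ring
      have hfin : (n0 + n1) ^ 2 * (W + Y) + (2 ^ (R + 1) - 1) / 2 * Z =
          (n0 ^ 2 * (W + Y) + Z / 4 + (2 ^ R - 1) / 2 * Z) + n0 * n1 * (W + Y) +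
          (n0 * n1 * (W + Y) + (n1 ^ 2 * (W + Y) + Z / 4 + (2 ^ R - 1) / 2 * Z)) := by
        rw [hpp]; ring
      rw [hfin]
      exact add_le_add (add_le_add (g00.trans hs0) g01) (add_le_add g10 (g11.trans hs1))

end Pool.Agent.MP2237
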