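import Mathlib
import Pool.Agent.MP_2237f3_co.MixAux

set_option autoImplicit false

namespace Pool.Agent.MP2237

open Finset

/-- the colours not used by `ψ` at `v` -/
def freeC {S T I Col : Type} [DecidableEq S] [DecidableEq T] [Fintype I] [Fintype Col]
    [DecidableEq Col] (s : I → S) (t : I → T) (ψ : I → Col) (v : S ⊕ T) : Finset Col :=
  univ.filter (fun c => ∀ i, ψ i = c → ¬ ((Sum.inl (s i) : S ⊕ T) = v ∨ (Sum.inr (t i) : S ⊕ T) = v))

theorem freeC_ind {S T I Col : Type} [DecidableEq S] [DecidableEq T] [Fintype I] [DecidableEq I]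
    [Fintype Col]
    [DecidableEq Col] (s : I → S) (t : I → T) (ψ : I → Col)
    (h1 : ∀ v c, dg s t (univ.filter (fun i => ψ i = c)) v ≤ 1) (v : S ⊕ T) (c : Col) :
    (if c ∈ freeC s t ψ v then (1 : ℝ) else 0) = 1 - dg s t (univ.filter (fun i => ψ i = c)) v := by
  have h := h1 v c
  simp only [dg] at h ⊢
  set X := (univ.filter (fun i => ψ i = c)).filter
    (fun i => (Sum.inl (s i) : S ⊕ T) = v ∨ (Sum.inr (t i) : S ⊕ T) = v) with hX
  have h2 : X.card ≤ 1 := by exact_mod_cast h
  by_cases h3 : c ∈ freeC s t ψ v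
  · have h4 : X = ∅ := by
      rw [hX]
      ext i
      simp only [mem_filter, mem_univ, true_and, notMem_empty, iff_false, not_and]
      intro hi
      simp only [freeC, mem_filter, mem_univ, true_and] at h3
      exact h3 i hi
    rw [if_pos h3, h4]
    simp
  · have h4 : 0 < X.card := by
      rw [card_pos]
      simp only [freeC, mem_filter, mem_univ, true_and, not_forall, not_not] at h3
      obtain ⟨i, hi, hi'⟩ := h3
      exact ⟨i, by rw [hX]; simp only [mem_filter, mem_univ, true_and]; exact ⟨hi, hi'⟩⟩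
    have h5 : X.card = 1 := by omega
    rw [if_neg h3, h5]
    simp

theorem freeC_card {S T I Col : Type} [DecidableEq S] [DecidableEq T] [Fintype I] [DecidableEq I]
    [Fintype Col]
    [DecidableEq Col] (s : I → S) (t : I → T) (ψ : I → Col)
    (h1 : ∀ v c, dg s t (univ.filter (fun i => ψ i = c)) v ≤ 1) (v : S ⊕ T) :
    ((freeC s t ψ v).card : ℝ) = Fintype.card Col - dg s t univ v := by
  have h2 : ((freeC s t ψ v).card : ℝ) = ∑ c, (if c ∈ freeC s t ψ v then (1 : ℝ) else 0) := by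
    rw [sum_ite_mem, univ_inter, sum_const, nsmul_eq_mul, mul_one]
  rw [h2]
  simp only [freeC_ind s t ψ h1]
  rw [sum_sub_distrib, dg_fiber s t univ ψ v]
  simp

/-- Mixing: a bipartite multigraph of maximum degree at most `2 ^ R` has a proper edge colouring
with `2 ^ R` colours in which the sets of free colours look random for given weights. -/
theorem mixing (θ c Λ : ℝ) (hθ : 0 < θ) (hc : 0 < c) (hΛ : 0 < Λ) :
    ∃ R0 : ℕ, ∀ R, R0 ≤ R → ∀ (S T I ρ : Type) [Fintype S] [DecidableEq S] [Fintype T]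
      [DecidableEq T] [Fintype I] [DecidableEq I] [Fintype ρ] [DecidableEq ρ]
      (s : I → S) (t : I → T) (B : ℝ) (a : S ⊕ T → S ⊕ T → ℝ) (G : ρ → S ⊕ T → ℝ), 0 < B →
      (∀ v, dg s t univ v ≤ 2 ^ R) →
      (∀ x v, 0 ≤ a x v) → (∀ x v, a x v ≤ c / 2 ^ R * B) → (∀ v, ∑ x, a x v ≤ Λ * B) →
      (∀ x, ∑ v, a x v ≤ Λ * B) →
      (∀ r v, 0 ≤ G r v) → (∀ r v, G r v ≤ c / 2 ^ R * B) → (∀ v, ∑ r, G r v ≤ Λ * B) →
      (∀ r, ∑ v, G r v ≤ Λ * B) →
      ∃ (Col : Type) (_ : Fintype Col) (_ : DecidableEq Col) (ψ : I → Col),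
        Fintype.card Col = 2 ^ R ∧
        (∀ i j, i ≠ j → ψ i = ψ j → s i ≠ s j ∧ t i ≠ t j) ∧
        (∀ v, ((freeC s t ψ v).card : ℝ) = 2 ^ R - dg s t univ v) ∧
        (∀ r c, ∑ v, G r v * (if c ∈ freeC s t ψ v then (1 : ℝ) else 0) ≤
          ∑ v, G r v * ((freeC s t ψ v).card / 2 ^ R) + θ * B) ∧
        ∀ x, ∑ v ∈ univ.filter (fun v => ((freeC s t ψ x ∩ freeC s t ψ v).card : ℝ) <
          (freeC s t ψ x).card * (freeC s t ψ v).card / 2 ^ R - θ * 2 ^ R), a x v ≤ θ * B := by
  classical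
  set κ : ℝ := min (θ / 2) (θ ^ 3 / 20) with hκ
  have hκ0 : 0 < κ := lt_min (by positivity) (by positivity)
  have hκ1 : κ ≤ θ / 2 := min_le_left _ _
  have hκ2 : κ ≤ θ ^ 3 / 20 := min_le_right _ _
  set ε : ℝ := min 1 (κ / (2 * Λ)) with hε
  have hε0 : 0 < ε := lt_min one_pos (by positivity)
  obtain ⟨C, hC0, hC⟩ := mix_aux ε hε0 (min_le_left _ _)
  set D : ℝ := C * (c * Real.sqrt (Real.sqrt (3 * Λ / c))) with hD
  have hD0 : 0 ≤ D := by positivity
  refine ⟨⌈(2 * D / κ) ^ 2⌉₊ + ⌈3 * Λ / θ ^ 3⌉₊ + ⌈c / (3 * Λ)⌉₊, ?_⟩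
  intro R hR S T I ρ _ _ _ _ _ _ _ _ s t B a G hB hdeg ha0 ha1 hacol harow hG0 hG1 hGcol hGrow
  set Q : ℝ := 2 ^ R with hQ
  have hQ0 : 0 < Q := by positivity
  have hQ1 : 1 ≤ Q := one_le_pow₀ (by norm_num)
  have hRQ : (R : ℝ) ≤ Q := by
    have h1 : R < 2 ^ R := Nat.lt_two_pow_self
    have h2 : (R : ℝ) < (2 ^ R : ℕ) := by exact_mod_cast h1
    push_cast at h2
    exact h2.le
  have hR' : (⌈(2 * D / κ) ^ 2⌉₊ : ℝ) + ⌈3 * Λ / θ ^ 3⌉₊ + ⌈c / (3 * Λ)⌉₊ ≤ Q := by
    refine le_trans ?_ hRQ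
    exact_mod_cast hR
  have hn1 : (0 : ℝ) ≤ (⌈(2 * D / κ) ^ 2⌉₊ : ℝ) := Nat.cast_nonneg _
  have hn2 : (0 : ℝ) ≤ (⌈3 * Λ / θ ^ 3⌉₊ : ℝ) := Nat.cast_nonneg _
  have hn3 : (0 : ℝ) ≤ (⌈c / (3 * Λ)⌉₊ : ℝ) := Nat.cast_nonneg _
  have hQa : (2 * D / κ) ^ 2 ≤ Q := by
    have := Nat.le_ceil ((2 * D / κ) ^ 2)
    linarith
  have hQb : 3 * Λ / θ ^ 3 ≤ Q := by
    have := Nat.le_ceil (3 * Λ / θ ^ 3)
    linarith
  have hQc : c / (3 * Λ) ≤ Q := by
    have := Nat.le_ceil (c / (3 * Λ))
    linarith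
  have hQa' : 2 * D / κ ≤ Real.sqrt Q := Real.le_sqrt_of_sq_le hQa
  rw [div_le_iff₀ (by positivity)] at hQb hQc
  rw [div_le_iff₀ hκ0] at hQa'
  set A0 : ℝ := c / Q * B with hA0
  have hA00 : 0 < A0 := by positivity
  set M : ℝ := 3 * Q * Λ * B with hM
  have hM0 : 0 < M := by positivity
  have hA0M : A0 ≤ M := by
    rw [hA0, hM]
    refine mul_le_mul_of_nonneg_right ?_ hB.le
    rw [div_le_iff₀ hQ0]
    refine hQc.trans ?_
    have h1 : 0 ≤ Q * (3 * Λ) := by positivity
    have h2 := le_mul_of_one_le_left h1 hQ1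
    refine h2.trans (le_of_eq ?_)
    ring
  have hd0 : ∀ v, 0 ≤ dg s t univ v := fun v => dg_nonneg _ _ _ _
  have hd1 : ∀ v, dg s t univ v / Q ≤ 1 := fun v => by
    rw [div_le_one hQ0]; exact hdeg v
  obtain ⟨Col, iF, iD, ψ, hcard, hprop, hfirst, hsec⟩ := hC S T I s t A0 M (Λ * B) hA00 hA0M
    (by positivity) R (ρ ⊕ (S ⊕ T)) (S ⊕ T) univ
    (Sum.elim G (fun x v => a x v * (dg s t univ v / Q))) a hdeg
    (by
      rintro (r | x) v
      · simp only [Sum.elim_inl]
        rw [abs_of_nonneg (hG0 r v)]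
        exact hG1 r v
      · simp only [Sum.elim_inr]
        rw [abs_of_nonneg (mul_nonneg (ha0 x v) (div_nonneg (hd0 v) hQ0.le))]
        calc a x v * (dg s t univ v / Q) ≤ a x v * 1 :=
              mul_le_mul_of_nonneg_left (hd1 v) (ha0 x v)
          _ ≤ A0 := by rw [mul_one]; exact ha1 x v)
    ha0 ha1
    (by
      intro v
      rw [Fintype.sum_sum_type]
      simp only [Sum.elim_inl, Sum.elim_inr]
      have h1 : ∑ r, |G r v| ≤ Λ * B := by
        refine le_trans (le_of_eq ?_) (hGcol v)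
        exact sum_congr rfl fun r _ => abs_of_nonneg (hG0 r v)
      have h2 : ∑ x, |a x v * (dg s t univ v / Q)| ≤ Λ * B := by
        refine le_trans (sum_le_sum fun x _ => ?_) (hacol v)
        rw [abs_of_nonneg (mul_nonneg (ha0 x v) (div_nonneg (hd0 v) hQ0.le))]
        calc a x v * (dg s t univ v / Q) ≤ a x v * 1 :=
              mul_le_mul_of_nonneg_left (hd1 v) (ha0 x v)
          _ = a x v := mul_one _
      have h3 : Q * ∑ x, a x v ≤ Q * (Λ * B) := mul_le_mul_of_nonneg_left (hacol v) hQ0.le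
      have h4 : Λ * B ≤ Q * (Λ * B) := by
        have : 0 ≤ Λ * B := by positivity
        exact le_mul_of_one_le_left this hQ1
      have h5 : M = 3 * (Q * (Λ * B)) := by rw [hM]; ring
      rw [h5]
      linarith)
    (by
      rintro (r | x)
      · simp only [Sum.elim_inl]
        refine le_trans (le_of_eq ?_) (hGrow r)
        exact sum_congr rfl fun v _ => abs_of_nonneg (hG0 r v)
      · simp only [Sum.elim_inr]
        refine le_trans (sum_le_sum fun v _ => ?_) (harow x)
        rw [abs_of_nonneg (mul_nonneg (ha0 x v) (div_nonneg (hd0 v) hQ0.le))]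
        calc a x v * (dg s t univ v / Q) ≤ a x v * 1 :=
              mul_le_mul_of_nonneg_left (hd1 v) (ha0 x v)
          _ = a x v := mul_one _)
    harow
  set err : ℝ := ε * (Λ * B) + C * (A0 * Real.sqrt (Real.sqrt (M / A0))) with herr
  have herr0 : 0 ≤ err := by positivity
  have herrκ : err ≤ κ * B := by
    have h1 : ε * (Λ * B) ≤ κ / 2 * B := by
      have : ε ≤ κ / (2 * Λ) := min_le_right _ _
      calc ε * (Λ * B) ≤ κ / (2 * Λ) * (Λ * B) :=
            mul_le_mul_of_nonneg_right this (by positivity)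
        _ = κ / 2 * B := by field_simp
    have h2 : M / A0 = Q ^ 2 * (3 * Λ / c) := by
      rw [hM, hA0]; field_simp
    have h3 : Real.sqrt (Real.sqrt (M / A0)) = Real.sqrt Q * Real.sqrt (Real.sqrt (3 * Λ / c)) := by
      rw [h2, Real.sqrt_mul (by positivity), Real.sqrt_sq hQ0.le, Real.sqrt_mul hQ0.le]
    have h4 : C * (A0 * Real.sqrt (Real.sqrt (M / A0))) = D * B * (Real.sqrt Q / Q) := by
      rw [h3, hA0, hD]; ring
    have h5 : Real.sqrt Q / Q = 1 / Real.sqrt Q := by
      rw [div_eq_div_iff hQ0.ne' (by positivity), one_mul, Real.mul_self_sqrt hQ0.le]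
    have h6 : D * B * (Real.sqrt Q / Q) ≤ κ / 2 * B := by
      rw [h5, mul_one_div, div_le_iff₀ (by positivity)]
      have h7 := mul_le_mul_of_nonneg_right hQa' hB.le
      have h8 : κ / 2 * B * Real.sqrt Q = (Real.sqrt Q * κ * B) / 2 := by ring
      rw [h8]
      linarith
    rw [herr, h4]
    linarith
  have hX : (2 - 2 / Q) * err ≤ 2 * err := by
    have h1 : 0 ≤ 2 / Q * err := by positivity
    have h2 : (2 - 2 / Q) * err = 2 * err - 2 / Q * err := by ring
    rw [h2]
    linarith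
  have hXB : 2 * err ≤ θ * B := by
    have h1 := mul_le_mul_of_nonneg_right hκ1 hB.le
    linarith
  -- indicator
  have hind := freeC_ind s t ψ hprop
  have hfc : ∀ v, ((freeC s t ψ v).card : ℝ) = Q - dg s t univ v := by
    intro v
    rw [freeC_card s t ψ hprop v, hcard]
    push_cast
    rfl
  refine ⟨Col, iF, iD, ψ, hcard, ?_, hfc, ?_, ?_⟩
  · intro i j hij hψ
    constructor
    · intro hs
      have h1 := hprop (Sum.inl (s i)) (ψ i)
      simp only [dg] at h1
      have h2 : 2 ≤ ((univ.filter (fun i' => ψ i' = ψ i)).filter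
        (fun i' => (Sum.inl (s i') : S ⊕ T) = Sum.inl (s i) ∨
          (Sum.inr (t i') : S ⊕ T) = Sum.inl (s i))).card := by
        rw [← card_pair hij]
        refine card_le_card ?_
        intro x hx
        simp only [mem_insert, mem_singleton] at hx
        rcases hx with rfl | rfl
        · simp
        · simp [hψ, hs]
      have h3 : (2 : ℝ) ≤ ((univ.filter (fun i' => ψ i' = ψ i)).filter
        (fun i' => (Sum.inl (s i') : S ⊕ T) = Sum.inl (s i) ∨
          (Sum.inr (t i') : S ⊕ T) = Sum.inl (s i))).card := by exact_mod_cast h2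
      linarith
    · intro hs
      have h1 := hprop (Sum.inr (t i)) (ψ i)
      simp only [dg] at h1
      have h2 : 2 ≤ ((univ.filter (fun i' => ψ i' = ψ i)).filter
        (fun i' => (Sum.inl (s i') : S ⊕ T) = Sum.inr (t i) ∨
          (Sum.inr (t i') : S ⊕ T) = Sum.inr (t i))).card := by
        rw [← card_pair hij]
        refine card_le_card ?_
        intro x hx
        simp only [mem_insert, mem_singleton] at hx
        rcases hx with rfl | rfl
        · simp
        · simp [hψ, hs]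
      have h3 : (2 : ℝ) ≤ ((univ.filter (fun i' => ψ i' = ψ i)).filter
        (fun i' => (Sum.inl (s i') : S ⊕ T) = Sum.inr (t i) ∨
          (Sum.inr (t i') : S ⊕ T) = Sum.inr (t i))).card := by exact_mod_cast h2
      linarith
  · intro r c'
    have h1 := (abs_le.1 (hfirst (Sum.inl r) c')).1
    simp only [Sum.elim_inl] at h1
    have h2 : ∑ v, G r v * (if c' ∈ freeC s t ψ v then (1 : ℝ) else 0) =
        ∑ v, G r v * ((freeC s t ψ v).card / Q) - ∑ v, G r v *
          (dg s t (univ.filter (fun i => ψ i = c')) v - dg s t univ v / Q) := by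
      rw [← sum_sub_distrib]
      refine sum_congr rfl fun v _ => ?_
      rw [hind, hfc]
      field_simp
      ring
    rw [h2]
    linarith
  · intro x
    set f : Col → ℝ := fun c' => if c' ∈ freeC s t ψ x then (1 : ℝ) else 0 with hf
    have hf0 : ∀ c', 0 ≤ f c' := fun c' => by simp only [hf]; split_ifs <;> norm_num
    have hf1 : ∀ c', f c' ≤ 1 := fun c' => by simp only [hf]; split_ifs <;> norm_num
    set n : ℝ := ∑ c', f c' with hn
    have hncard : ((freeC s t ψ x).card : ℝ) = n := by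
      rw [hn]
      simp only [hf]
      rw [sum_ite_mem, univ_inter, sum_const, nsmul_eq_mul, mul_one]
    have hn0 : 0 ≤ n := sum_nonneg fun _ _ => hf0 _
    have hnQ : n ≤ Q := by
      rw [← hncard, hfc]
      linarith [hd0 x]
    set P : S ⊕ T → Col → ℝ := fun v c' => dg s t (univ.filter (fun i => ψ i = c')) v with hP
    have hP0 : ∀ v c', 0 ≤ P v c' := fun v c' => dg_nonneg _ _ _ _
    have hP1 : ∀ v c', P v c' ≤ 1 := hprop
    set d : S ⊕ T → ℝ := fun v => dg s t univ v with hd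
    set g : S ⊕ T → ℝ := fun v => ∑ c', f c' * P v c' with hg
    -- the intersection
    have hinter : ∀ v, ((freeC s t ψ x ∩ freeC s t ψ v).card : ℝ) = n - g v := by
      intro v
      have h1 : ((freeC s t ψ x ∩ freeC s t ψ v).card : ℝ) =
          ∑ c', f c' * (if c' ∈ freeC s t ψ v then (1 : ℝ) else 0) := by
        rw [card_eq_sum_ones]
        push_cast
        rw [← sum_subset (subset_univ (freeC s t ψ x ∩ freeC s t ψ v))]
        · refine sum_congr rfl fun c' hc' => ?_
          rw [mem_inter] at hc'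
          simp only [hf]
          rw [if_pos hc'.1, if_pos hc'.2, one_mul]
        · intro c' _ hc'
          rw [mem_inter, not_and_or] at hc'
          simp only [hf]
          rcases hc' with h | h
          · rw [if_neg h, zero_mul]
          · rw [if_neg h, mul_zero]
      rw [h1, hn, hg]
      simp only
      rw [← sum_sub_distrib]
      refine sum_congr rfl fun c' _ => ?_
      rw [hind]
      ring
    -- second moment
    set Z : ℝ := Λ * B with hZ
    set U : ℝ := ∑ v, a x v * d v ^ 2 with hU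
    have h4Q : (4 : ℝ) ^ R = Q ^ 2 := by
      rw [hQ, ← pow_mul, mul_comm, pow_mul]; norm_num
    have hm1 : ∑ v, a x v * g v ^ 2 ≤ n ^ 2 * (U / Q ^ 2 + 6 * err) + (Q - 1) / 2 * Z + n * Z := by
      have h1 := hsec x f hf0 hf1
      rw [h4Q] at h1
      have h2 : ∑ v, a x v * g v ^ 2 = ∑ c', f c' ^ 2 * ∑ v, a x v * P v c' ^ 2 +
          ∑ c', ∑ c'', (if c' = c'' then 0 else f c' * f c'' * ∑ v, a x v * (P v c' * P v c'')) := by
        have h3 : ∀ c', ∑ c'', (if c' = c'' then 0 else f c' * f c'' * ∑ v, a x v *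
            (P v c' * P v c'')) = ∑ c'', f c' * f c'' * ∑ v, a x v * (P v c' * P v c'') -
            f c' * f c' * ∑ v, a x v * (P v c' * P v c') := by
          intro c'
          rw [eq_sub_iff_add_eq, ← sum_erase_add _ _ (mem_univ c')]
          rw [if_pos rfl, add_zero, ← sum_erase_add (univ : Finset Col)
            (fun c'' => f c' * f c'' * ∑ v, a x v * (P v c' * P v c'')) (mem_univ c')]
          congr 1
          refine sum_congr rfl fun c'' hc'' => ?_
          rw [if_neg (fun h => (mem_erase.1 hc'').1 h.symm)]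
        simp only [h3]
        rw [sum_sub_distrib]
        have h4 : ∑ c', f c' ^ 2 * ∑ v, a x v * P v c' ^ 2 =
            ∑ c', f c' * f c' * ∑ v, a x v * (P v c' * P v c') := by
          refine sum_congr rfl fun c' _ => ?_
          rw [pow_two]
          congr 1
          refine sum_congr rfl fun v _ => ?_
          rw [pow_two]
        rw [h4, add_sub_cancel]
        simp only [hg]
        simp_rw [pow_two, sum_mul_sum, mul_sum]
        rw [sum_comm]
        refine sum_congr rfl fun c' _ => ?_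
        rw [sum_comm]
        refine sum_congr rfl fun c'' _ => ?_
        refine sum_congr rfl fun v _ => ?_
        ring
      have h5 : ∑ c', f c' ^ 2 * ∑ v, a x v * P v c' ^ 2 ≤ n * Z := by
        rw [hn, sum_mul]
        refine sum_le_sum fun c' _ => ?_
        have h6 : f c' ^ 2 ≤ f c' := by
          rw [pow_two]
          exact mul_le_of_le_one_left (hf0 c') (hf1 c')
        have h7 : ∑ v, a x v * P v c' ^ 2 ≤ Z := by
          refine le_trans (sum_le_sum fun v _ => ?_) (harow x)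
          have : P v c' ^ 2 ≤ 1 := pow_le_one₀ (hP0 v c') (hP1 v c')
          calc a x v * P v c' ^ 2 ≤ a x v * 1 := mul_le_mul_of_nonneg_left this (ha0 x v)
            _ = a x v := mul_one _
        exact mul_le_mul h6 h7 (sum_nonneg fun v _ => mul_nonneg (ha0 x v) (by positivity))
          (hf0 c')
      have h8 : n ^ 2 * (U / Q ^ 2 + (6 - 2 / Q) * err) ≤ n ^ 2 * (U / Q ^ 2 + 6 * err) := by
        refine mul_le_mul_of_nonneg_left ?_ (sq_nonneg n)
        have h1 : 0 ≤ 2 / Q * err := by positivity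
        have h2 : (6 - 2 / Q) * err = 6 * err - 2 / Q * err := by ring
        rw [h2]
        linarith
      rw [h2]
      linarith
    have hm2 : n * (U / Q ^ 2) - n * (2 * err) ≤ ∑ v, a x v * (d v / Q) * g v := by
      have h1 : ∑ v, a x v * (d v / Q) * g v = ∑ c', f c' * ∑ v, a x v * (d v / Q) * P v c' := by
        simp only [hg]
        simp_rw [mul_sum]
        rw [sum_comm]
        refine sum_congr rfl fun c' _ => sum_congr rfl fun v _ => ?_
        ring
      rw [h1, hn, sum_mul, sum_mul, ← sum_sub_distrib]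
      refine sum_le_sum fun c' _ => ?_
      rw [← mul_sub]
      refine mul_le_mul_of_nonneg_left ?_ (hf0 c')
      have h2 := (abs_le.1 (hfirst (Sum.inr x) c')).1
      simp only [Sum.elim_inr] at h2
      have h3 : ∑ v, a x v * (d v / Q) * (P v c' - d v / Q) =
          ∑ v, a x v * (d v / Q) * P v c' - U / Q ^ 2 := by
        rw [hU, sum_div, ← sum_sub_distrib]
        refine sum_congr rfl fun v _ => ?_
        field_simp
      have h4 : -(2 * err) ≤ ∑ v, a x v * (d v / Q) * (P v c' - d v / Q) := by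
        refine le_trans ?_ h2
        linarith
      rw [h3] at h4
      linarith
    have hvar : ∑ v, a x v * (g v - n * d v / Q) ^ 2 ≤ Q ^ 2 * (10 * err) + 3 / 2 * Q * Z := by
      have h0 : ∀ N : ℝ, ∑ v, a x v * (g v - N * d v / Q) ^ 2 = ∑ v, a x v * g v ^ 2 -
          2 * N * ∑ v, a x v * (d v / Q) * g v + N ^ 2 * (U / Q ^ 2) := by
        intro N
        rw [hU, sum_div, mul_sum, mul_sum, ← sum_sub_distrib, ← sum_add_distrib]
        refine sum_congr rfl fun v _ => ?_
        field_simp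
        ring
      rw [h0 n]
      have h2 := mul_le_mul_of_nonneg_left hm2 (show 0 ≤ 2 * n by positivity)
      have h3 : n ^ 2 * (10 * err) ≤ Q ^ 2 * (10 * err) :=
        mul_le_mul_of_nonneg_right (pow_le_pow_left₀ hn0 hnQ 2) (by positivity)
      have hZ0 : 0 ≤ Z := by positivity
      have h4 : n * Z ≤ Q * Z := mul_le_mul_of_nonneg_right hnQ hZ0
      have h5 : (Q - 1) / 2 * Z ≤ Q / 2 * Z := mul_le_mul_of_nonneg_right (by linarith) hZ0
      have e1 : 2 * n * (n * (U / Q ^ 2) - n * (2 * err)) =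
          2 * (n ^ 2 * (U / Q ^ 2)) - 4 * (n ^ 2 * err) := by ring
      have e2 : n ^ 2 * (U / Q ^ 2 + 6 * err) = n ^ 2 * (U / Q ^ 2) + 6 * (n ^ 2 * err) := by ring
      have e3 : n ^ 2 * (10 * err) = 10 * (n ^ 2 * err) := by ring
      have e4 : 3 / 2 * Q * Z = Q / 2 * Z + Q * Z := by ring
      rw [e1] at h2
      rw [e2] at hm1
      rw [e3] at h3
      rw [e4]
      linarith
    -- Chebyshev
    set bad := univ.filter (fun v => ((freeC s t ψ x ∩ freeC s t ψ v).card : ℝ) <
          (freeC s t ψ x).card * (freeC s t ψ v).card / Q - θ * Q) with hbad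
    have hcheb : (∑ v ∈ bad, a x v) * (θ ^ 2 * Q ^ 2) ≤ ∑ v, a x v * (g v - n * d v / Q) ^ 2 := by
      rw [sum_mul]
      refine le_trans (sum_le_sum fun v hv => ?_) (sum_le_sum_of_subset_of_nonneg
        (subset_univ bad) fun v _ _ => mul_nonneg (ha0 x v) (sq_nonneg _))
      refine mul_le_mul_of_nonneg_left ?_ (ha0 x v)
      rw [hbad, mem_filter] at hv
      have h1 := hv.2
      rw [hinter, hncard, hfc] at h1
      have h2 : θ * Q < g v - n * d v / Q := by
        have h3 : n * (Q - dg s t univ v) / Q = n - n * d v / Q := by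
          rw [mul_sub, sub_div, mul_div_assoc, div_self hQ0.ne', mul_one]
        rw [h3] at h1
        linarith
      have h4 : 0 ≤ θ * Q := by positivity
      calc θ ^ 2 * Q ^ 2 = (θ * Q) ^ 2 := by ring
        _ ≤ (g v - n * d v / Q) ^ 2 := by
            refine pow_le_pow_left₀ h4 h2.le 2
    have h1 : (∑ v ∈ bad, a x v) * (θ ^ 2 * Q ^ 2) ≤ Q ^ 2 * (10 * err) + 3 / 2 * Q * Z :=
      hcheb.trans hvar
    have h2 : Q ^ 2 * (10 * err) + 3 / 2 * Q * Z ≤ (θ * B) * (θ ^ 2 * Q ^ 2) := by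
      have h3 : 10 * err ≤ θ ^ 3 / 2 * B := by
        have h1 := mul_le_mul_of_nonneg_right hκ2 hB.le
        linarith
      have h4 : Q ^ 2 * (10 * err) ≤ Q ^ 2 * (θ ^ 3 / 2 * B) :=
        mul_le_mul_of_nonneg_left h3 (by positivity)
      have h5 : 3 / 2 * Q * Z ≤ Q ^ 2 * (θ ^ 3 / 2 * B) := by
        rw [hZ]
        have h6 : 3 * Λ * (Q * B) ≤ Q * θ ^ 3 * (Q * B) :=
          mul_le_mul_of_nonneg_right hQb (by positivity)
        have h7 : 3 / 2 * Q * (Λ * B) = (3 * Λ * (Q * B)) / 2 := by ring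
        have h8 : Q ^ 2 * (θ ^ 3 / 2 * B) = (Q * θ ^ 3 * (Q * B)) / 2 := by ring
        rw [h7, h8]
        linarith
      calc Q ^ 2 * (10 * err) + 3 / 2 * Q * Z ≤ Q ^ 2 * (θ ^ 3 / 2 * B) + Q ^ 2 * (θ ^ 3 / 2 * B) :=
            add_le_add h4 h5
        _ = (θ * B) * (θ ^ 2 * Q ^ 2) := by ring
    exact le_of_mul_le_mul_right (h1.trans h2) (by positivity)

end Pool.Agent.MP2237
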