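import Mathlib
import Pool.Agent.MP_2237f3_co.Rounding

set_option autoImplicit false

namespace Pool.Agent.MP2237

open Finset

/-- Shifts of the columns can be chosen so that all rows are balanced. -/
theorem balance (q : ℕ) [NeZero q] (err : ℝ) (herr : 0 < err) :
    ∃ η : ℝ, 0 < η ∧ ∀ (U V E κ : Type) [Fintype U] [DecidableEq U] [Fintype V] [DecidableEq V]
      [Fintype E] [DecidableEq E] [Fintype κ] [DecidableEq κ] (su : E → U) (tv : E → V) (cl : E → κ)
      (a : E → ℝ) (G : E → Fin q → ℝ) (B : ℝ), 0 < B → (∀ e, 0 ≤ a e) →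
      (∀ v, ∑ e ∈ univ.filter (fun e => tv e = v), a e ≤ B) →
      (∀ u, ∑ e ∈ univ.filter (fun e => su e = u), a e ≤ B) →
      (∀ u v, ∑ e ∈ univ.filter (fun e => su e = u ∧ tv e = v), a e ≤ η * B) →
      (∀ e x, 0 ≤ G e x) → (∀ e, ∑ x, G e x = 1) →
      ∃ x : V → Fin q, ∀ u k p,
        ∑ e ∈ univ.filter (fun e => su e = u ∧ cl e = k), a e * G e (p + x (tv e)) ≤
          (1 / q) * ∑ e ∈ univ.filter (fun e => su e = u ∧ cl e = k), a e + err * B := by
  have hq0 : (0 : ℝ) < q := by exact_mod_cast Nat.pos_of_ne_zero (NeZero.ne q)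
  set ε1 : ℝ := min 1 (err / 2) with hε1
  have hε10 : 0 < ε1 := lt_min one_pos (by positivity)
  obtain ⟨C, hC0, hC⟩ := rounding ε1 hε10 (min_le_left _ _)
  set y : ℝ := err / (2 * (C + 1)) with hy
  have hy0 : 0 < y := by positivity
  refine ⟨min 1 (y ^ 2 / q), lt_min one_pos (by positivity), ?_⟩
  intro U V E κ _ _ _ _ _ _ _ _ su tv cl a G B hB ha hcolB hrowB hmult hG0 hG1
  set η : ℝ := min 1 (y ^ 2 / q) with hη
  have hη0 : 0 < η := lt_min one_pos (by positivity)
  have hη1 : η ≤ 1 := min_le_left _ _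
  have hη2 : η * q ≤ y ^ 2 := by
    have := min_le_right 1 (y ^ 2 / (q : ℝ))
    rw [le_div_iff₀ hq0] at this
    exact this
  have hGle : ∀ e x, G e x ≤ 1 := fun e x => by
    rw [← hG1 e]
    exact single_le_sum (f := G e) (fun x _ => hG0 e x) (mem_univ x)
  have hq1 : (1 : ℝ) ≤ q := by exact_mod_cast Nat.pos_of_ne_zero (NeZero.ne q)
  obtain ⟨x, -, hx⟩ := hC V (Fin q) (U × κ × Fin q) (fun _ _ => 1 / q)
    (fun r v => ∑ e ∈ univ.filter (fun e => su e = r.1 ∧ tv e = v ∧ cl e = r.2.1), a e)
    (fun r v x => ∑ e ∈ univ.filter (fun e => su e = r.1 ∧ tv e = v ∧ cl e = r.2.1),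
      a e * G e (r.2.2 + x)) (η * B) (q * B) (fun _ _ => by positivity)
    (fun _ => by rw [sum_const, card_univ, Fintype.card_fin, nsmul_eq_mul]; field_simp)
    (fun r v x => sum_nonneg fun e _ => mul_nonneg (ha e) (hG0 _ _))
    (fun r v x => sum_le_sum fun e _ => mul_le_of_le_one_right (ha e) (hGle _ _))
    (fun r v => by
      refine le_trans (sum_le_sum_of_subset_of_nonneg ?_ fun e _ _ => ha e) (hmult r.1 v)
      intro e he
      simp only [mem_filter, mem_univ, true_and] at he ⊢
      exact ⟨he.1, he.2.1⟩)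
    (fun v => by
      rw [Fintype.sum_prod_type]
      simp only
      have h1 : ∀ u : U, ∑ kp : κ × Fin q,
          ∑ e ∈ univ.filter (fun e => su e = u ∧ tv e = v ∧ cl e = kp.1), a e =
          q * ∑ e ∈ univ.filter (fun e => su e = u ∧ tv e = v), a e := by
        intro u
        rw [Fintype.sum_prod_type_right]
        simp only
        rw [sum_const, card_univ, Fintype.card_fin, nsmul_eq_mul]
        congr 1
        rw [← sum_fiberwise (univ.filter (fun e => su e = u ∧ tv e = v)) cl a]
        refine sum_congr rfl fun k _ => sum_congr ?_ fun _ _ => rfl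
        ext e
        simp only [mem_filter, mem_univ, true_and, and_assoc]
      simp only [h1]
      rw [← mul_sum]
      refine mul_le_mul_of_nonneg_left ?_ hq0.le
      refine le_trans (le_of_eq ?_) (hcolB v)
      rw [← sum_fiberwise (univ.filter (fun e => tv e = v)) su a]
      refine sum_congr rfl fun u _ => sum_congr ?_ fun _ _ => rfl
      ext e
      simp only [mem_filter, mem_univ, true_and]
      exact and_comm)
    (by positivity) (by nlinarith)
  refine ⟨x, fun u k p => ?_⟩
  have h1 := hx (u, k, p)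
  simp only at h1
  have hfib : ∀ f : E → ℝ, ∑ v, ∑ e ∈ univ.filter (fun e => su e = u ∧ tv e = v ∧ cl e = k), f e =
      ∑ e ∈ univ.filter (fun e => su e = u ∧ cl e = k), f e := by
    intro f
    rw [← sum_fiberwise (univ.filter (fun e => su e = u ∧ cl e = k)) tv f]
    refine sum_congr rfl fun v _ => sum_congr ?_ fun _ _ => rfl
    ext e
    simp only [mem_filter, mem_univ, true_and]
    tauto
  have e1 : ∑ v, ∑ e ∈ univ.filter (fun e => su e = u ∧ tv e = v ∧ cl e = k),
      a e * G e (p + x v) =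
      ∑ e ∈ univ.filter (fun e => su e = u ∧ cl e = k), a e * G e (p + x (tv e)) := by
    rw [← hfib]
    refine sum_congr rfl fun v _ => sum_congr rfl fun e he => ?_
    simp only [mem_filter, mem_univ, true_and] at he
    rw [he.2.1]
  have e2 : ∑ v : V, ∑ y : Fin q, (1 : ℝ) / q * ∑ e ∈ univ.filter
      (fun e => su e = u ∧ tv e = v ∧ cl e = k), a e * G e (p + y) =
      (1 / q) * ∑ e ∈ univ.filter (fun e => su e = u ∧ cl e = k), a e := by
    rw [← hfib, mul_sum]
    refine sum_congr rfl fun v _ => ?_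
    rw [← mul_sum, sum_comm]
    congr 1
    refine sum_congr rfl fun e _ => ?_
    rw [← mul_sum]
    have : ∑ y : Fin q, G e (p + y) = 1 := by
      rw [← hG1 e]
      exact Equiv.sum_comp (Equiv.addLeft p) (G e)
    rw [this, mul_one]
  rw [e1, e2, hfib a] at h1
  have e3 : ε1 * ∑ e ∈ univ.filter (fun e => su e = u ∧ cl e = k), a e ≤ err / 2 * B := by
    have h2 : ∑ e ∈ univ.filter (fun e => su e = u ∧ cl e = k), a e ≤ B := by
      refine le_trans (sum_le_sum_of_subset_of_nonneg ?_ fun e _ _ => ha e) (hrowB u)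
      intro e he
      simp only [mem_filter, mem_univ, true_and] at he ⊢
      exact he.1
    calc ε1 * ∑ e ∈ univ.filter (fun e => su e = u ∧ cl e = k), a e ≤ ε1 * B :=
          mul_le_mul_of_nonneg_left h2 hε10.le
      _ ≤ err / 2 * B := mul_le_mul_of_nonneg_right (min_le_right _ _) hB.le
  have e4 : C * Real.sqrt (η * B * (q * B)) ≤ err / 2 * B := by
    have h3 : Real.sqrt (η * B * (q * B)) ≤ y * B := by
      rw [show y * B = Real.sqrt ((y * B) ^ 2) from (Real.sqrt_sq (by positivity)).symm]
      refine Real.sqrt_le_sqrt ?_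
      have : η * B * (q * B) = (η * q) * (B * B) := by ring
      rw [this, mul_pow, pow_two B]
      exact mul_le_mul_of_nonneg_right hη2 (by positivity)
    calc C * Real.sqrt (η * B * (q * B)) ≤ (C + 1) * (y * B) := by
          refine mul_le_mul (by linarith) h3 (Real.sqrt_nonneg _) (by linarith)
      _ = err / 2 * B := by
          rw [hy]
          field_simp
  linarith

end Pool.Agent.MP2237
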