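import Mathlib

set_option autoImplicit false

namespace Pool.Agent.MP2237

open Finset

/-- König's theorem for regular bipartite multigraphs. -/
theorem konig_regular (l : ℕ) : ∀ {E V W : Type*} [Fintype E] [DecidableEq E] [Fintype V]
    [DecidableEq V] [Fintype W] [DecidableEq W] (s : E → V) (t : E → W)
    (_ : ∀ v, (univ.filter (fun e => s e = v)).card = l)
    (_ : ∀ w, (univ.filter (fun e => t e = w)).card = l),
    ∃ c : E → Fin l, ∀ e e', e ≠ e' → c e = c e' → s e ≠ s e' ∧ t e ≠ t e' := by
  induction l with
  | zero =>
    intro E V W _ _ _ _ _ _ s t hs _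
    have hE : IsEmpty E := by
      refine ⟨fun e => ?_⟩
      have h := hs (s e)
      rw [Finset.card_eq_zero] at h
      have : e ∈ univ.filter (fun e' => s e' = s e) := by simp
      rw [h] at this
      simp at this
    exact ⟨fun e => hE.elim e, fun e => hE.elim e⟩
  | succ l ih =>
    intro E V W _ _ _ _ _ _ s t hs ht
    -- counting
    have hcS : ∀ S : Finset V, (univ.filter (fun e => s e ∈ S)).card = (l + 1) * S.card := by
      intro S
      rw [Finset.card_eq_sum_card_fiberwise (f := s) (t := S) (by
        intro e he
        simpa using he)]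
      have : ∀ v ∈ S, ((univ.filter (fun e => s e ∈ S)).filter (fun e => s e = v)).card = l + 1 := by
        intro v hv
        rw [← hs v, Finset.filter_filter]
        congr 1
        ext e
        simp only [Finset.mem_filter, Finset.mem_univ, true_and]
        constructor
        · exact fun h => h.2
        · rintro rfl
          exact ⟨hv, rfl⟩
      rw [Finset.sum_congr rfl this, Finset.sum_const, smul_eq_mul, mul_comm]
    have hcT : ∀ S : Finset W, (univ.filter (fun e => t e ∈ S)).card = (l + 1) * S.card := by
      intro S
      rw [Finset.card_eq_sum_card_fiberwise (f := t) (t := S) (by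
        intro e he
        simpa using he)]
      have : ∀ v ∈ S, ((univ.filter (fun e => t e ∈ S)).filter (fun e => t e = v)).card = l + 1 := by
        intro v hv
        rw [← ht v, Finset.filter_filter]
        congr 1
        ext e
        simp only [Finset.mem_filter, Finset.mem_univ, true_and]
        constructor
        · exact fun h => h.2
        · rintro rfl
          exact ⟨hv, rfl⟩
      rw [Finset.sum_congr rfl this, Finset.sum_const, smul_eq_mul, mul_comm]
    have hcard : Fintype.card V = Fintype.card W := by
      have h1 := hcS univ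
      have h2 := hcT univ
      simp only [Finset.mem_univ, Finset.filter_true] at h1 h2
      rw [h1] at h2
      exact Nat.eq_of_mul_eq_mul_left (Nat.succ_pos l) h2
    -- Hall
    obtain ⟨f, hfinj, hf⟩ := (Finset.all_card_le_biUnion_card_iff_exists_injective
      (fun v : V => (univ.filter (fun e => s e = v)).image t)).1 (by
        intro S
        have h1 : (univ.filter (fun e => s e ∈ S)) ⊆
            (univ.filter (fun e => t e ∈ S.biUnion
              (fun v : V => (univ.filter (fun e => s e = v)).image t))) := by
          intro e he
          simp only [Finset.mem_filter, Finset.mem_univ, true_and] at he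
          simp only [Finset.mem_filter, Finset.mem_univ, true_and, Finset.mem_biUnion,
            Finset.mem_image]
          exact ⟨s e, he, e, rfl, rfl⟩
        have h2 := Finset.card_le_card h1
        rw [hcS, hcT] at h2
        exact Nat.le_of_mul_le_mul_left h2 (Nat.succ_pos l))
    have hfbij : Function.Bijective f :=
      (Fintype.bijective_iff_injective_and_card f).2 ⟨hfinj, hcard⟩
    have hpick : ∀ v, ∃ e, s e = v ∧ t e = f v := by
      intro v
      have := hf v
      simp only [Finset.mem_image, Finset.mem_filter, Finset.mem_univ, true_and] at this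
      exact this
    choose pick hp1 hp2 using hpick
    have hpinj : Function.Injective pick := by
      intro v v' h
      rw [← hp1 v, ← hp1 v', h]
    -- remaining edges
    let E' := {e : E // ∀ v, e ≠ pick v}
    have hdec : DecidableEq E' := inferInstance
    have hE's : ∀ v, (univ.filter (fun e : E' => s e.1 = v)).card = l := by
      intro v
      have h1 : ((univ.filter (fun e : E' => s e.1 = v)).map (Function.Embedding.subtype _)) =
          (univ.filter (fun e => s e = v)).erase (pick v) := by
        ext e
        simp only [Finset.mem_map, Finset.mem_filter, Finset.mem_univ, true_and,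
          Function.Embedding.subtype_apply, Finset.mem_erase]
        constructor
        · rintro ⟨e', he', rfl⟩
          exact ⟨e'.2 v, he'⟩
        · rintro ⟨h2, h3⟩
          refine ⟨⟨e, ?_⟩, h3, rfl⟩
          intro v' hv'
          apply h2
          have : v' = v := by rw [← hp1 v', ← hv', h3]
          rw [hv', this]
      rw [← Finset.card_map (Function.Embedding.subtype _), h1, Finset.card_erase_of_mem, hs v]
      · rfl
      · simp [hp1]
    have hE't : ∀ w, (univ.filter (fun e : E' => t e.1 = w)).card = l := by
      intro w
      obtain ⟨v, rfl⟩ := hfbij.2 w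
      have h1 : ((univ.filter (fun e : E' => t e.1 = f v)).map (Function.Embedding.subtype _)) =
          (univ.filter (fun e => t e = f v)).erase (pick v) := by
        ext e
        simp only [Finset.mem_map, Finset.mem_filter, Finset.mem_univ, true_and,
          Function.Embedding.subtype_apply, Finset.mem_erase]
        constructor
        · rintro ⟨e', he', rfl⟩
          exact ⟨e'.2 v, he'⟩
        · rintro ⟨h2, h3⟩
          refine ⟨⟨e, ?_⟩, h3, rfl⟩
          intro v' hv'
          apply h2
          have : v' = v := by
            apply hfinj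
            rw [← hp2 v', ← hv', h3]
          rw [hv', this]
      rw [← Finset.card_map (Function.Embedding.subtype _), h1, Finset.card_erase_of_mem, ht (f v)]
      · rfl
      · simp [hp2]
    obtain ⟨c', hc'⟩ := ih (fun e : E' => s e.1) (fun e : E' => t e.1) hE's hE't
    refine ⟨fun e => if h : ∀ v, e ≠ pick v then (c' ⟨e, h⟩).castSucc else Fin.last l, ?_⟩
    intro e e' hne hcc
    by_cases h : ∀ v, e ≠ pick v
    · by_cases h' : ∀ v, e' ≠ pick v
      · simp only [dif_pos h, dif_pos h'] at hcc
        have h3 := Fin.castSucc_injective l hcc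
        exact hc' ⟨e, h⟩ ⟨e', h'⟩ (fun h4 => hne (congrArg Subtype.val h4)) h3
      · simp only [dif_pos h, dif_neg h'] at hcc
        exact absurd hcc (Fin.castSucc_lt_last _).ne
    · by_cases h' : ∀ v, e' ≠ pick v
      · simp only [dif_neg h, dif_pos h'] at hcc
        exact absurd hcc.symm (Fin.castSucc_lt_last _).ne
      · push Not at h h'
        obtain ⟨v, rfl⟩ := h
        obtain ⟨v', rfl⟩ := h'
        have hvv : v ≠ v' := fun h => hne (congrArg pick h)
        refine ⟨?_, ?_⟩
        · rw [hp1, hp1]; exact hvv
        · rw [hp2, hp2]; exact fun h => hvv (hfinj h)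

theorem konig_fintype {E A B : Type*} [Fintype E] [DecidableEq E] [Fintype A] [DecidableEq A]
    [Fintype B] [DecidableEq B]
    (s : E → A) (t : E → B) (l : ℕ)
    (hs : ∀ a, (univ.filter (fun e => s e = a)).card ≤ l)
    (ht : ∀ a, (univ.filter (fun e => t e = a)).card ≤ l) :
    ∃ c : E → Fin l, ∀ e e', e ≠ e' → c e = c e' → s e ≠ s e' ∧ t e ≠ t e' := by
  classical
  let dA : A → ℕ := fun a => (univ.filter (fun e => s e = a)).card
  let dB : B → ℕ := fun b => (univ.filter (fun e => t e = b)).card
  let E2 := (E ⊕ E) ⊕ ((Σ a : A, Fin (l - dA a)) ⊕ (Σ b : B, Fin (l - dB b)))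
  let s2 : E2 → A ⊕ B := fun x => match x with
    | Sum.inl (Sum.inl e) => Sum.inl (s e)
    | Sum.inl (Sum.inr e) => Sum.inr (t e)
    | Sum.inr (Sum.inl y) => Sum.inl y.1
    | Sum.inr (Sum.inr y) => Sum.inr y.1
  let t2 : E2 → B ⊕ A := fun x => match x with
    | Sum.inl (Sum.inl e) => Sum.inl (t e)
    | Sum.inl (Sum.inr e) => Sum.inr (s e)
    | Sum.inr (Sum.inl y) => Sum.inr y.1
    | Sum.inr (Sum.inr y) => Sum.inl y.1
  have hdA : ∀ a, ∑ e : E, (if s e = a then 1 else 0) = dA a := by
    intro a
    rw [← Finset.card_filter]
  have hdB : ∀ b, ∑ e : E, (if t e = b then 1 else 0) = dB b := by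
    intro b
    rw [← Finset.card_filter]
  have hsA : ∀ a, ∑ y : (Σ a : A, Fin (l - dA a)), (if y.1 = a then 1 else 0) = l - dA a := by
    intro a
    rw [Fintype.sum_sigma, Finset.sum_eq_single a]
    · simp
    · intro x _ hx
      simp [hx]
    · intro h
      exact absurd (Finset.mem_univ a) h
  have hsB : ∀ b, ∑ y : (Σ b : B, Fin (l - dB b)), (if y.1 = b then 1 else 0) = l - dB b := by
    intro b
    rw [Fintype.sum_sigma, Finset.sum_eq_single b]
    · simp
    · intro x _ hx
      simp [hx]
    · intro h
      exact absurd (Finset.mem_univ b) h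
  have h1 : ∀ v, (univ.filter (fun e => s2 e = v)).card = l := by
    intro v
    rw [Finset.card_filter, Fintype.sum_sum_type, Fintype.sum_sum_type, Fintype.sum_sum_type]
    rcases v with a | b
    · simp only [s2, Sum.inl.injEq, reduceCtorEq, if_false, Finset.sum_const_zero, add_zero]
      rw [hdA, hsA]
      have := hs a
      change dA a ≤ l at this
      omega
    · simp only [s2, Sum.inr.injEq, reduceCtorEq, if_false, Finset.sum_const_zero, zero_add]
      rw [hdB, hsB]
      have := ht b
      change dB b ≤ l at this
      omega
  have h2 : ∀ w, (univ.filter (fun e => t2 e = w)).card = l := by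
    intro w
    rw [Finset.card_filter, Fintype.sum_sum_type, Fintype.sum_sum_type, Fintype.sum_sum_type]
    rcases w with b | a
    · simp only [t2, Sum.inl.injEq, reduceCtorEq, if_false, Finset.sum_const_zero, zero_add,
        add_zero]
      rw [hdB, hsB]
      have := ht b
      change dB b ≤ l at this
      omega
    · simp only [t2, Sum.inr.injEq, reduceCtorEq, if_false, Finset.sum_const_zero, zero_add,
        add_zero]
      rw [hdA, hsA]
      have := hs a
      change dA a ≤ l at this
      omega
  obtain ⟨c, hc⟩ := konig_regular l s2 t2 h1 h2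
  refine ⟨fun e => c (Sum.inl (Sum.inl e)), fun e e' hne hcc => ?_⟩
  have h3 := hc (Sum.inl (Sum.inl e)) (Sum.inl (Sum.inl e')) (fun h =>
    hne (Sum.inl_injective (Sum.inl_injective h))) hcc
  refine ⟨fun h => h3.1 ?_, fun h => h3.2 ?_⟩
  · simp only [s2, h]
  · simp only [t2, h]

/-- König's edge colouring theorem for finite bipartite multigraphs: if every vertex has degree
at most `l` then the edges can be coloured with `l` colours, adjacent edges receiving distinct
colours. -/
theorem konig {E A B : Type*} [Fintype E] [DecidableEq E] [DecidableEq A] [DecidableEq B]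
    (s : E → A) (t : E → B) (l : ℕ)
    (hs : ∀ a, (univ.filter (fun e => s e = a)).card ≤ l)
    (ht : ∀ a, (univ.filter (fun e => t e = a)).card ≤ l) :
    ∃ c : E → Fin l, ∀ e e', e ≠ e' → c e = c e' → s e ≠ s e' ∧ t e ≠ t e' := by
  classical
  let s' : E → {a // a ∈ univ.image s} := fun e => ⟨s e, by simp⟩
  let t' : E → {b // b ∈ univ.image t} := fun e => ⟨t e, by simp⟩
  obtain ⟨c, hc⟩ := konig_fintype s' t' l (fun a => by
      refine le_trans (le_of_eq ?_) (hs a.1)
      congr 1
      ext e
      simp [s', Subtype.ext_iff]) (fun b => by
      refine le_trans (le_of_eq ?_) (ht b.1)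
      congr 1
      ext e
      simp [t', Subtype.ext_iff])
  refine ⟨c, fun e e' hne hcc => ?_⟩
  have := hc e e' hne hcc
  simpa [s', t', Subtype.ext_iff] using this

end Pool.Agent.MP2237
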