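import Mathlib

set_option autoImplicit false

namespace Pool.Agent.MP2237

open Finset

/-- ranking by decreasing weight -/
theorem exists_rank {E : Type*} [DecidableEq E] (w : E → ℝ) (X : Finset E) :
    ∃ rk : E → ℕ, (∀ e ∈ X, rk e < X.card) ∧ Set.InjOn rk X ∧
      (∀ e ∈ X, ∀ e' ∈ X, rk e < rk e' → w e' ≤ w e) := by
  induction X using Finset.induction_on_min_value w with
  | empty => exact ⟨fun _ => 0, by simp, by simp, by simp⟩
  | insert a s ha hmin ih =>
    obtain ⟨rk, h1, h2, h3⟩ := ih
    have key : ∀ x ∈ s, Function.update rk a s.card x = rk x := fun x hx =>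
      Function.update_of_ne (fun h : x = a => ha (h ▸ hx)) _ _
    refine ⟨Function.update rk a s.card, ?_, ?_, ?_⟩
    · intro e he
      rw [card_insert_of_notMem ha]
      rcases mem_insert.1 he with rfl | he
      · simp
      · rw [key e he]
        exact (h1 e he).trans (Nat.lt_succ_self _)
    · intro e he e' he' h
      rcases mem_insert.1 (mem_coe.1 he) with rfl | he1 <;>
        rcases mem_insert.1 (mem_coe.1 he') with rfl | he1'
      · rfl
      · rw [key e' he1', Function.update_self] at h
        exact absurd (h1 e' he1') (by omega)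
      · rw [key e he1, Function.update_self] at h
        exact absurd (h1 e he1) (by omega)
      · rw [key e he1, key e' he1'] at h
        exact h2 he1 he1' h
    · intro e he e' he' h
      rcases mem_insert.1 he with rfl | he1 <;> rcases mem_insert.1 he' with rfl | he1'
      · exact le_rfl
      · rw [key e' he1', Function.update_self] at h
        exact absurd (h1 e' he1') (by omega)
      · exact hmin e he1
      · rw [key e he1, key e' he1'] at h
        exact h3 e he1 e' he1' h

/-- a block of `l` consecutive ranks has at most `l` elements -/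
theorem card_block_le {E : Type*} [DecidableEq E] (X : Finset E) (rk : E → ℕ)
    (h2 : Set.InjOn rk X) (l k : ℕ) (hl : 0 < l) :
    (X.filter (fun e => rk e / l = k)).card ≤ l := by
  have : (X.filter (fun e => rk e / l = k)).card ≤ (Finset.Ico (k * l) ((k + 1) * l)).card := by
    refine card_le_card_of_injOn rk ?_ ?_
    · intro e he
      rw [mem_coe, mem_filter] at he
      rw [mem_coe, mem_Ico, ← he.2]
      exact ⟨Nat.div_mul_le_self _ _, by
        rw [mul_comm]; exact Nat.lt_mul_div_succ _ hl⟩
    · intro e he e' he' h
      rw [mem_coe, mem_filter] at he he'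
      exact h2 he.1 he'.1 h
  simpa [add_mul] using this

/-- a block which is not the last one has exactly `l` elements -/
theorem card_block_eq {E : Type*} [DecidableEq E] (X : Finset E) (rk : E → ℕ)
    (h1 : ∀ e ∈ X, rk e < X.card) (h2 : Set.InjOn rk X) (l k : ℕ)
    (hk : (k + 1) * l ≤ X.card) (hl : 0 < l) :
    (X.filter (fun e => rk e / l = k)).card = l := by
  refine le_antisymm (card_block_le X rk h2 l k hl) ?_
  have himg : X.image rk = range X.card := by
    refine eq_of_subset_of_card_le ?_ ?_
    · intro n hn
      obtain ⟨e, he, rfl⟩ := mem_image.1 hn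
      exact mem_range.2 (h1 e he)
    · rw [card_range, card_image_of_injOn h2]
  have : (Finset.Ico (k * l) ((k + 1) * l)).card ≤
      ((X.filter (fun e => rk e / l = k)).image rk).card := by
    refine card_le_card ?_
    intro n hn
    rw [mem_Ico] at hn
    have hn2 : n ∈ X.image rk := by
      rw [himg, mem_range]
      omega
    obtain ⟨e, he, rfl⟩ := mem_image.1 hn2
    refine mem_image.2 ⟨e, mem_filter.2 ⟨he, ?_⟩, rfl⟩
    exact Nat.div_eq_of_lt_le hn.1 hn.2
  have h3 := this.trans card_image_le
  simpa [add_mul] using h3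

/-- If a set is cut in blocks of `l` consecutive elements in order of decreasing weight, then any
selection of at most one element per block weighs at most the maximum plus the mean. -/
theorem block_bound {E : Type*} [DecidableEq E] (w : E → ℝ) (X : Finset E) (rk : E → ℕ)
    (h1 : ∀ e ∈ X, rk e < X.card) (h2 : Set.InjOn rk X)
    (h3 : ∀ e ∈ X, ∀ e' ∈ X, rk e < rk e' → w e' ≤ w e) (l : ℕ) (hl : 0 < l)
    (hw0 : ∀ e ∈ X, 0 ≤ w e) (δ : ℝ) (hδ0 : 0 ≤ δ) (hδ : ∀ e ∈ X, w e ≤ δ)
    (Y : Finset E) (hY : Y ⊆ X) (hinj : Set.InjOn (fun e => rk e / l) Y) :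
    ∑ e ∈ Y, w e ≤ δ + (∑ e ∈ X, w e) / l := by
  have hl' : (0 : ℝ) < l := by exact_mod_cast hl
  -- block sums
  let B : ℕ → ℝ := fun k => ∑ e ∈ X.filter (fun e => rk e / l = k), w e
  have hB0 : ∀ k, 0 ≤ B k := fun k => sum_nonneg fun e he => hw0 e (mem_filter.1 he).1
  have hstep : ∀ e ∈ Y, 0 < rk e / l → w e ≤ B (rk e / l - 1) / l := by
    intro e he hpos
    obtain ⟨k, hk⟩ : ∃ k, rk e / l = k + 1 := ⟨rk e / l - 1, by omega⟩
    rw [hk, Nat.add_sub_cancel]
    have hle : (k + 1) * l ≤ rk e := by rw [← hk]; exact Nat.div_mul_le_self _ _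
    have hcard := card_block_eq X rk h1 h2 l k (hle.trans (h1 e (hY he)).le) hl
    rw [le_div_iff₀ hl', mul_comm]
    have : ((X.filter (fun e => rk e / l = k)).card : ℝ) * w e ≤ B k := by
      rw [← nsmul_eq_mul]
      refine card_nsmul_le_sum _ _ _ fun e' he' => ?_
      rw [mem_filter] at he'
      refine h3 e' he'.1 e (hY he) ?_
      have : rk e' < (k + 1) * l := by
        rw [← he'.2, mul_comm]
        exact Nat.lt_mul_div_succ _ hl
      omega
    rwa [hcard] at this
  -- the elements of `Y` in block zero
  have hsplit : ∑ e ∈ Y, w e = ∑ e ∈ Y.filter (fun e => rk e / l = 0), w e +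
      ∑ e ∈ Y.filter (fun e => ¬ rk e / l = 0), w e := (sum_filter_add_sum_filter_not _ _ _).symm
  have hzero : ∑ e ∈ Y.filter (fun e => rk e / l = 0), w e ≤ δ := by
    have hc : (Y.filter (fun e => rk e / l = 0)).card ≤ 1 := by
      refine card_le_one.2 fun a ha b hb => ?_
      rw [mem_filter] at ha hb
      exact hinj ha.1 hb.1 (ha.2.trans hb.2.symm)
    rcases Nat.le_one_iff_eq_zero_or_eq_one.1 hc with h | h
    · rw [card_eq_zero.1 h, sum_empty]
      exact hδ0
    · obtain ⟨a, ha⟩ := card_eq_one.1 h
      rw [ha, sum_singleton]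
      have : a ∈ Y.filter (fun e => rk e / l = 0) := by rw [ha]; exact mem_singleton_self a
      exact hδ a (hY (mem_filter.1 this).1)
  have hrest : ∑ e ∈ Y.filter (fun e => ¬ rk e / l = 0), w e ≤ (∑ e ∈ X, w e) / l := by
    have hfib : ∑ e ∈ X, w e = ∑ k ∈ X.image (fun e => rk e / l), B k :=
      (sum_fiberwise_of_maps_to (fun e he => mem_image_of_mem _ he) _).symm
    calc ∑ e ∈ Y.filter (fun e => ¬ rk e / l = 0), w e
        ≤ ∑ e ∈ Y.filter (fun e => ¬ rk e / l = 0), B (rk e / l - 1) / l := by
          refine sum_le_sum fun e he => ?_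
          rw [mem_filter] at he
          exact hstep e he.1 (Nat.pos_of_ne_zero he.2)
      _ = (∑ e ∈ Y.filter (fun e => ¬ rk e / l = 0), B (rk e / l - 1)) / l := by
          rw [sum_div]
      _ ≤ (∑ e ∈ X, w e) / l := by
          refine div_le_div_of_nonneg_right ?_ hl'.le
          rw [hfib]
          rw [← sum_image (f := B) (g := fun e => rk e / l - 1)]
          · by_cases hne : ∀ k ∈ (Y.filter (fun e => ¬ rk e / l = 0)).image
                (fun e => rk e / l - 1), k ∈ X.image (fun e => rk e / l)
            · exact sum_le_sum_of_subset_of_nonneg hne fun k _ _ => hB0 k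
            · exfalso
              apply hne
              intro k hk
              obtain ⟨e, he, rfl⟩ := mem_image.1 hk
              rw [mem_filter] at he
              obtain ⟨j, hj⟩ : ∃ j, rk e / l = j + 1 := Nat.exists_eq_succ_of_ne_zero he.2
              have hle : (j + 1) * l ≤ rk e := by rw [← hj]; exact Nat.div_mul_le_self _ _
              have hcard := card_block_eq X rk h1 h2 l j (hle.trans (h1 e (hY he.1)).le) hl
              have : (X.filter (fun e => rk e / l = j)).Nonempty := by
                rw [← card_pos, hcard]; exact hl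
              obtain ⟨e', he'⟩ := this
              rw [mem_filter] at he'
              refine mem_image.2 ⟨e', he'.1, ?_⟩
              rw [he'.2, hj]
              rfl
          · intro a ha b hb hab
            rw [mem_coe, mem_filter] at ha hb
            refine hinj ha.1 hb.1 ?_
            obtain ⟨i, hi⟩ := Nat.exists_eq_succ_of_ne_zero ha.2
            obtain ⟨j, hj⟩ := Nat.exists_eq_succ_of_ne_zero hb.2
            simp only [hi, hj] at hab ⊢
            simpa using hab
  linarith

/-- Splitting of a vertex: the edges `X` at a vertex are distributed among sub-vertices (labelled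
by natural numbers), each receiving at most `l` edges, in such a way that any set with at most one
edge at each sub-vertex has total weight at most one. -/
theorem split {E : Type*} [DecidableEq E] (X : Finset E) (w : E → ℝ) (m : ℕ)
    (cls : E → Option (Fin m)) (n : Fin m → ℕ) (th : Fin m → ℝ) (r δ : ℝ) (l : ℕ) (hl : 0 < l)
    (hδ0 : 0 ≤ δ) (hth : ∀ i, 0 ≤ th i)
    (h1 : ∀ e ∈ X, ∀ i, cls e = some i → w e ≤ th i)
    (h2 : ∀ e ∈ X, cls e = none → w e ≤ δ) (hw0 : ∀ e ∈ X, 0 ≤ w e)
    (hcount : ∀ i, (X.filter (fun e => cls e = some i)).card ≤ n i * l)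
    (htiny : (∀ e ∈ X, cls e ≠ none) ∨
      (∑ e ∈ X.filter (fun e => cls e = none), w e ≤ (r + δ) * l ∧
        ∑ i, n i * th i + r + 2 * δ ≤ 1))
    (hcap : ∑ i, n i * th i ≤ 1) :
    ∃ f : E → ℕ, (∀ k, (X.filter (fun e => f e = k)).card ≤ l) ∧
      ∀ Y ⊆ X, Set.InjOn f Y → ∑ e ∈ Y, w e ≤ 1 := by
  classical
  have hl' : (0 : ℝ) < l := by exact_mod_cast hl
  choose rk hrk1 hrk2 hrk3 using fun c : Option (Fin m) =>
    exists_rank w (X.filter (fun e => cls e = c))
  let code : Option (Fin m) → ℕ := fun c => Encodable.encode c
  let f : E → ℕ := fun e => Nat.pair (code (cls e)) (rk (cls e) e / l)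
  refine ⟨f, ?_, ?_⟩
  · intro k
    rcases (X.filter (fun e => f e = k)).eq_empty_or_nonempty with h | ⟨e0, he0⟩
    · rw [h]; simp
    · rw [mem_filter] at he0
      refine le_trans (card_le_card ?_) (card_block_le (X.filter (fun e => cls e = cls e0))
        (rk (cls e0)) (hrk2 (cls e0)) l (rk (cls e0) e0 / l) hl)
      intro e he
      rw [mem_filter] at he
      have h3 : f e = f e0 := he.2.trans he0.2.symm
      have h4 := Nat.pair_eq_pair.1 h3
      have h5 : cls e = cls e0 := Encodable.encode_injective h4.1
      rw [mem_filter, mem_filter]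
      refine ⟨⟨he.1, h5⟩, ?_⟩
      have := h4.2
      rw [h5] at this
      exact this
  · intro Y hY hinj
    have hinj' : ∀ c, Set.InjOn (fun e => rk c e / l) (Y.filter (fun e => cls e = c)) := by
      intro c a ha b hb hab
      rw [mem_coe, mem_filter] at ha hb
      refine hinj ha.1 hb.1 ?_
      simp only [f, ha.2, hb.2]
      simp only at hab
      rw [hab]
    -- decomposition by classes
    have hdec : ∑ e ∈ Y, w e = ∑ e ∈ Y.filter (fun e => cls e = none), w e +
        ∑ i : Fin m, ∑ e ∈ Y.filter (fun e => cls e = some i), w e := by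
      rw [← sum_fiberwise Y cls w, Fintype.sum_option]
    have hlarge : ∀ i : Fin m, ∑ e ∈ Y.filter (fun e => cls e = some i), w e ≤ n i * th i := by
      intro i
      have hc : (Y.filter (fun e => cls e = some i)).card ≤ n i := by
        have : (Y.filter (fun e => cls e = some i)).card ≤ (range (n i)).card := by
          refine card_le_card_of_injOn (fun e => rk (some i) e / l) ?_ (hinj' (some i))
          intro e he
          rw [mem_coe, mem_filter] at he
          rw [mem_coe, mem_range]
          refine Nat.div_lt_of_lt_mul ?_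
          have h5 := hrk1 (some i) e (mem_filter.2 ⟨hY he.1, he.2⟩)
          calc _ < _ := h5
            _ ≤ n i * l := hcount i
            _ = l * n i := mul_comm _ _
        simpa using this
      calc ∑ e ∈ Y.filter (fun e => cls e = some i), w e
          ≤ ∑ e ∈ Y.filter (fun e => cls e = some i), th i := by
            refine sum_le_sum fun e he => ?_
            rw [mem_filter] at he
            exact h1 e (hY he.1) i he.2
        _ = (Y.filter (fun e => cls e = some i)).card * th i := by
            rw [sum_const, nsmul_eq_mul]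
        _ ≤ n i * th i := by
            refine mul_le_mul_of_nonneg_right ?_ (hth i)
            exact_mod_cast hc
    have hlarge' : ∑ i : Fin m, ∑ e ∈ Y.filter (fun e => cls e = some i), w e ≤
        ∑ i, n i * th i := sum_le_sum fun i _ => hlarge i
    rw [hdec]
    rcases htiny with ht | ⟨ht1, ht2⟩
    · have : Y.filter (fun e => cls e = none) = ∅ := by
        refine filter_eq_empty_iff.2 fun e he => ht e (hY he)
      rw [this, sum_empty]
      linarith
    · have hb := block_bound w (X.filter (fun e => cls e = none)) (rk none) (hrk1 none)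
        (hrk2 none) (hrk3 none) l hl (fun e he => hw0 e (mem_filter.1 he).1) δ hδ0
        (fun e he => h2 e (mem_filter.1 he).1 (mem_filter.1 he).2)
        (Y.filter (fun e => cls e = none)) (filter_subset_filter _ hY) (hinj' none)
      have : (∑ e ∈ X.filter (fun e => cls e = none), w e) / l ≤ r + δ := by
        rw [div_le_iff₀ hl']
        exact ht1
      linarith

end Pool.Agent.MP2237
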