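import Mathlib
import Pool.Agent.MP_2237f3_co.Rounding
import Pool.Agent.MP_2237f3_co.Split

set_option autoImplicit false

namespace Pool.Agent.MP2237

open Finset

/-- Structure of a vertex with edge set `F`: the edges of weight `> δ` are distributed in `m`
classes, there are `q` configurations, the configuration `p` having `n p i` slots of size `th i`
for the class `i` and room `r p` for the tiny edges (weight `≤ δ`); using every configuration
`h` times suffices for all edges. -/
structure VS {E : Type} [DecidableEq E] (q m : ℕ) (δ h : ℝ) (F : Finset E) (w : E → ℝ) where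
  cls : E → Option (Fin m)
  n : Fin q → Fin m → ℕ
  th : Fin m → ℝ
  r : Fin q → ℝ
  hcls : ∀ e ∈ F, (cls e = none ↔ w e ≤ δ)
  hth0 : ∀ i, 0 ≤ th i
  hth : ∀ e ∈ F, ∀ i, cls e = some i → w e ≤ th i
  hr0 : ∀ p, 0 ≤ r p
  hcap : ∀ p, ∑ i, n p i * th i ≤ 1
  hcap' : ∀ p, 0 < r p → ∑ i, n p i * th i + r p + 2 * δ ≤ 1
  hcount : ∀ i, ((F.filter (fun e => cls e = some i)).card : ℝ) ≤ h * ∑ p, (n p i : ℝ)
  htiny : ∑ e ∈ F.filter (fun e => cls e = none), w e ≤ h * ∑ p, r p
  hR : 1 / 2 ≤ ∑ p, r p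

/-- Sampling of `q` bins which represent the average bin well. -/
theorem sampling (m : ℕ) (A ε : ℝ) (hA : 0 < A) (hε : 0 < ε) :
    ∃ q0 : ℕ, ∀ q : ℕ, q0 ≤ q → ∀ (b : ℕ), 0 < b → ∀ φ : Option (Fin m) → Fin b → ℝ,
      (∀ k u, 0 ≤ φ k u) → (∀ k u, φ k u ≤ A) →
      ∃ u : Fin q → Fin b, ∀ k, (q : ℝ) / b * ∑ v, φ k v - ε * q ≤ ∑ p, φ k (u p) := by
  set ε' : ℝ := min 1 (ε / (2 * A)) with hε'
  have hε'0 : 0 < ε' := by
    rw [hε']; exact lt_min one_pos (by positivity)
  obtain ⟨C, hC0, hC⟩ := rounding ε' hε'0 (min_le_left _ _)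
  refine ⟨⌈C * Real.sqrt (A * ((m + 1) * A)) / (ε / 2)⌉₊, ?_⟩
  intro q hq b hb φ h0 hφA
  have hb' : (0 : ℝ) < b := by exact_mod_cast hb
  obtain ⟨u, -, hu⟩ := hC (Fin q) (Fin b) (Option (Fin m)) (fun _ _ => 1 / b) (fun _ _ => A)
    (fun k _ v => A - φ k v) A ((m + 1) * A) (fun _ _ => by positivity)
    (fun _ => by
      rw [sum_const, card_univ, Fintype.card_fin, nsmul_eq_mul]
      field_simp)
    (fun k _ v => by linarith [hφA k v]) (fun k _ v => by linarith [h0 k v]) (fun _ _ => le_rfl)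
    (fun _ => by
      rw [sum_const, card_univ, Fintype.card_option, Fintype.card_fin, nsmul_eq_mul]
      push_cast
      exact le_rfl)
    hA (by nlinarith [show (0 : ℝ) ≤ m from Nat.cast_nonneg m])
  refine ⟨u, fun k => ?_⟩
  have h1 := hu k
  have e1 : ∑ p : Fin q, (A - φ k (u p)) = q * A - ∑ p, φ k (u p) := by
    rw [sum_sub_distrib, sum_const, card_univ, Fintype.card_fin, nsmul_eq_mul]
  have e2 : ∑ _p : Fin q, ∑ v : Fin b, (1 : ℝ) / b * (A - φ k v) =
      q * A - q / b * ∑ v, φ k v := by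
    rw [sum_const, card_univ, Fintype.card_fin, nsmul_eq_mul, ← mul_sum, sum_sub_distrib,
      sum_const, card_univ, Fintype.card_fin, nsmul_eq_mul]
    field_simp
  have e3 : ∑ _p : Fin q, A = q * A := by
    rw [sum_const, card_univ, Fintype.card_fin, nsmul_eq_mul]
  rw [e1, e2, e3] at h1
  have e4 : ε' * (q * A) ≤ ε / 2 * q := by
    have : ε' ≤ ε / (2 * A) := min_le_right _ _
    calc ε' * (q * A) ≤ ε / (2 * A) * (q * A) :=
          mul_le_mul_of_nonneg_right this (by positivity)
      _ = ε / 2 * q := by field_simp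
  have e5 : C * Real.sqrt (A * ((m + 1) * A)) ≤ ε / 2 * q := by
    have := (Nat.le_ceil _).trans (Nat.cast_le.2 hq : (_ : ℝ) ≤ _)
    rw [div_le_iff₀ (by positivity)] at this
    linarith
  linarith

/-- Construction of the structure from given parameters. -/
theorem exists_VS_aux (ε δ η ε' : ℝ) (m q1 q2 q3 b : ℕ)
    (hε0 : 0 < ε) (hε1 : ε ≤ 1) (hδ0 : 0 < δ) (hδ : δ ≤ ε / 64) (hm : 0 < m)
    (hη : η = 1 / (δ * m)) (hη1 : η ≤ ε / 64) (hε'0 : 0 < ε') (hε' : ε' ≤ η * (ε / 64))
    (hq1 : 64 / ε ≤ q1) (hq2 : 4 * η * q1 ≤ q2) (hq2' : (q2 : ℝ) ≤ 4 * η * q1 + 1)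
    (hq3 : 4 * (δ + ε') * q1 ≤ q3) (hq3' : (q3 : ℝ) ≤ 4 * (δ + ε') * q1 + 1) (hq3'' : 0 < q3)
    (hb : 1 / η ≤ b)
    (hsamp : ∀ φ : Option (Fin m) → Fin b → ℝ,
      (∀ k u, 0 ≤ φ k u) → (∀ k u, φ k u ≤ 1 / δ) →
      ∃ u : Fin q1 → Fin b, ∀ k, (q1 : ℝ) / b * ∑ v, φ k v - ε' * q1 ≤ ∑ p, φ k (u p))
    {E : Type} [DecidableEq E] (F : Finset E) (w : E → ℝ) (hw0 : ∀ e ∈ F, 0 ≤ w e)
    (f : E → Fin b) (hf : ∀ j, ∑ e ∈ F.filter (fun e => f e = j), w e ≤ 1) :
    Nonempty (VS (q1 + (q2 + q3)) m δ ((1 + ε) * b / ((q1 + (q2 + q3) : ℕ) : ℝ)) F w) := by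
  classical
  have hm' : (0 : ℝ) < m := by exact_mod_cast hm
  have hη0 : 0 < η := by rw [hη]; positivity
  have hb' : (0 : ℝ) < b := lt_of_lt_of_le (by positivity) hb
  have hbη : 1 ≤ η * b := by
    rw [div_le_iff₀ hη0] at hb
    linarith
  have hq1' : (0 : ℝ) < q1 := lt_of_lt_of_le (by positivity) hq1
  have hδ1 : δ ≤ 1 / 64 := by linarith
  have hε'1 : ε' ≤ ε / 64 := by nlinarith
  -- size of `q`
  set q : ℝ := ((q1 + (q2 + q3) : ℕ) : ℝ) with hq
  have hqsum : q = q1 + (q2 + q3) := by rw [hq]; push_cast; ring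
  have hq1q : (q1 : ℝ) ≤ q := by
    rw [hqsum]
    have : (0 : ℝ) ≤ q2 := Nat.cast_nonneg _
    have : (0 : ℝ) ≤ q3 := Nat.cast_nonneg _
    linarith
  have hqle : q ≤ q1 * (1 + ε / 4) := by
    rw [hqsum]
    have h2 : 2 ≤ q1 * (ε / 32) := by
      rw [div_le_iff₀ hε0] at hq1
      linarith
    have h3 : 4 * η * q1 ≤ 4 * (ε / 64) * q1 := by gcongr
    have h4 : 4 * (δ + ε') * q1 ≤ 4 * (ε / 64 + ε / 64) * q1 := by gcongr
    linarith
  have hq0 : 0 < q := lt_of_lt_of_le hq1' hq1q
  have hqle2 : q ≤ 2 * q1 := by nlinarith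
  set h : ℝ := (1 + ε) * b / q with hh
  have hh0 : 0 < h := by rw [hh]; positivity
  -- the large edges
  set G : Finset E := F.filter (fun e => δ < w e) with hG
  have hGF : G ⊆ F := filter_subset _ _
  obtain ⟨rk, hrk1, hrk2, hrk3⟩ := exists_rank w G
  have hbin : ∑ e ∈ F, w e ≤ b := by
    rw [← sum_fiberwise F f w]
    calc ∑ j : Fin b, ∑ e ∈ F.filter (fun e => f e = j), w e ≤ ∑ j : Fin b, (1 : ℝ) :=
          sum_le_sum fun j _ => hf j
      _ = b := by simp
  have hGcard : (G.card : ℝ) * δ ≤ b := by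
    have h1 : (G.card : ℝ) * δ ≤ ∑ e ∈ G, w e := by
      rw [← nsmul_eq_mul]
      exact card_nsmul_le_sum _ _ _ fun e he => (mem_filter.1 he).2.le
    exact (h1.trans (sum_le_sum_of_subset_of_nonneg hGF fun e he _ => hw0 e he)).trans hbin
  -- group size
  set g : ℕ := ⌊η * b⌋₊ + 1 with hg
  have hg0 : 0 < g := Nat.succ_pos _
  have hg1 : η * b < g := by rw [hg]; push_cast; exact Nat.lt_floor_add_one _
  have hg2 : (g : ℝ) ≤ 2 * (η * b) := by
    rw [hg]
    push_cast
    have := Nat.floor_le (show 0 ≤ η * b by positivity)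
    linarith
  have hGgm : G.card < m * g := by
    have h1 : (G.card : ℝ) < m * g := by
      have h2 : (G.card : ℝ) ≤ m * (η * b) := by
        have : m * (η * b) = b / δ := by rw [hη]; field_simp
        rw [this, le_div_iff₀ hδ0]
        exact hGcard
      have h3 : (m : ℝ) * (η * b) < m * g := mul_lt_mul_of_pos_left hg1 hm'
      linarith
    exact_mod_cast h1
  have hrkm : ∀ e ∈ G, rk e / g < m := by
    intro e he
    exact Nat.div_lt_of_lt_mul (by rw [mul_comm]; exact (hrk1 e he).trans hGgm)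
  -- classes
  let cls : E → Option (Fin m) := fun e =>
    if hc : δ < w e ∧ rk e / g < m then some ⟨rk e / g, hc.2⟩ else none
  have hcls_some : ∀ e ∈ F, ∀ i : Fin m, cls e = some i ↔ (e ∈ G ∧ rk e / g = i) := by
    intro e he i
    simp only [cls, hG, mem_filter]
    constructor
    · intro h1
      split_ifs at h1 with hc
      · simp only [Option.some.injEq] at h1
        exact ⟨⟨he, hc.1⟩, by rw [← h1]⟩
    · rintro ⟨⟨_, h1⟩, h2⟩
      have hc : δ < w e ∧ rk e / g < m := ⟨h1, by rw [h2]; exact i.2⟩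
      rw [dif_pos hc]
      simp only [Option.some.injEq]
      ext
      exact h2
  have hcls_none : ∀ e ∈ F, (cls e = none ↔ w e ≤ δ) := by
    intro e he
    simp only [cls]
    constructor
    · intro h1
      by_contra h2
      rw [not_le] at h2
      have hc : δ < w e ∧ rk e / g < m := ⟨h2, hrkm e (mem_filter.2 ⟨he, h2⟩)⟩
      rw [dif_pos hc] at h1
      exact absurd h1 (by simp)
    · intro h1
      rw [dif_neg]
      intro hc
      linarith [hc.1]
  -- thresholds
  let th : Fin m → ℝ := fun i => if (i : ℕ) = 0 then 1 else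
    ∑ e ∈ G.filter (fun e => rk e + 1 = i * g), w e
  have hwG : ∀ e ∈ G, 0 ≤ w e := fun e he => hw0 e (hGF he)
  have hth0 : ∀ i, 0 ≤ th i := by
    intro i
    simp only [th]
    split_ifs
    · exact zero_le_one
    · exact sum_nonneg fun e he => hwG e (mem_filter.1 he).1
  have hw1 : ∀ e ∈ F, w e ≤ 1 := by
    intro e he
    refine le_trans ?_ (hf (f e))
    exact single_le_sum (f := w) (s := F.filter (fun e' => f e' = f e))
      (fun e' he' => hw0 e' (mem_filter.1 he').1) (mem_filter.2 ⟨he, rfl⟩)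
  -- slots
  let nn : Fin b → Fin m → ℕ := fun u i => if (i : ℕ) = 0 then 0 else
    (G.filter (fun e => f e = u ∧ rk e / g + 1 = i)).card
  have hslot : ∀ e ∈ G, ∀ i : Fin m, rk e / g + 1 = i → th i ≤ w e := by
    intro e he i hi
    have hi0 : (i : ℕ) ≠ 0 := by rw [← hi]; exact Nat.succ_ne_zero _
    simp only [th, if_neg hi0]
    have hlt : rk e < i * g := by
      rw [← hi, mul_comm]
      exact Nat.lt_mul_div_succ _ hg0
    have hsub : (G.filter (fun e => rk e + 1 = i * g)).card ≤ 1 := by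
      refine card_le_one.2 fun a ha c hc => ?_
      rw [mem_filter] at ha hc
      exact hrk2 ha.1 hc.1 (by omega)
    rcases Nat.le_one_iff_eq_zero_or_eq_one.1 hsub with h1 | h1
    · rw [card_eq_zero.1 h1, sum_empty]
      exact hwG e he
    · obtain ⟨a, ha⟩ := card_eq_one.1 h1
      rw [ha, sum_singleton]
      have ha' : a ∈ G.filter (fun e => rk e + 1 = i * g) := by rw [ha]; exact mem_singleton_self a
      rw [mem_filter] at ha'
      rcases Nat.lt_or_ge (rk e) (rk a) with h2 | h2
      · exact hrk3 e he a ha'.1 h2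
      · have : rk e = rk a := by omega
        rw [hrk2 he ha'.1 this]
  have hnnth : ∀ u, ∑ i, nn u i * th i ≤ ∑ e ∈ G.filter (fun e => f e = u), w e := by
    intro u
    have h1 : ∀ i, (nn u i : ℝ) * th i ≤
        ∑ e ∈ (G.filter (fun e => f e = u)).filter (fun e => rk e / g + 1 = i), w e := by
      intro i
      by_cases hi : (i : ℕ) = 0
      · simp only [nn, if_pos hi, Nat.cast_zero, zero_mul]
        exact sum_nonneg fun e he => hwG e (mem_filter.1 (mem_filter.1 he).1).1
      · simp only [nn, if_neg hi]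
        have hEq : (G.filter (fun e => f e = u)).filter (fun e => rk e / g + 1 = i) =
            G.filter (fun e => f e = u ∧ rk e / g + 1 = i) := filter_filter _ _ _
        rw [← nsmul_eq_mul, hEq]
        refine card_nsmul_le_sum _ _ _ fun e he => ?_
        rw [mem_filter] at he
        exact hslot e he.1 i he.2.2
    calc ∑ i, (nn u i : ℝ) * th i
        ≤ ∑ i : Fin m, ∑ e ∈ (G.filter (fun e => f e = u)).filter (fun e => rk e / g + 1 = i), w e :=
          sum_le_sum fun i _ => h1 i
      _ ≤ ∑ e ∈ G.filter (fun e => f e = u), w e := by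
          rw [← sum_biUnion]
          · refine sum_le_sum_of_subset_of_nonneg ?_ fun e he _ => hwG e (mem_filter.1 he).1
            intro e he
            obtain ⟨i, _, hi⟩ := mem_biUnion.1 he
            exact (mem_filter.1 hi).1
          · intro i _ j _ hij
            rw [Function.onFun, disjoint_left]
            intro e he he'
            rw [mem_filter] at he he'
            apply hij
            ext
            rw [← he.2, ← he'.2]
  have hcapu : ∀ u, ∑ i, nn u i * th i ≤ 1 := by
    intro u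
    refine (hnnth u).trans (le_trans ?_ (hf u))
    exact sum_le_sum_of_subset_of_nonneg (filter_subset_filter _ hGF)
      fun e he _ => hw0 e (mem_filter.1 he).1
  let rr : Fin b → ℝ := fun u => 1 - ∑ i, nn u i * th i
  have hrr0 : ∀ u, 0 ≤ rr u := fun u => by simp only [rr]; linarith [hcapu u]
  have hrr1 : ∀ u, rr u ≤ 1 := fun u => by
    simp only [rr]
    have : 0 ≤ ∑ i, (nn u i : ℝ) * th i := sum_nonneg fun i _ => mul_nonneg (Nat.cast_nonneg _) (hth0 i)
    linarith
  have hrrW : ∑ e ∈ F.filter (fun e => cls e = none), w e ≤ ∑ u, rr u := by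
    have h1 : ∀ u, ∑ e ∈ (F.filter (fun e => cls e = none)).filter (fun e => f e = u), w e ≤ rr u := by
      intro u
      have h2 : ∑ e ∈ F.filter (fun e => f e = u), w e =
          ∑ e ∈ (F.filter (fun e => cls e = none)).filter (fun e => f e = u), w e +
          ∑ e ∈ G.filter (fun e => f e = u), w e := by
        rw [← sum_union]
        · refine sum_congr ?_ fun _ _ => rfl
          ext e
          simp only [mem_filter, mem_union, hG]
          constructor
          · rintro ⟨h3, h4⟩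
            rcases le_or_gt (w e) δ with h5 | h5
            · exact Or.inl ⟨⟨h3, (hcls_none e h3).2 h5⟩, h4⟩
            · exact Or.inr ⟨⟨h3, h5⟩, h4⟩
          · rintro (⟨⟨h3, _⟩, h4⟩ | ⟨⟨h3, _⟩, h4⟩)
            · exact ⟨h3, h4⟩
            · exact ⟨h3, h4⟩
        · rw [disjoint_left]
          intro e he he'
          simp only [mem_filter, hG] at he he'
          have := (hcls_none e he.1.1).1 he.1.2
          linarith [he'.1.2]
      have h3 := hf u
      have h4 := hnnth u
      simp only [rr]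
      linarith
    rw [← sum_fiberwise (F.filter (fun e => cls e = none)) f w]
    exact sum_le_sum fun u _ => h1 u
  -- number of slots per bin is at most `1/δ`
  have hnnδ : ∀ u i, (nn u i : ℝ) ≤ 1 / δ := by
    intro u i
    rw [le_div_iff₀ hδ0]
    by_cases hi : (i : ℕ) = 0
    · simp [nn, hi]
    · simp only [nn, if_neg hi]
      have h1 : ((G.filter (fun e => f e = u ∧ rk e / g + 1 = i)).card : ℝ) * δ ≤
          ∑ e ∈ G.filter (fun e => f e = u ∧ rk e / g + 1 = i), w e := by
        rw [← nsmul_eq_mul]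
        refine card_nsmul_le_sum _ _ _ fun e he => ?_
        rw [mem_filter, hG, mem_filter] at he
        exact he.1.2.le
      refine h1.trans (le_trans ?_ (hf u))
      refine sum_le_sum_of_subset_of_nonneg ?_ fun e he _ => hw0 e (mem_filter.1 he).1
      intro e he
      rw [mem_filter] at he ⊢
      exact ⟨hGF he.1, he.2.1⟩
  obtain ⟨u, hu⟩ := hsamp (fun k v => match k with | none => rr v | some i => (nn v i : ℝ))
    (by rintro (_ | i) v; exacts [hrr0 v, Nat.cast_nonneg _])
    (by
      rintro (_ | i) v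
      · have : (1 : ℝ) ≤ 1 / δ := by rw [le_div_iff₀ hδ0]; linarith
        exact (hrr1 v).trans this
      · exact hnnδ v i)
  have hu_none := hu none
  have hu_some := fun i => hu (some i)
  simp only at hu_none hu_some
  -- the number of slots of a class
  have hslots : ∀ i : Fin m, (i : ℕ) ≠ 0 → (∃ e ∈ F, cls e = some i) → ∑ v, (nn v i : ℝ) = g := by
    intro i hi ⟨e, he, hei⟩
    rw [hcls_some e he] at hei
    have h1 : (i : ℕ) * g ≤ G.card := by
      have h2 : rk e < G.card := hrk1 e hei.1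
      have h3 : (i : ℕ) * g ≤ rk e := by rw [← hei.2]; exact Nat.div_mul_le_self _ _
      omega
    obtain ⟨j, hj⟩ := Nat.exists_eq_succ_of_ne_zero hi
    have h4 := card_block_eq G rk hrk1 hrk2 g j (by rw [hj] at h1; exact h1) hg0
    have h5 : ∑ v, nn v i = g := by
      rw [← h4]
      simp only [nn, if_neg hi]
      rw [card_eq_sum_card_fiberwise (f := f) (s := G.filter (fun e => rk e / g = j)) (t := univ)
        (fun _ _ => mem_coe.2 (mem_univ _))]
      refine sum_congr rfl fun v _ => ?_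
      congr 1
      ext x
      simp only [mem_filter, hj]
      constructor
      · rintro ⟨a1, a2, a3⟩
        exact ⟨⟨a1, by omega⟩, a2⟩
      · rintro ⟨⟨a1, a2⟩, a3⟩
        exact ⟨a1, a3, by omega⟩
    exact_mod_cast h5
  -- size of a class
  have hclass : ∀ i : Fin m, (F.filter (fun e => cls e = some i)).card ≤ g := by
    intro i
    refine le_trans (card_le_card ?_) (card_block_le G rk hrk2 g i hg0)
    intro e he
    rw [mem_filter] at he
    rw [mem_filter]
    exact (hcls_some e he.1 i).1 he.2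
  have hNle : ∀ N : ℝ, (q1 : ℝ) / b * g - ε' * q1 ≤ N → (g : ℝ) ≤ h * N := by
    intro N hN
    have h1 : ε' * b ≤ ε / 64 * g := by
      calc ε' * b ≤ η * (ε / 64) * b := by gcongr
        _ = ε / 64 * (η * b) := by ring
        _ ≤ ε / 64 * g := by gcongr
    have h2 : (q1 : ℝ) / b * g - ε' * q1 = q1 / b * (g - ε' * b) := by
      field_simp
    rw [h2] at hN
    have h3 : (1 - ε / 64) * g ≤ g - ε' * b := by linarith
    have h4 : h * (q1 / b * ((1 - ε / 64) * g)) ≤ h * N := by
      refine mul_le_mul_of_nonneg_left (le_trans ?_ hN) hh0.le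
      exact mul_le_mul_of_nonneg_left h3 (by positivity)
    refine le_trans ?_ h4
    have h5 : h * (q1 / b * ((1 - ε / 64) * g)) = (1 + ε) * (1 - ε / 64) * (q1 / q) * g := by
      rw [hh]
      field_simp
    rw [h5]
    have h6 : 1 ≤ (1 + ε) * (1 - ε / 64) * (q1 / q) := by
      rw [mul_div_assoc', le_div_iff₀ hq0, one_mul]
      refine hqle.trans ?_
      rw [mul_comm]
      refine mul_le_mul_of_nonneg_right ?_ hq1'.le
      nlinarith
    have h7 : (0 : ℝ) < g := by exact_mod_cast hg0
    nlinarith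
  -- bound for the tiny edges
  have hRle : (q1 : ℝ) / b * ∑ v, rr v ≤ ∑ p, rr (u p) + ε' * q1 := by
    linarith only [hu_none]
  set R1 : ℝ := ∑ p, max 0 (rr (u p) - 2 * δ) with hR1
  have hR1a : ∑ p, rr (u p) - 2 * δ * q1 ≤ R1 := by
    have : ∑ p : Fin q1, (rr (u p) - 2 * δ) = ∑ p, rr (u p) - 2 * δ * q1 := by
      rw [sum_sub_distrib, sum_const, card_univ, Fintype.card_fin, nsmul_eq_mul]
      ring
    rw [← this, hR1]
    exact sum_le_sum fun p _ => le_max_right _ _
  have hR1b : 0 ≤ R1 := sum_nonneg fun p _ => le_max_left _ _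
  have hq3R : (2 * δ + ε') * q1 ≤ q3 * (1 - 2 * δ) := by
    have h1 : (q3 : ℝ) * (1 / 2) ≤ q3 * (1 - 2 * δ) :=
      mul_le_mul_of_nonneg_left (by linarith) (Nat.cast_nonneg _)
    nlinarith
  have hsumN : ∀ i : Fin m, ∑ p : Fin (q1 + (q2 + q3)),
      ((Fin.append (fun p => nn (u p)) (Fin.append (fun _ : Fin q2 =>
        (fun j : Fin m => if (j : ℕ) = 0 then 1 else 0)) (fun _ : Fin q3 => fun _ => 0))
        : Fin (q1 + (q2 + q3)) → Fin m → ℕ) p i : ℝ) =
      ∑ p, (nn (u p) i : ℝ) + q2 * (if (i : ℕ) = 0 then 1 else 0) := by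
    intro i
    rw [Fin.sum_univ_add, Fin.sum_univ_add]
    simp only [Fin.append_left, Fin.append_right]
    simp
  refine ⟨⟨cls, Fin.append (fun p => nn (u p)) (Fin.append (fun _ : Fin q2 =>
      (fun j : Fin m => if (j : ℕ) = 0 then 1 else 0)) (fun _ : Fin q3 => fun _ => 0)),
    th, Fin.append (fun p => max 0 (rr (u p) - 2 * δ)) (Fin.append (fun _ : Fin q2 => 0)
      (fun _ : Fin q3 => 1 - 2 * δ)), hcls_none, hth0, ?_, ?_, ?_, ?_, ?_, ?_, ?_⟩⟩
  · -- hth
    intro e he i hei
    rw [hcls_some e he] at hei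
    simp only [th]
    split_ifs with hi
    · exact hw1 e he
    · obtain ⟨j, hj⟩ := Nat.exists_eq_succ_of_ne_zero hi
      have h1 : (i : ℕ) * g ≤ rk e := by rw [← hei.2]; exact Nat.div_mul_le_self _ _
      have h2 : rk e < G.card := hrk1 e hei.1
      have himg : G.image rk = range G.card := by
        refine eq_of_subset_of_card_le ?_ ?_
        · intro n hn
          obtain ⟨e, he, rfl⟩ := mem_image.1 hn
          exact mem_range.2 (hrk1 e he)
        · rw [card_range, card_image_of_injOn hrk2]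
      have hpos : 0 < (i : ℕ) * g := Nat.mul_pos (by omega) hg0
      have h3 : (i : ℕ) * g - 1 ∈ G.image rk := by
        rw [himg, mem_range]
        omega
      obtain ⟨a, ha, hra⟩ := mem_image.1 h3
      have h4 : w a ≤ ∑ e ∈ G.filter (fun e => rk e + 1 = i * g), w e :=
        single_le_sum (f := w) (s := G.filter (fun e => rk e + 1 = i * g))
          (fun e' he' => hwG e' (mem_filter.1 he').1) (mem_filter.2 ⟨ha, by omega⟩)
      exact (hrk3 a ha e hei.1 (by omega)).trans h4
  · -- hr0
    intro p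
    refine Fin.addCases (fun p => ?_) (fun p => ?_) p
    · rw [Fin.append_left]; exact le_max_left _ _
    · rw [Fin.append_right]
      refine Fin.addCases (fun p => ?_) (fun p => ?_) p
      · rw [Fin.append_left]
      · rw [Fin.append_right]; linarith
  · -- hcap
    intro p
    refine Fin.addCases (fun p => ?_) (fun p => ?_) p
    · rw [Fin.append_left]; exact hcapu _
    · rw [Fin.append_right]
      refine Fin.addCases (fun p => ?_) (fun p => ?_) p
      · rw [Fin.append_left]
        have : ∀ i : Fin m, (((if (i : ℕ) = 0 then 1 else 0 : ℕ) : ℕ) : ℝ) * th i =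
            if i = ⟨0, hm⟩ then 1 else 0 := by
          intro i
          by_cases hi : (i : ℕ) = 0
          · have hi' : i = ⟨0, hm⟩ := by ext; exact hi
            simp only [th, hi, hi', if_true]
            norm_num
          · have hi' : ¬ i = ⟨0, hm⟩ := fun h => hi (by rw [h])
            simp [hi, hi']
        simp only [this]
        simp
      · rw [Fin.append_right]
        simp
  · -- hcap'
    intro p
    refine Fin.addCases (fun p => ?_) (fun p => ?_) p
    · rw [Fin.append_left, Fin.append_left]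
      intro hpos
      have h1 : max 0 (rr (u p) - 2 * δ) = rr (u p) - 2 * δ := by
        rcases max_choice 0 (rr (u p) - 2 * δ) with h2 | h2
        · rw [h2] at hpos; exact absurd hpos (lt_irrefl _)
        · exact h2
      rw [h1]
      simp only [rr]
      linarith
    · rw [Fin.append_right, Fin.append_right]
      refine Fin.addCases (fun p => ?_) (fun p => ?_) p
      · rw [Fin.append_left, Fin.append_left]
        intro hpos
        exact absurd hpos (lt_irrefl _)
      · rw [Fin.append_right, Fin.append_right]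
        intro _
        simp
  · -- hcount
    intro i
    rw [hsumN]
    by_cases hi : (i : ℕ) = 0
    · rw [if_pos hi, mul_one]
      have h1 : ((F.filter (fun e => cls e = some i)).card : ℝ) ≤ g := by exact_mod_cast hclass i
      have h2 : (0 : ℝ) ≤ ∑ p, (nn (u p) i : ℝ) := sum_nonneg fun _ _ => Nat.cast_nonneg _
      have h3 : h * q2 ≤ h * (∑ p, (nn (u p) i : ℝ) + q2) :=
        mul_le_mul_of_nonneg_left (by linarith) hh0.le
      refine h1.trans (hg2.trans (le_trans ?_ h3))
      have h4 : h * (4 * η * q1) ≤ h * q2 := mul_le_mul_of_nonneg_left hq2 hh0.le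
      refine le_trans ?_ h4
      have h5 : h * (4 * η * q1) = (1 + ε) * (2 * q1 / q) * (2 * (η * b)) := by
        rw [hh]
        field_simp
        ring
      rw [h5]
      have h6 : 1 ≤ 2 * q1 / q := by rw [le_div_iff₀ hq0]; linarith
      have h7 : 1 ≤ (1 + ε) * (2 * q1 / q) := by nlinarith
      have h8 : 0 ≤ 2 * (η * b) := by positivity
      nlinarith
    · rw [if_neg hi, mul_zero, add_zero]
      by_cases hne : ∃ e ∈ F, cls e = some i
      · have h1 : ((F.filter (fun e => cls e = some i)).card : ℝ) ≤ g := by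
          exact_mod_cast hclass i
        refine h1.trans (hNle _ ?_)
        rw [← hslots i hi hne]
        exact hu_some i
      · have : F.filter (fun e => cls e = some i) = ∅ := by
          refine filter_eq_empty_iff.2 fun e he hc => hne ⟨e, he, hc⟩
        rw [this, card_empty, Nat.cast_zero]
        exact mul_nonneg hh0.le (sum_nonneg fun _ _ => Nat.cast_nonneg _)
  · -- htiny
    rw [Fin.sum_univ_add, Fin.sum_univ_add]
    simp only [Fin.append_left, Fin.append_right]
    rw [sum_const_zero, zero_add, sum_const, card_univ, Fintype.card_fin, nsmul_eq_mul]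
    have h1 : (q1 : ℝ) / b * ∑ v, rr v ≤ R1 + q3 * (1 - 2 * δ) := by linarith
    have h2 : h * ((q1 : ℝ) / b * ∑ v, rr v) ≤ h * (R1 + q3 * (1 - 2 * δ)) :=
      mul_le_mul_of_nonneg_left h1 hh0.le
    refine le_trans ?_ h2
    have h3 : h * ((q1 : ℝ) / b * ∑ v, rr v) = (1 + ε) * (q1 / q) * ∑ v, rr v := by
      rw [hh]
      field_simp
    rw [h3]
    have h4 : 1 ≤ (1 + ε) * (q1 / q) := by
      rw [mul_div_assoc', le_div_iff₀ hq0, one_mul]
      refine hqle.trans ?_
      rw [mul_comm]
      refine mul_le_mul_of_nonneg_right ?_ hq1'.le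
      linarith
    have h5 : 0 ≤ ∑ v, rr v := sum_nonneg fun v _ => hrr0 v
    nlinarith
  · -- hR
    rw [Fin.sum_univ_add, Fin.sum_univ_add]
    simp only [Fin.append_left, Fin.append_right]
    rw [sum_const_zero, zero_add, sum_const, card_univ, Fintype.card_fin, nsmul_eq_mul]
    have h1 : (1 : ℝ) ≤ q3 := by exact_mod_cast hq3''
    nlinarith

/-- Existence of the vertex structure, with parameters depending on `ε` only. -/
theorem exists_VS (ε : ℝ) (hε0 : 0 < ε) (hε1 : ε ≤ 1) :
    ∃ (δ : ℝ) (q m b0 : ℕ), 0 < δ ∧ δ ≤ 1 ∧ 0 < q ∧ ∀ b : ℕ, b0 ≤ b →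
      ∀ (E : Type) [DecidableEq E] (F : Finset E) (w : E → ℝ), (∀ e ∈ F, 0 ≤ w e) →
      ∀ f : E → Fin b, (∀ j, ∑ e ∈ F.filter (fun e => f e = j), w e ≤ 1) →
      Nonempty (VS q m δ ((1 + ε) * b / (q : ℝ)) F w) := by
  set δ : ℝ := ε / 64 with hδ
  have hδ0 : 0 < δ := by positivity
  set m : ℕ := ⌈64 / (δ * ε)⌉₊ with hm
  have hm0 : 0 < m := Nat.ceil_pos.2 (by positivity)
  have hm0' : (0 : ℝ) < m := by exact_mod_cast hm0
  set η : ℝ := 1 / (δ * m) with hη
  have hη0 : 0 < η := by positivity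
  have hη1 : η ≤ ε / 64 := by
    have := Nat.le_ceil (64 / (δ * ε))
    rw [← hm, div_le_iff₀ (by positivity)] at this
    rw [hη, div_le_iff₀ (by positivity)]
    nlinarith
  set ε' : ℝ := η * (ε / 64) with hε'
  have hε'0 : 0 < ε' := by positivity
  obtain ⟨q0, hq0⟩ := sampling m (1 / δ) ε' (by positivity) hε'0
  set q1 : ℕ := max q0 ⌈64 / ε⌉₊ with hq1
  have hq1a : 64 / ε ≤ q1 := (Nat.le_ceil _).trans (by exact_mod_cast le_max_right _ _)
  set q2 : ℕ := ⌈4 * η * q1⌉₊ with hq2
  set q3 : ℕ := ⌈4 * (δ + ε') * q1⌉₊ with hq3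
  have hq1pos : (0 : ℝ) < q1 := lt_of_lt_of_le (by positivity) hq1a
  refine ⟨δ, q1 + (q2 + q3), m, max 1 ⌈1 / η⌉₊, hδ0, by rw [hδ]; linarith, ?_, ?_⟩
  · have : 0 < q1 := by exact_mod_cast hq1pos
    omega
  · intro b hb E _ F w hw0 f hf
    exact exists_VS_aux ε δ η ε' m q1 q2 q3 b hε0 hε1 hδ0 le_rfl hm0 hη hη1 hε'0 le_rfl hq1a
      (Nat.le_ceil _) (Nat.ceil_lt_add_one (by positivity)).le (Nat.le_ceil _)
      (Nat.ceil_lt_add_one (by positivity)).le (Nat.ceil_pos.2 (by positivity))
      ((Nat.le_ceil _).trans (by exact_mod_cast (le_max_right _ _).trans hb))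
      (hq0 q1 (le_max_left _ _) b (lt_of_lt_of_le Nat.one_pos ((le_max_left _ _).trans hb)))
      F w hw0 f hf

end Pool.Agent.MP2237
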