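import Mathlib
import Pool.Agent.MP_2237f3_co.VS
import Pool.Agent.MP_2237f3_co.Balance
import Pool.Agent.MP_2237f3_co.Konig

set_option autoImplicit false

namespace Pool.Agent.MP2237

open Finset

section side

variable {E : Type} [DecidableEq E] {q m : ℕ} {δ h : ℝ} {F : Finset E} {w : E → ℝ}

/-- capacity of class `k` in the configuration `p` -/
noncomputable def VS.val (D : VS q m δ h F w) (k : Option (Fin m)) (p : Fin q) : ℝ :=
  match k with
  | none => D.r p
  | some i => (D.n p i : ℝ)

noncomputable def VS.tot (D : VS q m δ h F w) (k : Option (Fin m)) : ℝ := ∑ p, D.val k p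

theorem VS.val_nonneg (D : VS q m δ h F w) (k : Option (Fin m)) (p : Fin q) : 0 ≤ D.val k p := by
  rcases k with _ | i
  · exact D.hr0 p
  · exact Nat.cast_nonneg _

/-- count of large edges, weight of tiny edges -/
noncomputable def av (δ : ℝ) (w : E → ℝ) (e : E) : ℝ := if w e ≤ δ then w e else 1

theorem VS.sum_av_le (D : VS q m δ h F w) (k : Option (Fin m)) :
    ∑ e ∈ F.filter (fun e => D.cls e = k), av δ w e ≤ h * D.tot k := by
  rcases k with _ | i
  · have := D.htiny
    refine le_trans (le_of_eq ?_) this
    refine sum_congr rfl fun e he => ?_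
    rw [mem_filter] at he
    simp only [av, if_pos ((D.hcls e he.1).1 he.2)]
  · have := D.hcount i
    refine le_trans (le_of_eq ?_) this
    rw [card_eq_sum_ones]
    push_cast
    refine sum_congr rfl fun e he => ?_
    rw [mem_filter] at he
    have h1 : ¬ w e ≤ δ := by
      rw [← D.hcls e he.1, he.2]
      simp
    simp only [av, if_neg h1]

theorem VS.half_le_tot (D : VS q m δ h F w) (e : E) (he : e ∈ F) :
    1 / 2 ≤ D.tot (D.cls e) := by
  rcases hk : D.cls e with _ | i
  · exact D.hR
  · have h1 := D.hcount i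
    have h2 : 1 ≤ (F.filter (fun e => D.cls e = some i)).card :=
      card_pos.2 ⟨e, mem_filter.2 ⟨he, hk⟩⟩
    have h3 : (1 : ℝ) ≤ (F.filter (fun e => D.cls e = some i)).card := by exact_mod_cast h2
    have h4 : 0 < ∑ p, D.n p i := by
      by_contra hcon
      have h5 : ∑ p, D.n p i = 0 := by omega
      have h6 : ∑ p, (D.n p i : ℝ) = 0 := by exact_mod_cast h5
      rw [h6, mul_zero] at h1
      linarith
    have h7 : (1 : ℝ) ≤ ∑ p, (D.n p i : ℝ) := by exact_mod_cast h4
    have : D.tot (some i) = ∑ p, (D.n p i : ℝ) := rfl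
    rw [this]
    linarith

/-- The edges of one palette at a vertex can be distributed among sub-vertices. -/
theorem VS.side (D : VS q m δ h F w) (hδ0 : 0 ≤ δ) (hw0 : ∀ e ∈ F, 0 ≤ w e) (b err1 err2 : ℝ)
    (hb : 0 ≤ b) (he1 : 0 ≤ err1) (he2 : 0 ≤ err2) (l : ℕ) (hl : 0 < l) (hq : 0 < q)
    (hl1 : h / q + 2 * err1 * b + err2 * b ≤ l) (hl2 : err2 * b ≤ δ * l)
    (x : Fin q) (X : Finset E) (hX : X ⊆ F)
    (hpos : ∀ e ∈ X, 0 < D.val (D.cls e) x)
    (hsum : ∀ k, ∑ e ∈ X.filter (fun e => D.cls e = k), av δ w e ≤
      (D.val k x / D.tot k) * ((1 / q) * ∑ e ∈ F.filter (fun e => D.cls e = k), av δ w e +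
        err1 * b) + err2 * b) :
    ∃ f : E → ℕ, (∀ k, (X.filter (fun e => f e = k)).card ≤ l) ∧
      ∀ Y ⊆ X, Set.InjOn f Y → ∑ e ∈ Y, w e ≤ 1 := by
  have hq' : (0 : ℝ) < q := by exact_mod_cast hq
  have hmain : ∀ e ∈ X, ∑ e' ∈ X.filter (fun e' => D.cls e' = D.cls e), av δ w e' ≤
      D.val (D.cls e) x * (h / q + 2 * err1 * b) + err2 * b := by
    intro e he
    refine (hsum _).trans ?_
    have h1 := D.half_le_tot e (hX he)
    have h2 := D.sum_av_le (D.cls e)
    have h3 := D.val_nonneg (D.cls e) x
    set N := D.tot (D.cls e) with hN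
    set v := D.val (D.cls e) x with hv
    have hN0 : 0 < N := by linarith
    have h4 : v / N * ((1 / q) * ∑ e' ∈ F.filter (fun e' => D.cls e' = D.cls e), av δ w e' +
        err1 * b) ≤ v / N * ((1 / q) * (h * N) + err1 * b) := by
      gcongr
    have h5 : v / N * ((1 / q) * (h * N) + err1 * b) = v * (h / q + err1 * b / N) := by
      field_simp
    have h6 : err1 * b / N ≤ 2 * err1 * b := by
      rw [div_le_iff₀ hN0]
      nlinarith [mul_nonneg he1 hb]
    have h7 : v * (h / q + err1 * b / N) ≤ v * (h / q + 2 * err1 * b) :=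
      mul_le_mul_of_nonneg_left (by linarith) h3
    linarith
  refine split X w m D.cls (D.n x) D.th (D.r x) δ l hl hδ0 D.hth0
    (fun e he i hi => D.hth e (hX he) i hi) (fun e he hi => (D.hcls e (hX he)).1 hi)
    (fun e he => hw0 e (hX he)) ?_ ?_ (D.hcap x)
  · intro i
    rcases (X.filter (fun e => D.cls e = some i)).eq_empty_or_nonempty with h0 | ⟨e, he⟩
    · rw [h0]; simp
    · rw [mem_filter] at he
      have h1 := hmain e he.1
      have hval : D.val (D.cls e) x = (D.n x i : ℝ) := by rw [he.2]; rfl
      have hn : 1 ≤ D.n x i := by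
        have := hpos e he.1
        rw [hval] at this
        exact_mod_cast this
      have hn' : (1 : ℝ) ≤ D.n x i := by exact_mod_cast hn
      rw [hval, he.2] at h1
      have h2 : ∑ e' ∈ X.filter (fun e' => D.cls e' = some i), av δ w e' =
          (X.filter (fun e' => D.cls e' = some i)).card := by
        rw [card_eq_sum_ones]
        push_cast
        refine sum_congr rfl fun e he => ?_
        rw [mem_filter] at he
        have h1 : ¬ w e ≤ δ := by
          rw [← D.hcls e (hX he.1), he.2]
          simp
        simp only [av, if_neg h1]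
      rw [h2] at h1
      have h3 : ((X.filter (fun e' => D.cls e' = some i)).card : ℝ) ≤ (D.n x i * l : ℕ) := by
        push_cast
        refine h1.trans ?_
        have h4 : err2 * b ≤ D.n x i * (err2 * b) := by
          nlinarith [mul_nonneg he2 hb]
        calc (D.n x i : ℝ) * (h / q + 2 * err1 * b) + err2 * b
            ≤ D.n x i * (h / q + 2 * err1 * b) + D.n x i * (err2 * b) := by linarith
          _ = D.n x i * (h / q + 2 * err1 * b + err2 * b) := by ring
          _ ≤ D.n x i * l := mul_le_mul_of_nonneg_left hl1 (by linarith)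
      exact_mod_cast h3
  · by_cases hno : ∀ e ∈ X, D.cls e ≠ none
    · exact Or.inl hno
    · right
      push Not at hno
      obtain ⟨e, he, hc⟩ := hno
      have h1 := hmain e he
      have hval : D.val (D.cls e) x = D.r x := by rw [hc]; rfl
      have hr : 0 < D.r x := by
        have := hpos e he
        rwa [hval] at this
      refine ⟨?_, D.hcap' x hr⟩
      rw [hval, hc] at h1
      have h2 : ∑ e' ∈ X.filter (fun e' => D.cls e' = none), av δ w e' =
          ∑ e' ∈ X.filter (fun e' => D.cls e' = none), w e' := by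
        refine sum_congr rfl fun e he => ?_
        rw [mem_filter] at he
        simp only [av, if_pos ((D.hcls e (hX he.1)).1 he.2)]
      rw [h2] at h1
      refine h1.trans ?_
      have h3 : D.r x * (h / q + 2 * err1 * b) ≤ D.r x * l := by
        refine mul_le_mul_of_nonneg_left ?_ hr.le
        have := mul_nonneg he2 hb
        linarith
      linarith

end side

end Pool.Agent.MP2237
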