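import Mathlib
import Pool.Agent.MP_2237f3_co.Mixing
import Pool.Agent.MP_2237f3_co.Harmonic
import Pool.Agent.MP_2237f3_co.Side

set_option autoImplicit false

namespace Pool.Agent.MP2237

open Finset

/-- total harmonic weight of a vertex -/
theorem W_total {E : Type} [DecidableEq E] (F : Finset E) (w : E → ℝ) (h0 : ∀ e ∈ F, 0 ≤ w e)
    (b : ℕ) (f : E → Fin b) (hf : ∀ j, ∑ e ∈ F.filter (fun e => f e = j), w e ≤ 1) :
    ∑ e ∈ F, W (w e) ≤ 17 / 10 * b := by
  rw [← sum_fiberwise F f (fun e => W (w e))]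
  calc ∑ j : Fin b, ∑ e ∈ F.filter (fun e => f e = j), W (w e) ≤ ∑ j : Fin b, (17 / 10 : ℝ) :=
        sum_le_sum fun j _ => W_bin _ w (fun e he => h0 e (mem_filter.1 he).1) (hf j)
    _ = 17 / 10 * b := by simp; ring

theorem dg_sigma_left {S T : Type} [Fintype S] [DecidableEq S] [Fintype T] [DecidableEq T]
    (μ : S × T → ℕ) (u : S) :
    dg (fun i : (p : S × T) × Fin (μ p) => i.1.1) (fun i => i.1.2) univ (Sum.inl u) =
      ∑ v, (μ (u, v) : ℝ) := by
  rw [dg_eq_sum, Fintype.sum_sigma, Fintype.sum_prod_type, sum_eq_single u]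
  · refine sum_congr rfl fun v _ => ?_
    simp
  · intro u' _ hu
    refine sum_eq_zero fun v _ => sum_eq_zero fun j _ => ?_
    simp [hu]
  · intro h; exact absurd (mem_univ _) h

theorem dg_sigma_right {S T : Type} [Fintype S] [DecidableEq S] [Fintype T] [DecidableEq T]
    (μ : S × T → ℕ) (v : T) :
    dg (fun i : (p : S × T) × Fin (μ p) => i.1.1) (fun i => i.1.2) univ (Sum.inr v) =
      ∑ u, (μ (u, v) : ℝ) := by
  rw [dg_eq_sum, Fintype.sum_sigma, Fintype.sum_prod_type]
  refine sum_congr rfl fun u _ => ?_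
  rw [sum_eq_single v]
  · simp
  · intro v' _ hv
    refine sum_eq_zero fun j _ => ?_
    simp [hv]
  · intro h; exact absurd (mem_univ _) h

/-- The final colouring: heavy pairs, light edges, leftover edges. -/
theorem assemble {S T E Col Z : Type} [Fintype S] [DecidableEq S] [Fintype T] [DecidableEq T]
    [Fintype E] [DecidableEq E] [Fintype Col] [DecidableEq Col] [Fintype Z] [DecidableEq Z]
    (s : E → S) (t : E → T) (w : E → ℝ) (hw : ∀ e, 0 ≤ w e) (n : S → T → ℕ) (N : ℕ) (hN : 0 < N)
    (hZ : Fintype.card Z = N) (μ : S × T → ℕ) (hμ : ∀ u v j, j < n u v → j / N < μ (u, v))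
    (ψ : ((p : S × T) × Fin (μ p)) → Col)
    (hψ : ∀ i j, i ≠ j → ψ i = ψ j → i.1.1 ≠ j.1.1 ∧ i.1.2 ≠ j.1.2)
    (H Gd X : Finset E) (hcov : ∀ e, e ∉ H → e ∉ Gd → e ∈ X)
    (bin : E → ℕ) (hbin : ∀ e ∈ H, bin e < n (s e) (t e))
    (hbinw : ∀ u v j, ∑ e ∈ H.filter (fun e => s e = u ∧ t e = v ∧ bin e = j), w e ≤ 1)
    (cL : E → Col × Z)
    (hL : ∀ e ∈ Gd, (cL e).1 ∈ freeC (fun i : (p : S × T) × Fin (μ p) => i.1.1) (fun i => i.1.2) ψ
      (Sum.inl (s e)) ∩ freeC (fun i : (p : S × T) × Fin (μ p) => i.1.1) (fun i => i.1.2) ψ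
      (Sum.inr (t e)))
    (hLS : ∀ u j, ∑ e ∈ Gd.filter (fun e => s e = u ∧ cL e = j), w e ≤ 1)
    (hLT : ∀ v j, ∑ e ∈ Gd.filter (fun e => t e = v ∧ cL e = j), w e ≤ 1)
    (K' : ℕ) (cX : E → Fin K')
    (hXS : ∀ u j, ∑ e ∈ X.filter (fun e => s e = u ∧ cX e = j), w e ≤ 1)
    (hXT : ∀ v j, ∑ e ∈ X.filter (fun e => t e = v ∧ cX e = j), w e ≤ 1) :
    ∃ c : E → Fin (Fintype.card Col * N + K'),
      (∀ u j, ∑ e ∈ univ.filter (fun e => s e = u ∧ c e = j), w e ≤ 1) ∧
      (∀ v j, ∑ e ∈ univ.filter (fun e => t e = v ∧ c e = j), w e ≤ 1) := by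
  classical
  let eZ : Fin N ≃ Z := (Fintype.equivFinOfCardEq hZ).symm
  have hcard : Fintype.card ((Col × Z) ⊕ Fin K') = Fintype.card Col * N + K' := by
    rw [Fintype.card_sum, Fintype.card_prod, hZ, Fintype.card_fin]
  let code : ((Col × Z) ⊕ Fin K') ≃ Fin (Fintype.card Col * N + K') :=
    Fintype.equivFinOfCardEq hcard
  let idx : ∀ e, e ∈ H → ((p : S × T) × Fin (μ p)) := fun e he =>
    ⟨(s e, t e), ⟨bin e / N, hμ _ _ _ (hbin e he)⟩⟩
  let c : E → (Col × Z) ⊕ Fin K' := fun e =>
    if h : e ∈ H then Sum.inl (ψ (idx e h), eZ ⟨bin e % N, Nat.mod_lt _ hN⟩)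
    else if e ∈ Gd then Sum.inl (cL e) else Sum.inr (cX e)
  -- two heavy edges of the same colour with a common end are in the same bin
  have hheavy : ∀ e e' (he : e ∈ H) (he' : e' ∈ H), c e = c e' → (s e = s e' ∨ t e = t e') →
      s e = s e' ∧ t e = t e' ∧ bin e = bin e' := by
    intro e e' he he' hc hst
    simp only [c, dif_pos he, dif_pos he', Sum.inl.injEq, Prod.mk.injEq,
      EmbeddingLike.apply_eq_iff_eq, Fin.mk.injEq] at hc
    have hi : idx e he = idx e' he' := by
      by_contra hne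
      obtain ⟨h1, h2⟩ := hψ _ _ hne hc.1
      rcases hst with h | h
      · exact h1 h
      · exact h2 h
    have h3 : (s e, t e) = (s e', t e') := congrArg Sigma.fst hi
    obtain ⟨h4, h5⟩ := Prod.mk.injEq _ _ _ _ ▸ h3
    have h6 : bin e / N = bin e' / N := by
      have h7 := (Sigma.mk.injEq _ _ _ _ ▸ hi).2
      have h8 : μ (s e, t e) = μ (s e', t e') := by rw [h3]
      exact (Fin.heq_ext_iff h8).1 h7
    refine ⟨h4, h5, ?_⟩
    rw [← Nat.div_add_mod (bin e) N, ← Nat.div_add_mod (bin e') N, h6, hc.2]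
  -- a good light edge and a heavy edge with a common end have different colours
  have hmix : ∀ e e' (he : e ∈ H) (_ : e' ∉ H) (_ : e' ∈ Gd), c e = c e' → (s e = s e' ∨ t e = t e') →
      False := by
    intro e e' he he' hG hc hst
    simp only [c, dif_pos he, dif_neg he', if_pos hG, Sum.inl.injEq] at hc
    have h1 := hL e' hG
    rw [← hc, mem_inter] at h1
    simp only [freeC, mem_filter, mem_univ, true_and] at h1
    rcases hst with h | h
    · exact h1.1 (idx e he) rfl (Or.inl (by simp [idx, h]))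
    · exact h1.2 (idx e he) rfl (Or.inr (by simp [idx, h]))
  refine ⟨fun e => code (c e), ?_, ?_⟩
  · intro u j
    obtain ⟨x, rfl⟩ := code.surjective j
    simp only [EmbeddingLike.apply_eq_iff_eq]
    rcases x with x | x
    · by_cases hex : ∃ e0 ∈ H, s e0 = u ∧ c e0 = Sum.inl x
      · obtain ⟨e0, he0, hs0, hc0⟩ := hex
        refine le_trans (sum_le_sum_of_subset_of_nonneg ?_ fun e _ _ => hw e)
          (hbinw u (t e0) (bin e0))
        intro e he
        simp only [mem_filter, mem_univ, true_and] at he ⊢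
        have hcc : c e0 = c e := hc0.trans he.2.symm
        have hss : s e0 = s e := hs0.trans he.1.symm
        by_cases h1 : e ∈ H
        · obtain ⟨h2, h3, h4⟩ := hheavy e0 e he0 h1 hcc (Or.inl hss)
          exact ⟨h1, he.1, h3.symm, h4.symm⟩
        · by_cases h2 : e ∈ Gd
          · exact absurd (hmix e0 e he0 h1 h2 hcc (Or.inl hss)) (by simp)
          · have h3 := he.2
            simp only [c, dif_neg h1, if_neg h2] at h3
            exact absurd h3 (by simp)
      · refine le_trans (sum_le_sum_of_subset_of_nonneg ?_ fun e _ _ => hw e) (hLS u x)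
        intro e he
        simp only [mem_filter, mem_univ, true_and] at he ⊢
        have h1 : e ∉ H := fun h => hex ⟨e, h, he.1, he.2⟩
        have h3 := he.2
        by_cases h2 : e ∈ Gd
        · simp only [c, dif_neg h1, if_pos h2, Sum.inl.injEq] at h3
          exact ⟨h2, he.1, h3⟩
        · simp only [c, dif_neg h1, if_neg h2] at h3
          exact absurd h3 (by simp)
    · refine le_trans (sum_le_sum_of_subset_of_nonneg ?_ fun e _ _ => hw e) (hXS u x)
      intro e he
      simp only [mem_filter, mem_univ, true_and] at he ⊢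
      have h3 := he.2
      by_cases h1 : e ∈ H
      · simp only [c, dif_pos h1] at h3
        exact absurd h3 (by simp)
      · by_cases h2 : e ∈ Gd
        · simp only [c, dif_neg h1, if_pos h2] at h3
          exact absurd h3 (by simp)
        · simp only [c, dif_neg h1, if_neg h2, Sum.inr.injEq] at h3
          exact ⟨hcov e h1 h2, he.1, h3⟩
  · intro v j
    obtain ⟨x, rfl⟩ := code.surjective j
    simp only [EmbeddingLike.apply_eq_iff_eq]
    rcases x with x | x
    · by_cases hex : ∃ e0 ∈ H, t e0 = v ∧ c e0 = Sum.inl x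
      · obtain ⟨e0, he0, hs0, hc0⟩ := hex
        refine le_trans (sum_le_sum_of_subset_of_nonneg ?_ fun e _ _ => hw e)
          (hbinw (s e0) v (bin e0))
        intro e he
        simp only [mem_filter, mem_univ, true_and] at he ⊢
        have hcc : c e0 = c e := hc0.trans he.2.symm
        have hss : t e0 = t e := hs0.trans he.1.symm
        by_cases h1 : e ∈ H
        · obtain ⟨h2, h3, h4⟩ := hheavy e0 e he0 h1 hcc (Or.inr hss)
          exact ⟨h1, h2.symm, he.1, h4.symm⟩
        · by_cases h2 : e ∈ Gd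
          · exact absurd (hmix e0 e he0 h1 h2 hcc (Or.inr hss)) (by simp)
          · have h3 := he.2
            simp only [c, dif_neg h1, if_neg h2] at h3
            exact absurd h3 (by simp)
      · refine le_trans (sum_le_sum_of_subset_of_nonneg ?_ fun e _ _ => hw e) (hLT v x)
        intro e he
        simp only [mem_filter, mem_univ, true_and] at he ⊢
        have h1 : e ∉ H := fun h => hex ⟨e, h, he.1, he.2⟩
        have h3 := he.2
        by_cases h2 : e ∈ Gd
        · simp only [c, dif_neg h1, if_pos h2, Sum.inl.injEq] at h3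
          exact ⟨h2, he.1, h3⟩
        · simp only [c, dif_neg h1, if_neg h2] at h3
          exact absurd h3 (by simp)
    · refine le_trans (sum_le_sum_of_subset_of_nonneg ?_ fun e _ _ => hw e) (hXT v x)
      intro e he
      simp only [mem_filter, mem_univ, true_and] at he ⊢
      have h3 := he.2
      by_cases h1 : e ∈ H
      · simp only [c, dif_pos h1] at h3
        exact absurd h3 (by simp)
      · by_cases h2 : e ∈ Gd
        · simp only [c, dif_neg h1, if_pos h2] at h3
          exact absurd h3 (by simp)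
        · simp only [c, dif_neg h1, if_neg h2, Sum.inr.injEq] at h3
          exact ⟨hcov e h1 h2, he.1, h3⟩

end Pool.Agent.MP2237
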