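import Mathlib
import Pool.Agent.MP_2237f3_co.RoundingLog

set_option autoImplicit false

namespace Pool.Agent.MP2237

open Finset

/-- Shifts of the columns can be chosen so that all rows are balanced (general form). -/
theorem balance_log (ε : ℝ) (hε : 0 < ε) (hε1 : ε ≤ 1) :
    ∃ C : ℝ, 0 ≤ C ∧ ∀ (q : ℕ) [NeZero q] (U V E J : Type) [Fintype U] [DecidableEq U] [Fintype V]
      [DecidableEq V] [Fintype E] [DecidableEq E] [Fintype J] [DecidableEq J] (su : E → U)
      (tv : E → V) (a : J → E → ℝ) (G : E → Fin q → ℝ) (A0 M : ℝ), 0 < A0 → A0 ≤ M →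
      (∀ j e, 0 ≤ a j e) →
      (∀ u v j, ∑ e ∈ univ.filter (fun e => su e = u ∧ tv e = v), a j e ≤ A0) →
      (∀ v, q * ∑ j, ∑ e ∈ univ.filter (fun e => tv e = v), a j e ≤ M) →
      (∀ e x, 0 ≤ G e x) → (∀ e, ∑ x, G e x = 1) →
      ∃ x : V → Fin q, ∀ u j p,
        ∑ e ∈ univ.filter (fun e => su e = u), a j e * G e (p + x (tv e)) ≤
          (1 / q) * ∑ e ∈ univ.filter (fun e => su e = u), a j e +
          (ε * ∑ e ∈ univ.filter (fun e => su e = u), a j e +
            C * (A0 * Real.sqrt (Real.sqrt (M / A0)))) := by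
  obtain ⟨C, hC0, hC⟩ := rounding_log ε hε hε1
  refine ⟨C, hC0, ?_⟩
  intro q _ U V E J _ _ _ _ _ _ _ _ su tv a G A0 M hA0 hA0M ha hA hM hG0 hG1
  have hq0 : (0 : ℝ) < q := by exact_mod_cast Nat.pos_of_ne_zero (NeZero.ne q)
  have hGle : ∀ e x, G e x ≤ 1 := fun e x => by
    rw [← hG1 e]
    exact single_le_sum (f := G e) (fun x _ => hG0 e x) (mem_univ x)
  obtain ⟨x, -, hx⟩ := hC V (Fin q) (U × J × Fin q) (fun _ _ => 1 / q)
    (fun r v => ∑ e ∈ univ.filter (fun e => su e = r.1 ∧ tv e = v), a r.2.1 e)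
    (fun r v x => ∑ e ∈ univ.filter (fun e => su e = r.1 ∧ tv e = v),
      a r.2.1 e * G e (r.2.2 + x)) A0 M (fun _ _ => by positivity)
    (fun _ => by rw [sum_const, card_univ, Fintype.card_fin, nsmul_eq_mul]; field_simp)
    (fun r v x => sum_nonneg fun e _ => mul_nonneg (ha _ e) (hG0 _ _))
    (fun r v x => sum_le_sum fun e _ => mul_le_of_le_one_right (ha _ e) (hGle _ _))
    (fun r v => hA _ _ _)
    (fun v => by
      refine le_trans (le_of_eq ?_) (hM v)
      rw [Fintype.sum_prod_type]
      simp only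
      have h1 : ∀ u : U, ∑ kp : J × Fin q,
          ∑ e ∈ univ.filter (fun e => su e = u ∧ tv e = v), a kp.1 e =
          q * ∑ j, ∑ e ∈ univ.filter (fun e => su e = u ∧ tv e = v), a j e := by
        intro u
        rw [Fintype.sum_prod_type_right]
        simp only
        rw [sum_const, card_univ, Fintype.card_fin, nsmul_eq_mul]
      simp only [h1]
      rw [← mul_sum]
      congr 1
      rw [sum_comm]
      refine sum_congr rfl fun j _ => ?_
      rw [← sum_fiberwise (univ.filter (fun e => tv e = v)) su (a j)]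
      refine sum_congr rfl fun u _ => sum_congr ?_ fun _ _ => rfl
      ext e
      simp only [mem_filter, mem_univ, true_and]
      exact and_comm)
    hA0 hA0M
  refine ⟨x, fun u j p => ?_⟩
  have h1 := hx (u, j, p)
  simp only at h1
  have hfib : ∀ f : E → ℝ, ∑ v, ∑ e ∈ univ.filter (fun e => su e = u ∧ tv e = v), f e =
      ∑ e ∈ univ.filter (fun e => su e = u), f e := by
    intro f
    rw [← sum_fiberwise (univ.filter (fun e => su e = u)) tv f]
    refine sum_congr rfl fun v _ => sum_congr ?_ fun _ _ => rfl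
    ext e
    simp only [mem_filter, mem_univ, true_and]
  have e1 : ∑ v, ∑ e ∈ univ.filter (fun e => su e = u ∧ tv e = v), a j e * G e (p + x v) =
      ∑ e ∈ univ.filter (fun e => su e = u), a j e * G e (p + x (tv e)) := by
    rw [← hfib]
    refine sum_congr rfl fun v _ => sum_congr rfl fun e he => ?_
    simp only [mem_filter, mem_univ, true_and] at he
    rw [he.2]
  have e2 : ∑ v : V, ∑ y : Fin q, (1 : ℝ) / q * ∑ e ∈ univ.filter
      (fun e => su e = u ∧ tv e = v), a j e * G e (p + y) =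
      (1 / q) * ∑ e ∈ univ.filter (fun e => su e = u), a j e := by
    rw [← hfib, mul_sum]
    refine sum_congr rfl fun v _ => ?_
    rw [← mul_sum, sum_comm]
    congr 1
    refine sum_congr rfl fun e _ => ?_
    rw [← mul_sum]
    have : ∑ y : Fin q, G e (p + y) = 1 := by
      rw [← hG1 e]
      exact Equiv.sum_comp (Equiv.addLeft p) (G e)
    rw [this, mul_one]
  rw [e1, e2, hfib (a j)] at h1
  linarith

end Pool.Agent.MP2237
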