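import Mathlib
import Pool.Agent.MP_2237f3_co.Side

set_option autoImplicit false

namespace Pool.Agent.MP2237

open Finset

section side

variable {E : Type} [DecidableEq E] {q m : ℕ} {δ h : ℝ} {F : Finset E} {w : E → ℝ}

/-- The edges of one palette at a vertex can be distributed among sub-vertices (general form). -/
theorem VS.side' (D : VS q m δ h F w) (hδ0 : 0 ≤ δ) (hw0 : ∀ e ∈ F, 0 ≤ w e) (κ e1 e2 : ℝ)
    (hκ : 0 ≤ κ) (he1 : 0 ≤ e1) (he2 : 0 ≤ e2) (l : ℕ) (hl : 0 < l)
    (hl1 : κ * h + 2 * e1 + e2 ≤ l) (hl2 : e2 ≤ δ * l)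
    (x : Fin q) (X : Finset E) (hX : X ⊆ F)
    (hpos : ∀ e ∈ X, 0 < D.val (D.cls e) x)
    (hsum : ∀ k, ∑ e ∈ X.filter (fun e => D.cls e = k), av δ w e ≤
      (D.val k x / D.tot k) * (κ * ∑ e ∈ F.filter (fun e => D.cls e = k), av δ w e +
        e1) + e2) :
    ∃ f : E → ℕ, (∀ k, (X.filter (fun e => f e = k)).card ≤ l) ∧
      ∀ Y ⊆ X, Set.InjOn f Y → ∑ e ∈ Y, w e ≤ 1 := by
  have hmain : ∀ e ∈ X, ∑ e' ∈ X.filter (fun e' => D.cls e' = D.cls e), av δ w e' ≤
      D.val (D.cls e) x * (κ * h + 2 * e1) + e2 := by
    intro e he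
    refine (hsum _).trans ?_
    have h1 := D.half_le_tot e (hX he)
    have h2 := D.sum_av_le (D.cls e)
    have h3 := D.val_nonneg (D.cls e) x
    set N := D.tot (D.cls e) with hN
    set v := D.val (D.cls e) x with hv
    have hN0 : 0 < N := by linarith
    have h4 : v / N * (κ * ∑ e' ∈ F.filter (fun e' => D.cls e' = D.cls e), av δ w e' +
        e1) ≤ v / N * (κ * (h * N) + e1) := by
      gcongr
    have h5 : v / N * (κ * (h * N) + e1) = v * (κ * h + e1 / N) := by
      field_simp
    have h6 : e1 / N ≤ 2 * e1 := by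
      rw [div_le_iff₀ hN0]
      nlinarith
    have h7 : v * (κ * h + e1 / N) ≤ v * (κ * h + 2 * e1) :=
      mul_le_mul_of_nonneg_left (by linarith) h3
    linarith
  refine split X w m D.cls (D.n x) D.th (D.r x) δ l hl hδ0 D.hth0
    (fun e he i hi => D.hth e (hX he) i hi) (fun e he hi => (D.hcls e (hX he)).1 hi)
    (fun e he => hw0 e (hX he)) ?_ ?_ (D.hcap x)
  · intro i
    rcases (X.filter (fun e => D.cls e = some i)).eq_empty_or_nonempty with h0 | ⟨e, he⟩
    · rw [h0]; simp
    · rw [mem_filter] at he
      have h1 := hmain e he.1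
      have hval : D.val (D.cls e) x = (D.n x i : ℝ) := by rw [he.2]; rfl
      have hn : 1 ≤ D.n x i := by
        have := hpos e he.1
        rw [hval] at this
        exact_mod_cast this
      have hn' : (1 : ℝ) ≤ D.n x i := by exact_mod_cast hn
      rw [hval, he.2] at h1
      have h2 : ∑ e' ∈ X.filter (fun e' => D.cls e' = some i), av δ w e' =
          (X.filter (fun e' => D.cls e' = some i)).card := by
        rw [card_eq_sum_ones]
        push_cast
        refine sum_congr rfl fun e he => ?_
        rw [mem_filter] at he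
        have h1 : ¬ w e ≤ δ := by
          rw [← D.hcls e (hX he.1), he.2]
          simp
        simp only [av, if_neg h1]
      rw [h2] at h1
      have h3 : ((X.filter (fun e' => D.cls e' = some i)).card : ℝ) ≤ (D.n x i * l : ℕ) := by
        push_cast
        refine h1.trans ?_
        have h4 : e2 ≤ D.n x i * e2 := by
          nlinarith
        calc (D.n x i : ℝ) * (κ * h + 2 * e1) + e2
            ≤ D.n x i * (κ * h + 2 * e1) + D.n x i * e2 := by linarith
          _ = D.n x i * (κ * h + 2 * e1 + e2) := by ring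
          _ ≤ D.n x i * l := mul_le_mul_of_nonneg_left hl1 (by linarith)
      exact_mod_cast h3
  · by_cases hno : ∀ e ∈ X, D.cls e ≠ none
    · exact Or.inl hno
    · right
      push Not at hno
      obtain ⟨e, he, hc⟩ := hno
      have h1 := hmain e he
      have hval : D.val (D.cls e) x = D.r x := by rw [hc]; rfl
      have hr : 0 < D.r x := by
        have := hpos e he
        rwa [hval] at this
      refine ⟨?_, D.hcap' x hr⟩
      rw [hval, hc] at h1
      have h2 : ∑ e' ∈ X.filter (fun e' => D.cls e' = none), av δ w e' =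
          ∑ e' ∈ X.filter (fun e' => D.cls e' = none), w e' := by
        refine sum_congr rfl fun e he => ?_
        rw [mem_filter] at he
        simp only [av, if_pos ((D.hcls e (hX he.1)).1 he.2)]
      rw [h2] at h1
      refine h1.trans ?_
      have h3 : D.r x * (κ * h + 2 * e1) ≤ D.r x * l := by
        refine mul_le_mul_of_nonneg_left ?_ hr.le
        linarith
      linarith

end side

end Pool.Agent.MP2237
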