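import Mathlib
import Pool.Agent.MP_2237f3_co.SideGen

set_option autoImplicit false

namespace Pool.Agent.MP2237

open Finset

/-- One side of the construction of sub-vertices for the light edges. -/
theorem light_side {U E Ω : Type} [DecidableEq U] [Fintype E] [DecidableEq E] [DecidableEq Ω]
    (q m : ℕ) (δ : ℝ) (hδ : 0 ≤ δ) (w : E → ℝ) (hw : ∀ e, 0 ≤ w e) (su : E → U) (L Gd : Finset E)
    (hGL : Gd ⊆ L) (hh : U → ℝ) (D : ∀ a, VS q m δ (hh a) (L.filter (fun e => su e = a)) w)
    (pal : E → Ω) (P FO : E → Ω → ℝ) (pos : Ω → Fin q) (xU : U → Fin q) (κ : U → ℝ)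
    (hκ : ∀ a, 0 ≤ κ a) (e1 e2 : ℝ) (he1 : 0 ≤ e1) (he2 : 0 ≤ e2) (l : ℕ) (hl : 0 < l)
    (hFO : ∀ e x, 0 ≤ FO e x) (hPpos : ∀ e ∈ Gd, 0 < P e (pal e))
    (hP : ∀ e ∈ Gd, ∀ x, P e x ≤ κ (su e) * FO e x *
      ((D (su e)).val ((D (su e)).cls e) (pos x + xU (su e)) / (D (su e)).tot ((D (su e)).cls e)))
    (hb : ∀ a k x, ∑ e ∈ (L.filter (fun e => su e = a)).filter (fun e => (D a).cls e = k),
      av δ w e * FO e x ≤
      (1 / q) * ∑ e ∈ (L.filter (fun e => su e = a)).filter (fun e => (D a).cls e = k), av δ w e +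
        e1)
    (hrow : ∀ a k x, ∑ e, (if pal e = x then
        (if e ∈ Gd ∧ su e = a ∧ (D a).cls e = k then av δ w e else 0) else 0) ≤
      ∑ e, P e x * (if e ∈ Gd ∧ su e = a ∧ (D a).cls e = k then av δ w e else 0) + e2)
    (hcap : ∀ a, κ a * (hh a / q + 2 * e1) + e2 ≤ l) (hl2 : e2 ≤ δ * l) (a : U) (x : Ω) :
    ∃ f : E → ℕ,
      (∀ k, ((Gd.filter (fun e => su e = a ∧ pal e = x)).filter (fun e => f e = k)).card ≤ l) ∧
      ∀ Y ⊆ Gd.filter (fun e => su e = a ∧ pal e = x), Set.InjOn f Y → ∑ e ∈ Y, w e ≤ 1 := by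
  have hav0 : ∀ e, 0 ≤ av δ w e := by
    intro e
    simp only [av]
    split_ifs
    · exact hw e
    · exact zero_le_one
  refine (D a).side' hδ (fun e _ => hw e) (κ a / q) (κ a * e1) e2 (div_nonneg (hκ a)
    (Nat.cast_nonneg _)) (mul_nonneg (hκ a) he1) he2 l hl ?_ hl2 (pos x + xU a) _ ?_ ?_ ?_
  · have := hcap a
    have h1 : κ a / q * hh a = κ a * (hh a / q) := by ring
    rw [h1]
    linarith
  · intro e he
    rw [mem_filter] at he ⊢
    exact ⟨hGL he.1, he.2.1⟩
  · intro e he
    rw [mem_filter] at he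
    obtain ⟨he, rfl, rfl⟩ := he
    rcases ((D (su e)).val_nonneg ((D (su e)).cls e) (pos (pal e) + xU (su e))).eq_or_lt with h3 | h3
    · have h1 := hPpos e he
      have h2 := hP e he (pal e)
      rw [← h3, zero_div, mul_zero] at h2
      linarith
    · exact h3
  · intro k
    set v : ℝ := (D a).val k (pos x + xU a) / (D a).tot k with hv
    have hv0 : 0 ≤ v := div_nonneg ((D a).val_nonneg _ _)
      (sum_nonneg fun _ _ => (D a).val_nonneg _ _)
    have h1 := hrow a k x
    have e1' : ∑ e, (if pal e = x then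
        (if e ∈ Gd ∧ su e = a ∧ (D a).cls e = k then av δ w e else 0) else 0) =
        ∑ e ∈ (Gd.filter (fun e => su e = a ∧ pal e = x)).filter (fun e => (D a).cls e = k),
          av δ w e := by
      rw [filter_filter, ← filter_univ_mem Gd, filter_filter, sum_filter]
      refine sum_congr rfl fun e _ => ?_
      by_cases h2 : pal e = x
      · by_cases h3 : e ∈ Gd <;> by_cases h4 : su e = a <;> by_cases h5 : (D a).cls e = k <;>
          simp [h2, h3, h4, h5]
      · simp [h2]
    rw [e1'] at h1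
    refine h1.trans ?_
    have h2 : ∑ e, P e x * (if e ∈ Gd ∧ su e = a ∧ (D a).cls e = k then av δ w e else 0) ≤
        κ a * v * ∑ e ∈ (L.filter (fun e => su e = a)).filter (fun e => (D a).cls e = k),
          av δ w e * FO e x := by
      have hLf : (L.filter (fun e => su e = a)).filter (fun e => (D a).cls e = k) =
          univ.filter (fun e => e ∈ L ∧ su e = a ∧ (D a).cls e = k) := by
        ext e
        simp only [mem_filter, mem_univ, true_and, and_assoc]
      rw [mul_sum, hLf, sum_filter]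
      refine sum_le_sum fun e _ => ?_
      by_cases h3 : e ∈ Gd ∧ su e = a ∧ (D a).cls e = k
      · rw [if_pos h3, if_pos ⟨hGL h3.1, h3.2.1, h3.2.2⟩]
        obtain ⟨h3, rfl, rfl⟩ := h3
        have h4 := hP e h3 x
        have h5 := mul_le_mul_of_nonneg_right h4 (hav0 e)
        refine h5.trans (le_of_eq ?_)
        rw [hv]
        ring
      · rw [if_neg h3, mul_zero]
        split_ifs
        · exact mul_nonneg (mul_nonneg (hκ a) hv0) (mul_nonneg (hav0 e) (hFO e x))
        · exact le_rfl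
    have h3 := mul_le_mul_of_nonneg_left (hb a k x) (mul_nonneg (hκ a) hv0)
    have h4 : κ a * v * ((1 / q) * ∑ e ∈ (L.filter (fun e => su e = a)).filter
        (fun e => (D a).cls e = k), av δ w e + e1) =
        v * (κ a / q * ∑ e ∈ (L.filter (fun e => su e = a)).filter
        (fun e => (D a).cls e = k), av δ w e + κ a * e1) := by ring
    rw [h4] at h3
    linarith

end Pool.Agent.MP2237
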