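import Mathlib
import Pool.Agent.MP_2237f3_co.LightSide
import Pool.Agent.MP_2237f3_co.Rounding
import Pool.Agent.MP_2237f3_co.Konig

set_option autoImplicit false

namespace Pool.Agent.MP2237

open Finset

/-- the distribution of the edge `e` over the configurations of a vertex -/
noncomputable def VS.dist {E : Type} [DecidableEq E] {q m : ℕ} {δ h : ℝ} {F : Finset E}
    {w : E → ℝ} (D : VS q m δ h F w) (e : E) (x : Fin q) : ℝ := D.val (D.cls e) x / D.tot (D.cls e)

theorem VS.dist_nonneg {E : Type} [DecidableEq E] {q m : ℕ} {δ h : ℝ} {F : Finset E}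
    {w : E → ℝ} (D : VS q m δ h F w) (e : E) (x : Fin q) : 0 ≤ D.dist e x :=
  div_nonneg (D.val_nonneg _ _) (sum_nonneg fun _ _ => D.val_nonneg _ _)

theorem VS.dist_sum {E : Type} [DecidableEq E] {q m : ℕ} {δ h : ℝ} {F : Finset E}
    {w : E → ℝ} (D : VS q m δ h F w) (e : E) (he : e ∈ F) : ∑ x, D.dist e x = 1 := by
  simp only [VS.dist]
  rw [← sum_div]
  have h1 : D.tot (D.cls e) ≠ 0 := by have := D.half_le_tot e he; linarith
  exact div_self h1

/-- Colouring of the (good) light edges when every vertex may only use its free palettes. -/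
theorem light (εr : ℝ) (hεr : 0 < εr) (hεr1 : εr ≤ 1) :
    ∃ Cr : ℝ, 0 ≤ Cr ∧ ∀ (q m : ℕ) (δ : ℝ), 0 < q → 0 < δ → ∀ (S T E Col : Type) [Fintype S]
      [DecidableEq S] [Fintype T] [DecidableEq T] [Fintype E] [DecidableEq E] [Fintype Col]
      [DecidableEq Col] (s : E → S) (t : E → T) (w : E → ℝ), (∀ e, 0 ≤ w e ∧ w e ≤ 1) →
      0 < Fintype.card Col → ∀ (L Gd : Finset E), Gd ⊆ L →
      ∀ (NS : S → Finset Col) (NT : T → Finset Col) (hS : S → ℝ) (hT : T → ℝ)
      (DS : ∀ u, VS q m δ (hS u) (L.filter (fun e => s e = u)) w)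
      (DT : ∀ v, VS q m δ (hT v) (L.filter (fun e => t e = v)) w)
      (γ e1 e2 Bv : ℝ) (l : ℕ) (xS : S → Fin q) (xT : T → Fin q),
      0 ≤ γ → 0 ≤ e1 → 0 ≤ e2 → 0 < l → (∀ u, 0 < (NS u).card) → (∀ v, 0 < (NT v).card) →
      (∀ e ∈ Gd, ((NS (s e)).card : ℝ) * (NT (t e)).card ≤
        γ * Fintype.card Col * (NS (s e) ∩ NT (t e)).card) →
      (∀ u, γ * (hS u / q + 2 * e1) + (NS u).card * e2 ≤ (NS u).card * l) →
      (∀ v, γ * (hT v / q + 2 * e1) + (NT v).card * e2 ≤ (NT v).card * l) →
      e2 ≤ δ * l →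
      (∀ u, ∑ e ∈ L.filter (fun e => s e = u), av δ w e ≤ Bv) →
      (∀ v, ∑ e ∈ L.filter (fun e => t e = v), av δ w e ≤ Bv) →
      εr * Bv + Cr * Real.sqrt (2 * (Fintype.card Col * q ^ 2)) ≤ e2 →
      (∀ u k c p, ∑ e ∈ (L.filter (fun e => s e = u)).filter (fun e => (DS u).cls e = k),
        av δ w e * (Fintype.card Col / (NT (t e)).card * (if c ∈ NT (t e) then (1 : ℝ) else 0) *
          (DT (t e)).dist e (p + xT (t e))) ≤
        (1 / q) * ∑ e ∈ (L.filter (fun e => s e = u)).filter (fun e => (DS u).cls e = k),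
          av δ w e + e1) →
      (∀ v k c p, ∑ e ∈ (L.filter (fun e => t e = v)).filter (fun e => (DT v).cls e = k),
        av δ w e * (Fintype.card Col / (NS (s e)).card * (if c ∈ NS (s e) then (1 : ℝ) else 0) *
          (DS (s e)).dist e (p + xS (s e))) ≤
        (1 / q) * ∑ e ∈ (L.filter (fun e => t e = v)).filter (fun e => (DT v).cls e = k),
          av δ w e + e1) →
      ∃ c : E → Col × ((Fin q × Fin q) × Fin l),
        (∀ e ∈ Gd, (c e).1 ∈ NS (s e) ∩ NT (t e)) ∧
        (∀ u j, ∑ e ∈ Gd.filter (fun e => s e = u ∧ c e = j), w e ≤ 1) ∧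
        (∀ v j, ∑ e ∈ Gd.filter (fun e => t e = v ∧ c e = j), w e ≤ 1) := by
  classical
  obtain ⟨Cr, hCr0, hCr⟩ := rounding εr hεr hεr1
  refine ⟨Cr, hCr0, ?_⟩
  intro q m δ hq hδ0 S T E Col _ _ _ _ _ _ _ _ s t w hw hcard L Gd hGL NS NT hS hT DS DT γ e1 e2 Bv
    l xS xT hγ he1 he2 hl hNS hNT hgood hcapS hcapT hl2 hrowS hrowT hround hbalS hbalT
  have : NeZero q := ⟨hq.ne'⟩
  have hq' : (0 : ℝ) < q := by exact_mod_cast hq
  have hq1 : (1 : ℝ) ≤ q := by exact_mod_cast hq
  set Q : ℝ := (Fintype.card Col : ℝ) with hQ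
  have hQ0 : 0 < Q := by rw [hQ]; exact_mod_cast hcard
  have hQ1 : 1 ≤ Q := by rw [hQ]; exact_mod_cast hcard
  have hNS' : ∀ u, (0 : ℝ) < (NS u).card := fun u => by exact_mod_cast hNS u
  have hNT' : ∀ v, (0 : ℝ) < (NT v).card := fun v => by exact_mod_cast hNT v
  have hav0 : ∀ e, 0 ≤ av δ w e := by
    intro e
    simp only [av]
    split_ifs
    · exact (hw e).1
    · exact zero_le_one
  have hav1 : ∀ e, av δ w e ≤ 1 := by
    intro e
    simp only [av]
    split_ifs
    · exact (hw e).2
    · exact le_rfl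
  set FS : E → Fin q → ℝ := fun e x => (DS (s e)).dist e x with hFS
  set FT : E → Fin q → ℝ := fun e x => (DT (t e)).dist e x with hFT
  have hFS0 : ∀ e x, 0 ≤ FS e x := fun e x => VS.dist_nonneg _ _ _
  have hFT0 : ∀ e x, 0 ≤ FT e x := fun e x => VS.dist_nonneg _ _ _
  have hFS1 : ∀ e ∈ L, ∑ x, FS e x = 1 := fun e he => VS.dist_sum _ e (by simp [he])
  have hFT1 : ∀ e ∈ L, ∑ x, FT e x = 1 := fun e he => VS.dist_sum _ e (by simp [he])
  set ι : E → ℝ := fun e => ((NS (s e) ∩ NT (t e)).card : ℝ) with hι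
  have hι0 : ∀ e ∈ Gd, 0 < ι e := by
    intro e he
    have h1 := hgood e he
    have h2 : 0 < ((NS (s e)).card : ℝ) * (NT (t e)).card := mul_pos (hNS' _) (hNT' _)
    have h3 : (0 : ℝ) ≤ ι e := Nat.cast_nonneg _
    rcases h3.eq_or_lt with h4 | h4
    · have h5 : ((NS (s e) ∩ NT (t e)).card : ℝ) = 0 := h4.symm
      rw [h5, mul_zero] at h1
      linarith
    · exact h4
  set ρ : E → Col → ℝ := fun e c => (if c ∈ NS (s e) ∩ NT (t e) then (1 : ℝ) else 0) / ι e with hρ
  have hρ0 : ∀ e c, 0 ≤ ρ e c := by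
    intro e c
    simp only [hρ, hι]
    split_ifs <;> positivity
  have hρ1 : ∀ e ∈ Gd, ∑ c, ρ e c = 1 := by
    intro e he
    simp only [hρ]
    rw [← sum_div, sum_ite_mem, univ_inter, sum_const, nsmul_eq_mul, mul_one]
    exact div_self (hι0 e he).ne'
  -- the random palette
  set N : ℝ := (Fintype.card (Col × (Fin q × Fin q)) : ℝ) with hN
  have hNval : N = Q * q ^ 2 := by
    rw [hN, Fintype.card_prod, Fintype.card_prod, Fintype.card_fin]
    push_cast
    ring
  have hN0 : 0 < N := by rw [hNval]; positivity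
  set P : E → Col × (Fin q × Fin q) → ℝ := fun e x =>
    if e ∈ Gd then ρ e x.1 * (FS e (x.2.1 + xS (s e)) * FT e (x.2.2 + xT (t e))) else 1 / N with hP
  have hP0 : ∀ e x, 0 ≤ P e x := by
    intro e x
    simp only [hP]
    split_ifs
    · exact mul_nonneg (hρ0 _ _) (mul_nonneg (hFS0 _ _) (hFT0 _ _))
    · positivity
  have hP1 : ∀ e, ∑ x, P e x = 1 := by
    intro e
    by_cases he : e ∈ Gd
    · simp only [hP, if_pos he]
      rw [Fintype.sum_prod_type]
      simp only
      simp_rw [← mul_sum]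
      have h1 : ∑ y : Fin q × Fin q, FS e (y.1 + xS (s e)) * FT e (y.2 + xT (t e)) = 1 := by
        rw [Fintype.sum_prod_type]
        simp only
        simp_rw [← mul_sum]
        have h1 : ∑ y : Fin q, FT e (y + xT (t e)) = 1 := by
          rw [← hFT1 e (hGL he)]
          exact Equiv.sum_comp (Equiv.addRight (xT (t e))) (FT e)
        have h2 : ∑ y : Fin q, FS e (y + xS (s e)) = 1 := by
          rw [← hFS1 e (hGL he)]
          exact Equiv.sum_comp (Equiv.addRight (xS (s e))) (FS e)
        rw [h1]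
        simp only [mul_one]
        exact h2
      rw [h1]
      simp only [mul_one]
      exact hρ1 e he
    · simp only [hP, if_neg he]
      rw [sum_const, card_univ, nsmul_eq_mul]
      rw [← hN]
      field_simp
  -- contribution of an edge to a row
  let JS : S → Option (Fin m) → E → ℝ := fun u k e =>
    if e ∈ Gd ∧ s e = u ∧ (DS u).cls e = k then av δ w e else 0
  let JT : T → Option (Fin m) → E → ℝ := fun v k e =>
    if e ∈ Gd ∧ t e = v ∧ (DT v).cls e = k then av δ w e else 0
  let J : (S ⊕ T) → Option (Fin m) → E → ℝ := fun r k e => Sum.elim (fun u => JS u k e)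
    (fun v => JT v k e) r
  have hJ0 : ∀ r k e, 0 ≤ J r k e := by
    rintro (u | v) k e
    · simp only [J, JS, Sum.elim_inl]
      split_ifs; exacts [hav0 e, le_rfl]
    · simp only [J, JT, Sum.elim_inr]
      split_ifs; exacts [hav0 e, le_rfl]
  have hJ1 : ∀ r k e, J r k e ≤ 1 := by
    rintro (u | v) k e
    · simp only [J, JS, Sum.elim_inl]
      split_ifs; exacts [hav1 e, zero_le_one]
    · simp only [J, JT, Sum.elim_inr]
      split_ifs; exacts [hav1 e, zero_le_one]
  have hJS : ∀ e, ∑ u : S, ∑ k : Option (Fin m), JS u k e ≤ av δ w e := by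
    intro e
    rw [sum_eq_single (s e), sum_eq_single ((DS (s e)).cls e)]
    · simp only [JS]
      split_ifs; exacts [le_rfl, hav0 e]
    · intro k _ hk
      simp only [JS]
      rw [if_neg]
      exact fun h3 => hk h3.2.2.symm
    · intro h3; exact absurd (mem_univ _) h3
    · intro u _ hu
      refine sum_eq_zero fun k _ => ?_
      simp only [JS]
      rw [if_neg]
      exact fun h3 => hu h3.2.1.symm
    · intro h3; exact absurd (mem_univ _) h3
  have hJT : ∀ e, ∑ v : T, ∑ k : Option (Fin m), JT v k e ≤ av δ w e := by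
    intro e
    rw [sum_eq_single (t e), sum_eq_single ((DT (t e)).cls e)]
    · simp only [JT]
      split_ifs; exacts [le_rfl, hav0 e]
    · intro k _ hk
      simp only [JT]
      rw [if_neg]
      exact fun h3 => hk h3.2.2.symm
    · intro h3; exact absurd (mem_univ _) h3
    · intro u _ hu
      refine sum_eq_zero fun k _ => ?_
      simp only [JT]
      rw [if_neg]
      exact fun h3 => hu h3.2.1.symm
    · intro h3; exact absurd (mem_univ _) h3
  obtain ⟨pal, hpal0, hpal⟩ := hCr E (Col × (Fin q × Fin q))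
    ((S ⊕ T) × Option (Fin m) × (Col × (Fin q × Fin q))) P
    (fun r e => J r.1 r.2.1 e)
    (fun r e x => if x = r.2.2 then J r.1 r.2.1 e else 0) 1 (2 * (Q * q ^ 2)) hP0 hP1
    (fun r e x => by split_ifs; exacts [hJ0 _ _ _, le_rfl])
    (fun r e x => by split_ifs; exacts [le_rfl, hJ0 _ _ _])
    (fun r e => hJ1 _ _ _)
    (fun e => by
      rw [Fintype.sum_prod_type, Fintype.sum_sum_type]
      have h1 : ∀ r : S ⊕ T, ∑ k : Option (Fin m) × (Col × (Fin q × Fin q)), J r k.1 e =
          N * ∑ k : Option (Fin m), J r k e := by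
        intro r
        rw [Fintype.sum_prod_type_right]
        simp only
        rw [sum_const, card_univ, nsmul_eq_mul]
      simp only [h1]
      rw [← mul_sum, ← mul_sum]
      have h2 : ∑ u : S, ∑ k : Option (Fin m), J (Sum.inl u) k e ≤ av δ w e := hJS e
      have h3 : ∑ v : T, ∑ k : Option (Fin m), J (Sum.inr v) k e ≤ av δ w e := hJT e
      have h4 := hav1 e
      have h5 := mul_le_mul_of_nonneg_left (h2.trans h4) hN0.le
      have h6 := mul_le_mul_of_nonneg_left (h3.trans h4) hN0.le
      rw [← hNval]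
      linarith)
    one_pos (by nlinarith)
  -- the rows
  have hrS : ∀ u k x, ∑ e, (if pal e = x then JS u k e else 0) ≤ ∑ e, P e x * JS u k e + e2 := by
    intro u k x
    have h1 := hpal (Sum.inl u, k, x)
    simp only [J, Sum.elim_inl] at h1
    have h2 : ∑ e, ∑ x', P e x' * (if x' = x then JS u k e else 0) = ∑ e, P e x * JS u k e := by
      refine sum_congr rfl fun e _ => ?_
      simp
    have h3 : ∑ e, JS u k e ≤ Bv := by
      refine le_trans ?_ (hrowS u)
      rw [← sum_subset (subset_univ (L.filter (fun e => s e = u)))]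
      · refine sum_le_sum fun e _ => ?_
        simp only [JS]
        split_ifs; exacts [le_rfl, hav0 e]
      · intro e _ he
        simp only [JS]
        rw [if_neg]
        intro h
        exact he (mem_filter.2 ⟨hGL h.1, h.2.1⟩)
    have h4 := mul_le_mul_of_nonneg_left h3 hεr.le
    rw [h2, one_mul] at h1
    linarith
  have hrT : ∀ v k x, ∑ e, (if pal e = x then JT v k e else 0) ≤ ∑ e, P e x * JT v k e + e2 := by
    intro v k x
    have h1 := hpal (Sum.inr v, k, x)
    simp only [J, Sum.elim_inr] at h1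
    have h2 : ∑ e, ∑ x', P e x' * (if x' = x then JT v k e else 0) = ∑ e, P e x * JT v k e := by
      refine sum_congr rfl fun e _ => ?_
      simp
    have h3 : ∑ e, JT v k e ≤ Bv := by
      refine le_trans ?_ (hrowT v)
      rw [← sum_subset (subset_univ (L.filter (fun e => t e = v)))]
      · refine sum_le_sum fun e _ => ?_
        simp only [JT]
        split_ifs; exacts [le_rfl, hav0 e]
      · intro e _ he
        simp only [JT]
        rw [if_neg]
        intro h
        exact he (mem_filter.2 ⟨hGL h.1, h.2.1⟩)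
    have h4 := mul_le_mul_of_nonneg_left h3 hεr.le
    rw [h2, one_mul] at h1
    linarith
  -- bounds for the distribution
  have hρle : ∀ e ∈ Gd, ∀ c, ρ e c ≤ γ * Q / ((NS (s e)).card * (NT (t e)).card) *
      (if c ∈ NS (s e) ∩ NT (t e) then (1 : ℝ) else 0) := by
    intro e he c
    have h1 := hgood e he
    have h2 : 1 / ι e ≤ γ * Q / ((NS (s e)).card * (NT (t e)).card) := by
      rw [div_le_div_iff₀ (hι0 e he) (mul_pos (hNS' _) (hNT' _)), one_mul]
      exact h1
    simp only [hρ]
    split_ifs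
    · rw [mul_one]; exact h2
    · simp
  have hsideS : ∀ (u : S) (x : Col × (Fin q × Fin q)), ∃ f : E → ℕ,
      (∀ k, ((Gd.filter (fun e => s e = u ∧ pal e = x)).filter (fun e => f e = k)).card ≤ l) ∧
      ∀ Y ⊆ Gd.filter (fun e => s e = u ∧ pal e = x), Set.InjOn f Y → ∑ e ∈ Y, w e ≤ 1 := by
    refine light_side q m δ hδ0.le w (fun e => (hw e).1) s L Gd hGL hS DS pal P
      (fun e x => Q / (NT (t e)).card * (if x.1 ∈ NT (t e) then (1 : ℝ) else 0) *
        FT e (x.2.2 + xT (t e))) (fun x => x.2.1) xS (fun u => γ / (NS u).card)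
      (fun u => div_nonneg hγ (hNS' u).le) e1 e2 he1 he2 l hl ?_ (fun e _ => hpal0 e) ?_ ?_ hrS ?_
      hl2
    · intro e x
      refine mul_nonneg (mul_nonneg (div_nonneg hQ0.le (hNT' _).le) ?_) (hFT0 _ _)
      split_ifs <;> norm_num
    · intro e he x
      simp only [hP, if_pos he]
      have h1 := hρle e he x.1
      have h2 : (if x.1 ∈ NS (s e) ∩ NT (t e) then (1 : ℝ) else 0) ≤
          (if x.1 ∈ NT (t e) then (1 : ℝ) else 0) := by
        by_cases h3 : x.1 ∈ NT (t e)
        · rw [if_pos h3]; split_ifs <;> norm_num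
        · rw [if_neg h3, if_neg (fun h => h3 (mem_inter.1 h).2)]
      have h3 : 0 ≤ γ * Q / ((NS (s e)).card * (NT (t e)).card) := by positivity
      have h4 := h1.trans (mul_le_mul_of_nonneg_left h2 h3)
      have h5 := mul_le_mul_of_nonneg_right h4 (mul_nonneg (hFS0 e (x.2.1 + xS (s e)))
        (hFT0 e (x.2.2 + xT (t e))))
      refine h5.trans (le_of_eq ?_)
      simp only [hFS, VS.dist]
      have hn1 := (hNS' (s e)).ne'
      have hn2 := (hNT' (t e)).ne'
      field_simp
    · intro u k x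
      exact hbalS u k x.1 x.2.2
    · intro u
      have h1 := hcapS u
      have h2 := hNS' u
      have h3 : γ / (NS u).card * (hS u / q + 2 * e1) + e2 =
          (γ * (hS u / q + 2 * e1) + (NS u).card * e2) / (NS u).card := by
        field_simp
      rw [h3, div_le_iff₀ h2, mul_comm (l : ℝ)]
      exact h1
  have hsideT : ∀ (v : T) (x : Col × (Fin q × Fin q)), ∃ f : E → ℕ,
      (∀ k, ((Gd.filter (fun e => t e = v ∧ pal e = x)).filter (fun e => f e = k)).card ≤ l) ∧
      ∀ Y ⊆ Gd.filter (fun e => t e = v ∧ pal e = x), Set.InjOn f Y → ∑ e ∈ Y, w e ≤ 1 := by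
    refine light_side q m δ hδ0.le w (fun e => (hw e).1) t L Gd hGL hT DT pal P
      (fun e x => Q / (NS (s e)).card * (if x.1 ∈ NS (s e) then (1 : ℝ) else 0) *
        FS e (x.2.1 + xS (s e))) (fun x => x.2.2) xT (fun v => γ / (NT v).card)
      (fun v => div_nonneg hγ (hNT' v).le) e1 e2 he1 he2 l hl ?_ (fun e _ => hpal0 e) ?_ ?_ hrT ?_
      hl2
    · intro e x
      refine mul_nonneg (mul_nonneg (div_nonneg hQ0.le (hNS' _).le) ?_) (hFS0 _ _)
      split_ifs <;> norm_num
    · intro e he x
      simp only [hP, if_pos he]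
      have h1 := hρle e he x.1
      have h2 : (if x.1 ∈ NS (s e) ∩ NT (t e) then (1 : ℝ) else 0) ≤
          (if x.1 ∈ NS (s e) then (1 : ℝ) else 0) := by
        by_cases h3 : x.1 ∈ NS (s e)
        · rw [if_pos h3]; split_ifs <;> norm_num
        · rw [if_neg h3, if_neg (fun h => h3 (mem_inter.1 h).1)]
      have h3 : 0 ≤ γ * Q / ((NS (s e)).card * (NT (t e)).card) := by positivity
      have h4 := h1.trans (mul_le_mul_of_nonneg_left h2 h3)
      have h5 := mul_le_mul_of_nonneg_right h4 (mul_nonneg (hFS0 e (x.2.1 + xS (s e)))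
        (hFT0 e (x.2.2 + xT (t e))))
      refine h5.trans (le_of_eq ?_)
      simp only [hFT, VS.dist]
      have hn1 := (hNS' (s e)).ne'
      have hn2 := (hNT' (t e)).ne'
      field_simp
    · intro v k x
      exact hbalT v k x.1 x.2.1
    · intro v
      have h1 := hcapT v
      have h2 := hNT' v
      have h3 : γ / (NT v).card * (hT v / q + 2 * e1) + e2 =
          (γ * (hT v / q + 2 * e1) + (NT v).card * e2) / (NT v).card := by
        field_simp
      rw [h3, div_le_iff₀ h2, mul_comm (l : ℝ)]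
      exact h1
  choose gS hgS1 hgS2 using hsideS
  choose gT hgT1 hgT2 using hsideT
  -- one application of König's theorem for all palettes together
  obtain ⟨c0, hc0⟩ := konig
    (fun e => if e ∈ Gd then Sum.inl (s e, pal e, gS (s e) (pal e) e) else Sum.inr e)
    (fun e => if e ∈ Gd then Sum.inl (t e, pal e, gT (t e) (pal e) e) else Sum.inr e) l
    (by
      rintro (⟨u, x, k⟩ | e0)
      · refine le_trans (card_le_card ?_) (hgS1 u x k)
        intro e he
        simp only [mem_filter, mem_univ, true_and] at he ⊢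
        by_cases h : e ∈ Gd
        · rw [if_pos h, Sum.inl.injEq, Prod.mk.injEq, Prod.mk.injEq] at he
          obtain ⟨rfl, rfl, rfl⟩ := he
          exact ⟨⟨h, rfl, rfl⟩, rfl⟩
        · rw [if_neg h] at he
          exact absurd he (by simp)
      · refine le_trans (card_le_card (t := {e0}) ?_) (by rw [card_singleton]; exact hl)
        intro e he
        simp only [mem_filter, mem_univ, true_and, mem_singleton] at he ⊢
        by_cases h : e ∈ Gd
        · rw [if_pos h] at he
          exact absurd he (by simp)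
        · rw [if_neg h, Sum.inr.injEq] at he
          exact he)
    (by
      rintro (⟨u, x, k⟩ | e0)
      · refine le_trans (card_le_card ?_) (hgT1 u x k)
        intro e he
        simp only [mem_filter, mem_univ, true_and] at he ⊢
        by_cases h : e ∈ Gd
        · rw [if_pos h, Sum.inl.injEq, Prod.mk.injEq, Prod.mk.injEq] at he
          obtain ⟨rfl, rfl, rfl⟩ := he
          exact ⟨⟨h, rfl, rfl⟩, rfl⟩
        · rw [if_neg h] at he
          exact absurd he (by simp)
      · refine le_trans (card_le_card (t := {e0}) ?_) (by rw [card_singleton]; exact hl)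
        intro e he
        simp only [mem_filter, mem_univ, true_and, mem_singleton] at he ⊢
        by_cases h : e ∈ Gd
        · rw [if_pos h] at he
          exact absurd he (by simp)
        · rw [if_neg h, Sum.inr.injEq] at he
          exact he)
  refine ⟨fun e => ((pal e).1, ((pal e).2, c0 e)), ?_, ?_, ?_⟩
  · intro e he
    have h1 := hpal0 e
    simp only [hP, if_pos he, hρ] at h1
    by_contra h2
    rw [if_neg h2, zero_div, zero_mul] at h1
    exact lt_irrefl _ h1
  · rintro u ⟨x1, x2, j0⟩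
    refine hgS2 u (x1, x2) _ (fun e he => ?_) (fun e he e' he' hee => ?_)
    · simp only [mem_filter, Prod.mk.injEq] at he ⊢
      exact ⟨he.1, he.2.1, Prod.ext he.2.2.1 he.2.2.2.1⟩
    · simp only [mem_coe, mem_filter, Prod.mk.injEq] at he he'
      by_contra hne
      have := (hc0 e e' hne (he.2.2.2.2.trans he'.2.2.2.2.symm)).1
      apply this
      have hp : pal e = (x1, x2) := Prod.ext he.2.2.1 he.2.2.2.1
      have hp' : pal e' = (x1, x2) := Prod.ext he'.2.2.1 he'.2.2.2.1
      rw [if_pos he.1, if_pos he'.1, he.2.1, he'.2.1, hp, hp', hee]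
  · rintro v ⟨x1, x2, j0⟩
    refine hgT2 v (x1, x2) _ (fun e he => ?_) (fun e he e' he' hee => ?_)
    · simp only [mem_filter, Prod.mk.injEq] at he ⊢
      exact ⟨he.1, he.2.1, Prod.ext he.2.2.1 he.2.2.2.1⟩
    · simp only [mem_coe, mem_filter, Prod.mk.injEq] at he he'
      by_contra hne
      have := (hc0 e e' hne (he.2.2.2.2.trans he'.2.2.2.2.symm)).2
      apply this
      have hp : pal e = (x1, x2) := Prod.ext he.2.2.1 he.2.2.2.1
      have hp' : pal e' = (x1, x2) := Prod.ext he'.2.2.1 he'.2.2.2.1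
      rw [if_pos he.1, if_pos he'.1, he.2.1, he'.2.1, hp, hp', hee]

end Pool.Agent.MP2237
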