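import Mathlib
import Pool.Agent.MP_2237f3_co.Assemble
import Pool.Agent.MP_2237f3_co.BalanceLog
import Pool.Agent.MP_2237f3_co.Light

set_option autoImplicit false

namespace Pool.Agent.MP2237

open Finset

theorem sum_av_vertex' {E : Type} [DecidableEq E] (δ : ℝ) (hδ0 : 0 < δ) (hδ1 : δ ≤ 1)
    (F : Finset E) (w : E → ℝ) (hw : ∀ e ∈ F, 0 ≤ w e ∧ w e ≤ 1) (b : ℕ) (f : E → Fin b)
    (hf : ∀ j, ∑ e ∈ F.filter (fun e => f e = j), w e ≤ 1) :
    ∑ e ∈ F, av δ w e ≤ b / δ := by
  have h1 : ∀ e ∈ F, av δ w e ≤ w e / δ := by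
    intro e he
    simp only [av]
    split_ifs with h
    · rw [le_div_iff₀ hδ0]
      have := (hw e he).1
      nlinarith
    · rw [le_div_iff₀ hδ0]
      linarith
  have h2 : ∑ e ∈ F, w e ≤ b := by
    rw [← sum_fiberwise F f w]
    calc ∑ j : Fin b, ∑ e ∈ F.filter (fun e => f e = j), w e ≤ ∑ j : Fin b, (1 : ℝ) :=
          sum_le_sum fun j _ => hf j
      _ = b := by simp
  calc ∑ e ∈ F, av δ w e ≤ ∑ e ∈ F, w e / δ := sum_le_sum h1
    _ = (∑ e ∈ F, w e) / δ := by rw [sum_div]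
    _ ≤ b / δ := div_le_div_of_nonneg_right h2 hδ0.le

/-- `exists_VS` with the information `δ ≤ 1 / 2`. -/
theorem exists_VS_half (ε : ℝ) (hε0 : 0 < ε) (hε1 : ε ≤ 1) :
    ∃ (δ : ℝ) (q m b0 : ℕ), 0 < δ ∧ δ ≤ 1 / 2 ∧ 0 < q ∧ ∀ b : ℕ, b0 ≤ b →
      ∀ (E : Type) [DecidableEq E] (F : Finset E) (w : E → ℝ), (∀ e ∈ F, 0 ≤ w e) →
      ∀ f : E → Fin b, (∀ j, ∑ e ∈ F.filter (fun e => f e = j), w e ≤ 1) →
      Nonempty (VS q m δ ((1 + ε) * b / (q : ℝ)) F w) := by
  set δ : ℝ := ε / 64 with hδ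
  have hδ0 : 0 < δ := by positivity
  set m : ℕ := ⌈64 / (δ * ε)⌉₊ with hm
  have hm0 : 0 < m := Nat.ceil_pos.2 (by positivity)
  have hm0' : (0 : ℝ) < m := by exact_mod_cast hm0
  set η : ℝ := 1 / (δ * m) with hη
  have hη0 : 0 < η := by positivity
  have hη1 : η ≤ ε / 64 := by
    have := Nat.le_ceil (64 / (δ * ε))
    rw [← hm, div_le_iff₀ (by positivity)] at this
    rw [hη, div_le_iff₀ (by positivity)]
    nlinarith
  set ε' : ℝ := η * (ε / 64) with hε'
  have hε'0 : 0 < ε' := by positivity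
  obtain ⟨q0, hq0⟩ := sampling m (1 / δ) ε' (by positivity) hε'0
  set q1 : ℕ := max q0 ⌈64 / ε⌉₊ with hq1
  have hq1a : 64 / ε ≤ q1 := (Nat.le_ceil _).trans (by exact_mod_cast le_max_right _ _)
  set q2 : ℕ := ⌈4 * η * q1⌉₊ with hq2
  set q3 : ℕ := ⌈4 * (δ + ε') * q1⌉₊ with hq3
  have hq1pos : (0 : ℝ) < q1 := lt_of_lt_of_le (by positivity) hq1a
  refine ⟨δ, q1 + (q2 + q3), m, max 1 ⌈1 / η⌉₊, hδ0, by rw [hδ]; linarith, ?_, ?_⟩
  · have : 0 < q1 := by exact_mod_cast hq1pos
    omega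
  · intro b hb E _ F w hw0 f hf
    exact exists_VS_aux ε δ η ε' m q1 q2 q3 b hε0 hε1 hδ0 le_rfl hm0 hη hη1 hε'0 le_rfl hq1a
      (Nat.le_ceil _) (Nat.ceil_lt_add_one (by positivity)).le (Nat.le_ceil _)
      (Nat.ceil_lt_add_one (by positivity)).le (Nat.ceil_pos.2 (by positivity))
      ((Nat.le_ceil _).trans (by exact_mod_cast (le_max_right _ _).trans hb))
      (hq0 q1 (le_max_left _ _) b (lt_of_lt_of_le Nat.one_pos ((le_max_left _ _).trans hb)))
      F w hw0 f hf

/-- extension of a packing by empty bins -/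
theorem pack_extend {E : Type} [DecidableEq E] (F : Finset E) (w : E → ℝ) (n N : ℕ) (hN : 0 < N)
    (hnN : n ≤ N) (f : E → ℕ) (hf : ∀ e ∈ F, f e < n)
    (hfw : ∀ j, ∑ e ∈ F.filter (fun e => f e = j), w e ≤ 1) (hw : ∀ e ∈ F, 0 ≤ w e) :
    ∃ g : E → Fin N, ∀ j, ∑ e ∈ F.filter (fun e => g e = j), w e ≤ 1 := by
  refine ⟨fun e => if h : f e < N then ⟨f e, h⟩ else ⟨0, hN⟩, fun j => ?_⟩
  refine le_trans (sum_le_sum_of_subset_of_nonneg ?_ fun e he _ => hw e (mem_filter.1 he).1)
    (hfw j)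
  intro e he
  rw [mem_filter] at he ⊢
  have h1 : f e < N := lt_of_lt_of_le (hf e he.1) hnN
  have h2 := he.2
  simp only [dif_pos h1] at h2
  exact ⟨he.1, by rw [← h2]⟩

/-- Bounds at one vertex: the number of heavy neighbours, the number of pair bins plus light
bins. -/
theorem vertex_bound {V E : Type} [Fintype V] [DecidableEq V] [DecidableEq E] (F : Finset E)
    (o : E → V) (w : E → ℝ) (hw : ∀ e, 0 ≤ w e ∧ w e ≤ 1) (b : ℕ) (hb : 0 < b) (f : E → Fin b)
    (hf : ∀ j, ∑ e ∈ F.filter (fun e => f e = j), w e ≤ 1) (δ : ℝ) (hδ0 : 0 < δ) (hδ1 : δ ≤ 1)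
    (hv : V → Prop) [DecidablePred hv] (τ : ℝ) (hτ : 0 < τ)
    (hτ' : ∀ v, hv v → τ * b < ∑ e ∈ F.filter (fun e => o e = v), av δ w e) (n : V → ℕ)
    (hn : ∀ v, hv v → (n v : ℝ) ≤ ∑ e ∈ F.filter (fun e => o e = v), W (w e) + 6)
    (hn0 : ∀ v, ¬ hv v → n v = 0) (nL : ℕ)
    (hnL : (nL : ℝ) ≤ ∑ e ∈ F.filter (fun e => ¬ hv (o e)), W (w e) + 6) :
    ((univ.filter hv).card : ℝ) ≤ 1 / (δ * τ) ∧
      ∑ v, (n v : ℝ) + nL ≤ 17 / 10 * b + 6 * (univ.filter hv).card + 6 := by
  have hb' : (0 : ℝ) < b := by exact_mod_cast hb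
  have hav0 : ∀ e, 0 ≤ av δ w e := by
    intro e
    simp only [av]
    split_ifs
    · exact (hw e).1
    · exact zero_le_one
  constructor
  · have h1 : ∑ e ∈ F, av δ w e ≤ b / δ := by
      have h1 : ∀ e ∈ F, av δ w e ≤ w e / δ := by
        intro e he
        simp only [av]
        split_ifs with h
        · rw [le_div_iff₀ hδ0]
          have := (hw e).1
          nlinarith
        · rw [le_div_iff₀ hδ0]
          linarith
      have h2 : ∑ e ∈ F, w e ≤ b := by
        rw [← sum_fiberwise F f w]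
        calc ∑ j : Fin b, ∑ e ∈ F.filter (fun e => f e = j), w e ≤ ∑ j : Fin b, (1 : ℝ) :=
              sum_le_sum fun j _ => hf j
          _ = b := by simp
      calc ∑ e ∈ F, av δ w e ≤ ∑ e ∈ F, w e / δ := sum_le_sum h1
        _ = (∑ e ∈ F, w e) / δ := by rw [sum_div]
        _ ≤ b / δ := div_le_div_of_nonneg_right h2 hδ0.le
    have h2 : ((univ.filter hv).card : ℝ) * (τ * b) ≤ ∑ e ∈ F, av δ w e := by
      rw [← sum_fiberwise F o (av δ w), ← nsmul_eq_mul]
      refine le_trans (card_nsmul_le_sum _ _ _ fun v hv' => ((hτ' v (mem_filter.1 hv').2).le)) ?_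
      exact sum_le_sum_of_subset_of_nonneg (subset_univ _)
        fun v _ _ => sum_nonneg fun e _ => hav0 e
    have h3 := h2.trans h1
    rw [le_div_iff₀ (by positivity)]
    rw [le_div_iff₀ hδ0] at h3
    have h4 : ((univ.filter hv).card : ℝ) * (δ * τ) * b ≤ 1 * b := by nlinarith
    exact le_of_mul_le_mul_right h4 hb'
  · have h1 : ∑ v, (n v : ℝ) ≤ ∑ e ∈ F.filter (fun e => hv (o e)), W (w e) +
        6 * (univ.filter hv).card := by
      have h2 : ∑ v, (n v : ℝ) = ∑ v ∈ univ.filter hv, (n v : ℝ) := by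
        rw [sum_filter]
        refine sum_congr rfl fun v _ => ?_
        split_ifs with h
        · rfl
        · rw [hn0 v h]; simp
      have h3 : ∑ v ∈ univ.filter hv, (n v : ℝ) ≤
          ∑ v ∈ univ.filter hv, (∑ e ∈ F.filter (fun e => o e = v), W (w e) + 6) :=
        sum_le_sum fun v hv' => hn v (mem_filter.1 hv').2
      rw [sum_add_distrib, sum_const, nsmul_eq_mul] at h3
      have h4 : ∑ v ∈ univ.filter hv, ∑ e ∈ F.filter (fun e => o e = v), W (w e) =
          ∑ e ∈ F.filter (fun e => hv (o e)), W (w e) := by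
        rw [← sum_fiberwise (F.filter (fun e => hv (o e))) o (fun e => W (w e)), sum_filter]
        refine sum_congr rfl fun v _ => ?_
        split_ifs with h
        · refine sum_congr ?_ fun _ _ => rfl
          ext e
          simp only [mem_filter]
          constructor
          · rintro ⟨h5, rfl⟩
            exact ⟨⟨h5, h⟩, rfl⟩
          · rintro ⟨⟨h5, _⟩, h6⟩
            exact ⟨h5, h6⟩
        · symm
          refine sum_eq_zero fun e he => ?_
          simp only [mem_filter] at he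
          obtain ⟨⟨_, h5⟩, rfl⟩ := he
          exact absurd h5 h
      rw [h4] at h3
      linarith
    have h2 : ∑ e ∈ F.filter (fun e => hv (o e)), W (w e) +
        ∑ e ∈ F.filter (fun e => ¬ hv (o e)), W (w e) = ∑ e ∈ F, W (w e) :=
      sum_filter_add_sum_filter_not _ _ _
    have h3 := W_total F w (fun e _ => (hw e).1) b f hf
    linarith

/-- Numerical bookkeeping at one vertex. -/
theorem numbers (ε0 δ q Q b N l sn nL cnt bu f dgv : ℝ) (hε0 : 0 < ε0) (hε1 : ε0 ≤ 1 / 100)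
    (hδ0 : 0 < δ) (hδ1 : δ ≤ 1) (hq : 1 ≤ q) (hQ : 1 ≤ Q) (hb : 0 < b) (hl : 0 < l)
    (hN : N = q * q * l) (hNQ : (17 / 10 + 20 * ε0) * b ≤ N * Q)
    (hNQ' : N * Q ≤ (17 / 10 + 21 * ε0) * b) (hsn : sn + nL ≤ 17 / 10 * b + 6 * cnt + 6)
    (hsn0 : 0 ≤ sn) (hnL : 0 ≤ nL) (hcnt : cnt ≤ ε0 * Q)
    (hbu : bu ≤ nL + (ε0 * b + 1)) (hbu0 : 0 ≤ bu) (hb1 : 6 * ε0 * Q + 7 ≤ ε0 * b)
    (hdg : dgv ≤ sn / N + cnt) (hdg0 : 0 ≤ dgv) (hf : f = Q - dgv) :
    8 * ε0 * Q ≤ f ∧ f ≤ Q ∧
      (1 + 2 * ε0) * ((1 + ε0) * bu / q / q + 2 * (ε0 / (8 * q ^ 2) * b)) +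
        f * (ε0 * δ / (Q * q ^ 2) * b) ≤ f * l := by
  have hN0 : 0 < N := by rw [hN]; positivity
  have h1 : N * f ≥ bu + 16 * ε0 * b := by
    have h2 : N * dgv ≤ sn + N * cnt := by
      have := mul_le_mul_of_nonneg_left hdg hN0.le
      have h3 : N * (sn / N + cnt) = sn + N * cnt := by field_simp
      linarith
    have h3 : N * cnt ≤ ε0 * (N * Q) := by
      have := mul_le_mul_of_nonneg_left hcnt hN0.le
      nlinarith
    have h4 : N * f = N * Q - N * dgv := by rw [hf]; ring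
    have h5 : (1 - ε0) * ((17 / 10 + 20 * ε0) * b) ≤ (1 - ε0) * (N * Q) :=
      mul_le_mul_of_nonneg_left hNQ (by linarith)
    have h6 : (1 - ε0) * ((17 / 10 + 20 * ε0) * b) =
        17 / 10 * b + (183 / 10 * ε0 - 20 * ε0 ^ 2) * b := by ring
    have h7 : 20 * ε0 ^ 2 ≤ 1 / 5 * ε0 := by nlinarith
    have h8 : (18 * ε0) * b ≤ (183 / 10 * ε0 - 20 * ε0 ^ 2) * b :=
      mul_le_mul_of_nonneg_right (by linarith) hb.le
    nlinarith
  have h2 : N * Q ≤ 2 * b := by nlinarith
  have h3 : 8 * ε0 * Q ≤ f := by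
    have h4 : N * (8 * ε0 * Q) ≤ N * f := by
      have : N * (8 * ε0 * Q) = 8 * ε0 * (N * Q) := by ring
      rw [this]
      nlinarith
    exact le_of_mul_le_mul_left h4 hN0
  have hfQ : f ≤ Q := by rw [hf]; linarith
  have hf0 : 0 ≤ f := by
    have : 0 ≤ 8 * ε0 * Q := by positivity
    linarith
  refine ⟨h3, hfQ, ?_⟩
  have hbu2 : bu ≤ 2 * b := by nlinarith
  have hq0 : 0 < q := by linarith
  have hQ0 : 0 < Q := by linarith
  have h4 : (1 + 2 * ε0) * ((1 + ε0) * bu / q / q + 2 * (ε0 / (8 * q ^ 2) * b)) +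
        f * (ε0 * δ / (Q * q ^ 2) * b) =
      ((1 + 2 * ε0) * (1 + ε0) * bu + (1 + 2 * ε0) * ε0 / 4 * b + (f / Q) * (ε0 * δ * b)) /
        (q * q) := by
    field_simp
    ring
  rw [h4, div_le_iff₀ (by positivity)]
  have h5 : f * l * (q * q) = N * f := by rw [hN]; ring
  rw [h5]
  have h6 : (f / Q) * (ε0 * δ * b) ≤ 1 * (ε0 * 1 * b) := by
    have h7 : f / Q ≤ 1 := by rw [div_le_one hQ0]; exact hfQ
    have h8 : ε0 * δ * b ≤ ε0 * 1 * b := by
      refine mul_le_mul_of_nonneg_right (mul_le_mul_of_nonneg_left hδ1 hε0.le) hb.le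
    exact mul_le_mul h7 h8 (by positivity) zero_le_one
  have h7 : (1 + 2 * ε0) * (1 + ε0) * bu ≤ bu + 4 * ε0 * bu := by
    have : (1 + 2 * ε0) * (1 + ε0) ≤ 1 + 4 * ε0 := by nlinarith
    nlinarith
  have h8 : (1 + 2 * ε0) * ε0 / 4 * b ≤ ε0 * b := by
    refine mul_le_mul_of_nonneg_right ?_ hb.le
    nlinarith
  nlinarith

/-- The balancing step in the form needed for the light edges. -/
theorem balance_side (εb : ℝ) (hεb : 0 < εb) (hεb1 : εb ≤ 1) :
    ∃ C : ℝ, 0 ≤ C ∧ ∀ (q : ℕ) [NeZero q] (U V E κ Col : Type) [Fintype U] [DecidableEq U]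
      [Fintype V] [DecidableEq V] [Fintype E] [DecidableEq E] [Fintype κ] [DecidableEq κ]
      [Fintype Col] [DecidableEq Col] (su : E → U) (tv : E → V) (L : Finset E) (cl : E → κ)
      (x : E → ℝ) (N : V → Finset Col) (Q σ τ Z : ℝ) (G : E → Fin q → ℝ), 0 < Q → 0 < σ →
      0 < τ → 0 < Z → τ / σ ≤ q * (Q * Z) → (∀ e, 0 ≤ x e) →
      (∀ v, σ * Q ≤ (N v).card) →
      (∀ u v, ∑ e ∈ L.filter (fun e => su e = u ∧ tv e = v), x e ≤ τ) →
      (∀ u, ∑ e ∈ L.filter (fun e => su e = u), x e ≤ Z) →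
      (∀ v, ∑ e ∈ L.filter (fun e => tv e = v), x e ≤ Z) →
      (∀ e x, 0 ≤ G e x) → (∀ e ∈ L, ∑ x, G e x = 1) →
      ∃ y : V → Fin q, ∀ u k c p,
        ∑ e ∈ L.filter (fun e => su e = u ∧ cl e = k), x e * (Q / (N (tv e)).card *
          (if c ∈ N (tv e) then (1 : ℝ) else 0) * G e (p + y (tv e))) ≤
          (1 / q) * ∑ e ∈ L.filter (fun e => su e = u ∧ cl e = k), x e * (Q / (N (tv e)).card *
          (if c ∈ N (tv e) then (1 : ℝ) else 0)) +
          (εb * (Z / σ) + C * (τ / σ * Real.sqrt (Real.sqrt (q * (Q * Z) / (τ / σ))))) := by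
  classical
  obtain ⟨C, hC0, hC⟩ := balance_log εb hεb hεb1
  refine ⟨C, hC0, ?_⟩
  intro q _ U V E κ Col _ _ _ _ _ _ _ _ _ _ su tv L cl x N Q σ τ Z G hQ hσ hτ hZ hτZ hx hN hpair
    hrow hcol hG0 hG1
  have hq0 : (0 : ℝ) < q := by exact_mod_cast Nat.pos_of_ne_zero (NeZero.ne q)
  have hN0 : ∀ v, (0 : ℝ) < (N v).card := fun v => lt_of_lt_of_le (by positivity) (hN v)
  set X : E → Col → ℝ := fun e c => Q / (N (tv e)).card * (if c ∈ N (tv e) then (1 : ℝ) else 0)
    with hX
  have hX0 : ∀ e c, 0 ≤ X e c := by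
    intro e c
    simp only [hX]
    have := hN0 (tv e)
    split_ifs <;> positivity
  have hX1 : ∀ e c, X e c ≤ 1 / σ := by
    intro e c
    have h0 := hN0 (tv e)
    have h1 : Q / (N (tv e)).card ≤ 1 / σ := by
      rw [div_le_div_iff₀ h0 hσ, one_mul, mul_comm]
      exact hN (tv e)
    simp only [hX]
    split_ifs
    · rw [mul_one]; exact h1
    · rw [mul_zero]; positivity
  have hXs : ∀ e, ∑ c, X e c = Q := by
    intro e
    simp only [hX]
    rw [← mul_sum, sum_ite_mem, univ_inter, sum_const, nsmul_eq_mul, mul_one]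
    have h0 := hN0 (tv e)
    field_simp
  set a : κ × Col → E → ℝ := fun j e => if e ∈ L ∧ cl e = j.1 then x e * X e j.2 else 0 with ha
  have ha0 : ∀ j e, 0 ≤ a j e := by
    intro j e
    simp only [ha]
    split_ifs
    · exact mul_nonneg (hx e) (hX0 _ _)
    · exact le_rfl
  set G' : E → Fin q → ℝ := fun e p => if e ∈ L then G e p else 1 / q with hG'
  obtain ⟨y, hy⟩ := hC q U V E (κ × Col) su tv a G' (τ / σ) (q * (Q * Z)) (by positivity) hτZ ha0
    (by
      intro u v j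
      have h1 : ∑ e ∈ univ.filter (fun e => su e = u ∧ tv e = v), a j e ≤
          ∑ e ∈ L.filter (fun e => su e = u ∧ tv e = v), x e * (1 / σ) := by
        rw [← sum_subset (s₁ := L.filter (fun e => su e = u ∧ tv e = v))
          (filter_subset_filter _ (subset_univ L))]
        · refine sum_le_sum fun e _ => ?_
          simp only [ha]
          split_ifs
          · exact mul_le_mul_of_nonneg_left (hX1 _ _) (hx e)
          · exact mul_nonneg (hx e) (by positivity)
        · intro e he he'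
          simp only [mem_filter, mem_univ, true_and] at he he'
          simp only [ha]
          rw [if_neg]
          exact fun h => he' ⟨h.1, he⟩
      refine h1.trans ?_
      rw [← sum_mul, mul_one_div]
      exact div_le_div_of_nonneg_right (hpair u v) hσ.le)
    (by
      intro v
      refine mul_le_mul_of_nonneg_left ?_ hq0.le
      rw [Fintype.sum_prod_type, sum_comm]
      have h1 : ∀ c : Col, ∑ k : κ, ∑ e ∈ univ.filter (fun e => tv e = v), a (k, c) e =
          ∑ e ∈ univ.filter (fun e => tv e = v), (if e ∈ L then x e * X e c else 0) := by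
        intro c
        rw [sum_comm]
        refine sum_congr rfl fun e _ => ?_
        by_cases h : e ∈ L
        · simp only [ha, h, true_and, if_true]
          rw [sum_ite_eq]
          simp
        · simp [ha, h]
      simp only [h1]
      rw [sum_comm]
      have h2 : ∀ e, ∑ c, (if e ∈ L then x e * X e c else 0) = if e ∈ L then Q * x e else 0 := by
        intro e
        by_cases h : e ∈ L
        · simp only [h, if_true]
          rw [← mul_sum, hXs, mul_comm]
        · simp [h]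
      simp only [h2]
      rw [← sum_filter, filter_filter, ← mul_sum]
      refine mul_le_mul_of_nonneg_left ?_ hQ.le
      refine le_trans (le_of_eq ?_) (hcol v)
      refine sum_congr ?_ fun _ _ => rfl
      ext e
      simp only [mem_filter, mem_univ, true_and]
      exact and_comm)
    (by
      intro e p
      simp only [hG']
      split_ifs
      · exact hG0 e p
      · positivity)
    (by
      intro e
      by_cases h : e ∈ L
      · simp only [hG', h, if_true]
        exact hG1 e h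
      · simp only [hG', h, if_false]
        rw [sum_const, card_univ, Fintype.card_fin, nsmul_eq_mul]
        field_simp)
  refine ⟨y, fun u k c p => ?_⟩
  have h1 := hy u (k, c) p
  have h2 : ∑ e ∈ univ.filter (fun e => su e = u), a (k, c) e * G' e (p + y (tv e)) =
      ∑ e ∈ L.filter (fun e => su e = u ∧ cl e = k), x e * (X e c * G e (p + y (tv e))) := by
    rw [sum_filter]
    have hLf : L.filter (fun e => su e = u ∧ cl e = k) =
        univ.filter (fun e => e ∈ L ∧ su e = u ∧ cl e = k) := by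
      ext e
      simp only [mem_filter, mem_univ, true_and]
    rw [hLf, sum_filter]
    refine sum_congr rfl fun e _ => ?_
    by_cases h3 : e ∈ L <;> by_cases h4 : su e = u <;> by_cases h5 : cl e = k <;>
      simp [ha, hG', h3, h4, h5, mul_assoc]
  have h3 : ∑ e ∈ univ.filter (fun e => su e = u), a (k, c) e =
      ∑ e ∈ L.filter (fun e => su e = u ∧ cl e = k), x e * X e c := by
    rw [sum_filter]
    have hLf : L.filter (fun e => su e = u ∧ cl e = k) =
        univ.filter (fun e => e ∈ L ∧ su e = u ∧ cl e = k) := by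
      ext e
      simp only [mem_filter, mem_univ, true_and]
    rw [hLf, sum_filter]
    refine sum_congr rfl fun e _ => ?_
    by_cases h3 : e ∈ L <;> by_cases h4 : su e = u <;> by_cases h5 : cl e = k <;>
      simp [ha, h3, h4, h5]
  rw [h2, h3] at h1
  refine h1.trans ?_
  have h4 : ∑ e ∈ L.filter (fun e => su e = u ∧ cl e = k), x e * X e c ≤ Z / σ := by
    calc ∑ e ∈ L.filter (fun e => su e = u ∧ cl e = k), x e * X e c
        ≤ ∑ e ∈ L.filter (fun e => su e = u ∧ cl e = k), x e * (1 / σ) :=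
          sum_le_sum fun e _ => mul_le_mul_of_nonneg_left (hX1 _ _) (hx e)
      _ ≤ ∑ e ∈ L.filter (fun e => su e = u), x e * (1 / σ) := by
          refine sum_le_sum_of_subset_of_nonneg ?_ fun e _ _ => mul_nonneg (hx e) (by positivity)
          intro e he
          rw [mem_filter] at he ⊢
          exact ⟨he.1, he.2.1⟩
      _ = (∑ e ∈ L.filter (fun e => su e = u), x e) * (1 / σ) := by rw [sum_mul]
      _ ≤ Z * (1 / σ) := mul_le_mul_of_nonneg_right (hrow u) (by positivity)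
      _ = Z / σ := by rw [mul_one_div]
  have h5 := mul_le_mul_of_nonneg_left h4 hεb.le
  linarith

end Pool.Agent.MP2237
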