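import Mathlib
import Pool.Agent.MP_2237f3_co.Pieces

set_option autoImplicit false

namespace Pool.Agent.MP2237

open Finset

section alpha

variable {S T E : Type} [Fintype S] [DecidableEq S] [Fintype T] [DecidableEq T] [DecidableEq E]
  (s : E → S) (t : E → T)

/-- indicator that the edge `e` joins `x` and `y` -/
noncomputable def al (x y : S ⊕ T) (e : E) : ℝ :=
  (if (Sum.inl (s e) : S ⊕ T) = x ∧ (Sum.inr (t e) : S ⊕ T) = y then 1 else 0) +
    (if (Sum.inr (t e) : S ⊕ T) = x ∧ (Sum.inl (s e) : S ⊕ T) = y then 1 else 0)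

omit [Fintype S] [Fintype T] [DecidableEq E] in
theorem al_nonneg (x y : S ⊕ T) (e : E) : 0 ≤ al s t x y e := by
  unfold al
  split_ifs <;> norm_num

omit [Fintype S] [Fintype T] [DecidableEq E] in
theorem al_comm (x y : S ⊕ T) (e : E) : al s t x y e = al s t y x e := by
  unfold al
  rw [add_comm]
  congr 1
  · congr 1
    exact propext and_comm
  · congr 1
    exact propext and_comm

omit [DecidableEq E] in
theorem al_sum_left (L : Finset E) (ω : E → ℝ) (g : S ⊕ T → ℝ) (u : S) :
    ∑ y, (∑ e ∈ L, ω e * al s t (Sum.inl u) y e) * g y =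
      ∑ e ∈ L.filter (fun e => s e = u), ω e * g (Sum.inr (t e)) := by
  simp_rw [sum_mul]
  rw [sum_comm, sum_filter]
  refine sum_congr rfl fun e _ => ?_
  rw [Fintype.sum_sum_type]
  have h1 : ∑ x : S, ω e * al s t (Sum.inl u) (Sum.inl x) e * g (Sum.inl x) = 0 := by
    refine sum_eq_zero fun x _ => ?_
    simp [al]
  have h2 : ∑ x : T, ω e * al s t (Sum.inl u) (Sum.inr x) e * g (Sum.inr x) =
      if s e = u then ω e * g (Sum.inr (t e)) else 0 := by
    rw [sum_eq_single (t e)]
    · by_cases h : s e = u <;> simp [al, h]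
    · intro x _ hx
      simp [al, Ne.symm hx]
    · intro h; exact absurd (mem_univ _) h
  rw [h1, h2, zero_add]

omit [DecidableEq E] in
theorem al_sum_right (L : Finset E) (ω : E → ℝ) (g : S ⊕ T → ℝ) (v : T) :
    ∑ y, (∑ e ∈ L, ω e * al s t (Sum.inr v) y e) * g y =
      ∑ e ∈ L.filter (fun e => t e = v), ω e * g (Sum.inl (s e)) := by
  simp_rw [sum_mul]
  rw [sum_comm, sum_filter]
  refine sum_congr rfl fun e _ => ?_
  rw [Fintype.sum_sum_type]
  have h1 : ∑ x : T, ω e * al s t (Sum.inr v) (Sum.inr x) e * g (Sum.inr x) = 0 := by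
    refine sum_eq_zero fun x _ => ?_
    simp [al]
  have h2 : ∑ x : S, ω e * al s t (Sum.inr v) (Sum.inl x) e * g (Sum.inl x) =
      if t e = v then ω e * g (Sum.inl (s e)) else 0 := by
    rw [sum_eq_single (s e)]
    · by_cases h : t e = v <;> simp [al, h]
    · intro x _ hx
      simp [al, Ne.symm hx]
    · intro h; exact absurd (mem_univ _) h
  rw [h1, h2, add_zero]

omit [Fintype S] [Fintype T] [DecidableEq E] in
/-- bound for the weight between two vertices -/
theorem al_pair (L : Finset E) (ω : E → ℝ) (τ : ℝ) (hτ : 0 ≤ τ)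
    (h : ∀ u v, ∑ e ∈ L.filter (fun e => s e = u ∧ t e = v), ω e ≤ τ) (x y : S ⊕ T) :
    ∑ e ∈ L, ω e * al s t x y e ≤ τ := by
  have key : ∀ u v, ∑ e ∈ L, ω e * al s t (Sum.inl u) (Sum.inr v) e ≤ τ := by
    intro u v
    refine le_trans (le_of_eq ?_) (h u v)
    rw [sum_filter]
    refine sum_congr rfl fun e _ => ?_
    by_cases h1 : s e = u ∧ t e = v
    · simp [al, h1.1, h1.2]
    · rw [if_neg h1]
      have h2 : al s t (Sum.inl u) (Sum.inr v) e = 0 := by
        simp only [al, Sum.inl.injEq, Sum.inr.injEq, if_neg h1, reduceCtorEq, and_self, if_false,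
          add_zero]
      rw [h2, mul_zero]
  rcases x with u | v <;> rcases y with u' | v'
  · rw [sum_eq_zero fun e _ => by simp [al]]
    exact hτ
  · exact key u v'
  · simp_rw [al_comm s t (Sum.inr v)]
    exact key u' v
  · rw [sum_eq_zero fun e _ => by simp [al]]
    exact hτ

/-- row sums bounded by the sums at the vertices -/
theorem al_row (L : Finset E) (ω : E → ℝ) (Z : ℝ)
    (hS : ∀ u, ∑ e ∈ L.filter (fun e => s e = u), ω e ≤ Z)
    (hT : ∀ v, ∑ e ∈ L.filter (fun e => t e = v), ω e ≤ Z) (x : S ⊕ T) :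
    ∑ y, ∑ e ∈ L, ω e * al s t x y e ≤ Z := by
  rcases x with u | v
  · have h := al_sum_left s t L ω (fun _ => 1) u
    simp only [mul_one] at h
    rw [h]
    exact hS u
  · have h := al_sum_right s t L ω (fun _ => 1) v
    simp only [mul_one] at h
    rw [h]
    exact hT v

/-- The mixing theorem for the light edges of a bipartite multigraph. -/
theorem mixing_edges (θ c Λ : ℝ) (hθ : 0 < θ) (hc : 0 < c) (hΛ : 0 < Λ) :
    ∃ R0 : ℕ, ∀ R, R0 ≤ R → ∀ (S T E I κ : Type) [Fintype S] [DecidableEq S] [Fintype T]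
      [DecidableEq T] [DecidableEq E] [Fintype I] [DecidableEq I] [Fintype κ] [DecidableEq κ]
      (s : E → S) (t : E → T) (sI : I → S) (tI : I → T) (L : Finset E) (x : E → ℝ)
      (clS : S → E → κ) (clT : T → E → κ) (B σ τ Z : ℝ), 0 < B → 0 < σ → σ ≤ 1 → 0 ≤ τ → 0 ≤ Z →
      τ / σ ≤ c / 2 ^ R * B → Z / σ ≤ Λ * B → (∀ e, 0 ≤ x e) →
      (∀ v, dg sI tI univ v ≤ (1 - σ) * 2 ^ R) →
      (∀ u v, ∑ e ∈ L.filter (fun e => s e = u ∧ t e = v), x e ≤ τ) →
      (∀ u, ∑ e ∈ L.filter (fun e => s e = u), x e ≤ Z) →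
      (∀ v, ∑ e ∈ L.filter (fun e => t e = v), x e ≤ Z) →
      ∃ (Col : Type) (_ : Fintype Col) (_ : DecidableEq Col) (ψ : I → Col),
        Fintype.card Col = 2 ^ R ∧
        (∀ i j, i ≠ j → ψ i = ψ j → sI i ≠ sI j ∧ tI i ≠ tI j) ∧
        (∀ v, ((freeC sI tI ψ v).card : ℝ) = 2 ^ R - dg sI tI univ v) ∧
        (∀ u k c, ∑ e ∈ L.filter (fun e => s e = u ∧ clS (s e) e = k), x e *
            (2 ^ R / (freeC sI tI ψ (Sum.inr (t e))).card *
              (if c ∈ freeC sI tI ψ (Sum.inr (t e)) then (1 : ℝ) else 0)) ≤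
          ∑ e ∈ L.filter (fun e => s e = u ∧ clS (s e) e = k), x e + θ * B) ∧
        (∀ v k c, ∑ e ∈ L.filter (fun e => t e = v ∧ clT (t e) e = k), x e *
            (2 ^ R / (freeC sI tI ψ (Sum.inl (s e))).card *
              (if c ∈ freeC sI tI ψ (Sum.inl (s e)) then (1 : ℝ) else 0)) ≤
          ∑ e ∈ L.filter (fun e => t e = v ∧ clT (t e) e = k), x e + θ * B) ∧
        ∃ Gd ⊆ L, (∀ e ∈ Gd, ((freeC sI tI ψ (Sum.inl (s e))).card : ℝ) *
            (freeC sI tI ψ (Sum.inr (t e))).card / 2 ^ R - θ * 2 ^ R ≤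
            ((freeC sI tI ψ (Sum.inl (s e)) ∩ freeC sI tI ψ (Sum.inr (t e))).card : ℝ)) ∧
          (∀ u, ∑ e ∈ (L \ Gd).filter (fun e => s e = u), x e ≤ θ * B) ∧
          (∀ v, ∑ e ∈ (L \ Gd).filter (fun e => t e = v), x e ≤ θ * B) := by
  classical
  obtain ⟨R0, hmix⟩ := mixing θ c Λ hθ hc hΛ
  refine ⟨R0, ?_⟩
  intro R hR S T E I κ _ _ _ _ _ _ _ _ _ s t sI tI L x clS clT B σ τ Z hB hσ hσ1 hτ hZ hτc hZΛ
    hx hdeg hpair hrowS hrowT
  set Q : ℝ := 2 ^ R with hQ
  have hQ0 : 0 < Q := by positivity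
  set fV : S ⊕ T → ℝ := fun y => Q - dg sI tI univ y with hfV
  have hfV1 : ∀ y, σ * Q ≤ fV y := by
    intro y
    have := hdeg y
    simp only [hfV]
    linarith
  have hfV0 : ∀ y, 0 < fV y := fun y => lt_of_lt_of_le (by positivity) (hfV1 y)
  have hfV2 : ∀ y, Q / fV y ≤ 1 / σ := by
    intro y
    rw [div_le_div_iff₀ (hfV0 y) hσ, one_mul, mul_comm]
    exact hfV1 y
  have hfV3 : ∀ y, 0 ≤ Q / fV y := fun y => div_nonneg hQ0.le (hfV0 y).le
  have hσ2 : 1 ≤ 1 / σ := by rw [le_div_iff₀ hσ]; linarith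
  set a : S ⊕ T → S ⊕ T → ℝ := fun x' y => ∑ e ∈ L, x e * al s t x' y e with ha
  have ha0 : ∀ x' y, 0 ≤ a x' y := fun x' y =>
    sum_nonneg fun e _ => mul_nonneg (hx e) (al_nonneg _ _ _ _ _)
  have ha1 : ∀ x' y, a x' y ≤ τ := al_pair s t L x τ hτ hpair
  have harow : ∀ x', ∑ y, a x' y ≤ Z := al_row s t L x Z hrowS hrowT
  have hacol : ∀ y, ∑ x', a x' y ≤ Z := by
    intro y
    refine le_trans (le_of_eq ?_) (harow y)
    refine sum_congr rfl fun x' _ => ?_
    simp only [ha]
    exact sum_congr rfl fun e _ => by rw [al_comm]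
  set clV : S ⊕ T → E → κ := fun x' e => Sum.elim (fun u => clS u e) (fun v => clT v e) x' with hclV
  set ω : S ⊕ T → κ → E → ℝ := fun x' k e => if clV x' e = k then x e else 0 with hω
  have hω0 : ∀ x' k e, 0 ≤ ω x' k e := by
    intro x' k e
    simp only [hω]
    split_ifs; exacts [hx e, le_rfl]
  have hω1 : ∀ x' k e, ω x' k e ≤ x e := by
    intro x' k e
    simp only [hω]
    split_ifs; exacts [le_rfl, hx e]
  have hωs : ∀ x' e, ∑ k, ω x' k e = x e := by
    intro x' e
    simp only [hω]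
    rw [sum_ite_eq]
    simp
  set G0 : (S ⊕ T) × κ → S ⊕ T → ℝ := fun r y => ∑ e ∈ L, ω r.1 r.2 e * al s t r.1 y e with hG0
  have hG00 : ∀ r y, 0 ≤ G0 r y := fun r y =>
    sum_nonneg fun e _ => mul_nonneg (hω0 _ _ _) (al_nonneg _ _ _ _ _)
  have hG01 : ∀ r y, G0 r y ≤ a r.1 y := fun r y =>
    sum_le_sum fun e _ => mul_le_mul_of_nonneg_right (hω1 _ _ _) (al_nonneg _ _ _ _ _)
  have hZσ : Z ≤ Z / σ := by
    rw [le_div_iff₀ hσ]; nlinarith
  have hτσ : τ ≤ τ / σ := by
    rw [le_div_iff₀ hσ]; nlinarith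
  obtain ⟨Col, iF, iD, ψ, hcard, hψ, hfree, hfirst, hbad⟩ := hmix R hR S T I ((S ⊕ T) × κ) sI tI B a
    (fun r y => G0 r y * (Q / fV y)) hB
    (fun v => (hdeg v).trans (by nlinarith)) ha0 (fun x' y => (ha1 x' y).trans (hτσ.trans hτc))
    (fun y => (hacol y).trans (hZσ.trans hZΛ)) (fun x' => (harow x').trans (hZσ.trans hZΛ))
    (fun r y => mul_nonneg (hG00 r y) (hfV3 y))
    (fun r y => by
      refine le_trans ?_ hτc
      calc G0 r y * (Q / fV y) ≤ τ * (1 / σ) :=
            mul_le_mul ((hG01 r y).trans (ha1 _ _)) (hfV2 y) (hfV3 y) hτ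
        _ = τ / σ := by rw [mul_one_div])
    (fun y => by
      refine le_trans ?_ hZΛ
      have h1 : ∑ r : (S ⊕ T) × κ, G0 r y = ∑ x', a x' y := by
        rw [Fintype.sum_prod_type]
        refine sum_congr rfl fun x' _ => ?_
        simp only [hG0, ha]
        rw [sum_comm]
        refine sum_congr rfl fun e _ => ?_
        rw [← sum_mul, hωs]
      calc ∑ r, G0 r y * (Q / fV y) = (∑ r, G0 r y) * (Q / fV y) := by rw [sum_mul]
        _ ≤ Z * (1 / σ) := by
            rw [h1]
            exact mul_le_mul (hacol y) (hfV2 y) (hfV3 y) hZ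
        _ = Z / σ := by rw [mul_one_div])
    (fun r => by
      refine le_trans ?_ hZΛ
      calc ∑ y, G0 r y * (Q / fV y) ≤ ∑ y, a r.1 y * (1 / σ) :=
            sum_le_sum fun y _ => mul_le_mul (hG01 r y) (hfV2 y) (hfV3 y) (ha0 _ _)
        _ = (∑ y, a r.1 y) * (1 / σ) := by rw [sum_mul]
        _ ≤ Z * (1 / σ) := mul_le_mul_of_nonneg_right (harow _) (by positivity)
        _ = Z / σ := by rw [mul_one_div])
  have hfree' : ∀ v, ((freeC sI tI ψ v).card : ℝ) = fV v := hfree
  refine ⟨Col, iF, iD, ψ, hcard, hψ, hfree, ?_, ?_, ?_⟩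
  · intro u k c'
    have h1 := hfirst (Sum.inl u, k) c'
    simp only [hfree'] at h1
    have e1 : ∑ v, G0 (Sum.inl u, k) v * (Q / fV v) *
        (if c' ∈ freeC sI tI ψ v then (1 : ℝ) else 0) =
        ∑ e ∈ L.filter (fun e => s e = u ∧ clS (s e) e = k), x e *
            (Q / (freeC sI tI ψ (Sum.inr (t e))).card *
              (if c' ∈ freeC sI tI ψ (Sum.inr (t e)) then (1 : ℝ) else 0)) := by
      simp_rw [mul_assoc]
      rw [al_sum_left s t L (ω (Sum.inl u) k)
        (fun v => Q / fV v * (if c' ∈ freeC sI tI ψ v then (1 : ℝ) else 0)) u]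
      rw [← filter_filter, sum_filter (fun e => clS (s e) e = k)]
      refine sum_congr rfl fun e he => ?_
      rw [mem_filter] at he
      obtain ⟨_, rfl⟩ := he
      by_cases h5 : clS (s e) e = k
      · simp only [hω, hclV, Sum.elim_inl, h5, if_true, hfree']
      · simp only [hω, hclV, Sum.elim_inl, h5, if_false, zero_mul]
    have e2 : ∑ v, G0 (Sum.inl u, k) v * (Q / fV v) * (fV v / Q) =
        ∑ e ∈ L.filter (fun e => s e = u ∧ clS (s e) e = k), x e := by
      have h2 : ∀ v, G0 (Sum.inl u, k) v * (Q / fV v) * (fV v / Q) = G0 (Sum.inl u, k) v * 1 := by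
        intro v
        have := (hfV0 v).ne'
        field_simp
      simp only [h2]
      rw [al_sum_left s t L (ω (Sum.inl u) k) (fun _ => 1) u]
      rw [← filter_filter, sum_filter (fun e => clS (s e) e = k)]
      refine sum_congr rfl fun e he => ?_
      rw [mem_filter] at he
      obtain ⟨_, rfl⟩ := he
      by_cases h5 : clS (s e) e = k
      · simp only [hω, hclV, Sum.elim_inl, h5, if_true, mul_one]
      · simp only [hω, hclV, Sum.elim_inl, h5, if_false, zero_mul]
    rw [e1, e2] at h1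
    exact h1
  · intro v k c'
    have h1 := hfirst (Sum.inr v, k) c'
    simp only [hfree'] at h1
    have e1 : ∑ y, G0 (Sum.inr v, k) y * (Q / fV y) *
        (if c' ∈ freeC sI tI ψ y then (1 : ℝ) else 0) =
        ∑ e ∈ L.filter (fun e => t e = v ∧ clT (t e) e = k), x e *
            (Q / (freeC sI tI ψ (Sum.inl (s e))).card *
              (if c' ∈ freeC sI tI ψ (Sum.inl (s e)) then (1 : ℝ) else 0)) := by
      simp_rw [mul_assoc]
      rw [al_sum_right s t L (ω (Sum.inr v) k)
        (fun v => Q / fV v * (if c' ∈ freeC sI tI ψ v then (1 : ℝ) else 0)) v]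
      rw [← filter_filter, sum_filter (fun e => clT (t e) e = k)]
      refine sum_congr rfl fun e he => ?_
      rw [mem_filter] at he
      obtain ⟨_, rfl⟩ := he
      by_cases h5 : clT (t e) e = k
      · simp only [hω, hclV, Sum.elim_inr, h5, if_true, hfree']
      · simp only [hω, hclV, Sum.elim_inr, h5, if_false, zero_mul]
    have e2 : ∑ y, G0 (Sum.inr v, k) y * (Q / fV y) * (fV y / Q) =
        ∑ e ∈ L.filter (fun e => t e = v ∧ clT (t e) e = k), x e := by
      have h2 : ∀ y, G0 (Sum.inr v, k) y * (Q / fV y) * (fV y / Q) = G0 (Sum.inr v, k) y * 1 := by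
        intro y
        have := (hfV0 y).ne'
        field_simp
      simp only [h2]
      rw [al_sum_right s t L (ω (Sum.inr v) k) (fun _ => 1) v]
      rw [← filter_filter, sum_filter (fun e => clT (t e) e = k)]
      refine sum_congr rfl fun e he => ?_
      rw [mem_filter] at he
      obtain ⟨_, rfl⟩ := he
      by_cases h5 : clT (t e) e = k
      · simp only [hω, hclV, Sum.elim_inr, h5, if_true, mul_one]
      · simp only [hω, hclV, Sum.elim_inr, h5, if_false, zero_mul]
    rw [e1, e2] at h1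
    exact h1
  · set bad : S ⊕ T → S ⊕ T → Prop := fun x' y => ((freeC sI tI ψ x' ∩ freeC sI tI ψ y).card : ℝ) <
          (freeC sI tI ψ x').card * (freeC sI tI ψ y).card / Q - θ * Q with hbaddef
    have hbadc : ∀ x' y, bad x' y → bad y x' := by
      intro x' y h
      simp only [hbaddef] at h ⊢
      rw [inter_comm, mul_comm ((freeC sI tI ψ y).card : ℝ)]
      exact h
    refine ⟨L.filter (fun e => ¬ bad (Sum.inl (s e)) (Sum.inr (t e))), filter_subset _ _,
      fun e he => ?_, fun u => ?_, fun v => ?_⟩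
    · rw [mem_filter] at he
      simp only [hbaddef, not_lt] at he
      exact he.2
    · refine le_trans ?_ (hbad (Sum.inl u))
      have h1 : (L \ L.filter (fun e => ¬ bad (Sum.inl (s e)) (Sum.inr (t e)))).filter
          (fun e => s e = u) = L.filter (fun e => s e = u ∧ bad (Sum.inl u) (Sum.inr (t e))) := by
        ext e
        simp only [mem_filter, mem_sdiff, not_and, not_not]
        constructor
        · rintro ⟨⟨h1, h2⟩, rfl⟩
          exact ⟨h1, rfl, h2 h1⟩
        · rintro ⟨h1, rfl, h2⟩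
          exact ⟨⟨h1, fun _ => h2⟩, rfl⟩
      rw [h1]
      simp only [ha]
      rw [sum_comm]
      refine le_trans (sum_le_sum fun e he => ?_) (sum_le_sum_of_subset_of_nonneg
        (filter_subset _ _) fun e _ _ => sum_nonneg fun y _ =>
          mul_nonneg (hx e) (al_nonneg _ _ _ _ _))
      rw [mem_filter] at he
      obtain ⟨_, rfl, h2⟩ := he
      have h3 := single_le_sum (f := fun y => x e * al s t (Sum.inl (s e)) y e)
        (fun y _ => mul_nonneg (hx e) (al_nonneg _ _ _ _ _))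
        (mem_filter.2 ⟨mem_univ _, h2⟩ : (Sum.inr (t e) : S ⊕ T) ∈
          univ.filter (fun y => bad (Sum.inl (s e)) y))
      refine le_trans (le_of_eq ?_) h3
      simp [al]
    · refine le_trans ?_ (hbad (Sum.inr v))
      have h1 : (L \ L.filter (fun e => ¬ bad (Sum.inl (s e)) (Sum.inr (t e)))).filter
          (fun e => t e = v) = L.filter (fun e => t e = v ∧ bad (Sum.inr v) (Sum.inl (s e))) := by
        ext e
        simp only [mem_filter, mem_sdiff, not_and, not_not]
        constructor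
        · rintro ⟨⟨h1, h2⟩, rfl⟩
          exact ⟨h1, rfl, hbadc _ _ (h2 h1)⟩
        · rintro ⟨h1, rfl, h2⟩
          exact ⟨⟨h1, fun _ => hbadc _ _ h2⟩, rfl⟩
      rw [h1]
      simp only [ha]
      rw [sum_comm]
      refine le_trans (sum_le_sum fun e he => ?_) (sum_le_sum_of_subset_of_nonneg
        (filter_subset _ _) fun e _ _ => sum_nonneg fun y _ =>
          mul_nonneg (hx e) (al_nonneg _ _ _ _ _))
      rw [mem_filter] at he
      obtain ⟨_, rfl, h2⟩ := he
      have h3 := single_le_sum (f := fun y => x e * al s t (Sum.inr (t e)) y e)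
        (fun y _ => mul_nonneg (hx e) (al_nonneg _ _ _ _ _))
        (mem_filter.2 ⟨mem_univ _, h2⟩ : (Sum.inl (s e) : S ⊕ T) ∈
          univ.filter (fun y => bad (Sum.inr (t e)) y))
      refine le_trans (le_of_eq ?_) h3
      simp [al]

end alpha

end Pool.Agent.MP2237
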