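import Mathlib
import Pool.Agent.MP_2237f3_co.Konig

set_option autoImplicit false

namespace Pool.Agent.MP2237few

open Finset

/-- The weight function of first fit. -/
noncomputable def W (x : ℝ) : ℝ :=
  if 1 / 2 < x then 1 else if 1 / 3 < x then 6 / 5 * x + 1 / 10 else
  if 1 / 6 < x then 9 / 5 * x - 1 / 10 else 6 / 5 * x

theorem W_nonneg {x : ℝ} (h : 0 ≤ x) : 0 ≤ W x := by
  unfold W
  split_ifs <;> linarith

theorem W_pos {x : ℝ} (h : 0 < x) : 0 < W x := by
  unfold W
  split_ifs <;> linarith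

theorem W_le_one {x : ℝ} (_h : x ≤ 1) : W x ≤ 1 := by
  unfold W
  split_ifs <;> linarith

theorem W_big {x : ℝ} (h : 1 / 2 < x) : W x = 1 := by
  unfold W
  rw [if_pos h]

theorem W_small {x : ℝ} (h : x ≤ 1 / 6) : W x = 6 / 5 * x := by
  unfold W
  rw [if_neg (by linarith), if_neg (by linarith), if_neg (by linarith)]

theorem W_le_three_half {x : ℝ} (h0 : 0 ≤ x) (h : x ≤ 1 / 2) : W x ≤ 3 / 2 * x := by
  unfold W
  split_ifs <;> linarith

theorem W_ge {x : ℝ} (h : x ≤ 1 / 2) : 6 / 5 * x ≤ W x := by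
  unfold W
  split_ifs <;> linarith

theorem W_ge' {x θ : ℝ} (h : x ≤ 1 / 2) (hx : θ < x) (h1 : 1 / 6 < θ) (h2 : θ ≤ 1 / 3) :
    6 / 5 * x + 3 / 5 * (θ - 1 / 6) ≤ W x := by
  unfold W
  split_ifs <;> linarith

theorem W_le_bonus {x : ℝ} (h : x ≤ 1 / 2) : W x ≤ 6 / 5 * x + 1 / 10 := by
  unfold W
  split_ifs <;> linarith

theorem W_mid {x : ℝ} (h : x ≤ 1 / 3) (h1 : 1 / 6 < x) : W x = 6 / 5 * x + 3 / 5 * (x - 1 / 6) := by
  unfold W
  rw [if_neg (by linarith), if_neg (by linarith), if_pos h1]
  ring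

/-- Items of total size less than `1/6` weigh at most `6/5` times their size. -/
theorem small_sum {E : Type} [DecidableEq E] (F : Finset E) (w : E → ℝ)
    (h1 : ∀ e ∈ F, w e ≤ 1 / 6) : ∑ e ∈ F, W (w e) = 6 / 5 * ∑ e ∈ F, w e := by
  rw [Finset.mul_sum]
  exact Finset.sum_congr rfl fun e he => W_small (h1 e he)

/-- Items of total size less than `1/2` weigh at most `7/10`. -/
theorem half_sum {E : Type} [DecidableEq E] (F : Finset E) (w : E → ℝ) (h0 : ∀ e ∈ F, 0 ≤ w e)
    (h1 : ∑ e ∈ F, w e < 1 / 2) : ∑ e ∈ F, W (w e) ≤ 7 / 10 := by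
  by_cases hA : ∃ e1 ∈ F, 1 / 6 < w e1
  · obtain ⟨e1, he1, h2⟩ := hA
    have hs := Finset.add_sum_erase F w he1
    have hS := Finset.add_sum_erase F (fun e => W (w e)) he1
    have h0' : ∀ e ∈ F.erase e1, 0 ≤ w e := fun e he => h0 e (Finset.mem_of_mem_erase he)
    have hnn : 0 ≤ ∑ e ∈ F.erase e1, w e := Finset.sum_nonneg h0'
    by_cases hB : ∃ e2 ∈ F.erase e1, 1 / 6 < w e2
    · obtain ⟨e2, he2, h3⟩ := hB
      have hs2 := Finset.add_sum_erase (F.erase e1) w he2
      have hS2 := Finset.add_sum_erase (F.erase e1) (fun e => W (w e)) he2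
      have h0'' : ∀ e ∈ (F.erase e1).erase e2, 0 ≤ w e :=
        fun e he => h0' e (Finset.mem_of_mem_erase he)
      have hnn2 : 0 ≤ ∑ e ∈ (F.erase e1).erase e2, w e := Finset.sum_nonneg h0''
      have hr := small_sum ((F.erase e1).erase e2) w (fun e he => by
        have := Finset.single_le_sum h0'' he
        linarith)
      have a1 : W (w e1) = 6 / 5 * w e1 + 3 / 5 * (w e1 - 1 / 6) := W_mid (by linarith) h2
      have a2 : W (w e2) = 6 / 5 * w e2 + 3 / 5 * (w e2 - 1 / 6) := W_mid (by linarith) h3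
      linarith
    · push Not at hB
      have hr := small_sum (F.erase e1) w hB
      have a1 : W (w e1) ≤ 6 / 5 * w e1 + 1 / 10 := W_le_bonus (by linarith)
      linarith
  · push Not at hA
    have hr := small_sum F w hA
    linarith

/-- A bin of capacity one weighs at most `17/10`. -/
theorem W_bin {E : Type} [DecidableEq E] (F : Finset E) (w : E → ℝ) (h0 : ∀ e ∈ F, 0 ≤ w e)
    (h1 : ∑ e ∈ F, w e ≤ 1) : ∑ e ∈ F, W (w e) ≤ 17 / 10 := by
  by_cases hA : ∃ e0 ∈ F, 1 / 2 < w e0
  · obtain ⟨e0, he0, h2⟩ := hA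
    have hs := Finset.add_sum_erase F w he0
    have hS := Finset.add_sum_erase F (fun e => W (w e)) he0
    have := half_sum (F.erase e0) w (fun e he => h0 e (Finset.mem_of_mem_erase he)) (by linarith)
    rw [W_big h2] at hS
    linarith
  · push Not at hA
    have hr : ∑ e ∈ F, W (w e) ≤ ∑ e ∈ F, 3 / 2 * w e :=
      Finset.sum_le_sum fun e he => W_le_three_half (h0 e he) (hA e he)
    rw [← Finset.mul_sum] at hr
    linarith

/-- `F` can be packed into `n` bins. -/
def Packs {E : Type} [DecidableEq E] (F : Finset E) (w : E → ℝ) (n : ℕ) : Prop :=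
  ∃ f : E → ℕ, (∀ e ∈ F, f e < n) ∧ ∀ j, ∑ e ∈ F.filter (fun e => f e = j), w e ≤ 1

theorem Packs.add {E : Type} [DecidableEq E] {F S : Finset E} {w : E → ℝ} {n : ℕ} (hS : S ⊆ F)
    (hw : ∑ e ∈ S, w e ≤ 1) (h : Packs (F \ S) w n) : Packs F w (n + 1) := by
  obtain ⟨f, hf, hf'⟩ := h
  refine ⟨fun e => if e ∈ S then n else f e, ?_, ?_⟩
  · intro e he
    by_cases h : e ∈ S
    · simp [h]
    · simp only [h, if_false]
      have := hf e (Finset.mem_sdiff.2 ⟨he, h⟩)
      omega
  · intro j
    by_cases hj : j = n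
    · subst hj
      refine le_trans (le_of_eq ?_) hw
      apply Finset.sum_congr _ fun _ _ => rfl
      ext e
      simp only [Finset.mem_filter]
      by_cases h : e ∈ S
      · simp [h, hS h]
      · simp only [h, if_false, iff_false]
        rintro ⟨h1, h2⟩
        have := hf e (Finset.mem_sdiff.2 ⟨h1, h⟩)
        omega
    · refine le_trans (le_of_eq ?_) (hf' j)
      apply Finset.sum_congr _ fun _ _ => rfl
      ext e
      simp only [Finset.mem_filter, Finset.mem_sdiff]
      by_cases h : e ∈ S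
      · simp only [h, if_true, not_true, and_false, false_and, iff_false]
        rintro ⟨_, h2⟩
        exact hj h2.symm
      · simp [h]

/-- A subset of size at most one and of weight at least one. -/
theorem exists_heavy {E : Type} [DecidableEq E] (F : Finset E) (w : E → ℝ)
    (h1 : ∀ e ∈ F, w e ≤ 1 / 2) (h2 : 1 < ∑ e ∈ F, w e) :
    ∃ S ⊆ F, S.Nonempty ∧ ∑ e ∈ S, w e ≤ 1 ∧ 1 ≤ ∑ e ∈ S, W (w e) := by
  classical
  -- a minimal subset of size larger than one
  obtain ⟨U, hU, hmin⟩ := (F.powerset.filter (fun U => 1 < ∑ e ∈ U, w e)).exists_minimal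
    ⟨F, by simp [h2]⟩
  simp only [Finset.mem_filter, Finset.mem_powerset] at hU
  obtain ⟨hUF, hU1⟩ := hU
  have hUne : U.Nonempty := by
    rcases U.eq_empty_or_nonempty with h | h
    · subst h
      simp at hU1
      linarith
    · exact h
  obtain ⟨y, hy, hymin⟩ := U.exists_min_image w hUne
  have hs := Finset.add_sum_erase U w hy
  have hle : ∑ e ∈ U.erase y, w e ≤ 1 := by
    by_contra hcon
    push Not at hcon
    have h3 : U.erase y ∈ F.powerset.filter (fun U => 1 < ∑ e ∈ U, w e) := by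
      simp only [Finset.mem_filter, Finset.mem_powerset]
      exact ⟨(Finset.erase_subset y U).trans hUF, hcon⟩
    have h4 := hmin h3 (Finset.erase_subset y U)
    exact Finset.notMem_erase y U (h4 hy)
  have hyh : w y ≤ 1 / 2 := h1 y (hUF hy)
  set S := U.erase y with hSdef
  have hSF : S ⊆ F := (Finset.erase_subset y U).trans hUF
  have hy2 : ∀ x ∈ S, w y ≤ w x := fun x hx => hymin x (Finset.mem_of_mem_erase hx)
  -- at least two elements
  have hcard : 2 ≤ S.card := by
    by_contra hcon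
    have hc : S.card ≤ 1 := by omega
    have : ∑ e ∈ S, w e ≤ 1 / 2 := by
      rcases Nat.lt_or_ge S.card 1 with h | h
      · have : S = ∅ := Finset.card_eq_zero.1 (by omega)
        rw [this]
        norm_num
      · obtain ⟨z, hz⟩ := Finset.card_eq_one.1 (le_antisymm hc h)
        have hzF : z ∈ F := hSF (by rw [hz]; simp)
        rw [hz]
        simpa using h1 z hzF
    linarith
  have hne : S.Nonempty := Finset.card_pos.1 (by omega)
  refine ⟨S, hSF, hne, hle, ?_⟩
  set θ : ℝ := 1 - ∑ e ∈ S, w e with hθ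
  have hyθ : θ < w y := by rw [hθ]; linarith
  by_cases h6 : θ ≤ 1 / 6
  · have : ∑ e ∈ S, 6 / 5 * w e ≤ ∑ e ∈ S, W (w e) :=
      Finset.sum_le_sum fun e he => W_ge (h1 e (hSF he))
    rw [← Finset.mul_sum] at this
    have : ∑ e ∈ S, w e = 1 - θ := by rw [hθ]; ring
    linarith
  · push Not at h6
    have hcardR : (2 : ℝ) ≤ S.card := by exact_mod_cast hcard
    have h3 : θ ≤ 1 / 3 := by
      have : ∑ _e ∈ S, θ ≤ ∑ e ∈ S, w e :=
        Finset.sum_le_sum fun e he => by linarith [hy2 e he]
      rw [Finset.sum_const, nsmul_eq_mul] at this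
      have h4 : ∑ e ∈ S, w e = 1 - θ := by rw [hθ]; ring
      nlinarith
    have h5 : ∑ e ∈ S, (6 / 5 * w e + 3 / 5 * (θ - 1 / 6)) ≤ ∑ e ∈ S, W (w e) :=
      Finset.sum_le_sum fun e he => W_ge' (h1 e (hSF he)) (by linarith [hy2 e he]) h6 h3
    rw [Finset.sum_add_distrib, ← Finset.mul_sum, Finset.sum_const, nsmul_eq_mul] at h5
    have h4 : ∑ e ∈ S, w e = 1 - θ := by rw [hθ]; ring
    rw [h4] at h5
    nlinarith

/-- Packing into fewer than `W + 1` bins. -/
theorem pack {E : Type} [DecidableEq E] (w : E → ℝ) : ∀ (c : ℕ) (F : Finset E), F.card = c →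
    (∀ e ∈ F, 0 < w e ∧ w e ≤ 1) → ∃ n : ℕ, Packs F w n ∧ (n : ℝ) < ∑ e ∈ F, W (w e) + 1 := by
  intro c
  induction c using Nat.strong_induction_on with
  | _ c ih =>
    intro F hc hw
    rcases F.eq_empty_or_nonempty with h | hne
    · subst h
      exact ⟨0, ⟨fun _ => 0, by simp, by simp⟩, by simp⟩
    by_cases hA : ∃ e0 ∈ F, 1 / 2 < w e0
    · obtain ⟨e0, he0, h2⟩ := hA
      have hsub : ({e0} : Finset E) ⊆ F := by simpa using he0
      obtain ⟨n, hn, hn'⟩ := ih (F \ {e0}).card (by
        rw [← hc]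
        exact Finset.card_lt_card (Finset.sdiff_ssubset hsub (by simp))) (F \ {e0}) rfl
        (fun e he => hw e (Finset.mem_sdiff.1 he).1)
      refine ⟨n + 1, Packs.add hsub (by simpa using (hw e0 he0).2) hn, ?_⟩
      have hS := Finset.sum_sdiff (f := fun e => W (w e)) hsub
      rw [Finset.sum_singleton, W_big h2] at hS
      push_cast
      linarith
    · push Not at hA
      by_cases hB : ∑ e ∈ F, w e ≤ 1
      · refine ⟨0 + 1, Packs.add (le_refl F) hB ?_, ?_⟩
        · rw [Finset.sdiff_self]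
          exact ⟨fun _ => 0, by simp, by simp⟩
        · have : 0 < ∑ e ∈ F, W (w e) := Finset.sum_pos (fun e he => W_pos (hw e he).1) hne
          push_cast
          linarith
      · push Not at hB
        obtain ⟨S, hSF, hSne, hS1, hS2⟩ := exists_heavy F w hA hB
        obtain ⟨n, hn, hn'⟩ := ih (F \ S).card (by
          rw [← hc]
          exact Finset.card_lt_card (Finset.sdiff_ssubset hSF hSne)) (F \ S) rfl
          (fun e he => hw e (Finset.mem_sdiff.1 he).1)
        refine ⟨n + 1, Packs.add hSF hS1 hn, ?_⟩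
        have hS := Finset.sum_sdiff (f := fun e => W (w e)) hSF
        push_cast
        linarith

/-- The number of bins of all pairs at one vertex. -/
theorem local_bound {E V : Type} [Fintype E] [DecidableEq E] [Fintype V] [DecidableEq V]
    (A : Finset E) (t : E → V) (w : E → ℝ) (b r K : ℕ) (hK : 17 * b + 10 * r ≤ 10 * (K + 1))
    (hw : ∀ e ∈ A, 0 < w e ∧ w e ≤ 1)
    (f : E → Fin b) (hf : ∀ j, ∑ e ∈ A.filter (fun e => f e = j), w e ≤ 1)
    (hr : (A.image t).card ≤ r) (m : V → ℕ)
    (hm : ∀ v, (m v : ℝ) < ∑ e ∈ A.filter (fun e => t e = v), W (w e) + 1) :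
    ∑ v, m v ≤ K := by
  classical
  -- total weight
  have htot : ∑ e ∈ A, W (w e) ≤ 17 / 10 * b := by
    have h1 : ∑ e ∈ A, W (w e) = ∑ j : Fin b, ∑ e ∈ A.filter (fun e => f e = j), W (w e) :=
      (Finset.sum_fiberwise_of_maps_to (fun e _ => Finset.mem_univ (f e)) _).symm
    rw [h1]
    have h2 : ∀ j ∈ (Finset.univ : Finset (Fin b)),
        ∑ e ∈ A.filter (fun e => f e = j), W (w e) ≤ 17 / 10 := fun j _ =>
      W_bin _ w (fun e he => (hw e (Finset.mem_filter.1 he).1).1.le) (hf j)
    have h3 := Finset.sum_le_sum h2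
    simp only [Finset.sum_const, Finset.card_univ, Fintype.card_fin, nsmul_eq_mul] at h3
    linarith
  -- only neighbours matter
  have hsub : ∑ v, m v = ∑ v ∈ A.image t, m v := by
    symm
    apply Finset.sum_subset (Finset.subset_univ _)
    intro v _ hv
    have h1 := hm v
    have h2 : A.filter (fun e => t e = v) = ∅ := by
      rw [Finset.filter_eq_empty_iff]
      intro e he h
      exact hv (Finset.mem_image.2 ⟨e, he, h⟩)
    rw [h2] at h1
    simp only [Finset.sum_empty, zero_add] at h1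
    have : m v < 1 := by exact_mod_cast h1
    omega
  rw [hsub]
  rcases (A.image t).eq_empty_or_nonempty with h | hne
  · rw [h]
    simp
  have h1 : ∑ v ∈ A.image t, (m v : ℝ) <
      ∑ v ∈ A.image t, (∑ e ∈ A.filter (fun e => t e = v), W (w e) + 1) :=
    Finset.sum_lt_sum_of_nonempty hne fun v _ => hm v
  rw [Finset.sum_add_distrib, Finset.sum_fiberwise_of_maps_to
    (fun e he => Finset.mem_image_of_mem t he)] at h1
  simp only [Finset.sum_const, nsmul_eq_mul, mul_one] at h1
  have h2 : ((A.image t).card : ℝ) ≤ r := by exact_mod_cast hr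
  have h3 : (17 * b + 10 * r : ℝ) ≤ 10 * (K + 1) := by exact_mod_cast hK
  have h4 : ((∑ v ∈ A.image t, m v : ℕ) : ℝ) < (K : ℝ) + 1 := by
    push_cast
    linarith
  have h5 : ∑ v ∈ A.image t, m v < K + 1 := by exact_mod_cast h4
  omega

theorem main {S T E : Type} [Fintype S] [Fintype T] [Fintype E] [DecidableEq S] [DecidableEq T]
    (s : E → S) (t : E → T) (w : E → ℝ) (b r K : ℕ) (hw : ∀ e, 0 ≤ w e ∧ w e ≤ 1)
    (hS : ∀ u, ∃ f : E → Fin b, ∀ j, ∑ e ∈ univ.filter (fun e => s e = u ∧ f e = j), w e ≤ 1)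
    (hT : ∀ v, ∃ f : E → Fin b, ∀ j, ∑ e ∈ univ.filter (fun e => t e = v ∧ f e = j), w e ≤ 1)
    (hrS : ∀ u, (univ.filter (fun v => ∃ e, s e = u ∧ t e = v)).card ≤ r)
    (hrT : ∀ v, (univ.filter (fun u => ∃ e, s e = u ∧ t e = v)).card ≤ r)
    (hK : 17 * b + 10 * r ≤ 10 * (K + 1)) :
    ∃ c : E → Fin K,
      (∀ u j, ∑ e ∈ univ.filter (fun e => s e = u ∧ c e = j), w e ≤ 1) ∧
      (∀ v j, ∑ e ∈ univ.filter (fun e => t e = v ∧ c e = j), w e ≤ 1) := by
  classical
  rcases isEmpty_or_nonempty E with hE | hE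
  · exact ⟨fun e => hE.elim e, fun u j => by simp, fun u j => by simp⟩
  have hb : 1 ≤ b := by
    obtain ⟨e⟩ := hE
    obtain ⟨f, _⟩ := hS (s e)
    have := (f e).isLt
    omega
  have hK0 : 0 < K := by omega
  -- packing of every pair
  have hpack : ∀ p : S × T, ∃ n : ℕ, Packs (univ.filter (fun e => 0 < w e ∧ s e = p.1 ∧ t e = p.2)) w n ∧
      (n : ℝ) < ∑ e ∈ univ.filter (fun e => 0 < w e ∧ s e = p.1 ∧ t e = p.2), W (w e) + 1 := by
    intro p
    apply pack w _ _ rfl
    intro e he
    exact ⟨(Finset.mem_filter.1 he).2.1, (hw e).2⟩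
  choose m hm1 hm2 using hpack
  choose g hg1 hg2 using hm1
  -- degrees
  have hdegS : ∀ u, ∑ v, m (u, v) ≤ K := by
    intro u
    obtain ⟨f, hf⟩ := hS u
    refine local_bound (univ.filter (fun e => 0 < w e ∧ s e = u)) t w b r K hK
      (fun e he => ⟨(Finset.mem_filter.1 he).2.1, (hw e).2⟩) f (fun j => ?_) ?_
      (fun v => m (u, v)) (fun v => ?_)
    · refine le_trans (Finset.sum_le_sum_of_subset_of_nonneg ?_ fun e _ _ => (hw e).1) (hf j)
      intro e he
      simp only [Finset.mem_filter, Finset.mem_univ, true_and] at he ⊢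
      exact ⟨he.1.2, he.2⟩
    · refine le_trans (Finset.card_le_card ?_) (hrS u)
      intro v hv
      obtain ⟨e, he, rfl⟩ := Finset.mem_image.1 hv
      simp only [Finset.mem_filter, Finset.mem_univ, true_and] at he ⊢
      exact ⟨e, he.2, rfl⟩
    · have h := hm2 (u, v)
      rw [Finset.filter_filter]
      simpa only [and_assoc] using h
  have hdegT : ∀ v, ∑ u, m (u, v) ≤ K := by
    intro v
    obtain ⟨f, hf⟩ := hT v
    refine local_bound (univ.filter (fun e => 0 < w e ∧ t e = v)) s w b r K hK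
      (fun e he => ⟨(Finset.mem_filter.1 he).2.1, (hw e).2⟩) f (fun j => ?_) ?_
      (fun u => m (u, v)) (fun u => ?_)
    · refine le_trans (Finset.sum_le_sum_of_subset_of_nonneg ?_ fun e _ _ => (hw e).1) (hf j)
      intro e he
      simp only [Finset.mem_filter, Finset.mem_univ, true_and] at he ⊢
      exact ⟨he.1.2, he.2⟩
    · refine le_trans (Finset.card_le_card ?_) (hrT v)
      intro u hu
      obtain ⟨e, he, rfl⟩ := Finset.mem_image.1 hu
      simp only [Finset.mem_filter, Finset.mem_univ, true_and] at he ⊢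
      exact ⟨e, rfl, he.2⟩
    · have h := hm2 (u, v)
      rw [Finset.filter_filter]
      have he : (univ.filter (fun e => (0 < w e ∧ t e = v) ∧ s e = u)) =
          univ.filter (fun e => 0 < w e ∧ s e = (u, v).1 ∧ t e = (u, v).2) := by
        ext e
        simp only [Finset.mem_filter, Finset.mem_univ, true_and]
        tauto
      rw [he]
      exact h
  -- the multigraph of bins
  let I := Σ p : S × T, Fin (m p)
  obtain ⟨χ, hχ⟩ := Pool.Agent.MP2237.konig (E := I) (fun i => i.1.1) (fun i => i.1.2) K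
    (fun u => by
      have h1 : (univ.filter (fun i : I => i.1.1 = u)) =
          (univ.filter (fun p : S × T => p.1 = u)).sigma (fun p => (univ : Finset (Fin (m p)))) := by
        ext i
        constructor
        · intro h
          exact Finset.mem_sigma.2 ⟨Finset.mem_filter.2 ⟨Finset.mem_univ _,
            (Finset.mem_filter.1 h).2⟩, Finset.mem_univ _⟩
        · intro h
          exact Finset.mem_filter.2 ⟨Finset.mem_univ _,
            (Finset.mem_filter.1 (Finset.mem_sigma.1 h).1).2⟩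
      rw [h1, Finset.card_sigma]
      simp only [Finset.card_univ, Fintype.card_fin]
      refine le_trans (le_of_eq ?_) (hdegS u)
      have h2 : (univ.filter (fun p : S × T => p.1 = u)) = ({u} : Finset S) ×ˢ (univ : Finset T) := by
        ext p
        simp only [Finset.mem_filter, Finset.mem_univ, true_and, Finset.mem_product,
          Finset.mem_singleton, and_true]
      rw [h2, Finset.sum_product]
      simp)
    (fun v => by
      have h1 : (univ.filter (fun i : I => i.1.2 = v)) =
          (univ.filter (fun p : S × T => p.2 = v)).sigma (fun p => (univ : Finset (Fin (m p)))) := by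
        ext i
        constructor
        · intro h
          exact Finset.mem_sigma.2 ⟨Finset.mem_filter.2 ⟨Finset.mem_univ _,
            (Finset.mem_filter.1 h).2⟩, Finset.mem_univ _⟩
        · intro h
          exact Finset.mem_filter.2 ⟨Finset.mem_univ _,
            (Finset.mem_filter.1 (Finset.mem_sigma.1 h).1).2⟩
      rw [h1, Finset.card_sigma]
      simp only [Finset.card_univ, Fintype.card_fin]
      refine le_trans (le_of_eq ?_) (hdegT v)
      have h2 : (univ.filter (fun p : S × T => p.2 = v)) = (univ : Finset S) ×ˢ ({v} : Finset T) := by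
        ext p
        simp only [Finset.mem_filter, Finset.mem_univ, true_and, Finset.mem_product,
          Finset.mem_singleton]
      rw [h2, Finset.sum_product]
      simp)
  have hlt : ∀ e, 0 < w e → g (s e, t e) e < m (s e, t e) := fun e he =>
    hg1 (s e, t e) e (by simp [he])
  let c : E → Fin K := fun e => if h : 0 < w e then χ ⟨(s e, t e), ⟨g (s e, t e) e, hlt e h⟩⟩
    else ⟨0, hK0⟩
  -- edges of one colour at one vertex lie in one bin
  have key : ∀ (A : Finset E), (∀ e ∈ A, ∀ e' ∈ A, c e = c e' ∧ (s e = s e' ∨ t e = t e')) →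
      ∑ e ∈ A, w e ≤ 1 := by
    intro A hA
    have h1 : ∑ e ∈ A, w e = ∑ e ∈ A.filter (fun e => 0 < w e), w e := by
      rw [Finset.sum_filter]
      apply Finset.sum_congr rfl
      intro e _
      split_ifs with h
      · rfl
      · exact le_antisymm (not_lt.1 h) (hw e).1
    rw [h1]
    rcases (A.filter (fun e => 0 < w e)).eq_empty_or_nonempty with h | ⟨e0, he0⟩
    · rw [h]
      simp
    rw [Finset.mem_filter] at he0
    refine le_trans (Finset.sum_le_sum_of_subset_of_nonneg ?_ fun e _ _ => (hw e).1)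
      (hg2 (s e0, t e0) (g (s e0, t e0) e0))
    intro e he
    rw [Finset.mem_filter] at he
    obtain ⟨h2, h3⟩ := hA e he.1 e0 he0.1
    have hc : χ ⟨(s e, t e), ⟨g (s e, t e) e, hlt e he.2⟩⟩ =
        χ ⟨(s e0, t e0), ⟨g (s e0, t e0) e0, hlt e0 he0.2⟩⟩ := by
      simpa only [c, dif_pos he.2, dif_pos he0.2] using h2
    by_cases heq : (⟨(s e, t e), ⟨g (s e, t e) e, hlt e he.2⟩⟩ : I) =
        ⟨(s e0, t e0), ⟨g (s e0, t e0) e0, hlt e0 he0.2⟩⟩
    · have h4 : (s e, t e) = (s e0, t e0) := congrArg (fun i : I => i.1) heq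
      have h5 : g (s e, t e) e = g (s e0, t e0) e0 := congrArg (fun i : I => i.2.val) heq
      rw [h4] at h5
      simp only [Prod.mk.injEq] at h4
      simp only [Finset.mem_filter, Finset.mem_univ, true_and]
      exact ⟨⟨he.2, h4.1, h4.2⟩, h5⟩
    · have h6 := hχ _ _ heq hc
      rcases h3 with h3 | h3
      · exact absurd h3 h6.1
      · exact absurd h3 h6.2
  refine ⟨c, fun u j => key _ ?_, fun v j => key _ ?_⟩
  · intro e he e' he'
    simp only [Finset.mem_filter, Finset.mem_univ, true_and] at he he'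
    exact ⟨by rw [he.2, he'.2], Or.inl (by rw [he.1, he'.1])⟩
  · intro e he e' he'
    simp only [Finset.mem_filter, Finset.mem_univ, true_and] at he he'
    exact ⟨by rw [he.2, he'.2], Or.inr (by rw [he.1, he'.1])⟩

end Pool.Agent.MP2237few
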