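import Mathlib
import Pool.Agent.MP_2237f3_co.Side

set_option autoImplicit false

namespace Pool.Agent.MP2237

open Finset

/-- At most `2 X` colours have load more than `1/2` at a vertex. -/
theorem greedy_bad {S E : Type} [DecidableEq S] [DecidableEq E]
    (s : E → S) (w : E → ℝ) (F : Finset E) (hw : ∀ e ∈ F, 0 ≤ w e)
    (X : ℝ) (K : ℕ) (u : S) (c : E → Fin K)
    (hS : ∑ e ∈ F.filter (fun e => s e = u), w e ≤ X) :
    ((univ.filter (fun j : Fin K => 1 / 2 <
      ∑ e ∈ F.filter (fun e => s e = u ∧ c e = j), w e)).card : ℝ) ≤ 2 * X := by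
  set B := univ.filter (fun j : Fin K => 1 / 2 <
      ∑ e ∈ F.filter (fun e => s e = u ∧ c e = j), w e) with hB
  have h1 : ∑ j : Fin K, ∑ e ∈ F.filter (fun e => s e = u ∧ c e = j), w e =
      ∑ e ∈ F.filter (fun e => s e = u), w e := by
    rw [← Finset.sum_fiberwise (F.filter (fun e => s e = u)) c w]
    refine Finset.sum_congr rfl fun j _ => ?_
    rw [Finset.filter_filter]
  have h2 : ∑ j ∈ B, (1 / 2 : ℝ) ≤ ∑ j ∈ B, ∑ e ∈ F.filter (fun e => s e = u ∧ c e = j), w e := by
    refine Finset.sum_le_sum fun j hj => ?_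
    rw [hB, Finset.mem_filter] at hj
    exact hj.2.le
  have h3 : ∑ j ∈ B, ∑ e ∈ F.filter (fun e => s e = u ∧ c e = j), w e ≤
      ∑ j : Fin K, ∑ e ∈ F.filter (fun e => s e = u ∧ c e = j), w e := by
    refine Finset.sum_le_sum_of_subset_of_nonneg (Finset.subset_univ _) fun j _ _ => ?_
    exact Finset.sum_nonneg fun e he => hw e (Finset.mem_filter.1 he).1
  rw [Finset.sum_const, nsmul_eq_mul] at h2
  linarith

/-- adding an edge with colour `j` -/
theorem greedy_add {S E : Type} [DecidableEq S] [DecidableEq E]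
    (s : E → S) (w : E → ℝ) (F : Finset E) (e : E) (he : e ∉ F) (hwe : w e ≤ 1 / 2)
    (K : ℕ) (c : E → Fin K) (j : Fin K)
    (hj : ∑ e' ∈ F.filter (fun e' => s e' = s e ∧ c e' = j), w e' ≤ 1 / 2)
    (h : ∀ u j, ∑ e' ∈ F.filter (fun e' => s e' = u ∧ c e' = j), w e' ≤ 1) (u : S) (i : Fin K) :
    ∑ e' ∈ (insert e F).filter (fun e' => s e' = u ∧ Function.update c e j e' = i), w e' ≤ 1 := by
  have hF : F.filter (fun e' => s e' = u ∧ Function.update c e j e' = i) =
      F.filter (fun e' => s e' = u ∧ c e' = i) := by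
    refine Finset.filter_congr fun e' he' => ?_
    have : e' ≠ e := fun h => he (h ▸ he')
    rw [Function.update_of_ne this]
  rw [Finset.filter_insert]
  split_ifs with hc
  · rw [hF, Finset.sum_insert (fun h => he (Finset.mem_filter.1 h).1)]
    rw [Function.update_self] at hc
    obtain ⟨rfl, rfl⟩ := hc
    linarith
  · rw [hF]
    exact h u i

/-- Greedy colouring of edges of weight at most `1/2` (induction on `F`: at each end the colours
with load `> 1/2` number less than `2 X`). -/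
theorem greedy {S T E : Type} [DecidableEq S] [DecidableEq T] [DecidableEq E]
    (s : E → S) (t : E → T) (w : E → ℝ) (F : Finset E) (hw : ∀ e ∈ F, 0 ≤ w e ∧ w e ≤ 1 / 2)
    (X : ℝ) (K : ℕ) (hK : 4 * X < K)
    (hS : ∀ u, ∑ e ∈ F.filter (fun e => s e = u), w e ≤ X)
    (hT : ∀ v, ∑ e ∈ F.filter (fun e => t e = v), w e ≤ X) :
    ∃ c : E → Fin K, (∀ u j, ∑ e ∈ F.filter (fun e => s e = u ∧ c e = j), w e ≤ 1) ∧
      ∀ v j, ∑ e ∈ F.filter (fun e => t e = v ∧ c e = j), w e ≤ 1 := by
  induction F using Finset.induction_on with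
  | empty =>
    rcases isEmpty_or_nonempty E with hE | hE
    · exact ⟨fun e => hE.elim e, fun u j => by simp, fun u j => by simp⟩
    · obtain ⟨e0⟩ := hE
      have h := hS (s e0)
      simp only [Finset.filter_empty, Finset.sum_empty] at h
      have hKpos : (0 : ℝ) < K := by linarith
      have hKpos' : 0 < K := by exact_mod_cast hKpos
      exact ⟨fun _ => ⟨0, hKpos'⟩, fun u j => by simp, fun u j => by simp⟩
  | insert e F he ih =>
    have hwF : ∀ e' ∈ F, 0 ≤ w e' ∧ w e' ≤ 1 / 2 := fun e' he' =>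
      hw e' (Finset.mem_insert_of_mem he')
    have hwe := hw e (Finset.mem_insert_self e F)
    have hS' : ∀ u, ∑ e ∈ F.filter (fun e => s e = u), w e ≤ X := fun u =>
      (Finset.sum_le_sum_of_subset_of_nonneg
        (Finset.filter_subset_filter _ (Finset.subset_insert e F))
        fun e' he' _ => (hw e' (Finset.mem_filter.1 he').1).1).trans (hS u)
    have hT' : ∀ u, ∑ e ∈ F.filter (fun e => t e = u), w e ≤ X := fun u =>
      (Finset.sum_le_sum_of_subset_of_nonneg
        (Finset.filter_subset_filter _ (Finset.subset_insert e F))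
        fun e' he' _ => (hw e' (Finset.mem_filter.1 he').1).1).trans (hT u)
    obtain ⟨c, hc1, hc2⟩ := ih hwF hS' hT'
    have hb1 := greedy_bad s w F (fun e' he' => (hwF e' he').1) X K (s e) c (hS' _)
    have hb2 := greedy_bad t w F (fun e' he' => (hwF e' he').1) X K (t e) c (hT' _)
    set B1 := univ.filter (fun j : Fin K => 1 / 2 <
      ∑ e' ∈ F.filter (fun e' => s e' = s e ∧ c e' = j), w e') with hB1
    set B2 := univ.filter (fun j : Fin K => 1 / 2 <
      ∑ e' ∈ F.filter (fun e' => t e' = t e ∧ c e' = j), w e') with hB2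
    have hlt : (B1 ∪ B2).card < (univ : Finset (Fin K)).card := by
      have h1 : ((B1 ∪ B2).card : ℝ) ≤ (B1.card : ℝ) + B2.card := by
        exact_mod_cast Finset.card_union_le _ _
      have h2 : ((B1 ∪ B2).card : ℝ) < K := by linarith
      rw [Finset.card_univ, Fintype.card_fin]
      exact_mod_cast h2
    obtain ⟨j, -, hj⟩ := Finset.exists_mem_notMem_of_card_lt_card hlt
    rw [Finset.mem_union, not_or] at hj
    have hj1 : ∑ e' ∈ F.filter (fun e' => s e' = s e ∧ c e' = j), w e' ≤ 1 / 2 := by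
      by_contra hcon
      exact hj.1 (Finset.mem_filter.2 ⟨Finset.mem_univ _, not_le.1 hcon⟩)
    have hj2 : ∑ e' ∈ F.filter (fun e' => t e' = t e ∧ c e' = j), w e' ≤ 1 / 2 := by
      by_contra hcon
      exact hj.2 (Finset.mem_filter.2 ⟨Finset.mem_univ _, not_le.1 hcon⟩)
    exact ⟨Function.update c e j, greedy_add s w F e he hwe.2 K c j hj1 hc1,
      greedy_add t w F e he hwe.2 K c j hj2 hc2⟩

theorem av_ge {E : Type} (δ : ℝ) (w : E → ℝ) (e : E) (h : w e ≤ 1) : w e ≤ av δ w e := by
  unfold av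
  split_ifs
  · exact le_rfl
  · exact h

theorem av_nonneg' {E : Type} (δ : ℝ) (w : E → ℝ) (e : E) (h : 0 ≤ w e) : 0 ≤ av δ w e := by
  unfold av
  split_ifs
  · exact h
  · exact zero_le_one

/-- the degree in edges of weight `> δ` -/
theorem leftover_deg {S E : Type} [DecidableEq S] [Fintype E] [DecidableEq E]
    (s : E → S) (w : E → ℝ) (δ : ℝ) (F : Finset E)
    (hw : ∀ e ∈ F, 0 ≤ w e ∧ w e ≤ 1) (X : ℝ)
    (hS : ∀ u, ∑ e ∈ F.filter (fun e => s e = u), av δ w e ≤ X) (u : S) :
    (univ.filter (fun e : {e // e ∈ F.filter (fun e => δ < w e)} => s e.1 = u)).card ≤ ⌊X⌋₊ := by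
  have h1 : (univ.filter (fun e : {e // e ∈ F.filter (fun e => δ < w e)} => s e.1 = u)).card ≤
      ((F.filter (fun e => s e = u)).filter (fun e => δ < w e)).card := by
    refine Finset.card_le_card_of_injOn (fun e => e.1) (fun e he => ?_)
      (fun a _ b _ h => Subtype.ext h)
    have he2 := e.2
    rw [Finset.mem_filter] at he2
    simp only [Finset.coe_filter, Finset.mem_univ, true_and, Set.mem_ofPred_eq] at he
    simp only [Finset.coe_filter, Finset.mem_filter, Set.mem_ofPred_eq]
    exact ⟨⟨he2.1, he⟩, he2.2⟩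
  refine h1.trans ?_
  refine Nat.le_floor ?_
  refine le_trans ?_ (hS u)
  rw [← Finset.sum_filter_add_sum_filter_not (F.filter (fun e => s e = u)) (fun e => δ < w e)]
  have h2 : ((((F.filter (fun e => s e = u)).filter (fun e => δ < w e)).card : ℕ) : ℝ) =
      ∑ e ∈ (F.filter (fun e => s e = u)).filter (fun e => δ < w e), av δ w e := by
    rw [Finset.card_eq_sum_ones]
    push_cast
    refine Finset.sum_congr rfl fun e he => ?_
    rw [Finset.mem_filter] at he
    unfold av
    rw [if_neg (not_le.2 he.2)]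
  rw [h2]
  have h3 : 0 ≤ ∑ e ∈ (F.filter (fun e => s e = u)).filter (fun e => ¬ δ < w e), av δ w e := by
    refine Finset.sum_nonneg fun e he => av_nonneg' δ w e (hw e ?_).1
    rw [Finset.mem_filter, Finset.mem_filter] at he
    exact he.1.1
  linarith

/-- The combined colouring is good at a vertex. -/
theorem leftover_side {S E : Type} [DecidableEq S] [Fintype E] [DecidableEq E]
    (s : E → S) (w : E → ℝ) (δ : ℝ) (F : Finset E)
    (hw : ∀ e ∈ F, 0 ≤ w e ∧ w e ≤ 1) (l K' K : ℕ)
    (c1 : {e // e ∈ F.filter (fun e => δ < w e)} → Fin l) (c2 : E → Fin K') (c : E → Fin K)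
    (hc1 : ∀ e e', e ≠ e' → c1 e = c1 e' → s e.1 ≠ s e'.1)
    (hc2 : ∀ u j, ∑ e ∈ (F.filter (fun e => ¬ δ < w e)).filter
      (fun e => s e = u ∧ c2 e = j), w e ≤ 1)
    (h1 : ∀ e (he : e ∈ F.filter (fun e => δ < w e)), (c e : ℕ) = c1 ⟨e, he⟩)
    (h2 : ∀ e ∈ F.filter (fun e => ¬ δ < w e), (c e : ℕ) = l + c2 e)
    (u : S) (j : Fin K) :
    ∑ e ∈ F.filter (fun e => s e = u ∧ c e = j), w e ≤ 1 := by
  by_cases hj : (j : ℕ) < l
  · -- all edges are large
    have hcard : (F.filter (fun e => s e = u ∧ c e = j)).card ≤ 1 := by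
      rw [Finset.card_le_one]
      have key : ∀ a ∈ F.filter (fun e => s e = u ∧ c e = j),
          a ∈ F.filter (fun e => δ < w e) := by
        intro a ha
        rw [Finset.mem_filter] at ha
        by_contra hcon
        have : a ∈ F.filter (fun e => ¬ δ < w e) := by
          rw [Finset.mem_filter]
          exact ⟨ha.1, fun h => hcon (Finset.mem_filter.2 ⟨ha.1, h⟩)⟩
        have h3 := h2 a this
        rw [ha.2.2] at h3
        omega
      intro a ha b hb
      have ha1 := key a ha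
      have hb1 := key b hb
      rw [Finset.mem_filter] at ha hb
      by_contra hab
      refine hc1 ⟨a, ha1⟩ ⟨b, hb1⟩ (fun h => hab (congrArg Subtype.val h)) ?_ (by
        simp only [ha.2.1, hb.2.1])
      apply Fin.ext
      rw [← h1 a ha1, ← h1 b hb1, ha.2.2, hb.2.2]
    rcases Finset.eq_empty_or_nonempty (F.filter (fun e => s e = u ∧ c e = j)) with h | hne
    · rw [h]; simp
    · obtain ⟨a, h⟩ := Finset.card_eq_one.1 (le_antisymm hcard (Finset.card_pos.2 hne))
      rw [h, Finset.sum_singleton]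
      have : a ∈ F.filter (fun e => s e = u ∧ c e = j) := by rw [h]; simp
      exact (hw a (Finset.mem_filter.1 this).1).2
  · -- all edges are small
    push Not at hj
    have key : ∀ a ∈ F.filter (fun e => s e = u ∧ c e = j),
        a ∈ F.filter (fun e => ¬ δ < w e) := by
      intro a ha
      rw [Finset.mem_filter] at ha
      by_contra hcon
      have : a ∈ F.filter (fun e => δ < w e) := by
        rw [Finset.mem_filter]
        refine ⟨ha.1, ?_⟩
        by_contra hlt
        exact hcon (Finset.mem_filter.2 ⟨ha.1, hlt⟩)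
      have h3 := h1 a this
      rw [ha.2.2] at h3
      have := (c1 ⟨a, this⟩).2
      omega
    rcases Finset.eq_empty_or_nonempty (F.filter (fun e => s e = u ∧ c e = j)) with he | ⟨a, ha⟩
    · rw [he]; simp
    · have hja : (j : ℕ) = l + c2 a := by
        rw [← h2 a (key a ha), (Finset.mem_filter.1 ha).2.2]
      refine le_trans ?_ (hc2 u (c2 a))
      refine Finset.sum_le_sum_of_subset_of_nonneg (fun b hb => ?_) fun b hb _ => ?_
      · have hb1 := key b hb
        rw [Finset.mem_filter] at hb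
        rw [Finset.mem_filter]
        refine ⟨hb1, hb.2.1, ?_⟩
        apply Fin.ext
        have h4 := h2 b hb1
        rw [hb.2.2] at h4
        omega
      · rw [Finset.mem_filter, Finset.mem_filter] at hb
        exact (hw b hb.1.1).1

/-- Edges of small total `av`-weight (`av δ w e = w e` if `w e ≤ δ`, else `1`; see Side.lean) at
every vertex: the edges with `w e > δ` have degree at most `⌊X⌋` (use `konig` from Konig.lean on the
subtype, or with the edges outside sent to private vertices), the others are coloured by `greedy`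
with `⌊4 X⌋ + 1` further colours. -/
theorem leftover {S T E : Type} [DecidableEq S] [DecidableEq T] [Fintype E] [DecidableEq E]
    (s : E → S) (t : E → T) (w : E → ℝ) (δ : ℝ) (hδ : δ ≤ 1 / 2) (F : Finset E)
    (hw : ∀ e ∈ F, 0 ≤ w e ∧ w e ≤ 1) (X : ℝ) (K : ℕ) (hK : 5 * X + 1 ≤ K)
    (hS : ∀ u, ∑ e ∈ F.filter (fun e => s e = u), av δ w e ≤ X)
    (hT : ∀ v, ∑ e ∈ F.filter (fun e => t e = v), av δ w e ≤ X) :
    ∃ c : E → Fin K, (∀ u j, ∑ e ∈ F.filter (fun e => s e = u ∧ c e = j), w e ≤ 1) ∧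
      ∀ v j, ∑ e ∈ F.filter (fun e => t e = v ∧ c e = j), w e ≤ 1 := by
  rcases isEmpty_or_nonempty E with hE | ⟨⟨e0⟩⟩
  · refine ⟨fun e => hE.elim e, fun u j => ?_, fun u j => ?_⟩ <;>
    · rw [Finset.eq_empty_of_isEmpty (F.filter _)]
      simp
  have hX : 0 ≤ X := le_trans (Finset.sum_nonneg fun e he =>
    av_nonneg' δ w e (hw e (Finset.mem_filter.1 he).1).1) (hS (s e0))
  obtain ⟨c1, hc1⟩ := konig (fun e : {e // e ∈ F.filter (fun e => δ < w e)} => s e.1)
    (fun e : {e // e ∈ F.filter (fun e => δ < w e)} => t e.1) ⌊X⌋₊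
    (leftover_deg s w δ F hw X hS) (leftover_deg t w δ F hw X hT)
  have hsmall : ∀ e ∈ F.filter (fun e => ¬ δ < w e), 0 ≤ w e ∧ w e ≤ 1 / 2 := by
    intro e he
    rw [Finset.mem_filter] at he
    exact ⟨(hw e he.1).1, (not_lt.1 he.2).trans hδ⟩
  have hload : ∀ {A : Type} [DecidableEq A] (s : E → A)
      (_ : ∀ u, ∑ e ∈ F.filter (fun e => s e = u), av δ w e ≤ X) (u : A),
      ∑ e ∈ (F.filter (fun e => ¬ δ < w e)).filter (fun e => s e = u), w e ≤ X := by
    intro A _ s hS u
    refine le_trans ?_ (hS u)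
    calc ∑ e ∈ (F.filter (fun e => ¬ δ < w e)).filter (fun e => s e = u), w e
        ≤ ∑ e ∈ F.filter (fun e => s e = u), w e := by
          refine Finset.sum_le_sum_of_subset_of_nonneg
            (Finset.filter_subset_filter _ (Finset.filter_subset _ _)) fun e he _ => ?_
          exact (hw e (Finset.mem_filter.1 he).1).1
      _ ≤ ∑ e ∈ F.filter (fun e => s e = u), av δ w e := by
          refine Finset.sum_le_sum fun e he => av_ge δ w e (hw e (Finset.mem_filter.1 he).1).2
  obtain ⟨c2, hc2, hc2'⟩ := greedy s t w (F.filter (fun e => ¬ δ < w e)) hsmall X (⌊4 * X⌋₊ + 1)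
    (by push_cast; exact Nat.lt_floor_add_one _) (hload s hS) (hload t hT)
  have hsum : ⌊X⌋₊ + (⌊4 * X⌋₊ + 1) ≤ K := by
    have h1 := Nat.floor_le hX
    have h2 := Nat.floor_le (show 0 ≤ 4 * X by linarith)
    have h3 : ((⌊X⌋₊ + (⌊4 * X⌋₊ + 1) : ℕ) : ℝ) ≤ K := by push_cast; linarith
    exact_mod_cast h3
  let c : E → Fin K := fun e =>
    if he : e ∈ F.filter (fun e => δ < w e) then
      ⟨c1 ⟨e, he⟩, lt_of_lt_of_le (c1 ⟨e, he⟩).2 (by omega)⟩
    else ⟨⌊X⌋₊ + c2 e, by have := (c2 e).2; omega⟩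
  have h1 : ∀ e (he : e ∈ F.filter (fun e => δ < w e)), (c e : ℕ) = c1 ⟨e, he⟩ := by
    intro e he
    simp only [c, dif_pos he]
  have h2 : ∀ e ∈ F.filter (fun e => ¬ δ < w e), (c e : ℕ) = ⌊X⌋₊ + c2 e := by
    intro e he
    have he' : e ∉ F.filter (fun e => δ < w e) := by
      rw [Finset.mem_filter] at he ⊢
      exact fun h => he.2 h.2
    simp only [c, dif_neg he']
  exact ⟨c, leftover_side s w δ F hw _ _ K c1 c2 c (fun e e' hne h => (hc1 e e' hne h).1) hc2 h1 h2,
    leftover_side t w δ F hw _ _ K c1 c2 c (fun e e' hne h => (hc1 e e' hne h).2) hc2' h1 h2⟩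

end Pool.Agent.MP2237
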