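import Mathlib
import Pool.Agent.MP_2237f3_co.Alpha
import Pool.Agent.MP_2237f3_co.Greedy

set_option autoImplicit false

namespace Pool.Agent.MP2237

open Finset

/-- All data at the vertices of one side. -/
theorem vertex_side {U V E : Type} [DecidableEq U] [Fintype V] [DecidableEq V] [Fintype E]
    [DecidableEq E] (su : E → U) (tv : E → V) (w : E → ℝ) (hw : ∀ e, 0 ≤ w e ∧ w e ≤ 1)
    (b : ℕ) (hb : 0 < b) (fU : U → E → Fin b)
    (hfU : ∀ u j, ∑ e ∈ univ.filter (fun e => su e = u ∧ fU u e = j), w e ≤ 1)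
    (ε0 δ : ℝ) (q l : ℕ) (Q : ℝ) (hε0 : 0 < ε0) (hε1 : ε0 ≤ 1 / 100) (hδ0 : 0 < δ) (hδ1 : δ ≤ 1)
    (hq : 0 < q) (hQ : 1 ≤ Q) (hl : 0 < l)
    (hNQ : (17 / 10 + 20 * ε0) * b ≤ ((q * q * l : ℕ) : ℝ) * Q)
    (hNQ' : ((q * q * l : ℕ) : ℝ) * Q ≤ (17 / 10 + 21 * ε0) * b)
    (hb1 : 6 * ε0 * Q + 7 ≤ ε0 * b)
    (hv : U → V → Prop) [∀ u, DecidablePred (hv u)]
    (hτ' : ∀ u v, hv u v → 1 / (δ * ε0) / Q * b <
      ∑ e ∈ univ.filter (fun e => su e = u ∧ tv e = v), av δ w e)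
    (n : U → V → ℕ)
    (hn : ∀ u v, hv u v → (n u v : ℝ) ≤
      ∑ e ∈ univ.filter (fun e => su e = u ∧ tv e = v), W (w e) + 6)
    (hn0 : ∀ u v, ¬ hv u v → n u v = 0) (nL : U → ℕ)
    (hnL : ∀ u, (nL u : ℝ) ≤ ∑ e ∈ univ.filter (fun e => su e = u ∧ ¬ hv u (tv e)), W (w e) + 6)
    (dgv : U → ℝ)
    (hdg : ∀ u, dgv u ≤ ∑ v, (if n u v = 0 then (0 : ℝ) else ((n u v / (q * q * l) + 1 : ℕ) : ℝ)))
    (hdg0 : ∀ u, 0 ≤ dgv u) (u : U) :
    dgv u ≤ (1 - 8 * ε0) * Q ∧
      (1 + 2 * ε0) * ((1 + ε0) * ((nL u + ⌈ε0 * b⌉₊ : ℕ) : ℝ) / q / q +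
        2 * (ε0 / (8 * q ^ 2) * b)) + (Q - dgv u) * (ε0 * δ / (Q * q ^ 2) * b) ≤
        (Q - dgv u) * l := by
  have hb' : (0 : ℝ) < b := by exact_mod_cast hb
  have hq' : (0 : ℝ) < q := by exact_mod_cast hq
  have hq1 : (1 : ℝ) ≤ q := by exact_mod_cast hq
  have hl' : (0 : ℝ) < l := by exact_mod_cast hl
  have hQ0 : 0 < Q := by linarith
  set N : ℕ := q * q * l with hN
  have hN0 : 0 < N := by positivity
  have hN0' : (0 : ℝ) < N := by exact_mod_cast hN0
  set cnt : ℝ := ((univ.filter (hv u)).card : ℝ) with hcnt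
  obtain ⟨h1, h2⟩ := vertex_bound (univ.filter (fun e => su e = u)) tv w hw b hb (fU u)
    (fun j => by rw [filter_filter]; exact hfU u j) δ hδ0 hδ1 (hv u) (1 / (δ * ε0) / Q)
    (by positivity)
    (fun v hv' => by rw [filter_filter]; exact hτ' u v hv') (n u)
    (fun v hv' => by rw [filter_filter]; exact hn u v hv') (hn0 u) (nL u)
    (by rw [filter_filter]; exact hnL u)
  have h3 : 1 / (δ * (1 / (δ * ε0) / Q)) = ε0 * Q := by field_simp
  rw [h3] at h1
  have h4 : dgv u ≤ (∑ v, (n u v : ℝ)) / N + cnt := by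
    refine (hdg u).trans ?_
    have h5 : cnt = ∑ v, (if hv u v then (1 : ℝ) else 0) := by
      rw [hcnt, card_filter]
      push_cast
      rfl
    rw [h5, sum_div, ← sum_add_distrib]
    refine sum_le_sum fun v _ => ?_
    by_cases h6 : n u v = 0
    · rw [if_pos h6]
      have : (0 : ℝ) ≤ (n u v : ℝ) / N := by positivity
      split_ifs <;> linarith
    · rw [if_neg h6]
      have h7 : hv u v := by
        by_contra h
        exact h6 (hn0 u v h)
      rw [if_pos h7]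
      push_cast
      have : ((n u v / N : ℕ) : ℝ) ≤ (n u v : ℝ) / N := Nat.cast_div_le
      linarith
  obtain ⟨g1, g2, g3⟩ := numbers ε0 δ q Q b N l (∑ v, (n u v : ℝ)) (nL u) cnt
    ((nL u + ⌈ε0 * b⌉₊ : ℕ) : ℝ) (Q - dgv u) (dgv u) hε0 hε1 hδ0 hδ1 hq1 hQ hb' hl'
    (by rw [hN]; push_cast; ring) hNQ hNQ' h2 (by positivity) (by positivity) h1
    (by
      push_cast
      have := (Nat.ceil_lt_add_one (show 0 ≤ ε0 * b by positivity)).le
      linarith) (by positivity) hb1 h4 (hdg0 u) rfl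
  exact ⟨by linarith, g3⟩

theorem gam_aux (ε0 : ℝ) (hε0 : 0 < ε0) (hε1 : ε0 ≤ 1 / 100) :
    1 ≤ (1 + 2 * ε0) * (1 - ε0) := by nlinarith

theorem main_multi (ε : ℝ) (hε : 0 < ε) :
    ∃ b₀ : ℕ, ∀ (S T E : Type) [Fintype S] [Fintype T] [Fintype E]
      [DecidableEq S] [DecidableEq T] [DecidableEq E] (s : E → S) (t : E → T) (w : E → ℝ) (b : ℕ),
      b₀ ≤ b → (∀ e, 0 ≤ w e ∧ w e ≤ 1) →
      (∀ u, ∃ f : E → Fin b, ∀ j, ∑ e ∈ univ.filter (fun e => s e = u ∧ f e = j), w e ≤ 1) →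
      (∀ v, ∃ f : E → Fin b, ∀ j, ∑ e ∈ univ.filter (fun e => t e = v ∧ f e = j), w e ≤ 1) →
      ∃ (K : ℕ) (c : E → Fin K), (K : ℝ) ≤ (17 / 10 + ε) * b ∧
        (∀ u j, ∑ e ∈ univ.filter (fun e => s e = u ∧ c e = j), w e ≤ 1) ∧
        (∀ v j, ∑ e ∈ univ.filter (fun e => t e = v ∧ c e = j), w e ≤ 1) := by
  classical
  -- parameters
  set ε0 : ℝ := min 1 ε / 100 with hε0def
  have hm1 : 0 < min 1 ε := lt_min one_pos hε
  have hε0 : 0 < ε0 := by positivity
  have hε1 : ε0 ≤ 1 / 100 := by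
    have : min 1 ε ≤ 1 := min_le_left _ _
    linarith
  have hε2 : 100 * ε0 ≤ ε := by
    have : min 1 ε ≤ ε := min_le_right _ _
    linarith
  obtain ⟨δ, q, m, b1, hδ0, hδ1, hq, hVS⟩ := exists_VS_half ε0 hε0 (by linarith)
  have : NeZero q := ⟨hq.ne'⟩
  have hq' : (0 : ℝ) < q := by exact_mod_cast hq
  have hq1 : (1 : ℝ) ≤ q := by exact_mod_cast hq
  set σ : ℝ := 8 * ε0 with hσdef
  have hσ : 0 < σ := by positivity
  have hσ1 : σ ≤ 1 := by rw [hσdef]; linarith
  set c1 : ℝ := 1 / (δ * ε0) with hc1def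
  have hc1 : 0 < c1 := by positivity
  set c : ℝ := c1 / σ with hcdef
  have hc : 0 < c := by positivity
  set Λ : ℝ := 1 / (δ * σ) with hΛdef
  have hΛ : 0 < Λ := by positivity
  set θ : ℝ := min (ε0 * σ ^ 2) (ε0 / (16 * q ^ 2)) with hθdef
  have hθ : 0 < θ := lt_min (by positivity) (by positivity)
  have hθ1 : θ ≤ ε0 * σ ^ 2 := min_le_left _ _
  have hθ2 : θ ≤ ε0 / (16 * q ^ 2) := min_le_right _ _
  have hθ3 : θ ≤ ε0 := by
    refine hθ1.trans ?_
    have : σ ^ 2 ≤ 1 := pow_le_one₀ hσ.le hσ1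
    exact mul_le_of_le_one_right hε0.le this
  obtain ⟨R0, hmix⟩ := mixing_edges θ c Λ hθ hc hΛ
  set εb : ℝ := min 1 (ε0 / (32 * q ^ 2) * (δ * σ)) with hεbdef
  have hεb : 0 < εb := lt_min one_pos (by positivity)
  obtain ⟨Cb, hCb0, hbal⟩ := balance_side εb hεb (min_le_left _ _)
  set D : ℝ := Cb * (c * Real.sqrt (Real.sqrt (q / (δ * c)))) with hDdef
  have hD0 : 0 ≤ D := by positivity
  set R : ℕ := R0 + ⌈(32 * q ^ 2 * D / ε0) ^ 2⌉₊ + ⌈c * δ⌉₊ with hRdef
  set Q : ℝ := 2 ^ R with hQdef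
  have hQ0 : 0 < Q := by positivity
  have hQ1 : 1 ≤ Q := one_le_pow₀ (by norm_num)
  have hRQ : (R : ℝ) ≤ Q := by
    have h1 : R < 2 ^ R := Nat.lt_two_pow_self
    have h2 : (R : ℝ) < (2 ^ R : ℕ) := by exact_mod_cast h1
    push_cast at h2
    exact h2.le
  have hR' : (R0 : ℝ) + ⌈(32 * q ^ 2 * D / ε0) ^ 2⌉₊ + ⌈c * δ⌉₊ ≤ Q := by
    refine le_trans (le_of_eq ?_) hRQ
    rw [hRdef]
    push_cast
    rfl
  have hQa : (32 * q ^ 2 * D / ε0) ^ 2 ≤ Q := by
    have h1 := Nat.le_ceil ((32 * q ^ 2 * D / ε0) ^ 2)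
    have h2 : (0 : ℝ) ≤ (R0 : ℝ) := Nat.cast_nonneg _
    have h3 : (0 : ℝ) ≤ (⌈c * δ⌉₊ : ℝ) := Nat.cast_nonneg _
    linarith
  have hQb : c * δ ≤ Q := by
    have h1 := Nat.le_ceil (c * δ)
    have h2 : (0 : ℝ) ≤ (R0 : ℝ) := Nat.cast_nonneg _
    have h3 : (0 : ℝ) ≤ (⌈(32 * q ^ 2 * D / ε0) ^ 2⌉₊ : ℝ) := Nat.cast_nonneg _
    linarith
  have hQa' : 32 * q ^ 2 * D ≤ ε0 * Real.sqrt Q := by
    have h1 : 32 * q ^ 2 * D / ε0 ≤ Real.sqrt Q := Real.le_sqrt_of_sq_le hQa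
    rw [div_le_iff₀ hε0] at h1
    linarith
  set ef : ℝ := ε0 * δ / (Q * q ^ 2) with hefdef
  have hef : 0 < ef := by positivity
  obtain ⟨Cr, hCr0, hlight⟩ := light (min 1 (ef * δ / 2)) (lt_min one_pos (by positivity))
    (min_le_left _ _)
  refine ⟨⌈b1 / ε0⌉₊ + ⌈(6 * ε0 * Q + 7) / ε0⌉₊ + ⌈Q * q ^ 2 / ε0⌉₊ +
    ⌈2 * (Cr * Real.sqrt (2 * (Q * q ^ 2))) / ef⌉₊ + 1, ?_⟩
  intro S T E _ _ _ _ _ _ s t w b hb hw hS hT
  have hb0 : 0 < b := by omega
  have hb' : (0 : ℝ) < b := by exact_mod_cast hb0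
  have hbsum : (⌈b1 / ε0⌉₊ : ℝ) + ⌈(6 * ε0 * Q + 7) / ε0⌉₊ + ⌈Q * q ^ 2 / ε0⌉₊ +
      ⌈2 * (Cr * Real.sqrt (2 * (Q * q ^ 2))) / ef⌉₊ + 1 ≤ b := by exact_mod_cast hb
  have hn1 : (0 : ℝ) ≤ (⌈b1 / ε0⌉₊ : ℝ) := Nat.cast_nonneg _
  have hn2 : (0 : ℝ) ≤ (⌈(6 * ε0 * Q + 7) / ε0⌉₊ : ℝ) := Nat.cast_nonneg _
  have hn3 : (0 : ℝ) ≤ (⌈Q * q ^ 2 / ε0⌉₊ : ℝ) := Nat.cast_nonneg _
  have hn4 : (0 : ℝ) ≤ (⌈2 * (Cr * Real.sqrt (2 * (Q * q ^ 2))) / ef⌉₊ : ℝ) := Nat.cast_nonneg _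
  have hB1 : (b1 : ℝ) ≤ ε0 * b := by
    have h1 := Nat.le_ceil ((b1 : ℝ) / ε0)
    have h2 : (b1 : ℝ) / ε0 ≤ b := by linarith
    rw [div_le_iff₀ hε0] at h2
    linarith
  have hB2 : 6 * ε0 * Q + 7 ≤ ε0 * b := by
    have h1 := Nat.le_ceil ((6 * ε0 * Q + 7) / ε0)
    have h2 : (6 * ε0 * Q + 7) / ε0 ≤ b := by linarith
    rw [div_le_iff₀ hε0] at h2
    linarith
  have hB3 : Q * q ^ 2 ≤ ε0 * b := by
    have h1 := Nat.le_ceil (Q * q ^ 2 / ε0)
    have h2 : Q * q ^ 2 / ε0 ≤ b := by linarith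
    rw [div_le_iff₀ hε0] at h2
    linarith
  have hB4 : 2 * (Cr * Real.sqrt (2 * (Q * q ^ 2))) ≤ ef * b := by
    have h1 := Nat.le_ceil (2 * (Cr * Real.sqrt (2 * (Q * q ^ 2))) / ef)
    have h2 : 2 * (Cr * Real.sqrt (2 * (Q * q ^ 2))) / ef ≤ b := by linarith
    rw [div_le_iff₀ hef] at h2
    linarith
  have hav0 : ∀ e, 0 ≤ av δ w e := by
    intro e
    simp only [av]
    split_ifs
    · exact (hw e).1
    · exact zero_le_one
  choose fS hfS using hS
  choose fT hfT using hT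
  have hrowS : ∀ u, ∑ e ∈ univ.filter (fun e => s e = u), av δ w e ≤ b / δ := fun u =>
    sum_av_vertex' δ hδ0 (by linarith) _ w (fun e _ => hw e) b (fS u)
      (fun j => by rw [filter_filter]; exact hfS u j)
  have hrowT : ∀ v, ∑ e ∈ univ.filter (fun e => t e = v), av δ w e ≤ b / δ := fun v =>
    sum_av_vertex' δ hδ0 (by linarith) _ w (fun e _ => hw e) b (fT v)
      (fun j => by rw [filter_filter]; exact hfT v j)
  -- heavy pairs and light edges
  let hv : S → T → Prop := fun u v =>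
    c1 / Q * b < ∑ e ∈ univ.filter (fun e => s e = u ∧ t e = v), av δ w e
  set H : Finset E := univ.filter (fun e => hv (s e) (t e)) with hH
  set L : Finset E := univ.filter (fun e => ¬ hv (s e) (t e)) with hL
  -- pair bins
  have hpack : ∀ (u : S) (v : T), ∃ (n : ℕ) (f : E → ℕ),
      (∀ e ∈ univ.filter (fun e => s e = u ∧ t e = v), f e < n) ∧
      (∀ j, ∑ e ∈ (univ.filter (fun e => s e = u ∧ t e = v)).filter (fun e => f e = j), w e ≤ 1) ∧
      (n : ℝ) ≤ ∑ e ∈ univ.filter (fun e => s e = u ∧ t e = v), W (w e) + 6 := fun u v =>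
    pack_W _ w (fun e _ => hw e)
  choose nn ff hff1 hff2 hff3 using hpack
  set n : S → T → ℕ := fun u v => if hv u v then nn u v else 0 with hndef
  -- light bins
  have hpackS : ∀ u : S, ∃ (n : ℕ) (f : E → ℕ), (∀ e ∈ L.filter (fun e => s e = u), f e < n) ∧
      (∀ j, ∑ e ∈ (L.filter (fun e => s e = u)).filter (fun e => f e = j), w e ≤ 1) ∧
      (n : ℝ) ≤ ∑ e ∈ L.filter (fun e => s e = u), W (w e) + 6 := fun u =>
    pack_W _ w (fun e _ => hw e)
  have hpackT : ∀ v : T, ∃ (n : ℕ) (f : E → ℕ), (∀ e ∈ L.filter (fun e => t e = v), f e < n) ∧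
      (∀ j, ∑ e ∈ (L.filter (fun e => t e = v)).filter (fun e => f e = j), w e ≤ 1) ∧
      (n : ℝ) ≤ ∑ e ∈ L.filter (fun e => t e = v), W (w e) + 6 := fun v =>
    pack_W _ w (fun e _ => hw e)
  choose nS gS hgS1 hgS2 hgS3 using hpackS
  choose nT gT hgT1 hgT2 hgT3 using hpackT
  have hextra : b1 ≤ ⌈ε0 * b⌉₊ := by
    have h1 : (b1 : ℝ) ≤ ⌈ε0 * b⌉₊ := hB1.trans (Nat.le_ceil _)
    exact_mod_cast h1
  have hextra0 : 0 < ⌈ε0 * b⌉₊ := Nat.ceil_pos.2 (by positivity)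
  have hDS : ∀ u : S, Nonempty (VS q m δ ((1 + ε0) * ((nS u + ⌈ε0 * b⌉₊ : ℕ) : ℝ) / (q : ℝ))
      (L.filter (fun e => s e = u)) w) := by
    intro u
    obtain ⟨g, hg⟩ := pack_extend (L.filter (fun e => s e = u)) w (nS u) (nS u + ⌈ε0 * b⌉₊)
      (by omega) (by omega) (gS u) (hgS1 u) (hgS2 u) (fun e _ => (hw e).1)
    exact hVS _ (by omega) E _ w (fun e _ => (hw e).1) g hg
  have hDT : ∀ v : T, Nonempty (VS q m δ ((1 + ε0) * ((nT v + ⌈ε0 * b⌉₊ : ℕ) : ℝ) / (q : ℝ))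
      (L.filter (fun e => t e = v)) w) := by
    intro v
    obtain ⟨g, hg⟩ := pack_extend (L.filter (fun e => t e = v)) w (nT v) (nT v + ⌈ε0 * b⌉₊)
      (by omega) (by omega) (gT v) (hgT1 v) (hgT2 v) (fun e _ => (hw e).1)
    exact hVS _ (by omega) E _ w (fun e _ => (hw e).1) g hg
  let DS : ∀ u : S, VS q m δ ((1 + ε0) * ((nS u + ⌈ε0 * b⌉₊ : ℕ) : ℝ) / (q : ℝ))
      (L.filter (fun e => s e = u)) w := fun u => (hDS u).some
  let DT : ∀ v : T, VS q m δ ((1 + ε0) * ((nT v + ⌈ε0 * b⌉₊ : ℕ) : ℝ) / (q : ℝ))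
      (L.filter (fun e => t e = v)) w := fun v => (hDT v).some
  -- the palette size
  set l : ℕ := ⌈(17 / 10 + 20 * ε0) * b / (Q * q ^ 2)⌉₊ with hldef
  have hl0 : 0 < l := Nat.ceil_pos.2 (by positivity)
  have hNcast : ((q * q * l : ℕ) : ℝ) = q ^ 2 * l := by push_cast; ring
  have hNQ : (17 / 10 + 20 * ε0) * b ≤ ((q * q * l : ℕ) : ℝ) * Q := by
    have h1 := Nat.le_ceil ((17 / 10 + 20 * ε0) * b / (Q * q ^ 2))
    rw [← hldef, div_le_iff₀ (by positivity)] at h1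
    rw [hNcast]
    linarith
  have hNQ' : ((q * q * l : ℕ) : ℝ) * Q ≤ (17 / 10 + 21 * ε0) * b := by
    have h1 := (Nat.ceil_lt_add_one
      (show 0 ≤ (17 / 10 + 20 * ε0) * b / (Q * q ^ 2) by positivity)).le
    rw [← hldef] at h1
    rw [hNcast]
    have h2 : (q : ℝ) ^ 2 * l * Q ≤
        (q : ℝ) ^ 2 * ((17 / 10 + 20 * ε0) * b / (Q * q ^ 2) + 1) * Q := by
      gcongr
    have h3 : (q : ℝ) ^ 2 * ((17 / 10 + 20 * ε0) * b / (Q * q ^ 2) + 1) * Q =
        (17 / 10 + 20 * ε0) * b + Q * q ^ 2 := by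
      field_simp
    linarith
  set N : ℕ := q * q * l with hNdef
  have hN0 : 0 < N := by positivity
  set μ : S × T → ℕ := fun p => if n p.1 p.2 = 0 then 0 else n p.1 p.2 / N + 1 with hμdef
  set sI : ((p : S × T) × Fin (μ p)) → S := fun i => i.1.1 with hsI
  set tI : ((p : S × T) × Fin (μ p)) → T := fun i => i.1.2 with htI
  have hdgS : ∀ u, dg sI tI univ (Sum.inl u) =
      ∑ v, (if n u v = 0 then (0 : ℝ) else ((n u v / N + 1 : ℕ) : ℝ)) := by
    intro u
    rw [hsI, htI, dg_sigma_left μ u]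
    refine sum_congr rfl fun v _ => ?_
    simp only [hμdef]
    split_ifs <;> simp
  have hdgT : ∀ v, dg sI tI univ (Sum.inr v) =
      ∑ u, (if n u v = 0 then (0 : ℝ) else ((n u v / N + 1 : ℕ) : ℝ)) := by
    intro v
    rw [hsI, htI, dg_sigma_right μ v]
    refine sum_congr rfl fun u _ => ?_
    simp only [hμdef]
    split_ifs <;> simp
  have hnvalS : ∀ u v, hv u v → (n u v : ℝ) ≤
      ∑ e ∈ univ.filter (fun e => s e = u ∧ t e = v), W (w e) + 6 := by
    intro u v h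
    simp only [hndef, if_pos h]
    exact hff3 u v
  have hnval0 : ∀ u v, ¬ hv u v → n u v = 0 := by
    intro u v h
    simp only [hndef, if_neg h]
  have hcapS := vertex_side s t w hw b hb0 fS hfS ε0 δ q l Q hε0 hε1 hδ0 (by linarith) hq hQ1 hl0
    hNQ hNQ' hB2 hv (fun u v h => h) n hnvalS hnval0 nS
    (fun u => by
      refine (hgS3 u).trans (le_of_eq ?_)
      congr 1
      refine sum_congr ?_ fun _ _ => rfl
      ext e
      simp only [hL, mem_filter, mem_univ, true_and]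
      constructor
      · rintro ⟨h1, rfl⟩; exact ⟨rfl, h1⟩
      · rintro ⟨rfl, h1⟩; exact ⟨h1, rfl⟩)
    (fun u => dg sI tI univ (Sum.inl u)) (fun u => (hdgS u).le) (fun u => dg_nonneg _ _ _ _)
  have hcapT := vertex_side t s w hw b hb0 fT hfT ε0 δ q l Q hε0 hε1 hδ0 (by linarith) hq hQ1 hl0
    hNQ hNQ' hB2 (fun v u => hv u v)
    (fun v u h => by
      have h1 : univ.filter (fun e => t e = v ∧ s e = u) =
          univ.filter (fun e => s e = u ∧ t e = v) := filter_congr fun e _ => and_comm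
      rw [h1]
      exact h)
    (fun v u => n u v)
    (fun v u h => by
      have h1 : univ.filter (fun e => t e = v ∧ s e = u) =
          univ.filter (fun e => s e = u ∧ t e = v) := filter_congr fun e _ => and_comm
      rw [h1]
      exact hnvalS u v h)
    (fun v u h => hnval0 u v h) nT
    (fun v => by
      refine (hgT3 v).trans (le_of_eq ?_)
      congr 1
      refine sum_congr ?_ fun _ _ => rfl
      ext e
      simp only [hL, mem_filter, mem_univ, true_and]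
      constructor
      · rintro ⟨h1, rfl⟩; exact ⟨rfl, h1⟩
      · rintro ⟨rfl, h1⟩; exact ⟨h1, rfl⟩)
    (fun v => dg sI tI univ (Sum.inr v)) (fun v => (hdgT v).le) (fun v => dg_nonneg _ _ _ _)
  -- light weights
  have hpairL : ∀ u v, ∑ e ∈ L.filter (fun e => s e = u ∧ t e = v), av δ w e ≤ c1 / Q * b := by
    intro u v
    by_cases h : hv u v
    · rw [sum_eq_zero]
      · positivity
      · intro e he
        simp only [hL, mem_filter, mem_univ, true_and] at he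
        obtain ⟨h1, rfl, rfl⟩ := he
        exact absurd h h1
    · refine le_trans ?_ (not_lt.1 h)
      exact sum_le_sum_of_subset_of_nonneg (filter_subset_filter _ (subset_univ L))
        fun e _ _ => hav0 e
  have hrowLS : ∀ u, ∑ e ∈ L.filter (fun e => s e = u), av δ w e ≤ b / δ := fun u =>
    (sum_le_sum_of_subset_of_nonneg (filter_subset_filter _ (subset_univ L))
        fun e _ _ => hav0 e).trans (hrowS u)
  have hrowLT : ∀ v, ∑ e ∈ L.filter (fun e => t e = v), av δ w e ≤ b / δ := fun v =>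
    (sum_le_sum_of_subset_of_nonneg (filter_subset_filter _ (subset_univ L))
        fun e _ _ => hav0 e).trans (hrowT v)
  -- mixing
  obtain ⟨Col, iF, iD, ψ, hcard, hψ, hfree, hfirstS, hfirstT, Gd, hGL, hgood, hbadS, hbadT⟩ :=
    hmix R (by omega) S T E ((p : S × T) × Fin (μ p)) (Option (Fin m)) s t sI tI L (av δ w)
    (fun u e => (DS u).cls e) (fun v e => (DT v).cls e) b σ (c1 / Q * b) (b / δ) hb' hσ hσ1
    (by positivity) (by positivity)
    (by rw [hcdef]; exact le_of_eq (by ring)) (by rw [hΛdef]; exact le_of_eq (by field_simp)) hav0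
    (by
      rintro (u | v)
      · exact (hcapS u).1
      · exact (hcapT v).1)
    hpairL hrowLS hrowLT
  have hcardR : (Fintype.card Col : ℝ) = Q := by rw [hcard]; push_cast; rfl
  have hfcS : ∀ u, σ * Q ≤ ((freeC sI tI ψ (Sum.inl u)).card : ℝ) := by
    intro u
    rw [hfree]
    have h1 := (hcapS u).1
    rw [hσdef]
    linarith
  have hfcT : ∀ v, σ * Q ≤ ((freeC sI tI ψ (Sum.inr v)).card : ℝ) := by
    intro v
    rw [hfree]
    have h1 := (hcapT v).1
    rw [hσdef]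
    linarith
  -- balancing
  have hτZ : c1 / Q * b / σ ≤ q * (Q * (b / δ)) := by
    have h1 : c1 / Q * b / σ = c * b / Q := by rw [hcdef]; field_simp
    rw [h1, div_le_iff₀ hQ0]
    have h2 : c ≤ Q / δ := by rw [le_div_iff₀ hδ0]; exact hQb
    have h3 : q * (Q * (b / δ)) * Q = (q * Q) * (Q / δ * b) := by ring
    rw [h3]
    have h4 : c * b ≤ Q / δ * b := mul_le_mul_of_nonneg_right h2 hb'.le
    have h5 : 1 ≤ q * Q := one_le_mul_of_one_le_of_one_le hq1 hQ1
    have h6 : 0 ≤ Q / δ * b := by positivity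
    exact h4.trans (le_mul_of_one_le_left h6 h5)
  have hbalerr : εb * (b / δ / σ) + Cb * (c1 / Q * b / σ *
      Real.sqrt (Real.sqrt (q * (Q * (b / δ)) / (c1 / Q * b / σ)))) ≤ ε0 / (16 * q ^ 2) * b := by
    have h1 : εb * (b / δ / σ) ≤ ε0 / (32 * q ^ 2) * b := by
      have h2 : εb ≤ ε0 / (32 * q ^ 2) * (δ * σ) := min_le_right _ _
      calc εb * (b / δ / σ) ≤ ε0 / (32 * q ^ 2) * (δ * σ) * (b / δ / σ) :=
            mul_le_mul_of_nonneg_right h2 (by positivity)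
        _ = ε0 / (32 * q ^ 2) * b := by field_simp
    have h2 : q * (Q * (b / δ)) / (c1 / Q * b / σ) = Q ^ 2 * (q / (δ * c)) := by
      rw [hcdef]; field_simp
    have h3 : Real.sqrt (Real.sqrt (q * (Q * (b / δ)) / (c1 / Q * b / σ))) =
        Real.sqrt Q * Real.sqrt (Real.sqrt (q / (δ * c))) := by
      rw [h2, Real.sqrt_mul (by positivity), Real.sqrt_sq hQ0.le, Real.sqrt_mul hQ0.le]
    have h4 : Cb * (c1 / Q * b / σ *
        Real.sqrt (Real.sqrt (q * (Q * (b / δ)) / (c1 / Q * b / σ)))) =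
        D * b * (Real.sqrt Q / Q) := by
      rw [h3, hDdef, hcdef]; ring
    have h5 : Real.sqrt Q / Q = 1 / Real.sqrt Q := by
      rw [div_eq_div_iff hQ0.ne' (by positivity), one_mul, Real.mul_self_sqrt hQ0.le]
    have h6 : D * b * (Real.sqrt Q / Q) ≤ ε0 / (32 * q ^ 2) * b := by
      rw [h5, mul_one_div, div_le_iff₀ (by positivity)]
      have h7 : D ≤ ε0 / (32 * q ^ 2) * Real.sqrt Q := by
        rw [div_mul_eq_mul_div, le_div_iff₀ (by positivity)]
        linarith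
      have h9 := mul_le_mul_of_nonneg_right h7 hb'.le
      refine h9.trans (le_of_eq ?_)
      ring
    rw [h4]
    have h8 : ε0 / (16 * (q : ℝ) ^ 2) * b = ε0 / (32 * q ^ 2) * b + ε0 / (32 * q ^ 2) * b := by
      field_simp
      ring
    rw [h8]
    exact add_le_add h1 h6
  obtain ⟨xT, hxT⟩ := hbal q S T E (Option (Fin m)) Col s t L (fun e => (DS (s e)).cls e)
    (av δ w) (fun v => freeC sI tI ψ (Sum.inr v)) Q σ (c1 / Q * b) (b / δ)
    (fun e x => (DT (t e)).dist e x) hQ0 hσ (by positivity) (by positivity) hτZ hav0 hfcT hpairL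
    hrowLS hrowLT (fun e x => VS.dist_nonneg _ _ _)
    (fun e he => VS.dist_sum _ e (by simp [he]))
  obtain ⟨xS, hxS⟩ := hbal q T S E (Option (Fin m)) Col t s L (fun e => (DT (t e)).cls e)
    (av δ w) (fun u => freeC sI tI ψ (Sum.inl u)) Q σ (c1 / Q * b) (b / δ)
    (fun e x => (DS (s e)).dist e x) hQ0 hσ (by positivity) (by positivity) hτZ hav0 hfcS
    (fun v u => by
      have h1 : L.filter (fun e => t e = v ∧ s e = u) =
          L.filter (fun e => s e = u ∧ t e = v) := filter_congr fun e _ => and_comm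
      rw [h1]
      exact hpairL u v)
    hrowLT hrowLS (fun e x => VS.dist_nonneg _ _ _)
    (fun e he => VS.dist_sum _ e (by simp [he]))
  -- the light colouring
  set e1 : ℝ := ε0 / (8 * q ^ 2) * b with he1def
  have he1 : 0 ≤ e1 := by positivity
  set e2 : ℝ := ef * b with he2def
  have he2 : 0 ≤ e2 := by positivity
  have hbalS : ∀ u k c p, ∑ e ∈ (L.filter (fun e => s e = u)).filter (fun e => (DS u).cls e = k),
        av δ w e * (Fintype.card Col / (freeC sI tI ψ (Sum.inr (t e))).card *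
          (if c ∈ freeC sI tI ψ (Sum.inr (t e)) then (1 : ℝ) else 0) *
          (DT (t e)).dist e (p + xT (t e))) ≤
        (1 / q) * ∑ e ∈ (L.filter (fun e => s e = u)).filter (fun e => (DS u).cls e = k),
          av δ w e + e1 := by
    intro u k c' p
    have hset : (L.filter (fun e => s e = u)).filter (fun e => (DS u).cls e = k) =
        L.filter (fun e => s e = u ∧ (DS (s e)).cls e = k) := by
      ext e
      simp only [mem_filter, and_assoc]
      constructor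
      · rintro ⟨h1, rfl, h2⟩; exact ⟨h1, rfl, h2⟩
      · rintro ⟨h1, rfl, h2⟩; exact ⟨h1, rfl, h2⟩
    rw [hset, hcardR]
    refine (hxT u k c' p).trans ?_
    have h1 := hfirstS u k c'
    have h2 := mul_le_mul_of_nonneg_left h1 (show (0 : ℝ) ≤ 1 / q by positivity)
    have h3 : 1 / (q : ℝ) * (θ * b) ≤ ε0 / (16 * q ^ 2) * b := by
      have h4 : 1 / (q : ℝ) ≤ 1 := by rw [div_le_one hq']; exact hq1
      have h5 : 1 / (q : ℝ) * (θ * b) ≤ 1 * (θ * b) :=
        mul_le_mul_of_nonneg_right h4 (by positivity)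
      have h6 : θ * b ≤ ε0 / (16 * q ^ 2) * b := mul_le_mul_of_nonneg_right hθ2 hb'.le
      linarith
    have h7 : e1 = ε0 / (16 * q ^ 2) * b + ε0 / (16 * q ^ 2) * b := by
      rw [he1def]; field_simp; ring
    rw [h7]
    rw [mul_add] at h2
    linarith [hbalerr]
  have hbalT : ∀ v k c p, ∑ e ∈ (L.filter (fun e => t e = v)).filter (fun e => (DT v).cls e = k),
        av δ w e * (Fintype.card Col / (freeC sI tI ψ (Sum.inl (s e))).card *
          (if c ∈ freeC sI tI ψ (Sum.inl (s e)) then (1 : ℝ) else 0) *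
          (DS (s e)).dist e (p + xS (s e))) ≤
        (1 / q) * ∑ e ∈ (L.filter (fun e => t e = v)).filter (fun e => (DT v).cls e = k),
          av δ w e + e1 := by
    intro u k c' p
    have hset : (L.filter (fun e => t e = u)).filter (fun e => (DT u).cls e = k) =
        L.filter (fun e => t e = u ∧ (DT (t e)).cls e = k) := by
      ext e
      simp only [mem_filter, and_assoc]
      constructor
      · rintro ⟨h1, rfl, h2⟩; exact ⟨h1, rfl, h2⟩
      · rintro ⟨h1, rfl, h2⟩; exact ⟨h1, rfl, h2⟩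
    rw [hset, hcardR]
    refine (hxS u k c' p).trans ?_
    have h1 := hfirstT u k c'
    have h2 := mul_le_mul_of_nonneg_left h1 (show (0 : ℝ) ≤ 1 / q by positivity)
    have h3 : 1 / (q : ℝ) * (θ * b) ≤ ε0 / (16 * q ^ 2) * b := by
      have h4 : 1 / (q : ℝ) ≤ 1 := by rw [div_le_one hq']; exact hq1
      have h5 : 1 / (q : ℝ) * (θ * b) ≤ 1 * (θ * b) :=
        mul_le_mul_of_nonneg_right h4 (by positivity)
      have h6 : θ * b ≤ ε0 / (16 * q ^ 2) * b := mul_le_mul_of_nonneg_right hθ2 hb'.le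
      linarith
    have h7 : e1 = ε0 / (16 * q ^ 2) * b + ε0 / (16 * q ^ 2) * b := by
      rw [he1def]; field_simp; ring
    rw [h7]
    rw [mul_add] at h2
    linarith [hbalerr]
  have hcardpos : 0 < Fintype.card Col := by rw [hcard]; positivity
  obtain ⟨cL, hcL, hcLS, hcLT⟩ := hlight q m δ hq hδ0 S T E Col s t w hw hcardpos L Gd hGL
    (fun u => freeC sI tI ψ (Sum.inl u)) (fun v => freeC sI tI ψ (Sum.inr v)) _ _ DS DT
    (1 + 2 * ε0) e1 e2 (b / δ) l xS xT (by positivity) he1 he2 hl0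
    (fun u => by
      have h1 := hfcS u
      have h2 : 0 < ((freeC sI tI ψ (Sum.inl u)).card : ℝ) := lt_of_lt_of_le (by positivity) h1
      exact_mod_cast h2)
    (fun v => by
      have h1 := hfcT v
      have h2 : 0 < ((freeC sI tI ψ (Sum.inr v)).card : ℝ) := lt_of_lt_of_le (by positivity) h1
      exact_mod_cast h2)
    (fun e he => by
      have h1 := hgood e he
      have h2 := hfcS (s e)
      have h3 := hfcT (t e)
      rw [hcardR]
      set A := ((freeC sI tI ψ (Sum.inl (s e))).card : ℝ)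
      set B := ((freeC sI tI ψ (Sum.inr (t e))).card : ℝ)
      set X := ((freeC sI tI ψ (Sum.inl (s e)) ∩ freeC sI tI ψ (Sum.inr (t e))).card : ℝ)
      have h4 : (σ * Q) * (σ * Q) ≤ A * B := by
        have : 0 ≤ σ * Q := by positivity
        exact mul_le_mul h2 h3 this (this.trans h2)
      have h5 : θ * Q * Q ≤ ε0 * (A * B) := by
        have h6 : θ * Q * Q ≤ ε0 * σ ^ 2 * Q * Q := by gcongr
        have h7 : ε0 * σ ^ 2 * Q * Q = ε0 * ((σ * Q) * (σ * Q)) := by ring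
        rw [h7] at h6
        exact h6.trans (mul_le_mul_of_nonneg_left h4 hε0.le)
      have h8 : A * B - θ * Q * Q ≤ X * Q := by
        have h9 := mul_le_mul_of_nonneg_right h1 hQ0.le
        have h10 : (A * B / Q - θ * Q) * Q = A * B - θ * Q * Q := by field_simp
        rw [h10] at h9
        exact h9
      have h11 : (1 - ε0) * (A * B) ≤ Q * X := by linarith
      have hAB : 0 ≤ A * B := by positivity
      have h12 : 1 ≤ (1 + 2 * ε0) * (1 - ε0) := gam_aux ε0 hε0 hε1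
      calc A * B ≤ (1 + 2 * ε0) * (1 - ε0) * (A * B) := le_mul_of_one_le_left hAB h12
        _ = (1 + 2 * ε0) * ((1 - ε0) * (A * B)) := by ring
        _ ≤ (1 + 2 * ε0) * (Q * X) := mul_le_mul_of_nonneg_left h11 (by positivity)
        _ = (1 + 2 * ε0) * Q * X := by ring)
    (fun u => by
      have h1 := (hcapS u).2
      rw [← hfree (Sum.inl u)] at h1
      exact h1)
    (fun v => by
      have h1 := (hcapT v).2
      rw [← hfree (Sum.inr v)] at h1
      exact h1)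
    (by
      have h1 : (b : ℝ) / (Q * q ^ 2) ≤ l := by
        refine le_trans ?_ (Nat.le_ceil _)
        refine div_le_div_of_nonneg_right ?_ (by positivity)
        exact le_mul_of_one_le_left hb'.le (by linarith)
      have h2 : e2 = δ * (ε0 * (b / (Q * q ^ 2))) := by
        rw [he2def, hefdef]; ring
      rw [h2]
      refine mul_le_mul_of_nonneg_left ?_ hδ0.le
      have h3 : 0 ≤ (b : ℝ) / (Q * q ^ 2) := by positivity
      exact (mul_le_of_le_one_left h3 (by linarith)).trans h1)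
    hrowLS hrowLT
    (by
      rw [hcardR]
      have h1 : min 1 (ef * δ / 2) * (b / δ) ≤ ef * b / 2 := by
        calc min 1 (ef * δ / 2) * (b / δ) ≤ ef * δ / 2 * (b / δ) :=
              mul_le_mul_of_nonneg_right (min_le_right _ _) (by positivity)
          _ = ef * b / 2 := by field_simp
      rw [he2def]
      linarith)
    hbalS hbalT
  -- leftover edges
  obtain ⟨cX, hcXS, hcXT⟩ := leftover s t w δ hδ1 (L \ Gd) (fun e _ => hw e) (θ * b)
    ⌈5 * (θ * b) + 1⌉₊ (Nat.le_ceil _) hbadS hbadT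
  -- assembly
  obtain ⟨cc, hccS, hccT⟩ := assemble (Z := (Fin q × Fin q) × Fin l) s t w (fun e => (hw e).1) n N
    hN0 (by simp [hNdef]) μ
    (fun u v j hj => by
      have h1 : n u v ≠ 0 := by omega
      simp only [hμdef, if_neg h1]
      exact Nat.lt_succ_of_le (Nat.div_le_div_right hj.le))
    ψ hψ H Gd (L \ Gd)
    (fun e h1 h2 => by
      rw [mem_sdiff]
      refine ⟨?_, h2⟩
      simp only [hH, hL, mem_filter, mem_univ, true_and] at h1 ⊢
      exact h1)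
    (fun e => ff (s e) (t e) e)
    (fun e he => by
      simp only [hH, mem_filter, mem_univ, true_and] at he
      simp only [hndef, if_pos he]
      exact hff1 _ _ e (by simp))
    (fun u v j => by
      refine le_trans (sum_le_sum_of_subset_of_nonneg ?_ fun e _ _ => (hw e).1) (hff2 u v j)
      intro e he
      simp only [mem_filter, mem_univ, true_and] at he ⊢
      obtain ⟨_, rfl, rfl, h1⟩ := he
      exact ⟨⟨rfl, rfl⟩, h1⟩)
    cL hcL hcLS hcLT _ cX hcXS hcXT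
  refine ⟨_, cc, ?_, hccS, hccT⟩
  push_cast
  rw [hcardR]
  have h1 := (Nat.ceil_lt_add_one (show 0 ≤ 5 * (θ * b) + 1 by positivity)).le
  have h2 : θ * b ≤ ε0 * b := mul_le_mul_of_nonneg_right hθ3 hb'.le
  have h3 : Q * (N : ℝ) ≤ (17 / 10 + 21 * ε0) * b := by
    rw [mul_comm]; exact hNQ'
  have h4 : 100 * ε0 * b ≤ ε * b := mul_le_mul_of_nonneg_right hε2 hb'.le
  have h5 : 0 ≤ ε0 * Q := by positivity
  have h6 : 0 ≤ ε0 * b := by positivity
  linarith

end Pool.Agent.MP2237
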