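import Mathlib
import Pool.Agent.MP_2237f3_co.Side

set_option autoImplicit false

namespace Pool.Agent.MP2237

open Finset

theorem sum_av_vertex {E : Type} [DecidableEq E] (δ : ℝ) (hδ0 : 0 < δ) (hδ1 : δ ≤ 1)
    (F : Finset E) (w : E → ℝ) (hw : ∀ e ∈ F, 0 ≤ w e ∧ w e ≤ 1) (b : ℕ) (f : E → Fin b)
    (hf : ∀ j, ∑ e ∈ F.filter (fun e => f e = j), w e ≤ 1) :
    ∑ e ∈ F, av δ w e ≤ b / δ := by
  have h1 : ∀ e ∈ F, av δ w e ≤ w e / δ := by
    intro e he
    simp only [av]
    split_ifs with h
    · rw [le_div_iff₀ hδ0]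
      have := (hw e he).1
      nlinarith
    · rw [le_div_iff₀ hδ0]
      linarith
  have h2 : ∑ e ∈ F, w e ≤ b := by
    rw [← sum_fiberwise F f w]
    calc ∑ j : Fin b, ∑ e ∈ F.filter (fun e => f e = j), w e ≤ ∑ j : Fin b, (1 : ℝ) :=
          sum_le_sum fun j _ => hf j
      _ = b := by simp
  calc ∑ e ∈ F, av δ w e ≤ ∑ e ∈ F, w e / δ := sum_le_sum h1
    _ = (∑ e ∈ F, w e) / δ := by rw [sum_div]
    _ ≤ b / δ := div_le_div_of_nonneg_right h2 hδ0.le

theorem main (ε : ℝ) (hε : 0 < ε) :
    ∃ η : ℝ, 0 < η ∧ ∃ b₀ : ℕ, ∀ (S T E : Type) [Fintype S] [Fintype T] [Fintype E]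
      [DecidableEq S] [DecidableEq T] [DecidableEq E] (s : E → S) (t : E → T) (w : E → ℝ) (b : ℕ),
      b₀ ≤ b → (∀ e, 0 ≤ w e ∧ w e ≤ 1) →
      (∀ u v, ((univ.filter fun e => s e = u ∧ t e = v).card : ℝ) ≤ η * b) →
      (∀ u, ∃ f : E → Fin b, ∀ j, ∑ e ∈ univ.filter (fun e => s e = u ∧ f e = j), w e ≤ 1) →
      (∀ v, ∃ f : E → Fin b, ∀ j, ∑ e ∈ univ.filter (fun e => t e = v ∧ f e = j), w e ≤ 1) →
      ∃ (K : ℕ) (c : E → Fin K), (K : ℝ) ≤ (1 + ε) * b ∧
        (∀ u j, ∑ e ∈ univ.filter (fun e => s e = u ∧ c e = j), w e ≤ 1) ∧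
        (∀ v j, ∑ e ∈ univ.filter (fun e => t e = v ∧ c e = j), w e ≤ 1) := by
  classical
  set ε0 : ℝ := min 1 ε / 3 with hε0
  have hε00 : 0 < ε0 := by
    have : 0 < min 1 ε := lt_min one_pos hε
    positivity
  have hε01 : ε0 ≤ 1 := by
    have : min 1 ε ≤ 1 := min_le_left _ _
    linarith
  have hε03 : 3 * ε0 ≤ ε := by
    have : min 1 ε ≤ ε := min_le_right _ _
    linarith
  obtain ⟨δ, q, m, b1, hδ0, hδ1, hq, hVS⟩ := exists_VS ε0 hε00 hε01
  have : NeZero q := ⟨hq.ne'⟩
  have hq' : (0 : ℝ) < q := by exact_mod_cast hq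
  have hq1 : (1 : ℝ) ≤ q := by exact_mod_cast hq
  set err1 : ℝ := ε0 / (4 * q ^ 2) with herr1
  have herr10 : 0 < err1 := by positivity
  set err2 : ℝ := ε0 * δ / (2 * q ^ 2) with herr2
  have herr20 : 0 < err2 := by positivity
  obtain ⟨η1, hη10, hbal⟩ := balance q (err1 * δ) (by positivity)
  obtain ⟨C2, hC20, hround⟩ := rounding (min 1 (δ * err2 / 2)) (lt_min one_pos (by positivity))
    (min_le_left _ _)
  -- multiplicity and threshold for b
  refine ⟨η1 / δ, by positivity, max b1 (max 1 (max ⌈q ^ 2 / ε0⌉₊ ⌈4 * q * C2 / err2⌉₊)), ?_⟩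
  intro S T E _ _ _ _ _ _ s t w b hb hw hmult hS hT
  have hb1 : b1 ≤ b := (le_max_left _ _).trans hb
  have hb2 : 1 ≤ b := (le_max_left _ _).trans ((le_max_right _ _).trans hb)
  have hb3 : (q : ℝ) ^ 2 / ε0 ≤ b := by
    have h1 : ⌈(q : ℝ) ^ 2 / ε0⌉₊ ≤ b :=
      (le_max_left _ _).trans ((le_max_right _ _).trans ((le_max_right _ _).trans hb))
    exact (Nat.le_ceil _).trans (by exact_mod_cast h1)
  have hb4 : 4 * (q : ℝ) * C2 / err2 ≤ b := by
    have h1 : ⌈4 * (q : ℝ) * C2 / err2⌉₊ ≤ b :=
      (le_max_right _ _).trans ((le_max_right _ _).trans ((le_max_right _ _).trans hb))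
    exact (Nat.le_ceil _).trans (by exact_mod_cast h1)
  have hb0 : (0 : ℝ) < b := by exact_mod_cast hb2
  set h : ℝ := (1 + ε0) * b / q with hh
  choose fS hfS using hS
  choose fT hfT using hT
  have hfS' : ∀ u j, ∑ e ∈ (univ.filter (fun e => s e = u)).filter (fun e => fS u e = j), w e ≤ 1 := by
    intro u j
    rw [filter_filter]
    exact hfS u j
  have hfT' : ∀ v j, ∑ e ∈ (univ.filter (fun e => t e = v)).filter (fun e => fT v e = j), w e ≤ 1 := by
    intro v j
    rw [filter_filter]
    exact hfT v j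
  let DS : ∀ u : S, VS q m δ h (univ.filter (fun e => s e = u)) w := fun u =>
    (hVS b hb1 E (univ.filter (fun e => s e = u)) w (fun e _ => (hw e).1) (fS u) (hfS' u)).some
  let DT : ∀ v : T, VS q m δ h (univ.filter (fun e => t e = v)) w := fun v =>
    (hVS b hb1 E (univ.filter (fun e => t e = v)) w (fun e _ => (hw e).1) (fT v) (hfT' v)).some
  set B : ℝ := b / δ with hB
  have hB0 : 0 < B := by positivity
  have hav0 : ∀ e, 0 ≤ av δ w e := by
    intro e
    simp only [av]
    split_ifs
    · exact (hw e).1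
    · exact zero_le_one
  have hav1 : ∀ e, av δ w e ≤ 1 := by
    intro e
    simp only [av]
    split_ifs
    · exact (hw e).2
    · exact le_rfl
  have hrowS : ∀ u, ∑ e ∈ univ.filter (fun e => s e = u), av δ w e ≤ B := fun u =>
    sum_av_vertex δ hδ0 hδ1 _ w (fun e _ => hw e) b (fS u) (hfS' u)
  have hrowT : ∀ v, ∑ e ∈ univ.filter (fun e => t e = v), av δ w e ≤ B := fun v =>
    sum_av_vertex δ hδ0 hδ1 _ w (fun e _ => hw e) b (fT v) (hfT' v)
  have hmultav : ∀ u v, ∑ e ∈ univ.filter (fun e => s e = u ∧ t e = v), av δ w e ≤ η1 * B := by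
    intro u v
    calc ∑ e ∈ univ.filter (fun e => s e = u ∧ t e = v), av δ w e
        ≤ ∑ e ∈ univ.filter (fun e => s e = u ∧ t e = v), (1 : ℝ) :=
          sum_le_sum fun e _ => hav1 e
      _ = ((univ.filter fun e => s e = u ∧ t e = v).card : ℝ) := by simp
      _ ≤ η1 / δ * b := hmult u v
      _ = η1 * B := by rw [hB]; field_simp
  -- the distributions over configurations
  let FS : E → Fin q → ℝ := fun e x => (DS (s e)).val ((DS (s e)).cls e) x /
    (DS (s e)).tot ((DS (s e)).cls e)
  let FT : E → Fin q → ℝ := fun e x => (DT (t e)).val ((DT (t e)).cls e) x /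
    (DT (t e)).tot ((DT (t e)).cls e)
  have htotS : ∀ e, 1 / 2 ≤ (DS (s e)).tot ((DS (s e)).cls e) := fun e =>
    (DS (s e)).half_le_tot e (by simp)
  have htotT : ∀ e, 1 / 2 ≤ (DT (t e)).tot ((DT (t e)).cls e) := fun e =>
    (DT (t e)).half_le_tot e (by simp)
  have hFS0 : ∀ e x, 0 ≤ FS e x := fun e x => div_nonneg ((DS (s e)).val_nonneg _ _)
    (by linarith [htotS e])
  have hFT0 : ∀ e x, 0 ≤ FT e x := fun e x => div_nonneg ((DT (t e)).val_nonneg _ _)
    (by linarith [htotT e])
  have hFS1 : ∀ e, ∑ x, FS e x = 1 := by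
    intro e
    simp only [FS]
    rw [← sum_div]
    have h1 : (DS (s e)).tot ((DS (s e)).cls e) ≠ 0 := by have := htotS e; linarith
    exact div_self h1
  have hFT1 : ∀ e, ∑ x, FT e x = 1 := by
    intro e
    simp only [FT]
    rw [← sum_div]
    have h1 : (DT (t e)).tot ((DT (t e)).cls e) ≠ 0 := by have := htotT e; linarith
    exact div_self h1
  obtain ⟨xT, hxT⟩ := hbal S T E (Option (Fin m)) s t (fun e => (DS (s e)).cls e) (av δ w) FT B hB0
    hav0 hrowT hrowS hmultav hFT0 hFT1
  obtain ⟨xS, hxS⟩ := hbal T S E (Option (Fin m)) t s (fun e => (DT (t e)).cls e) (av δ w) FS B hB0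
    hav0 hrowS hrowT (fun v u => by
      have := hmultav u v
      rw [filter_congr (q := fun e => s e = u ∧ t e = v) (fun e _ => and_comm)]
      exact this) hFS0 hFS1
  -- rounding to palettes
  let P : E → Fin q × Fin q → ℝ := fun e π => FS e (π.1 + xS (s e)) * FT e (π.2 + xT (t e))
  have hP0 : ∀ e π, 0 ≤ P e π := fun e π => mul_nonneg (hFS0 _ _) (hFT0 _ _)
  have hP1 : ∀ e, ∑ π, P e π = 1 := by
    intro e
    rw [Fintype.sum_prod_type]
    simp only [P]
    simp_rw [← mul_sum]
    have h1 : ∑ y : Fin q, FT e (y + xT (t e)) = 1 := by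
      rw [← hFT1 e]
      exact Equiv.sum_comp (Equiv.addRight (xT (t e))) (FT e)
    have h2 : ∑ y : Fin q, FS e (y + xS (s e)) = 1 := by
      rw [← hFS1 e]
      exact Equiv.sum_comp (Equiv.addRight (xS (s e))) (FS e)
    rw [h1]
    simp only [mul_one]
    exact h2
  -- contribution of an edge to a row
  let JS : S → Option (Fin m) → E → ℝ := fun u k e =>
    if s e = u ∧ (DS (s e)).cls e = k then av δ w e else 0
  let JT : T → Option (Fin m) → E → ℝ := fun v k e =>
    if t e = v ∧ (DT (t e)).cls e = k then av δ w e else 0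
  let J : (S ⊕ T) → Option (Fin m) → E → ℝ := fun r k e => Sum.elim (fun u => JS u k e)
    (fun v => JT v k e) r
  have hJ0 : ∀ r k e, 0 ≤ J r k e := by
    rintro (u | v) k e
    · simp only [J, JS, Sum.elim_inl]
      split_ifs; exacts [hav0 e, le_rfl]
    · simp only [J, JT, Sum.elim_inr]
      split_ifs; exacts [hav0 e, le_rfl]
  have hJ1 : ∀ r k e, J r k e ≤ 1 := by
    rintro (u | v) k e
    · simp only [J, JS, Sum.elim_inl]
      split_ifs; exacts [hav1 e, zero_le_one]
    · simp only [J, JT, Sum.elim_inr]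
      split_ifs; exacts [hav1 e, zero_le_one]
  have hJS : ∀ e, ∑ u : S, ∑ k : Option (Fin m), JS u k e = av δ w e := by
    intro e
    rw [sum_eq_single (s e), sum_eq_single ((DS (s e)).cls e)]
    · simp [JS]
    · intro k _ hk
      simp only [JS]
      rw [if_neg]
      exact fun h3 => hk h3.2.symm
    · intro h3; exact absurd (mem_univ _) h3
    · intro u _ hu
      refine sum_eq_zero fun k _ => ?_
      simp only [JS]
      rw [if_neg]
      exact fun h3 => hu h3.1.symm
    · intro h3; exact absurd (mem_univ _) h3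
  have hJT : ∀ e, ∑ v : T, ∑ k : Option (Fin m), JT v k e = av δ w e := by
    intro e
    rw [sum_eq_single (t e), sum_eq_single ((DT (t e)).cls e)]
    · simp [JT]
    · intro k _ hk
      simp only [JT]
      rw [if_neg]
      exact fun h3 => hk h3.2.symm
    · intro h3; exact absurd (mem_univ _) h3
    · intro u _ hu
      refine sum_eq_zero fun k _ => ?_
      simp only [JT]
      rw [if_neg]
      exact fun h3 => hu h3.1.symm
    · intro h3; exact absurd (mem_univ _) h3
  obtain ⟨π, hπ0, hπ⟩ := hround E (Fin q × Fin q) ((S ⊕ T) × Option (Fin m) × (Fin q × Fin q)) P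
    (fun r e => J r.1 r.2.1 e)
    (fun r e π' => if π' = r.2.2 then J r.1 r.2.1 e else 0) 1 (2 * q ^ 2) hP0 hP1
    (fun r e π' => by split_ifs; exacts [hJ0 _ _ _, le_rfl])
    (fun r e π' => by split_ifs; exacts [le_rfl, hJ0 _ _ _])
    (fun r e => hJ1 _ _ _)
    (fun e => by
      rw [Fintype.sum_prod_type, Fintype.sum_sum_type]
      have h1 : ∀ r : S ⊕ T, ∑ k : Option (Fin m) × (Fin q × Fin q), J r k.1 e =
          q ^ 2 * ∑ k : Option (Fin m), J r k e := by
        intro r
        rw [Fintype.sum_prod_type_right]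
        simp only
        rw [sum_const, card_univ, Fintype.card_prod, Fintype.card_fin, nsmul_eq_mul]
        push_cast
        ring
      simp only [h1]
      rw [← mul_sum, ← mul_sum]
      have h2 : ∑ u : S, ∑ k : Option (Fin m), J (Sum.inl u) k e = av δ w e := hJS e
      have h3 : ∑ v : T, ∑ k : Option (Fin m), J (Sum.inr v) k e = av δ w e := hJT e
      rw [h2, h3]
      have := hav1 e
      nlinarith [sq_nonneg (q : ℝ)])
    one_pos (by nlinarith)
  -- the palette size
  set l : ℕ := ⌈h / q + 2 * err1 * b + err2 * b⌉₊ with hl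
  have hl1 : h / q + 2 * err1 * b + err2 * b ≤ l := Nat.le_ceil _
  have hh0 : 0 < h := by rw [hh]; positivity
  have hl0 : 0 < l := Nat.ceil_pos.2 (by positivity)
  have hl3 : (l : ℝ) ≤ h / q + 2 * err1 * b + err2 * b + 1 :=
    (Nat.ceil_lt_add_one (by positivity)).le
  have hl2 : err2 * b ≤ δ * l := by
    have h1 : h / q ≤ l := by
      have : 0 ≤ 2 * err1 * b + err2 * b := by positivity
      linarith
    have h2 : (b : ℝ) / q ^ 2 ≤ l := by
      refine le_trans ?_ h1
      rw [hh, div_div, ← pow_two]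
      refine div_le_div_of_nonneg_right ?_ (by positivity)
      nlinarith
    have h3 : err2 * b = δ * (ε0 / 2 * (b / q ^ 2)) := by
      rw [herr2]
      field_simp
    rw [h3]
    refine mul_le_mul_of_nonneg_left ?_ hδ0.le
    have h4 : 0 ≤ (b : ℝ) / q ^ 2 := by positivity
    nlinarith
  -- error of the last rounding
  have herr : ∀ SA : ℝ, SA ≤ B → min 1 (δ * err2 / 2) * SA + C2 * Real.sqrt (1 * (2 * q ^ 2)) ≤
      err2 * b := by
    intro SA hSA
    have h1 : min 1 (δ * err2 / 2) * SA ≤ err2 * b / 2 := by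
      calc min 1 (δ * err2 / 2) * SA ≤ min 1 (δ * err2 / 2) * B :=
            mul_le_mul_of_nonneg_left hSA (lt_min one_pos (by positivity)).le
        _ ≤ δ * err2 / 2 * B := mul_le_mul_of_nonneg_right (min_le_right _ _) hB0.le
        _ = err2 * b / 2 := by rw [hB]; field_simp
    have h2 : Real.sqrt (1 * (2 * q ^ 2)) ≤ 2 * q := by
      rw [show 2 * (q : ℝ) = Real.sqrt ((2 * q) ^ 2) from (Real.sqrt_sq (by positivity)).symm]
      refine Real.sqrt_le_sqrt ?_
      nlinarith [sq_nonneg (q : ℝ)]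
    have h3 : C2 * Real.sqrt (1 * (2 * q ^ 2)) ≤ C2 * (2 * q) :=
      mul_le_mul_of_nonneg_left h2 hC20
    rw [div_le_iff₀ herr20] at hb4
    linarith
  -- consequence for the rows
  have hSrow : ∀ u k π0, ∑ e ∈ (univ.filter (fun e => s e = u ∧ π e = π0)).filter
      (fun e => (DS u).cls e = k), av δ w e ≤
      ((DS u).val k (π0.1 + xS u) / (DS u).tot k) * ((1 / q) *
        ∑ e ∈ (univ.filter (fun e => s e = u)).filter (fun e => (DS u).cls e = k), av δ w e +
        err1 * b) + err2 * b := by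
    intro u k π0
    have h1 := hπ (Sum.inl u, k, π0)
    simp only [J, Sum.elim_inl] at h1
    have e1 : ∑ e, (if π e = π0 then JS u k e else 0) =
        ∑ e ∈ (univ.filter (fun e => s e = u ∧ π e = π0)).filter (fun e => (DS u).cls e = k),
          av δ w e := by
      rw [filter_filter, sum_filter]
      refine sum_congr rfl fun e _ => ?_
      simp only [JS]
      by_cases h2 : s e = u
      · subst h2
        by_cases h3 : π e = π0 <;> simp [h3]
      · simp [h2]
    have e2 : ∑ e, JS u k e =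
        ∑ e ∈ (univ.filter (fun e => s e = u)).filter (fun e => (DS u).cls e = k), av δ w e := by
      rw [filter_filter, sum_filter]
      refine sum_congr rfl fun e _ => ?_
      simp only [JS]
      by_cases h2 : s e = u
      · subst h2; simp
      · simp [h2]
    have e3 : ∑ e, ∑ π', P e π' * (if π' = π0 then JS u k e else 0) =
        ((DS u).val k (π0.1 + xS u) / (DS u).tot k) *
          ∑ e ∈ univ.filter (fun e => s e = u ∧ (DS (s e)).cls e = k),
            av δ w e * FT e (π0.2 + xT (t e)) := by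
      rw [mul_sum, sum_filter]
      refine sum_congr rfl fun e _ => ?_
      rw [sum_eq_single π0]
      · rw [if_pos rfl]
        simp only [JS]
        by_cases h2 : s e = u ∧ (DS (s e)).cls e = k
        · rw [if_pos h2, if_pos h2]
          obtain ⟨rfl, rfl⟩ := h2
          simp only [P, FS]
          ring
        · rw [if_neg h2, if_neg h2, mul_zero]
      · intro π' _ hne
        rw [if_neg hne, mul_zero]
      · intro h3; exact absurd (mem_univ _) h3
    rw [e1, e2, e3] at h1
    have h2 := hxT u k π0.2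
    have e4 : ∑ e ∈ univ.filter (fun e => s e = u ∧ (DS (s e)).cls e = k), av δ w e =
        ∑ e ∈ (univ.filter (fun e => s e = u)).filter (fun e => (DS u).cls e = k), av δ w e := by
      rw [← e2, sum_filter]
    rw [e4] at h2
    have h3 : err1 * δ * B = err1 * b := by rw [hB]; field_simp
    rw [h3] at h2
    have hv : 0 ≤ (DS u).val k (π0.1 + xS u) / (DS u).tot k :=
      div_nonneg ((DS u).val_nonneg _ _) (sum_nonneg fun _ _ => (DS u).val_nonneg _ _)
    have h4 := mul_le_mul_of_nonneg_left h2 hv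
    have h5 : ∑ e ∈ (univ.filter (fun e => s e = u)).filter (fun e => (DS u).cls e = k),
        av δ w e ≤ B :=
      le_trans (sum_le_sum_of_subset_of_nonneg (filter_subset _ _) fun e _ _ => hav0 e) (hrowS u)
    have h6 := herr _ h5
    linarith
  have hTrow : ∀ v k π0, ∑ e ∈ (univ.filter (fun e => t e = v ∧ π e = π0)).filter
      (fun e => (DT v).cls e = k), av δ w e ≤
      ((DT v).val k (π0.2 + xT v) / (DT v).tot k) * ((1 / q) *
        ∑ e ∈ (univ.filter (fun e => t e = v)).filter (fun e => (DT v).cls e = k), av δ w e +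
        err1 * b) + err2 * b := by
    intro u k π0
    have h1 := hπ (Sum.inr u, k, π0)
    simp only [J, Sum.elim_inr] at h1
    have e1 : ∑ e, (if π e = π0 then JT u k e else 0) =
        ∑ e ∈ (univ.filter (fun e => t e = u ∧ π e = π0)).filter (fun e => (DT u).cls e = k),
          av δ w e := by
      rw [filter_filter, sum_filter]
      refine sum_congr rfl fun e _ => ?_
      simp only [JT]
      by_cases h2 : t e = u
      · subst h2
        by_cases h3 : π e = π0 <;> simp [h3]
      · simp [h2]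
    have e2 : ∑ e, JT u k e =
        ∑ e ∈ (univ.filter (fun e => t e = u)).filter (fun e => (DT u).cls e = k), av δ w e := by
      rw [filter_filter, sum_filter]
      refine sum_congr rfl fun e _ => ?_
      simp only [JT]
      by_cases h2 : t e = u
      · subst h2; simp
      · simp [h2]
    have e3 : ∑ e, ∑ π', P e π' * (if π' = π0 then JT u k e else 0) =
        ((DT u).val k (π0.2 + xT u) / (DT u).tot k) *
          ∑ e ∈ univ.filter (fun e => t e = u ∧ (DT (t e)).cls e = k),
            av δ w e * FS e (π0.1 + xS (s e)) := by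
      rw [mul_sum, sum_filter]
      refine sum_congr rfl fun e _ => ?_
      rw [sum_eq_single π0]
      · rw [if_pos rfl]
        simp only [JT]
        by_cases h2 : t e = u ∧ (DT (t e)).cls e = k
        · rw [if_pos h2, if_pos h2]
          obtain ⟨rfl, rfl⟩ := h2
          simp only [P, FT]
          ring
        · rw [if_neg h2, if_neg h2, mul_zero]
      · intro π' _ hne
        rw [if_neg hne, mul_zero]
      · intro h3; exact absurd (mem_univ _) h3
    rw [e1, e2, e3] at h1
    have h2 := hxS u k π0.1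
    have e4 : ∑ e ∈ univ.filter (fun e => t e = u ∧ (DT (t e)).cls e = k), av δ w e =
        ∑ e ∈ (univ.filter (fun e => t e = u)).filter (fun e => (DT u).cls e = k), av δ w e := by
      rw [← e2, sum_filter]
    rw [e4] at h2
    have h3 : err1 * δ * B = err1 * b := by rw [hB]; field_simp
    rw [h3] at h2
    have hv : 0 ≤ (DT u).val k (π0.2 + xT u) / (DT u).tot k :=
      div_nonneg ((DT u).val_nonneg _ _) (sum_nonneg fun _ _ => (DT u).val_nonneg _ _)
    have h4 := mul_le_mul_of_nonneg_left h2 hv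
    have h5 : ∑ e ∈ (univ.filter (fun e => t e = u)).filter (fun e => (DT u).cls e = k),
        av δ w e ≤ B :=
      le_trans (sum_le_sum_of_subset_of_nonneg (filter_subset _ _) fun e _ _ => hav0 e) (hrowT u)
    have h6 := herr _ h5
    linarith
  -- positivity of the capacities used
  have hposS : ∀ e, 0 < (DS (s e)).val ((DS (s e)).cls e) ((π e).1 + xS (s e)) := by
    intro e
    have h1 := hπ0 e
    have h2 : 0 < FS e ((π e).1 + xS (s e)) := by
      rcases (hFS0 e ((π e).1 + xS (s e))).eq_or_lt with h3 | h3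
      · simp only [P, ← h3, zero_mul, lt_irrefl] at h1
      · exact h3
    rcases ((DS (s e)).val_nonneg ((DS (s e)).cls e) ((π e).1 + xS (s e))).eq_or_lt with h3 | h3
    · simp only [FS, ← h3, zero_div, lt_irrefl] at h2
    · exact h3
  have hposT : ∀ e, 0 < (DT (t e)).val ((DT (t e)).cls e) ((π e).2 + xT (t e)) := by
    intro e
    have h1 := hπ0 e
    have h2 : 0 < FT e ((π e).2 + xT (t e)) := by
      rcases (hFT0 e ((π e).2 + xT (t e))).eq_or_lt with h3 | h3
      · simp only [P, ← h3, mul_zero, lt_irrefl] at h1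
      · exact h3
    rcases ((DT (t e)).val_nonneg ((DT (t e)).cls e) ((π e).2 + xT (t e))).eq_or_lt with h3 | h3
    · simp only [FT, ← h3, zero_div, lt_irrefl] at h2
    · exact h3
  -- sub-vertices
  have hsideS : ∀ u (π0 : Fin q × Fin q), ∃ f : E → ℕ,
      (∀ k, ((univ.filter (fun e => s e = u ∧ π e = π0)).filter (fun e => f e = k)).card ≤ l) ∧
      ∀ Y ⊆ univ.filter (fun e => s e = u ∧ π e = π0), Set.InjOn f Y → ∑ e ∈ Y, w e ≤ 1 := by
    intro u π0
    refine (DS u).side hδ0.le (fun e _ => (hw e).1) b err1 err2 hb0.le herr10.le herr20.le l hl0 hq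
      hl1 hl2 (π0.1 + xS u) _ (fun e he => ?_) (fun e he => ?_) (fun k => hSrow u k π0)
    · simp only [mem_filter, mem_univ, true_and] at he ⊢
      exact he.1
    · simp only [mem_filter, mem_univ, true_and] at he
      obtain ⟨rfl, rfl⟩ := he
      exact hposS e
  have hsideT : ∀ v (π0 : Fin q × Fin q), ∃ f : E → ℕ,
      (∀ k, ((univ.filter (fun e => t e = v ∧ π e = π0)).filter (fun e => f e = k)).card ≤ l) ∧
      ∀ Y ⊆ univ.filter (fun e => t e = v ∧ π e = π0), Set.InjOn f Y → ∑ e ∈ Y, w e ≤ 1 := by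
    intro v π0
    refine (DT v).side hδ0.le (fun e _ => (hw e).1) b err1 err2 hb0.le herr10.le herr20.le l hl0 hq
      hl1 hl2 (π0.2 + xT v) _ (fun e he => ?_) (fun e he => ?_) (fun k => hTrow v k π0)
    · simp only [mem_filter, mem_univ, true_and] at he ⊢
      exact he.1
    · simp only [mem_filter, mem_univ, true_and] at he
      obtain ⟨rfl, rfl⟩ := he
      exact hposT e
  choose gS hgS1 hgS2 using hsideS
  choose gT hgT1 hgT2 using hsideT
  -- one application of König's theorem for all palettes together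
  obtain ⟨c0, hc0⟩ := konig (fun e => (s e, π e, gS (s e) (π e) e))
    (fun e => (t e, π e, gT (t e) (π e) e)) l
    (by
      rintro ⟨u, π0, k⟩
      refine le_trans (card_le_card ?_) (hgS1 u π0 k)
      intro e he
      simp only [mem_filter, mem_univ, true_and, Prod.mk.injEq] at he ⊢
      obtain ⟨rfl, rfl, rfl⟩ := he
      exact ⟨⟨rfl, rfl⟩, rfl⟩)
    (by
      rintro ⟨u, π0, k⟩
      refine le_trans (card_le_card ?_) (hgT1 u π0 k)
      intro e he
      simp only [mem_filter, mem_univ, true_and, Prod.mk.injEq] at he ⊢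
      obtain ⟨rfl, rfl, rfl⟩ := he
      exact ⟨⟨rfl, rfl⟩, rfl⟩)
  -- final colouring
  let code : (Fin q × Fin q) × Fin l ≃ Fin (q * q * l) :=
    (Equiv.prodCongr finProdFinEquiv (Equiv.refl _)).trans finProdFinEquiv
  refine ⟨q * q * l, fun e => code (π e, c0 e), ?_, ?_, ?_⟩
  · push_cast
    have h1 : (q : ℝ) * q * l ≤ q * q * (h / q + 2 * err1 * b + err2 * b + 1) :=
      mul_le_mul_of_nonneg_left hl3 (by positivity)
    have h2 : (q : ℝ) * q * (h / q + 2 * err1 * b + err2 * b + 1) =
        (1 + ε0) * b + ε0 / 2 * b + ε0 * δ / 2 * b + q ^ 2 := by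
      rw [hh, herr1, herr2]
      field_simp
      ring
    rw [div_le_iff₀ hε00] at hb3
    have h3 : ε0 * δ / 2 * b ≤ ε0 / 2 * b := by
      refine mul_le_mul_of_nonneg_right ?_ hb0.le
      nlinarith
    have h4 : 3 * ε0 * b ≤ ε * b := mul_le_mul_of_nonneg_right hε03 hb0.le
    rw [h2] at h1
    linarith
  · intro u j
    obtain ⟨⟨π0, j0⟩, rfl⟩ := code.surjective j
    refine hgS2 u π0 _ (fun e he => ?_) (fun e he e' he' hee => ?_)
    · simp only [mem_filter, mem_univ, true_and, EmbeddingLike.apply_eq_iff_eq,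
        Prod.mk.injEq] at he ⊢
      exact ⟨he.1, he.2.1⟩
    · simp only [mem_coe, mem_filter, mem_univ, true_and, EmbeddingLike.apply_eq_iff_eq,
        Prod.mk.injEq] at he he'
      by_contra hne
      have := (hc0 e e' hne (he.2.2.trans he'.2.2.symm)).1
      apply this
      obtain ⟨h1, h2, _⟩ := he
      obtain ⟨h1', h2', _⟩ := he'
      rw [h1, h2, h1', h2', hee]
  · intro v j
    obtain ⟨⟨π0, j0⟩, rfl⟩ := code.surjective j
    refine hgT2 v π0 _ (fun e he => ?_) (fun e he e' he' hee => ?_)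
    · simp only [mem_filter, mem_univ, true_and, EmbeddingLike.apply_eq_iff_eq,
        Prod.mk.injEq] at he ⊢
      exact ⟨he.1, he.2.1⟩
    · simp only [mem_coe, mem_filter, mem_univ, true_and, EmbeddingLike.apply_eq_iff_eq,
        Prod.mk.injEq] at he he'
      by_contra hne
      have := (hc0 e e' hne (he.2.2.trans he'.2.2.symm)).2
      apply this
      obtain ⟨h1, h2, _⟩ := he
      obtain ⟨h1', h2', _⟩ := he'
      rw [h1, h2, h1', h2', hee]

end Pool.Agent.MP2237
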